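import Pool.Agent.R885.G17
import Pool.Agent.Y172.Cov2

/-!
Log canonical pairs for which the log canonical divisor of the complement of a set of places is not
pseudo-effective.
-/

set_option autoImplicit false
set_option linter.overlappingInstances false
set_option linter.unusedSectionVars false

open FF Pool.Agent.W602.GT Pool.Agent.Y172 Pool.Agent.Y191 Pool.Agent.Y174

namespace Pool.Agent.L5helper25

section

variable {K : Type} [Field K] [Algebra ℂ K] {n N : ℕ}

/-- Log discrepancies of a log canonical pair are nonnegative. -/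
theorem lc_disc {y : Fin (N + 1) → K} {Δ : Place ℂ K → ℚ} (hLC : LogCanonical y n Δ)
    {Q : Place ℂ K} (hQ : Divisorial n Q) : LogDisc y n Δ Q 0 := by
  obtain ⟨r, hr, η, hη, h1, h2⟩ := hLC Q hQ
  refine Or.inr ⟨r, hr, η, hη, h1, ?_⟩
  have e : (r : ℚ) * (0 - 1) = -r := by ring
  rw [e]
  exact h2

/-- Not pseudo-effective: sections with bounded poles of high multiples are zero. -/
theorem zero_of_not_psef [Algebra.EssFiniteType ℂ K] (htr : Algebra.trdeg ℂ K = (n : ℕ))
    {Bd : Place ℂ K → Prop} (h : ¬ Psef ℂ K n Bd) {β : Place ℂ K → ℚ}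
    (hβ1 : ∀ Q, Bd Q → β Q ≤ 1) (hβ0 : ∀ Q, ¬ Bd Q → β Q ≤ 0) (T : Finset K) :
    ∃ M0 : ℕ, ∀ M : ℕ, M0 ≤ M → ∀ ω : (Fin n → Derivation ℂ K K) → K,
      PairSec ℂ K n (fun P => (β P : ℝ)) T M 1 ω → ω = 0 := by
  classical
  unfold Psef at h
  push Not at h
  obtain ⟨e, he⟩ := h (insert 1 T)
  refine ⟨e + 1, fun M hM ω hω => ?_⟩
  have hM0 : 0 < M := by omega
  have hM' : (0 : ℝ) < M := by exact_mod_cast hM0
  have hsec : ∀ P : Place ℂ K, Divisorial n P → ∀ D : Fin n → Derivation ℂ K K, ∀ f : ℝ,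
      (ω D = 0 ∨ ∃ s ∈ T, s ≠ 0 ∧ (1 : ℕ) * (P.ord s : ℝ) - M * f ≤ P.ord (ω D)) → f ≤ 0 →
      TwReg P (insert 1 T) M (ω D ^ e) := by
    intro P hP D f hD hf
    by_cases he0 : e = 0
    · right
      refine ⟨1, Finset.mem_insert_self _ _, one_ne_zero, ?_⟩
      rw [he0, pow_zero, P.ord_one, mul_zero]
    rcases hD with h1 | ⟨s, hs, hs0, h1⟩
    · left
      rw [h1, zero_pow he0]
    · right
      have h2 : (P.ord s : ℝ) ≤ P.ord (ω D) := by
        have h3 : (M : ℝ) * f ≤ 0 := mul_nonpos_of_nonneg_of_nonpos hM'.le hf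
        rw [Nat.cast_one, one_mul] at h1
        linarith
      have h3 : P.ord s ≤ P.ord (ω D) := by exact_mod_cast h2
      by_cases hpos : 0 ≤ P.ord s
      · refine ⟨1, Finset.mem_insert_self _ _, one_ne_zero, ?_⟩
        rw [P.ord_one, mul_zero, P.ord_pow]
        exact mul_nonneg (Int.natCast_nonneg _) (hpos.trans h3)
      · refine ⟨s, Finset.mem_insert_of_mem hs, hs0, ?_⟩
        rw [P.ord_pow]
        have h4 : (e : ℤ) * P.ord s ≤ e * P.ord (ω D) :=
          mul_le_mul_of_nonneg_left h3 (Int.natCast_nonneg _)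
        have h5 : (M : ℤ) * P.ord s ≤ e * P.ord s := by
          have : (e : ℤ) ≤ M := by exact_mod_cast (by omega : e ≤ M)
          exact mul_le_mul_of_nonpos_right this (by omega)
        exact h5.trans h4
  have hpow : (fun D => ω D ^ e) = (0 : (Fin n → Derivation ℂ K K) → K) ∨ e = 0 := by
    by_cases he0 : e = 0
    · exact Or.inr he0
    left
    have h1 := he M hM0 (fun D => ω D ^ e) ⟨pluri_pow hω.1 e, fun P hP D hD => ?_,
      fun P hP hBd D hD => ?_⟩
    · funext D
      exact h1 D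
    · refine hsec P hP D 0 ?_ le_rfl
      have hb : β P ≤ 1 := by
        by_cases hB : Bd P
        · exact hβ1 P hB
        · exact (hβ0 P hB).trans zero_le_one
      by_cases h0 : ω D = 0
      · exact Or.inl h0
      right
      -- the element of `T` with the smallest order
      obtain ⟨s, hs, hmin⟩ : ∃ s ∈ T, s ≠ 0 ∧ ∀ G : Fin n → Derivation ℂ K K,
          (∀ i, DerReg P (G i)) → ω G = 0 ∨ (P.ord s : ℝ) - M * β P ≤ P.ord (ω G) := by
        by_cases hne : (T.filter fun s => s ≠ 0).Nonempty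
        · obtain ⟨s, hs, hmin⟩ := Finset.exists_min_image _ (fun s => P.ord s) hne
          rw [Finset.mem_filter] at hs
          refine ⟨s, hs.1, hs.2, fun G hG => ?_⟩
          rcases hω.2 P hP G hG with h2 | ⟨s', hs', hs0', h2⟩
          · exact Or.inl h2
          · right
            have h3 := hmin s' (Finset.mem_filter.2 ⟨hs', hs0'⟩)
            have h4 : (P.ord s : ℝ) ≤ P.ord s' := by exact_mod_cast h3
            rw [Nat.cast_one, one_mul] at h2
            beta_reduce at h2
            linarith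
        · exfalso
          obtain ⟨y, E, i0, hl⟩ := exists_loc htr hP
          rcases hω.2 P hP E hl.pres with h2 | ⟨s, hs, hs0, -⟩
          · apply h0
            rw [pluri_coord hl.bas hl.dual hω.1 D, h2, mul_zero]
          · exact hne ⟨s, Finset.mem_filter.2 ⟨hs, hs0⟩⟩
      refine ⟨s, hs, hmin.1, ?_⟩
      have h2 := (log_gain htr hP hω.1 hmin.2 hD).resolve_left h0
      have h3 : (β P : ℝ) ≤ 1 := by exact_mod_cast hb
      have h4 : (M : ℝ) * β P ≤ M * 1 := mul_le_mul_of_nonneg_left h3 hM'.le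
      rw [Nat.cast_one, one_mul]
      linarith
    · refine hsec P hP D (β P) ?_ (by exact_mod_cast hβ0 P hBd)
      exact hω.2 P hP D hD
  rcases hpow with h1 | h1
  · by_cases he0 : e = 0
    · exfalso
      rw [he0] at h1
      have h2 := congrFun h1 (fun _ => 0)
      simp at h2
    · funext D
      have h2 := congrFun h1 D
      exact pow_eq_zero_iff he0 |>.1 h2
  · -- `e = 0`: the constant form is a section of `0 * K + M * A`
    exfalso
    subst h1
    have h2 := he 1 Nat.one_pos (fun _ => 1) ⟨fun B D => by simp, fun P hP D hD => ?_,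
      fun P hP hBd D hD => ?_⟩ (fun _ => 0)
    · exact one_ne_zero h2
    · right
      refine ⟨1, Finset.mem_insert_self _ _, one_ne_zero, ?_⟩
      rw [P.ord_one, mul_zero]
    · right
      refine ⟨1, Finset.mem_insert_self _ _, one_ne_zero, ?_⟩
      rw [P.ord_one, mul_zero]

/-- **Not pseudo-effective.** A log canonical pair which is canonical outside of a set of places for
which the log canonical divisor is not pseudo-effective. -/
theorem neg_of_not_psef [Algebra.EssFiniteType ℂ K] (htr : Algebra.trdeg ℂ K = (n : ℕ))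
    {y : Fin (N + 1) → K} (hy : NormalModel y) {Δ : Place ℂ K → ℚ} (hLC : LogCanonical y n Δ)
    {Bd : Place ℂ K → Prop} (hBd : ∀ Q, Divisorial n Q → ¬ Bd Q → LogDisc y n Δ Q 1)
    (h : ¬ Psef ℂ K n Bd) :
    kodairaDim y n Δ = ⊥ ∧ ∀ A, Effective y A → numericalDim y n Δ A = ⊥ := by
  classical
  obtain ⟨β, hβ⟩ : ∃ β : Place ℂ K → ℚ, ∀ Q, β Q = if Bd Q then 1 else 0 :=
    ⟨fun Q => if Bd Q then 1 else 0, fun _ => rfl⟩
  have h1 := Pool.Agent.R885.neg_pair htr hy (Δ := Δ) (β := β) (fun Q hQ => by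
    rw [hβ]
    split_ifs with hB
    · rw [sub_self]
      exact lc_disc hLC hQ
    · rw [sub_zero]
      exact hBd Q hQ hB) (fun T => zero_of_not_psef htr h
        (fun Q hQ => by rw [hβ, if_pos hQ]) (fun Q hQ => by rw [hβ, if_neg hQ]) T)
  exact ⟨h1.1, fun A hA => (h1.2 A hA).2⟩

end

end Pool.Agent.L5helper25
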