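import Pool.Agent.L5helper25.Big
import Pool.Agent.L5helper25.Lc
import Pool.Agent.L5helper25.Mult
import Pool.Agent.N145.SX.Fin

/-!
Log canonical pairs dominated by the product of several open varieties and an open curve.
-/

set_option autoImplicit false
set_option linter.overlappingInstances false
set_option linter.unusedSectionVars false
set_option linter.unusedVariables false
set_option maxHeartbeats 4000000
set_option synthInstance.maxHeartbeats 400000

open FF IntermediateField Module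

namespace Pool.Agent.L5helper25

open Pool.Agent.W603.LV Pool.Agent.W619.PQ Pool.Agent.N145.PC Pool.Agent.N145.PL
open Pool.Agent.N145.SX
open Pool.Agent.W602.GT (Divisorial RegAt IsPluri DerReg DerLog LogAt Psef)
open Pool.Agent.Y184.NT (trForm trForm_pluri)
open Pool.Agent.R882.LT (SecAt)
open Pool.Agent.Y172 (NormalModel Effective Integral LogCanonical IsSection OrdGe kodairaDim
  numericalDim IsPrimeDivisor exists_crd exists_loc pluri_coord pluri_diag prod_lc)
open Pool.Agent.Y191 (LogDisc)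

section

variable {L : Type} [Field L] [Algebra ℂ L] {n N : ℕ} {y : Fin (N + 1) → L}

theorem ordGe_of_reg {P : Place ℂ L} {ω : (Fin n → Derivation ℂ L L) → L} (h : RegAt P ω) :
    OrdGe P ω 0 := by
  intro D hD
  rcases h D hD with h1 | h1
  · exact Or.inl h1
  · right
    exact_mod_cast h1

theorem ordGe_of_log [Algebra.EssFiniteType ℂ L] (hn : Algebra.trdeg ℂ L = n) {P : Place ℂ L}
    (hP : Divisorial n P) {ω : (Fin n → Derivation ℂ L L) → L} (hω : IsPluri 1 ω)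
    (h : LogAt P ω) : OrdGe P ω (-1) := by
  intro D hD
  obtain ⟨z, E, i0, hl⟩ := exists_loc hn hP
  have h1 := pluri_coord hl.bas hl.dual hω D
  have h2 := h _ fun i => hl.log i
  rw [pluri_diag hω, prod_lc, pow_one] at h2
  by_cases h0 : ω D = 0
  · exact Or.inl h0
  right
  have hE0 : ω E ≠ 0 := by
    intro h3
    rw [h3, mul_zero] at h1
    exact h0 h1
  have hd0 : (Matrix.of fun i j => D i (z j)).det ≠ 0 := by
    intro h3
    rw [h3, pow_one, zero_mul] at h1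
    exact h0 h1
  have h3 : 0 ≤ P.ord (z i0 * ω E) := (P.reg_iff (mul_ne_zero hl.ne hE0)).1 h2
  rw [P.ord_mul hl.ne hE0, hl.unif] at h3
  have h4 : P.Reg (Matrix.of fun i j => D i (z j)).det := by
    rw [Matrix.det_apply]
    refine Finset.sum_induction _ P.Reg (fun a b => P.reg_add) P.reg_zero fun σ _ => ?_
    have h5 : P.Reg (∏ i, (Matrix.of fun i j => D i (z j)) (σ i) i) :=
      Finset.prod_induction _ P.Reg (fun a b => P.reg_mul) P.reg_one fun i _ =>
        hD (σ i) (z i) (hl.reg i)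
    rcases Int.units_eq_one_or (Equiv.Perm.sign σ) with h6 | h6
    · rw [h6, one_smul]
      exact h5
    · rw [h6, Units.neg_smul, one_smul]
      exact P.reg_neg h5
  have h5 := (P.reg_iff hd0).1 h4
  rw [h1, pow_one, P.ord_mul hd0 hE0]
  push_cast
  have h6 : (0 : ℚ) ≤ P.ord (Matrix.of fun i j => D i (z j)).det := by exact_mod_cast h5
  have h7 : (0 : ℚ) ≤ 1 + P.ord (ω E) := by exact_mod_cast h3
  linarith

/-- **Abundance for pairs whose Kodaira dimension is at least the dimension minus one.** -/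
theorem abun_of_kod (hy : NormalModel y) (hn : Algebra.trdeg ℂ L = (n + 1 : ℕ))
    {Δ : Place ℂ L → ℚ} (hΔ : Effective y Δ) {m0 : ℕ} (hm0 : 1 ≤ m0)
    {ω : Fin (n + 1) → (Fin (n + 1) → Derivation ℂ L L) → L}
    (hω : ∀ l, IsSection y (n + 1) m0 (m0 • Δ) (ω l)) {D : Fin (n + 1) → Derivation ℂ L L}
    (hD : ω 0 D ≠ 0) (hind : AlgebraicIndependent ℂ fun l : Fin n => ω l.succ D / ω 0 D) :
    ∃ d : ℕ, (d = n ∨ d = n + 1) ∧ kodairaDim y (n + 1) Δ = (d : WithBot ℕ) ∧
      ∀ A, Effective y A → Integral y A → numericalDim y (n + 1) Δ A = (d : EReal) := by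
  obtain ⟨x, E, hx, hE⟩ := exists_crd hn
  have hfr : Pool.Agent.Y172.IsFrame E := fun G =>
    ⟨fun j => G (x j), (Pool.Agent.W73.PG.PULL.expand x hx E hE G).symm⟩
  rcases big_or hy hn (Nat.succ_pos n) hΔ hx hE with ⟨m, hm, η, hη, hη0, hηi⟩ | h
  · exact ⟨n + 1, Or.inr rfl, Pool.Agent.Y172.dims hΔ hfr (fun A hA =>
      Pool.Agent.R887.sec_growth hy hn hΔ hA E) hm hη hη0 hηi⟩
  · exact ⟨n, Or.inl rfl, Pool.Agent.Y172.dims hΔ hfr h hm0 hω hD hind⟩

end

section

variable {K : Type} [Field K] [Algebra ℂ K] {k : ℕ} {F : Fin (k + 1) → IntermediateField ℂ K}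
  {m : Fin k → ℕ} {L : Type} [Field L] [Algebra ℂ L]
  [Algebra L K] [IsScalarTower ℂ L K] [FiniteDimensional L K]

/-- **Log canonical pairs dominated by products.** -/
theorem prod_lc_pair [Algebra.EssFiniteType ℂ K]
    [∀ i, Algebra.EssFiniteType ℂ (F i)] [IsFF ℂ (F (Fin.last k))] (hsup : ⨆ i, F i = ⊤)
    (hm : ∀ i : Fin k, Algebra.trdeg ℂ (F i.castSucc) = m i)
    (hK : Algebra.trdeg ℂ K = (∑ i, m i + 1 : ℕ)) {x : ∀ i : Fin k, Fin (m i) → F i.castSucc}
    (hx : ∀ i, IsTranscendenceBasis ℂ (x i)) {BX : ∀ i : Fin k, Place ℂ (F i.castSucc) → Prop}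
    {B : Set (Place ℂ (F (Fin.last k)))} (hBf : B.Finite)
    {g : Fin k → ℕ} (hsep : ∀ i, SepX (x i) (BX i) (g i))
    (hd : ∀ i : Fin k, 2 * finrank (MF F L (Js (k + 1) i)) (IntermediateField.adjoin
      (MF F L (Js (k + 1) i)) (F i.castSucc : Set K)) < g i)
    {N : ℕ} {y : Fin (N + 1) → L} (hy : NormalModel y) {Δ : Place ℂ L → ℚ}
    (hΔ : Effective y Δ) (hLC : LogCanonical y (∑ i, m i + 1) Δ)
    (h1 : ∀ P, IsPrimeDivisor y P → (∃ (Q : Place ℂ K) (e : ℕ), Over Q P e ∧ BdM BX B Q) →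
      1 ≤ Δ P)
    (h2 : ∀ P, Divisorial (∑ i, m i + 1) P → LogDisc y (∑ i, m i + 1) Δ P 1 ∨
      ∀ (Q : Place ℂ K) (e : ℕ), Over Q P e →
        (∃ z : K, z ∈ ⨆ i : Fin k, F i.castSucc ∧ Q.ord z ≠ 0) ∨ ∃ p ∈ B, ∃ e : ℕ, Over Q p e) :
    (kodairaDim y (∑ i, m i + 1) Δ = ⊥ ∧
      ∀ A, Effective y A → numericalDim y (∑ i, m i + 1) Δ A = ⊥) ∨
    (∃ (ω : Fin (∑ i, m i + 1) → (Fin (∑ i, m i + 1) → Derivation ℂ L L) → L)
      (D : Fin (∑ i, m i + 1) → Derivation ℂ L L),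
      (∀ l, IsSection y (∑ i, m i + 1) 1 Δ (ω l)) ∧ ω 0 D ≠ 0 ∧
      AlgebraicIndependent ℂ fun l : Fin (∑ i, m i) => ω l.succ D / ω 0 D) ∧
    ∃ d : ℕ, (d = ∑ i, m i ∨ d = ∑ i, m i + 1) ∧
      kodairaDim y (∑ i, m i + 1) Δ = (d : WithBot ℕ) ∧
      ∀ A, Effective y A → Integral y A →
        numericalDim y (∑ i, m i + 1) Δ A = (d : EReal) := by
  classical
  have hL : Algebra.trdeg ℂ L = (∑ i, m i + 1 : ℕ) := Pool.Agent.Y184.NT.trdeg_below (K := K) hK
  have hessL : Algebra.EssFiniteType ℂ L := Pool.Agent.TH466.QG.ess_below (K := K)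
  obtain ⟨BL1, hBL1⟩ : ∃ BL1 : Place ℂ L → Prop, ∀ P, BL1 P ↔
    ∃ (Q : Place ℂ K) (e : ℕ), Over Q P e ∧ BdM BX B Q := ⟨_, fun _ => Iff.rfl⟩
  obtain ⟨BL2, hBL2⟩ : ∃ BL2 : Place ℂ L → Prop, ∀ P, BL2 P ↔
    Divisorial (∑ i, m i + 1) P ∧ ¬ LogDisc y (∑ i, m i + 1) Δ P 1 := ⟨_, fun _ => Iff.rfl⟩
  rcases multi_core2 (L := L) (BL1 := BL1) (BL2 := BL2) hsup hm hK hx hBf
    (fun P Q e h3 h4 => (hBL1 P).2 ⟨Q, e, h3, h4⟩)
    (fun P Q e h3 h4 => ((h2 P ((hBL2 P).1 h4).1).resolve_left ((hBL2 P).1 h4).2) Q e h3)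
    hsep hd with h | ⟨z, G, ι, T, hG, hT0, hreg, x', hx', halg⟩
  · left
    refine neg_of_not_psef hL hy hLC (Bd := BL2) (fun Q hQ hQB => ?_) (not_psef_of_a1 hL h)
    by_contra hcon
    exact hQB ((hBL2 Q).2 ⟨hQ, hcon⟩)
  · right
    obtain ⟨s, hs0, hs⟩ := Pool.Agent.R882.LT.exists_ratios_d (d := ∑ i, m i) hL
      (Pool.Agent.N145.PC.trdeg_adj hx') T hT0
      fun D h1 D' h2 j => der_alg2 (Rt T) D' (fun c hc => by
        rw [h2, der_ratio T D h1 c hc, map_zero]) (halg j)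
    have hθE : ∀ t, trForm z t G = t := by
      intro t
      have h1 : (Matrix.of fun i j => G i (z j) :
          Matrix (Fin (∑ i, m i + 1)) (Fin (∑ i, m i + 1)) L) = 1 := by
        ext i j
        rw [Matrix.of_apply, hG, Matrix.one_apply]
      rw [trForm, h1, Matrix.det_one, one_mul]
    have hsec : ∀ l, IsSection y (∑ i, m i + 1) 1 Δ (trForm z (T (s l))) := by
      intro l
      refine ⟨trForm_pluri z _, fun P hP => ?_⟩
      have hPd := hP.divisorial hy hL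
      have h3 := hreg (s l) P hPd
      by_cases hB : BL1 P
      · refine (ordGe_of_log hL hPd (trForm_pluri z _) h3.1).mono ?_
        have := h1 P hP ((hBL1 P).1 hB)
        linarith
      · refine (ordGe_of_reg (h3.2 hB)).mono ?_
        have := hΔ.1 P hP
        linarith
    have h0 : trForm z (T (s 0)) G ≠ 0 := by
      rw [hθE]
      exact hs0
    have hind : AlgebraicIndependent ℂ fun l : Fin (∑ i, m i) =>
        trForm z (T (s l.succ)) G / trForm z (T (s 0)) G := by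
      simp only [hθE]
      exact hs
    refine ⟨⟨fun l => trForm z (T (s l)), G, hsec, h0, hind⟩, ?_⟩
    exact abun_of_kod hy hL hΔ le_rfl (ω := fun l => trForm z (T (s l))) (fun l => by
      rw [one_smul]
      exact hsec l) h0 hind

end

end Pool.Agent.L5helper25
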