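import Pool.Agent.Y191.Disc
import Pool.Agent.R887.Noe
import Pool.Agent.R882.LTr

/-!
A pair is canonical over a nonempty open subset.
-/

set_option autoImplicit false
set_option linter.overlappingInstances false
set_option linter.unusedSectionVars false

open FF Pool.Agent.W602.GT Pool.Agent.Y172 Pool.Agent.Y191 Pool.Agent.R887
open Pool.Agent.Y184.NT (trForm trForm_pluri)

namespace Pool.Agent.L5helper25

section

variable {K : Type} [Field K] [Algebra ℂ K] {N n : ℕ} {y : Fin (N + 1) → K}

/-- **A pair is canonical over a nonempty open subset.** -/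
theorem exists_gen_disc (hy : NormalModel y) (hn : Algebra.trdeg ℂ K = n) {Δ : Place ℂ K → ℚ}
    (hΔ : Effective y Δ) :
    ∃ G : Finset K, ∀ Q : Place ℂ K, (∀ g ∈ G, Q.ord g = 0) → LogDisc y n Δ Q 1 := by
  classical
  obtain ⟨j, hj⟩ := hy.ne
  obtain ⟨Z, hZ, hZc, -⟩ := exists_noether hy hn hj
  choose E hE using fun i : Fin n => Pool.Agent.W602.GT.exists_der Z hZ
    fun l => if i = l then (1 : K) else 0
  obtain ⟨h, hh, hh0, hD⟩ := exists_den_frame hy hj E
  obtain ⟨s, hs, hs0, hsP⟩ := exists_high (y := y) (j := j)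
    (S := {P | IsPrimeDivisor y P ∧ Centred y j P ∧ Δ P ≠ 0})
    (hΔ.2.subset (by
      rintro P ⟨h1, -, h2⟩
      exact ⟨h1, h2⟩)) (fun P hP => hP.2.1) (fun P hP => hP.1) (fun _ => 1)
  refine ⟨insert h (insert s (Finset.univ.image fun l => y l / y j)), fun Q hQ => ?_⟩
  have hc : Centred y j Q := ⟨hj, fun l => Or.inr (by
    rw [hQ _ (Finset.mem_insert_of_mem (Finset.mem_insert_of_mem
      (Finset.mem_image_of_mem _ (Finset.mem_univ l))))])⟩
  have hunit : ∀ P, Through y P Q → ∀ u ∈ chart y j, u ≠ 0 → Q.ord u = 0 → P.ord u = 0 := by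
    intro P hP u hu hu0 hQu
    have h1 : P.Reg u⁻¹ := hP _ ⟨j, hc, 1, (chart y j).one_mem, u, hu, hu0, hQu, by
      rw [inv_mul_cancel₀ hu0]⟩
    have h2 := (P.reg_iff (inv_ne_zero hu0)).1 h1
    have h3 := (P.reg_iff hu0).1 ((hP.centred hc).reg u hu)
    rw [P.ord_inv] at h2
    omega
  refine Or.inr ⟨1, one_pos, trForm Z 1, trForm_pluri Z 1, fun P hP hPQ => ?_, ?_⟩
  · have hPc := hPQ.centred hc
    have hPh : P.ord h = 0 := hunit P hPQ h hh hh0 (hQ h (Finset.mem_insert_self _ _))
    have hPs : P.ord s = 0 := hunit P hPQ s hs hs0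
      (hQ s (Finset.mem_insert_of_mem (Finset.mem_insert_self _ _)))
    have hΔP : Δ P = 0 := by
      by_contra h0
      have := hsP P ⟨hP, hPc, h0⟩
      rw [hPs] at this
      omega
    have e1 : (-(((1 : ℕ) : ℚ) * Δ P) : ℚ) = 0 := by
      rw [hΔP]
      simp
    rw [e1]
    refine ⟨?_, E, fun i f hf => ?_, ?_, ?_⟩
    · intro D hD'
      have h1 : P.Reg (trForm Z 1 D) := by
        rw [trForm, mul_one, Matrix.det_apply]
        refine Finset.sum_induction _ P.Reg (fun a b => P.reg_add) P.reg_zero fun σ _ => ?_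
        have h5 : P.Reg (∏ i, (Matrix.of fun i j => D i (Z j)) (σ i) i) :=
          Finset.prod_induction _ P.Reg (fun a b => P.reg_mul) P.reg_one fun i _ =>
            hD' (σ i) (Z i) (hPc.reg _ (hZc i))
        rcases Int.units_eq_one_or (Equiv.Perm.sign σ) with h6 | h6
        · rw [h6, one_smul]
          exact h5
        · rw [h6, Units.neg_smul, one_smul]
          exact P.reg_neg h5
      rcases h1 with h1 | h1
      · exact Or.inl h1
      · right
        exact_mod_cast h1
    · have h1 : DerReg P (h • E i) := derReg_of_chart hP hPc fun f hf => hD i f hf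
      have h2 : P.Reg (h * E i f) := h1 f hf
      have h3 : E i f = h⁻¹ * (h * E i f) := by
        rw [← mul_assoc, inv_mul_cancel₀ hh0, one_mul]
      rw [h3]
      exact P.reg_mul (Or.inr (by rw [P.ord_inv, hPh, neg_zero])) h2
    · rw [trForm, mul_one]
      have h1 : (Matrix.of fun i j => E i (Z j) : Matrix (Fin n) (Fin n) K) = 1 := by
        ext i j
        rw [Matrix.of_apply, hE, Matrix.one_apply]
      rw [h1, Matrix.det_one]
      exact one_ne_zero
    · rw [trForm, mul_one]
      have h1 : (Matrix.of fun i j => E i (Z j) : Matrix (Fin n) (Fin n) K) = 1 := by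
        ext i j
        rw [Matrix.of_apply, hE, Matrix.one_apply]
      rw [h1, Matrix.det_one, P.ord_one]
      simp
  · have e1 : ((1 : ℕ) : ℚ) * (1 - 1) = 0 := by simp
    rw [e1]
    intro D hD'
    have h1 : Q.Reg (trForm Z 1 D) := by
      rw [trForm, mul_one, Matrix.det_apply]
      refine Finset.sum_induction _ Q.Reg (fun a b => Q.reg_add) Q.reg_zero fun σ _ => ?_
      have h5 : Q.Reg (∏ i, (Matrix.of fun i j => D i (Z j)) (σ i) i) :=
        Finset.prod_induction _ Q.Reg (fun a b => Q.reg_mul) Q.reg_one fun i _ =>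
          hD' (σ i) (Z i) (hc.reg _ (hZc i))
      rcases Int.units_eq_one_or (Equiv.Perm.sign σ) with h6 | h6
      · rw [h6, one_smul]
        exact h5
      · rw [h6, Units.neg_smul, one_smul]
        exact Q.reg_neg h5
    rcases h1 with h1 | h1
    · exact Or.inl h1
    · right
      exact_mod_cast h1

end

end Pool.Agent.L5helper25
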