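import Pool.Agent.R885.G13
import Pool.Agent.R885.G9
import Pool.Agent.Y174.B5

/-!
The numerical dimension of a variety dominated by a fibre space.
-/

set_option autoImplicit false
set_option linter.overlappingInstances false
set_option linter.unusedSectionVars false

open FF Pool.Agent.W602.GT Pool.Agent.W619.PQ Pool.Agent.W619.TW Pool.Agent.Y174 Pool.Agent.R885
open Pool.Agent.Y172 (NormalModel Effective IsSection IsPrimeDivisor)
open Pool.Agent.Y191 (LogDisc disc_bound)

namespace Pool.Agent.L5helper25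

open scoped Classical

/-- the numerical dimension is monotonic in the boundary -/
theorem pairNum_mono {k K : Type} [Field k] [Field K] [Algebra k K] {n h : ℕ}
    {δ δ' : Place k K → ℝ} (hδ : ∀ P, IsDivisorial P n → δ P ≤ δ' P) (h' : PairNum k K n δ' h) :
    PairNum k K n δ h := by
  intro S
  obtain ⟨C, hC⟩ := h' S
  refine ⟨C, fun m N hm hI => hC m N hm ?_⟩
  obtain ⟨ω, h1, h2⟩ := hI
  refine ⟨ω, h1, fun l => ⟨(h2 l).1, fun v hv D hD => ?_⟩⟩
  rcases (h2 l).2 v hv D hD with h3 | ⟨s, hs, hs0, h3⟩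
  · exact Or.inl h3
  · refine Or.inr ⟨s, hs, hs0, ?_⟩
    have h4 := mul_le_mul_of_nonneg_left (hδ v hv) (Nat.cast_nonneg (α := ℝ) m)
    linarith

/-- the indicator function of the places over places in `β` is the pull-back of the indicator
function of `β` -/
theorem pull_ind {k K Λ Z : Type} [Field k] [Field K] [Field Λ] [Field Z] [Algebra k K]
    [Algebra Λ Z] [Algebra K Z] {β : Place k K → Prop} {v : Place k K} {w : Place Λ Z} {e : ℕ}
    (h : LiesFib w v e) :
    (if ∃ (v : Place k K) (e : ℕ), LiesFib w v e ∧ β v then (1 : ℝ) else 0) =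
      max 0 (1 - e * (1 - if β v then (1 : ℝ) else 0)) := by
  have he : (1 : ℝ) ≤ e := by exact_mod_cast h.1
  by_cases hb : β v
  · rw [if_pos ⟨v, e, h, hb⟩, if_pos hb]
    simp
  · rw [if_neg, if_neg hb, max_eq_left (by linarith)]
    rintro ⟨v', e', h', hb'⟩
    rw [← (liesFib_unique h h').1] at hb'
    exact hb hb'

section

variable {K : Type} [Field K] [Algebra ℂ K] (E : IntermediateField ℂ K)
  {L : Type} [Field L] [Algebra ℂ L] [Algebra L K] [IsScalarTower ℂ L K] [FiniteDimensional L K]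
  {Λ Z : Type} [Field Λ] [Field Z] [Algebra E Λ] [Algebra Λ Z] [Algebra K Z]
  [IsScalarTower E Λ Z] [Algebra ℂ Λ] [Algebra ℂ Z]
  [IsScalarTower ℂ Λ Z] [IsScalarTower ℂ K Z] [IsScalarTower ℂ E Λ] [Algebra.IsAlgebraic E Λ]

/-- **The numerical dimension of a variety dominated by a fibre space.** -/
theorem fib_num [Algebra.EssFiniteType ℂ K] [Algebra.EssFiniteType ℂ E]
    [Algebra.EssFiniteType ℂ L]
    (hgen : IntermediateField.adjoin Λ (Set.range (algebraMap K Z)) = ⊤)
    (hcl : ∀ z : K, IsAlgebraic E z → z ∈ E) {p f r : ℕ} (hE : Algebra.trdeg ℂ E = p)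
    (hK : Algebra.trdeg ℂ K = (p + (f + 1) : ℕ)) (hL : Algebra.trdeg ℂ L = (p + (f + 1) : ℕ))
    {β : Place ℂ L → Prop} {G : Finset L} (hG : ∀ P, β P → ∃ g ∈ G, P.ord g ≠ 0)
    {δ : Place Λ Z → ℝ} (h0 : ∀ w, 0 ≤ δ w)
    (h1 : ∀ (w : Place Λ Z) (v : Place ℂ K) (e : ℕ) (P : Place ℂ L) (e' : ℕ), LiesFib w v e →
      LiesFib v P e' → β P → 1 ≤ δ w) (hnum : PairNum Λ Z (f + 1) δ r) :
    PairNum ℂ L (p + (f + 1)) (fun P => if β P then 1 else 0) (p + r) := by
  have hKnum : PairNum ℂ K (p + (f + 1))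
      (fun v => if ∃ (P : Place ℂ L) (e : ℕ), LiesFib v P e ∧ β P then 1 else 0) (p + r) := by
    refine pair_add (L := E) (Λ := Λ) (F := Z) (G := G.image (algebraMap L K))
      (δ' := fun w => if ∃ (v : Place ℂ K) (e : ℕ), LiesFib w v e ∧
        (∃ (P : Place ℂ L) (e : ℕ), LiesFib v P e ∧ β P) then 1 else 0)
      inferInstance inferInstance hgen (fun z hz => ⟨⟨z, hcl z hz.isAlgebraic⟩, rfl⟩) hE hK
      (fun v w e h => pull_ind h) (pairNum_mono (fun w _ => ?_) hnum) (fun v hv => ?_)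
      (fun v => ?_)
    · beta_reduce
      split_ifs with h
      · obtain ⟨v, e, h2, P, e', h3, h4⟩ := h
        exact h1 w v e P e' h2 h3 h4
      · exact h0 w
    · beta_reduce at hv
      split_ifs at hv with h
      · obtain ⟨P, e, h2, h3⟩ := h
        obtain ⟨g, hg, hg0⟩ := hG P h3
        refine ⟨algebraMap L K g, Finset.mem_image_of_mem _ hg, ?_⟩
        rw [h2.2 g]
        have : (e : ℤ) ≠ 0 := by exact_mod_cast h2.1.ne'
        exact mul_ne_zero this hg0
      · exact absurd hv (lt_irrefl _)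
    · beta_reduce
      split_ifs
      · exact le_rfl
      · exact zero_le_one
  refine pair_num (L := K) inferInstance hL (δ' := fun v =>
    if ∃ (P : Place ℂ L) (e : ℕ), LiesFib v P e ∧ β P then 1 else 0) (fun P v e h => ?_) hKnum
  exact pull_ind (k := ℂ) (K := L) (Λ := ℂ) (Z := K) (v := P) (w := v) (e := e) h

end

/-- The numerical dimension of a pair. -/
theorem hup_of_num {K : Type} [Field K] [Algebra ℂ K] {n N d : ℕ} {y : Fin (N + 1) → K}
    (hy : NormalModel y) {Δ : Place ℂ K → ℚ} {β : Place ℂ K → Prop}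
    (hdisc0 : ∀ Q, Divisorial n Q → LogDisc y n Δ Q 0)
    (hdisc1 : ∀ Q, Divisorial n Q → ¬ β Q → LogDisc y n Δ Q 1)
    (h2 : PairNum ℂ K n (fun P => if β P then 1 else 0) d)
    {E : Fin n → Derivation ℂ K K} (hfr : Pool.Agent.Y172.IsFrame E)
    (A : Place ℂ K → ℚ) (hA : Effective y A) :
    ∃ C : ℕ, ∀ m : ℕ, 1 ≤ m → ∀ (r : ℕ) (f : Fin r → K), LinearIndependent ℂ f →
      (∀ i, ∃ ω, IsSection y n m (m • Δ + A) ω ∧ ω E = f i) → r ≤ C * m ^ d := by
  choose s hs hs0 hsQ using fun j => disc_bound (n := n) (Δ := Δ) hy hA hfr j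
  obtain ⟨C, hC⟩ := h2 (Finset.univ.image fun j => (s j)⁻¹)
  refine ⟨C, fun m hm r f hf hω' => hC m r hm ?_⟩
  choose ω' hω' hωf using hω'
  refine ⟨ω', ?_, fun l => ⟨(hω' l).1, ?_⟩⟩
  · have h3 : (LinearMap.proj E : ((Fin n → Derivation ℂ K K) → K) →ₗ[ℂ] K) ∘ ω' = f := by
      funext i
      exact hωf i
    rw [← h3] at hf
    exact hf.of_comp _
  · intro Q hQ E' hE'
    obtain ⟨j, hj⟩ := Pool.Agent.Y172.exists_centred hy Q
    have hdisc : LogDisc y n Δ Q (1 - if β Q then 1 else 0) := by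
      split_ifs with hb
      · rw [sub_self]
        exact hdisc0 Q hQ
      · rw [sub_zero]
        exact hdisc1 Q hQ hb
    rcases hsQ j Q hj _ hdisc m hm (ω' l) (hω' l) E' hE' with h5 | h5
    · exact Or.inl h5
    · right
      refine ⟨(s j)⁻¹, Finset.mem_image_of_mem _ (Finset.mem_univ j), inv_ne_zero (hs0 j), ?_⟩
      rw [Q.ord_inv, Nat.cast_one, one_mul]
      by_cases hb : β Q
      · simp only [if_pos hb] at h5 ⊢
        have h6 : ((m * (1 - 1 - 1) - (Q.ord (s j) : ℤ) : ℚ) : ℝ) ≤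
          ((Q.ord (ω' l E') : ℤ) : ℝ) := by exact_mod_cast h5
        push_cast at h6 ⊢
        linarith
      · simp only [if_neg hb] at h5 ⊢
        have h6 : ((m * (1 - 0 - 1) - (Q.ord (s j) : ℤ) : ℚ) : ℝ) ≤
          ((Q.ord (ω' l E') : ℤ) : ℝ) := by exact_mod_cast h5
        push_cast at h6 ⊢
        linarith

end Pool.Agent.L5helper25
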