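import Pool.Agent.N145.SX.Multi2

/-!
Varieties dominated by a fibre space over a variety with many forms: the traces of the forms.
-/

set_option autoImplicit false
set_option linter.overlappingInstances false
set_option linter.unusedSectionVars false
set_option linter.unusedVariables false
set_option maxHeartbeats 4000000
set_option synthInstance.maxHeartbeats 400000

open Polynomial FF IntermediateField Module

namespace Pool.Agent.L5helper25

open Pool.Agent.W603.LV Pool.Agent.W619.PQ Pool.Agent.N145.PC Pool.Agent.N145.PL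
open Pool.Agent.N145.SX
open Pool.Agent.W602.GT (Divisorial RegAt IsPluri DerReg DerLog LogAt)
open Pool.Agent.Y184.NT (trForm trForm_pluri)
open Pool.Agent.R882.LT (SecAt)

open scoped Classical

section

variable {K : Type} [Field K] [Algebra ℂ K] {k : ℕ} {F : Fin k → IntermediateField ℂ K}
  {L Ω : Type} [Field L] [Field Ω] [Algebra ℂ L] [Algebra ℂ Ω]
  [Algebra L K] [IsScalarTower ℂ L K] [Algebra L Ω] [IsScalarTower ℂ L Ω]
  [FiniteDimensional L K] [IsAlgClosed Ω]

/-- all coordinates fixed: one point -/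
theorem eq_of_univ (htop : MF F L Finset.univ = ⊤) {τ τ0 : K →ₐ[L] Ω}
    (h : ∀ i, res (K := K) (L := L) (Ω := Ω) (F i) τ = res (F i) τ0) : τ = τ0 := by
  have h1 : τ ∈ SJ (fun i => res (K := K) (L := L) (Ω := Ω) (F i)) τ0 Finset.univ :=
    mem_SJ.2 fun i _ => h i
  have h2 := (mem_iff τ0 Finset.univ τ).1 h1
  refine AlgHom.ext fun z => h2 z ?_
  change z ∈ MF F L Finset.univ
  rw [htop]
  exact IntermediateField.mem_top

theorem rel_univ1 (htop : MF F L Finset.univ = ⊤) {H : ∀ i, Set (F i)} {h : K} {τ0 : K →ₐ[L] Ω}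
    (h1 : Rl (fun i => res (K := K) (L := L) (Ω := Ω) (F i)) (ev Ω F) H (fun τ => τ h) τ0
      Finset.univ) : h = 0 := by
  have h2 := h1 (fun _ => 0) fun i hi => absurd (Finset.mem_univ i) hi
  have h3 : SJ (fun i => res (K := K) (L := L) (Ω := Ω) (F i)) τ0 Finset.univ = {τ0} := by
    ext τ
    rw [Finset.mem_singleton]
    constructor
    · intro h
      exact eq_of_univ htop fun i => mem_SJ.1 h i (Finset.mem_univ i)
    · rintro rfl
      exact self_SJ _
  rw [h3, Finset.sum_singleton, Finset.compl_univ, Finset.prod_empty, mul_one] at h2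
  exact (map_eq_zero τ0).1 h2

variable {Ω' : Type} [Field Ω'] [Algebra ℂ Ω'] (ι θ : Ω →ₐ[ℂ] Ω')

theorem rel_univ2 (htop : MF F L Finset.univ = ⊤) {H : ∀ i, Set (F i)} {h : K} {lam : Ω'}
    {τ0 τ : K →ₐ[L] Ω} (hτ : ∀ (i : Fin k) (z : F i), θ (τ z) = ι (τ0 z))
    (h1 : Rl (P2 ι θ F L) (ev Ω' F) H (C2 ι θ h lam) (Sum.inl τ0) Finset.univ) :
    θ (τ h) = lam * ι (τ0 h) := by
  have h2 := h1 (fun _ => 0) fun i hi => absurd (Finset.mem_univ i) hi
  have h3 : SJ (P2 ι θ F L) (Sum.inl τ0) Finset.univ = {Sum.inl τ0, Sum.inr τ} := by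
    ext ρ
    rw [Finset.mem_insert, Finset.mem_singleton, mem_SJ]
    constructor
    · intro h
      rcases ρ with ρ | ρ
      · left
        congr 1
        refine eq_of_univ htop fun i => ?_
        have h4 := h i (Finset.mem_univ i)
        exact AlgHom.ext fun z => ι.injective (DFunLike.congr_fun h4 z)
      · right
        congr 1
        refine eq_of_univ htop fun i => ?_
        have h4 := h i (Finset.mem_univ i)
        exact AlgHom.ext fun z => θ.injective ((DFunLike.congr_fun h4 z).trans (hτ i z).symm)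
    · rintro (rfl | rfl) i _
      · rfl
      · exact AlgHom.ext fun z => hτ i z
  rw [h3, Finset.sum_pair (by simp), Finset.compl_univ, Finset.prod_empty, Finset.prod_empty,
    mul_one, mul_one] at h2
  have h4 : C2 ι θ h lam (Sum.inl τ0) = -(lam * ι (τ0 h)) := rfl
  have h5 : C2 ι θ h lam (Sum.inr τ) = θ (τ h) := rfl
  rw [h4, h5, neg_add_eq_zero] at h2
  exact h2.symm

end

section

variable {K : Type} [Field K] [Algebra ℂ K] {k : ℕ} {F : Fin k → IntermediateField ℂ K}
  {L : Type} [Field L] [Algebra ℂ L] [Algebra L K] [IsScalarTower ℂ L K] [FiniteDimensional L K]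

/-- **The traces of the forms on a fibre space.** -/
theorem fib_traces {n r : ℕ} [Algebra.EssFiniteType ℂ K] (hK : Algebra.trdeg ℂ K = n)
    (htop : MF F L Finset.univ = ⊤)
    {H : ∀ i, Set (F i)} {g : Fin k → ℕ}
    (hsep : ∀ (Ω : Type) [Field Ω] [Algebra ℂ Ω] [IsAlgClosed Ω] (i : Fin k),
      Sep (ev Ω F i) (H i) (g i))
    (hd : ∀ i : Fin k, 2 * finrank (MF F L (Js k i)) (IntermediateField.adjoin
      (MF F L (Js k i)) (F i : Set K)) < g i)
    {BK : Place ℂ K → Prop} {BL : Place ℂ L → Prop}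
    (hB : ∀ (P : Place ℂ L) (Q : Place ℂ K) (e : ℕ), Over Q P e → BK Q → BL P)
    {ω : Fin (r + 1) → (Fin n → Derivation ℂ K K) → K} (hpl : ∀ j, IsPluri 1 (ω j))
    (hω : ∀ j (s : ∀ i, F i), (∀ i, s i ∈ H i) → ∀ Q, Divisorial n Q →
      SecAt BK Q (fun D => (∏ i, algebraMap (F i) K (s i)) * ω j D))
    {D0 : Fin n → Derivation ℂ K K} (hD0 : ω 0 D0 ≠ 0) {p : ℕ} {x : Fin p → K}
    (hxE : ∀ j, x j ∈ ⨆ i, F i)
    (hx : AlgebraicIndependent ℂ (Fin.append x fun j : Fin r => ω j.succ D0 / ω 0 D0)) :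
    ∃ (y : Fin n → L) (G : Fin n → Derivation ℂ L L) (ι : Type)
      (T : ι → L), (∀ i j, G i (y j) = if i = j then 1 else 0) ∧ (∃ f, T f ≠ 0) ∧
      (∀ f, ∀ P : Place ℂ L, Divisorial n P → SecAt BL P (trForm y (T f))) ∧
      ∃ x' : Fin (p + r) → K, AlgebraicIndependent ℂ x' ∧ ∀ j, IsAlgebraic (Rt T) (x' j) := by
  have hL : Algebra.trdeg ℂ L = n := Pool.Agent.Y184.NT.trdeg_below (K := K) hK
  have hessL : Algebra.EssFiniteType ℂ L := Pool.Agent.TH466.QG.ess_below (K := K)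
  obtain ⟨y, G, hy, hG⟩ := Pool.Agent.Y172.exists_crd hL
  choose G' hG' using fun i => Pool.Agent.Y172.exists_lift (L := K) hL (G i)
  have hyK : IsTranscendenceBasis ℂ (fun j => algebraMap L K (y j)) := hy.algebraMap_comp
  have hGK := Pool.Agent.Y172.lift_dual hG hG'
  obtain ⟨w, hw⟩ : ∃ w : Fin (r + 1) → K, ∀ j, w j = ω j G' := ⟨fun j => ω j G', fun _ => rfl⟩
  have hval : ∀ j D, ω j D = (Matrix.of fun i l => D i (algebraMap L K (y l))).det * w j := by
    intro j D
    rw [hw, Pool.Agent.Y172.pluri_coord hyK hGK (hpl j) D, pow_one]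
  have hw0 : w 0 ≠ 0 := by
    intro h0
    apply hD0
    rw [hval, h0, mul_zero]
  have hdet : (Matrix.of fun i l => D0 i (algebraMap L K (y l))).det ≠ 0 := by
    intro h0
    apply hD0
    rw [hval, h0, zero_mul]
  have hrat : ∀ j : Fin r, ω j.succ D0 / ω 0 D0 = w j.succ / w 0 := by
    intro j
    rw [hval, hval 0, mul_div_mul_left _ _ hdet]
  let I := {f : ∀ i, F i // ∀ i, f i ∈ H i} × Fin (r + 1)
  obtain ⟨T, hT⟩ : ∃ T : I → L, ∀ f, T f =
    Algebra.trace L K (w f.2 * ∏ i, algebraMap (F i) K (f.1.1 i)) := ⟨_, fun _ => rfl⟩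
  have hTreg : ∀ f, ∀ P : Place ℂ L, Divisorial n P → SecAt BL P (trForm y (T f)) := by
    intro f P hP
    have h1 := Pool.Agent.R882.LT.trForm_sec (BK := BK) (BL := BL) hL hy hG hG'
      (fun D => (∏ i, algebraMap (F i) K (f.1.1 i)) * ω f.2 D) (by
        intro A D
        change _ * ω f.2 _ = _ * (_ * ω f.2 D)
        rw [hpl f.2 A D]
        ring) hB
      (fun Q hQ => hω f.2 f.1.1 f.1.2 Q hQ) P hP
    rw [hT, mul_comm, hw]
    exact h1
  obtain ⟨τ0⟩ : Nonempty (K →ₐ[L] AlgebraicClosure L) :=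
    ⟨IsAlgClosed.lift (R := L) (M := AlgebraicClosure L) (S := K)⟩
  have hT' : IsScalarTower ℂ L (AlgebraicClosure L) := inferInstance
  have hJs : Js k k = Finset.univ := by
    ext l
    rw [mem_Js]
    exact ⟨fun _ => Finset.mem_univ _, fun _ => l.2⟩
  have hT0 : ∃ f, T f ≠ 0 := by
    by_contra hcon
    push Not at hcon
    have h0 := Ch.rel_zero (F := F) (H := H) (h := w 0) (fun f hf => by
      have := hcon (⟨f, hf⟩, 0)
      rwa [hT] at this) τ0
    have h1 := Rl.chain h0 (hsep (AlgebraicClosure L)) (s := k) (fun l _ =>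
      lt_of_le_of_lt ((Ch.count_le τ0 _ _).trans (Nat.le_mul_of_pos_left _ two_pos)) (hd l))
    rw [hJs] at h1
    exact hw0 (rel_univ1 htop h1)
  obtain ⟨f1, hf1⟩ := hT0
  obtain ⟨Ω', iF, iA, iC, i1, i2, lam, hlam, hlamT, hpts⟩ := exists_pts T (f1 := f1) hf1
  have hrel : ∀ j : Fin (r + 1), Rl (P2 i1 i2 F L) (ev Ω' F) H (C2 i1 i2 (w j) lam) (Sum.inl τ0)
      Finset.univ := by
    intro j
    have h0 : Rl (P2 i1 i2 F L) (ev Ω' F) H (C2 i1 i2 (w j) lam) (Sum.inl τ0) ∅ :=
      Ch.rel2_zero i1 i2 (fun f hf => by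
        have := hlamT (⟨f, hf⟩, j)
        rw [hT] at this
        exact this) _
    have h1 := Rl.chain h0 (hsep Ω') (s := k) (fun l _ =>
      lt_of_le_of_lt (Ch.count2_le i1 i2 τ0 _ _) (hd l))
    rwa [hJs] at h1
  have hmem : w 0 ∈ MF F L Finset.univ := by
    rw [htop]
    exact IntermediateField.mem_top
  obtain ⟨τ, hτ⟩ := Ch.rel2_univ i1 i2 hlam hw0 hmem (hrel 0)
  have hwj : ∀ j, i2 (τ (w j)) = lam * i1 (τ0 (w j)) := fun j =>
    rel_univ2 i1 i2 htop hτ (hrel j)
  -- the field where the two points agree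
  obtain ⟨S, hS⟩ : ∃ S : IntermediateField ℂ K, ∀ z, z ∈ S ↔ i1 (τ0 z) = i2 (τ z) := by
    refine ⟨{ carrier := {z | i1 (τ0 z) = i2 (τ z)}
              mul_mem' := fun {a b} ha hb => ?_
              add_mem' := fun {a b} ha hb => ?_
              algebraMap_mem' := fun c => ?_
              inv_mem' := fun a ha => ?_ }, fun z => Iff.rfl⟩
    · change i1 (τ0 (a * b)) = i2 (τ (a * b))
      rw [map_mul, map_mul, map_mul, map_mul, show i1 (τ0 a) = i2 (τ a) from ha,
        show i1 (τ0 b) = i2 (τ b) from hb]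
    · change i1 (τ0 (a + b)) = i2 (τ (a + b))
      rw [map_add, map_add, map_add, map_add, show i1 (τ0 a) = i2 (τ a) from ha,
        show i1 (τ0 b) = i2 (τ b) from hb]
    · change i1 (τ0 (algebraMap ℂ K c)) = i2 (τ (algebraMap ℂ K c))
      rw [IsScalarTower.algebraMap_apply ℂ L K, τ0.commutes, τ.commutes,
        ← IsScalarTower.algebraMap_apply ℂ L (AlgebraicClosure L), i1.commutes, i2.commutes]
    · change i1 (τ0 a⁻¹) = i2 (τ a⁻¹)
      rw [map_inv₀, map_inv₀, map_inv₀, map_inv₀, show i1 (τ0 a) = i2 (τ a) from ha]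
  have hSF : ⨆ i, F i ≤ S := iSup_le fun i z hz => (hS z).2 (hτ i ⟨z, hz⟩).symm
  have halg : ∀ z ∈ S, IsAlgebraic (Rt T) z := fun z hz =>
    alg_back τ0 (hpts _ _ ((hS z).1 hz))
  refine ⟨y, G, I, T, hG, ⟨f1, hf1⟩, hTreg, _, hx, fun j => ?_⟩
  refine Fin.addCases (fun j => ?_) (fun j => ?_) j
  · rw [Fin.append_left]
    exact halg _ (hSF (hxE j))
  · rw [Fin.append_right, hrat]
    refine halg _ ((hS _).2 ?_)
    have h1 : i1 (τ0 (w 0)) ≠ 0 := by
      rw [_root_.map_ne_zero, _root_.map_ne_zero]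
      exact hw0
    rw [map_div₀, map_div₀, map_div₀, map_div₀, hwj, hwj, mul_div_mul_left _ _ hlam]

end

end Pool.Agent.L5helper25
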