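import Pool.Agent.L5helper25.Asm
import Pool.Agent.L5helper25.FibT
import Pool.Agent.L5helper25.FibG
import Pool.Agent.L5helper25.FibN

/-!
Log canonical pairs dominated by fibre spaces.
-/

set_option autoImplicit false
set_option linter.overlappingInstances false
set_option linter.unusedSectionVars false
set_option linter.unusedVariables false
set_option maxHeartbeats 4000000
set_option synthInstance.maxHeartbeats 400000

open FF IntermediateField Module

namespace Pool.Agent.L5helper25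

open Pool.Agent.W603.LV Pool.Agent.W619.PQ Pool.Agent.N145.PC Pool.Agent.N145.PL
open Pool.Agent.N145.SX
open Pool.Agent.W602.GT (Divisorial RegAt IsPluri DerReg DerLog LogAt)
open Pool.Agent.Y184.NT (trForm trForm_pluri)
open Pool.Agent.R882.LT (SecAt)
open Pool.Agent.Y172 (NormalModel Effective Integral LogCanonical IsSection OrdGe kodairaDim
  numericalDim IsPrimeDivisor exists_crd)
open Pool.Agent.Y191 (LogDisc)
open Pool.Agent.Y174 (PairNum LiesFib)

open scoped Classical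

section

variable {K : Type} [Field K] [Algebra ℂ K]

/-- independence over a subfield and over the constants -/
theorem ind_append {E : IntermediateField ℂ K} {p r : ℕ} {x : Fin p → E}
    (hx : AlgebraicIndependent ℂ x) {u : Fin r → K} (hu : AlgebraicIndependent E u) :
    AlgebraicIndependent ℂ (Fin.append (fun j => (x j : K)) u) := by
  have h1 := hx.sumElim_comp hu
  have h3 : (Fin.append (fun j => (x j : K)) u) =
      Sum.elim u (algebraMap E K ∘ x) ∘ (Sum.swap ∘ finSumFinEquiv.symm) := by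
    funext i
    refine Fin.addCases (fun i => ?_) (fun i => ?_) i
    · simp
    · simp
  rw [h3]
  exact h1.comp _ (Sum.swap_leftInverse.injective.comp finSumFinEquiv.symm.injective)

variable {k : ℕ} {F : Fin k → IntermediateField ℂ K} {E : IntermediateField ℂ K}
  {L : Type} [Field L] [Algebra ℂ L] [Algebra L K] [IsScalarTower ℂ L K] [FiniteDimensional L K]
  {Λ Z : Type} [Field Λ] [Field Z] [Algebra E Λ] [Algebra Λ Z] [Algebra K Z]
  [IsScalarTower E Λ Z] [Algebra ℂ Λ] [Algebra ℂ Z]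
  [IsScalarTower ℂ Λ Z] [IsScalarTower ℂ K Z] [IsScalarTower ℂ E Λ] [Algebra.IsAlgebraic E Λ]

/-- **Log canonical pairs dominated by fibre spaces.** -/
theorem fib_lc_pair [Algebra.EssFiniteType ℂ K] [Algebra.EssFiniteType ℂ E]
    (hEF : E = ⨆ i, F i) (hcl : ∀ z : K, IsAlgebraic E z → z ∈ E) {p f r : ℕ}
    (hE : Algebra.trdeg ℂ E = p) (hK : Algebra.trdeg ℂ K = (p + (f + 1) : ℕ))
    (htop : MF F L Finset.univ = ⊤)
    {H : ∀ i, Set (F i)} {g : Fin k → ℕ}
    (hsep : ∀ (Ω : Type) [Field Ω] [Algebra ℂ Ω] [IsAlgClosed Ω] (i : Fin k),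
      Sep (ev Ω F i) (H i) (g i))
    (hd : ∀ i : Fin k, 2 * finrank (MF F L (Js k i)) (IntermediateField.adjoin
      (MF F L (Js k i)) (F i : Set K)) < g i)
    {BK : Place ℂ K → Prop}
    {ω : Fin (r + 1) → (Fin (p + (f + 1)) → Derivation ℂ K K) → K} (hpl : ∀ j, IsPluri 1 (ω j))
    (hω : ∀ j (s : ∀ i, F i), (∀ i, s i ∈ H i) → ∀ Q, Divisorial (p + (f + 1)) Q →
      SecAt BK Q (fun D => (∏ i, algebraMap (F i) K (s i)) * ω j D))
    {D0 : Fin (p + (f + 1)) → Derivation ℂ K K} (hD0 : ω 0 D0 ≠ 0)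
    (hind : AlgebraicIndependent E fun j : Fin r => ω j.succ D0 / ω 0 D0)
    (hgen : IntermediateField.adjoin Λ (Set.range (algebraMap K Z)) = ⊤)
    (hnum : PairNum Λ Z (f + 1)
      (fun w => if ∃ (v : Place ℂ K) (e : ℕ), LiesFib w v e ∧ BK v then 1 else 0) r)
    {N : ℕ} {y : Fin (N + 1) → L} (hy : NormalModel y) {Δ : Place ℂ L → ℚ}
    (hΔ : Effective y Δ) (hLC : LogCanonical y (p + (f + 1)) Δ)
    (h1 : ∀ P, IsPrimeDivisor y P → (∃ (Q : Place ℂ K) (e : ℕ), Over Q P e ∧ BK Q) → 1 ≤ Δ P)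
    (h2 : ∀ (P : Place ℂ L) (Q : Place ℂ K) (e : ℕ), Divisorial (p + (f + 1)) P → Over Q P e →
      (∀ z ∈ E, Q.ord z = 0) → ¬ BK Q → LogDisc y (p + (f + 1)) Δ P 1) :
    kodairaDim y (p + (f + 1)) Δ = ((p + r : ℕ) : WithBot ℕ) ∧
      (∀ A, Effective y A → Integral y A →
        numericalDim y (p + (f + 1)) Δ A = ((p + r : ℕ) : EReal)) ∧
      ∃ (η : Fin (p + r + 1) → (Fin (p + (f + 1)) → Derivation ℂ L L) → L)
        (D : Fin (p + (f + 1)) → Derivation ℂ L L),
        (∀ l, IsSection y (p + (f + 1)) 1 Δ (η l)) ∧ η 0 D ≠ 0 ∧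
        AlgebraicIndependent ℂ fun l : Fin (p + r) => η l.succ D / η 0 D := by
  have hL : Algebra.trdeg ℂ L = (p + (f + 1) : ℕ) :=
    Pool.Agent.Y184.NT.trdeg_below (K := K) hK
  have hessL : Algebra.EssFiniteType ℂ L := Pool.Agent.TH466.QG.ess_below (K := K)
  -- the sections
  obtain ⟨BL, hBL⟩ : ∃ BL : Place ℂ L → Prop, ∀ P, BL P ↔
    ∃ (Q : Place ℂ K) (e : ℕ), Over Q P e ∧ BK Q := ⟨_, fun _ => Iff.rfl⟩
  obtain ⟨x, -, hx, -⟩ := exists_crd hE
  obtain ⟨z, G, ι, T, hG, hT0, hreg, x', hx', halg⟩ := fib_traces (L := L) hK htop hsep hd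
    (BL := BL) (fun P Q e h3 h4 => (hBL P).2 ⟨Q, e, h3, h4⟩) hpl hω hD0
    (x := fun j => (x j : K)) (fun j => hEF ▸ (x j).2) (ind_append hx.1 hind)
  obtain ⟨s, hs0, hs⟩ := Pool.Agent.R882.LT.exists_ratios_d (d := p + r) hL
    (Pool.Agent.N145.PC.trdeg_adj hx') T hT0
    fun D h1 D' h2 j => der_alg2 (Rt T) D' (fun c hc => by
      rw [h2, der_ratio T D h1 c hc, map_zero]) (halg j)
  have hθE : ∀ t, trForm z t G = t := by
    intro t
    have h1 : (Matrix.of fun i j => G i (z j) :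
        Matrix (Fin (p + (f + 1))) (Fin (p + (f + 1))) L) = 1 := by
      ext i j
      rw [Matrix.of_apply, hG, Matrix.one_apply]
    rw [trForm, h1, Matrix.det_one, one_mul]
  have hsec : ∀ l, IsSection y (p + (f + 1)) 1 Δ (trForm z (T (s l))) := by
    intro l
    refine ⟨trForm_pluri z _, fun P hP => ?_⟩
    have hPd := hP.divisorial hy hL
    have h3 := hreg (s l) P hPd
    by_cases hB : BL P
    · refine (ordGe_of_log hL hPd (trForm_pluri z _) h3.1).mono ?_
      have := h1 P hP ((hBL P).1 hB)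
      linarith
    · refine (ordGe_of_reg (h3.2 hB)).mono ?_
      have := hΔ.1 P hP
      linarith
  have h0 : trForm z (T (s 0)) G ≠ 0 := by
    rw [hθE]
    exact hs0
  have hindT : AlgebraicIndependent ℂ fun l : Fin (p + r) =>
      trForm z (T (s l.succ)) G / trForm z (T (s 0)) G := by
    simp only [hθE]
    exact hs
  -- the numerical dimension
  obtain ⟨β, hβ⟩ : ∃ β : Place ℂ L → Prop, ∀ P, β P ↔
    Divisorial (p + (f + 1)) P ∧ ¬ LogDisc y (p + (f + 1)) Δ P 1 := ⟨_, fun _ => Iff.rfl⟩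
  obtain ⟨S, hS⟩ := exists_gen_disc (n := p + (f + 1)) hy hL hΔ
  have hnumL : PairNum ℂ L (p + (f + 1)) (fun P => if β P then 1 else 0) (p + r) := by
    refine fib_num E (L := L) (β := β) (G := S) hgen hcl hE hK hL (fun P hP => ?_)
      (fun w => ?_) (fun w v e P e' hw hv hP => ?_) hnum
    · by_contra hcon
      push Not at hcon
      exact ((hβ P).1 hP).2 (hS P hcon)
    · beta_reduce
      split_ifs
      · exact zero_le_one
      · exact le_rfl
    · beta_reduce
      rw [if_pos]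
      by_contra hcon
      push Not at hcon
      refine ((hβ P).1 hP).2 (h2 P v e' ((hβ P).1 hP).1 hv (fun c hc => ?_) (hcon v e hw))
      have h3 := hw.2 c
      have h4 : algebraMap K Z c = algebraMap Λ Z (algebraMap E Λ ⟨c, hc⟩) := by
        rw [← IsScalarTower.algebraMap_apply E Λ Z]
        exact (IsScalarTower.algebraMap_apply E K Z ⟨c, hc⟩).symm
      have h5 : w.ord (algebraMap Λ Z (algebraMap E Λ ⟨c, hc⟩)) = 0 := by
        by_cases h6 : algebraMap E Λ ⟨c, hc⟩ = 0
        · rw [h6, map_zero, w.ord_zero]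
        · exact w.ord_const h6
      rw [h4, h5] at h3
      have he : (e : ℤ) ≠ 0 := by exact_mod_cast hw.1.ne'
      exact (mul_eq_zero.1 h3.symm).resolve_left he
  obtain ⟨x1, E1, hx1, hE1⟩ := exists_crd hL
  have hfr : Pool.Agent.Y172.IsFrame E1 := fun G =>
    ⟨fun j => G (x1 j), (Pool.Agent.W73.PG.PULL.expand x1 hx1 E1 hE1 G).symm⟩
  have hdims := Pool.Agent.Y172.dims hΔ hfr
    (hup_of_num hy (fun Q hQ => lc_disc hLC hQ) (fun Q hQ hb => by
      by_contra hcon
      exact hb ((hβ Q).2 ⟨hQ, hcon⟩)) hnumL hfr) le_rfl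
    (ω := fun l => trForm z (T (s l))) (fun l => by
      rw [one_smul]
      exact hsec l) h0 hindT
  exact ⟨hdims.1, hdims.2, _, G, hsec, h0, hindT⟩

end

end Pool.Agent.L5helper25
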