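import Pool.Agent.L5helper25.Cur

/-!
Families of open curves: the traces of the forms, and the dichotomy.
-/

set_option autoImplicit false
set_option linter.overlappingInstances false
set_option linter.unusedSectionVars false
set_option linter.unusedVariables false
set_option maxHeartbeats 4000000
set_option synthInstance.maxHeartbeats 400000

open Polynomial FF IntermediateField Module

namespace Pool.Agent.L5helper25

open Pool.Agent.W603.LV Pool.Agent.W619.PQ Pool.Agent.N145.PC Pool.Agent.N145.PL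
open Pool.Agent.N145.SX
open Pool.Agent.W602.GT (Divisorial RegAt IsPluri DerReg DerLog LogAt)
open Pool.Agent.Y184.NT (trForm trForm_pluri)
open Pool.Agent.R882.LT (SecAt)
open Pool.Agent.W619.PL (IsA1Uniruled)

open scoped Classical

section

variable {K : Type} [Field K] [Algebra ℂ K] {k : ℕ} {F : Fin k → IntermediateField ℂ K}
  {L Ω : Type} [Field L] [Field Ω] [Algebra ℂ L] [Algebra ℂ Ω]
  [Algebra L K] [IsScalarTower ℂ L K] [Algebra L Ω] [IsScalarTower ℂ L Ω]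
  [FiniteDimensional L K] [IsAlgClosed Ω]

/-- all coordinates fixed: a trace relation -/
theorem rel_univ_tr {H : ∀ i, Set (F i)} {h : K} {τ0 : K →ₐ[L] Ω}
    (h1 : Rl (fun i => res (K := K) (L := L) (Ω := Ω) (F i)) (ev Ω F) H (fun τ => τ h) τ0
      Finset.univ) : Algebra.trace (MF F L Finset.univ) K h = 0 := by
  have h2 := sum_trace (MF F L Finset.univ) τ0 _ (mem_iff τ0 Finset.univ) h
  have h3 := h1 (fun _ => 0) fun i hi => absurd (Finset.mem_univ i) hi
  simp only [Finset.compl_univ, Finset.prod_empty, mul_one] at h3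
  rw [h3] at h2
  have h4 := h2.symm
  rw [map_eq_zero, map_eq_zero] at h4
  exact h4

variable {Ω' : Type} [Field Ω'] [Algebra ℂ Ω'] (ι θ : Ω →ₐ[ℂ] Ω')

/-- all coordinates fixed: a trace relation, or a point of the second fibre -/
theorem rel2_univ_tr {H : ∀ i, Set (F i)} {h : K} {lam : Ω'} (hlam : lam ≠ 0) {τ0 : K →ₐ[L] Ω}
    (hne : ¬ ∃ τ : K →ₐ[L] Ω, ∀ (i : Fin k) (z : F i), θ (τ z) = ι (τ0 z))
    (h1 : Rl (P2 ι θ F L) (ev Ω' F) H (C2 ι θ h lam) (Sum.inl τ0) Finset.univ) :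
    Algebra.trace (MF F L Finset.univ) K h = 0 := by
  obtain ⟨S1, h2, h3, h4⟩ := Ch.exists_parts ι θ (F := F) τ0 Finset.univ
  by_cases h5 : S1 = ∅
  swap
  · obtain ⟨τ, hτ⟩ := Finset.nonempty_iff_ne_empty.2 h5
    have h6 := (h3 τ).2 hτ
    rw [mem_SJ] at h6
    exact absurd ⟨τ, fun i z => DFunLike.congr_fun (h6 i (Finset.mem_univ i)) z⟩ hne
  have h6 := h1 (fun _ => 0) (fun i hi => absurd (Finset.mem_univ i) hi)
  rw [h4, h5, Finset.compl_univ, Finset.disjSum_empty, Finset.sum_map] at h6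
  have h7 : ∀ τ ∈ SJ (fun i => res (K := K) (L := L) (Ω := Ω) (F i)) τ0 Finset.univ,
      C2 ι θ h lam (Function.Embedding.inl τ) * ∏ i ∈ (∅ : Finset (Fin k)), ev Ω' F i 0
        (P2 ι θ F L i (Function.Embedding.inl τ)) = (-lam) * ι (τ h) := by
    intro τ hτ
    rw [Finset.prod_empty, mul_one, neg_mul]
    rfl
  rw [Finset.sum_congr rfl h7, ← Finset.mul_sum, ← map_sum] at h6
  have h8 := sum_trace (MF F L Finset.univ) τ0 _ (mem_iff τ0 Finset.univ) h
  rcases mul_eq_zero.1 h6 with h9 | h9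
  · exact absurd (neg_eq_zero.1 h9) hlam
  · rw [(map_eq_zero_iff ι ι.injective).1 h9] at h8
    have h4 := h8.symm
    rw [map_eq_zero, map_eq_zero] at h4
    exact h4

end

section

variable {K : Type} [Field K] [Algebra ℂ K] {k : ℕ} {F : Fin k → IntermediateField ℂ K}
  {L : Type} [Field L] [Algebra ℂ L] [Algebra L K] [IsScalarTower ℂ L K] [FiniteDimensional L K]

/-- **The dichotomy for images of families of open curves.** -/
theorem fam_core {n : ℕ} [Algebra.EssFiniteType ℂ K] (hK : Algebra.trdeg ℂ K = (n + 1 : ℕ))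
    {E : IntermediateField ℂ K} (hE : E = ⨆ i, F i) (hp : Algebra.trdeg ℂ E = n)
    (hcl : ∀ z : K, IsAlgebraic E z → z ∈ E)
    {H : ∀ i, Set (F i)} {g : Fin k → ℕ}
    (hsep : ∀ (Ω : Type) [Field Ω] [Algebra ℂ Ω] [IsAlgClosed Ω] (i : Fin k),
      Sep (ev Ω F i) (H i) (g i))
    (hd : ∀ i : Fin k, 2 * finrank (MF F L (Js k i)) (IntermediateField.adjoin
      (MF F L (Js k i)) (F i : Set K)) < g i)
    {BK : Place ℂ K → Prop} {BL1 BL2 : Place ℂ L → Prop}
    (hB : ∀ (P : Place ℂ L) (Q : Place ℂ K) (e : ℕ), Over Q P e → BK Q → BL1 P)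
    {J : Type} {ω : J → (Fin (n + 1) → Derivation ℂ K K) → K} (hpl : ∀ j, IsPluri 1 (ω j))
    (hω : ∀ j (s : ∀ i, F i), (∀ i, s i ∈ H i) → ∀ Q, Divisorial (n + 1) Q →
      SecAt BK Q (fun D => (∏ i, algebraMap (F i) K (s i)) * ω j D))
    {Λ Z : Type} [Field Λ] [Field Z] [Algebra E Λ] [Algebra Λ Z] [Algebra K Z]
    [IsScalarTower E Λ Z] [Algebra ℂ Λ] [Algebra ℂ Z] [IsScalarTower ℂ Λ Z] [IsScalarTower ℂ K Z]
    [IsScalarTower ℂ E Λ] [Algebra.IsAlgebraic E Λ] [IsAlgClosed Λ]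
    (hZ : IntermediateField.adjoin Λ (Set.range (algebraMap K Z)) = ⊤)
    {BZ : Set (Place Λ Z)}
    {D : Fin (n + 1) → Derivation ℂ K K} (hD0 : LinearIndependent K D)
    (hDB : ∀ i, ∀ z ∈ E, D i z ∈ E) (hDl : ∀ z ∈ E, D (Fin.last n) z = 0)
    {DZ : Derivation Λ Z Z}
    (hDZ : ∀ z : K, DZ (algebraMap K Z z) = algebraMap K Z (D (Fin.last n) z))
    (hspan : ∀ g ∈ HL DZ BZ,
      g ∈ Submodule.span Λ (Set.range fun j => algebraMap K Z (ω j D)))
    (hBL : ∀ (Q : Place Λ Z) (v : Place ℂ L) (e : ℕ), 0 < e →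
      (∀ f, Q.ord (algebraMap K Z (algebraMap L K f)) = e * v.ord f) → BL2 v → Q ∈ BZ) :
    IsA1Uniruled ℂ L (n + 1) BL2 ∨
    ∃ (y : Fin (n + 1) → L) (G : Fin (n + 1) → Derivation ℂ L L) (ι : Type)
      (T : ι → L), (∀ i j, G i (y j) = if i = j then 1 else 0) ∧ (∃ f, T f ≠ 0) ∧
      (∀ f, ∀ P : Place ℂ L, Divisorial (n + 1) P → SecAt BL1 P (trForm y (T f))) ∧
      ∃ x' : Fin n → K, AlgebraicIndependent ℂ x' ∧ ∀ j, IsAlgebraic (Rt T) (x' j) := by
  have hL : Algebra.trdeg ℂ L = (n + 1 : ℕ) := Pool.Agent.Y184.NT.trdeg_below (K := K) hK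
  have hessL : Algebra.EssFiniteType ℂ L := Pool.Agent.TH466.QG.ess_below (K := K)
  obtain ⟨y, G, hy, hG⟩ := Pool.Agent.Y172.exists_crd hL
  choose G' hG' using fun i => Pool.Agent.Y172.exists_lift (L := K) hL (G i)
  obtain ⟨w, hw⟩ : ∃ w : J → K, ∀ j, w j = ω j G' := ⟨fun j => ω j G', fun _ => rfl⟩
  let I := {f : ∀ i, F i // ∀ i, f i ∈ H i} × J
  obtain ⟨T, hT⟩ : ∃ T : I → L, ∀ f, T f =
    Algebra.trace L K (w f.2 * ∏ i, algebraMap (F i) K (f.1.1 i)) := ⟨_, fun _ => rfl⟩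
  have hTreg : ∀ f, ∀ P : Place ℂ L, Divisorial (n + 1) P → SecAt BL1 P (trForm y (T f)) := by
    intro f P hP
    have h1 := Pool.Agent.R882.LT.trForm_sec (BK := BK) (BL := BL1) hL hy hG hG'
      (fun D => (∏ i, algebraMap (F i) K (f.1.1 i)) * ω f.2 D) (by
        intro A D
        change _ * ω f.2 _ = _ * (_ * ω f.2 D)
        rw [hpl f.2 A D]
        ring) hB
      (fun Q hQ => hω f.2 f.1.1 f.1.2 Q hQ) P hP
    rw [hT, mul_comm, hw]
    exact h1
  obtain ⟨τ0⟩ : Nonempty (K →ₐ[L] AlgebraicClosure L) :=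
    ⟨IsAlgClosed.lift (R := L) (M := AlgebraicClosure L) (S := K)⟩
  have hT' : IsScalarTower ℂ L (AlgebraicClosure L) := inferInstance
  have hJs : Js k k = Finset.univ := by
    ext l
    rw [mem_Js]
    exact ⟨fun _ => Finset.mem_univ _, fun _ => l.2⟩
  have hle : E ≤ (MF F L Finset.univ).restrictScalars ℂ := by
    rw [hE]
    refine iSup_le fun i z hz => ?_
    rw [IntermediateField.mem_restrictScalars]
    exact mem_MJ (E := fun i => F i) _ (Finset.mem_univ i) ⟨z, hz⟩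
  have key : (∀ j, Algebra.trace (MF F L Finset.univ) K (w j) = 0) →
      IsA1Uniruled ℂ L (n + 1) BL2 := fun h0 =>
    fam_a1 hK E hp hcl (MF F L Finset.univ) hle hy hG hG' hpl (fun j => by
      rw [← hw]
      exact h0 j) hZ hD0 hDB hDl hDZ hspan hBL
  by_cases hT0 : ∃ f, T f ≠ 0
  swap
  · left
    push Not at hT0
    refine key fun j => ?_
    have h0 := Ch.rel_zero (F := F) (H := H) (h := w j) (fun f hf => by
      have := hT0 (⟨f, hf⟩, j)
      rwa [hT] at this) τ0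
    have h1 := Rl.chain h0 (hsep (AlgebraicClosure L)) (s := k) (fun l _ =>
      lt_of_le_of_lt ((Ch.count_le τ0 _ _).trans (Nat.le_mul_of_pos_left _ two_pos)) (hd l))
    rw [hJs] at h1
    exact rel_univ_tr h1
  obtain ⟨f1, hf1⟩ := hT0
  obtain ⟨Ω', iF, iA, iC, i1, i2, lam, hlam, hlamT, hpts⟩ := exists_pts T (f1 := f1) hf1
  have hrel : ∀ j : J, Rl (P2 i1 i2 F L) (ev Ω' F) H (C2 i1 i2 (w j) lam) (Sum.inl τ0)
      Finset.univ := by
    intro j
    have h0 : Rl (P2 i1 i2 F L) (ev Ω' F) H (C2 i1 i2 (w j) lam) (Sum.inl τ0) ∅ :=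
      Ch.rel2_zero i1 i2 (fun f hf => by
        have := hlamT (⟨f, hf⟩, j)
        rw [hT] at this
        exact this) _
    have h1 := Rl.chain h0 (hsep Ω') (s := k) (fun l _ =>
      lt_of_le_of_lt (Ch.count2_le i1 i2 τ0 _ _) (hd l))
    rwa [hJs] at h1
  by_cases hne : ∃ τ : K →ₐ[L] AlgebraicClosure L, ∀ (i : Fin k) (z : F i),
      i2 (τ z) = i1 (τ0 z)
  swap
  · exact Or.inl (key fun j => rel2_univ_tr i1 i2 hlam hne (hrel j))
  obtain ⟨τ, hτ⟩ := hne
  right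
  -- the field where the two points agree
  obtain ⟨S, hS⟩ : ∃ S : IntermediateField ℂ K, ∀ z, z ∈ S ↔ i1 (τ0 z) = i2 (τ z) := by
    refine ⟨{ carrier := {z | i1 (τ0 z) = i2 (τ z)}
              mul_mem' := fun {a b} ha hb => ?_
              add_mem' := fun {a b} ha hb => ?_
              algebraMap_mem' := fun c => ?_
              inv_mem' := fun a ha => ?_ }, fun z => Iff.rfl⟩
    · change i1 (τ0 (a * b)) = i2 (τ (a * b))
      rw [map_mul, map_mul, map_mul, map_mul, show i1 (τ0 a) = i2 (τ a) from ha,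
        show i1 (τ0 b) = i2 (τ b) from hb]
    · change i1 (τ0 (a + b)) = i2 (τ (a + b))
      rw [map_add, map_add, map_add, map_add, show i1 (τ0 a) = i2 (τ a) from ha,
        show i1 (τ0 b) = i2 (τ b) from hb]
    · change i1 (τ0 (algebraMap ℂ K c)) = i2 (τ (algebraMap ℂ K c))
      rw [IsScalarTower.algebraMap_apply ℂ L K, τ0.commutes, τ.commutes,
        ← IsScalarTower.algebraMap_apply ℂ L (AlgebraicClosure L), i1.commutes, i2.commutes]
    · change i1 (τ0 a⁻¹) = i2 (τ a⁻¹)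
      rw [map_inv₀, map_inv₀, map_inv₀, map_inv₀, show i1 (τ0 a) = i2 (τ a) from ha]
  have hSF : E ≤ S := by
    rw [hE]
    exact iSup_le fun i z hz => (hS z).2 (hτ i ⟨z, hz⟩).symm
  obtain ⟨tE, htE⟩ := Pool.Agent.W636.PG.exists_basis ℂ E n hp
  refine ⟨y, G, I, T, hG, ⟨f1, hf1⟩, hTreg, fun j => (tE j : K),
    htE.1.map' (f := E.val) E.val.injective, fun j => ?_⟩
  exact alg_back τ0 (hpts _ _ ((hS _).1 (hSF (tE j).2)))

end

end Pool.Agent.L5helper25
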