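import Pool.Agent.L5helper25.Asm
import Pool.Agent.L5helper25.CurT

/-!
Log canonical pairs dominated by families of open curves.
-/

set_option autoImplicit false
set_option linter.overlappingInstances false
set_option linter.unusedSectionVars false
set_option linter.unusedVariables false
set_option maxHeartbeats 4000000
set_option synthInstance.maxHeartbeats 400000

open FF IntermediateField Module

namespace Pool.Agent.L5helper25

open Pool.Agent.W603.LV Pool.Agent.W619.PQ Pool.Agent.N145.PC Pool.Agent.N145.PL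
open Pool.Agent.N145.SX
open Pool.Agent.W602.GT (Divisorial RegAt IsPluri DerReg DerLog LogAt Psef)
open Pool.Agent.Y184.NT (trForm trForm_pluri)
open Pool.Agent.R882.LT (SecAt)
open Pool.Agent.W619.PL (IsA1Uniruled)
open Pool.Agent.Y172 (NormalModel Effective Integral LogCanonical IsSection OrdGe kodairaDim
  numericalDim IsPrimeDivisor exists_crd exists_loc pluri_coord pluri_diag prod_lc)
open Pool.Agent.Y191 (LogDisc)

section

variable {L : Type} [Field L] [Algebra ℂ L] {n N : ℕ} {y : Fin (N + 1) → L}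

/-- **From traces to abundance.** -/
theorem abun_of_traces {K : Type} [Field K] [Algebra ℂ K] [Algebra L K] [IsScalarTower ℂ L K]
    [FiniteDimensional L K] [Algebra.EssFiniteType ℂ L] (hL : Algebra.trdeg ℂ L = (n + 1 : ℕ))
    (hy : NormalModel y) {Δ : Place ℂ L → ℚ} (hΔ : Effective y Δ)
    {BL1 : Place ℂ L → Prop} (h1 : ∀ P, IsPrimeDivisor y P → BL1 P → 1 ≤ Δ P)
    {z : Fin (n + 1) → L} {G : Fin (n + 1) → Derivation ℂ L L} {ι : Type} {T : ι → L}
    (hG : ∀ i j, G i (z j) = if i = j then 1 else 0) (hT0 : ∃ f, T f ≠ 0)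
    (hreg : ∀ f, ∀ P : Place ℂ L, Divisorial (n + 1) P → SecAt BL1 P (trForm z (T f)))
    {x' : Fin n → K} (hx' : AlgebraicIndependent ℂ x') (halg : ∀ j, IsAlgebraic (Rt T) (x' j)) :
    (∃ (ω : Fin (n + 1) → (Fin (n + 1) → Derivation ℂ L L) → L)
      (D : Fin (n + 1) → Derivation ℂ L L),
      (∀ l, IsSection y (n + 1) 1 Δ (ω l)) ∧ ω 0 D ≠ 0 ∧
      AlgebraicIndependent ℂ fun l : Fin n => ω l.succ D / ω 0 D) ∧
    ∃ d : ℕ, (d = n ∨ d = n + 1) ∧
      kodairaDim y (n + 1) Δ = (d : WithBot ℕ) ∧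
      ∀ A, Effective y A → Integral y A →
        numericalDim y (n + 1) Δ A = (d : EReal) := by
  obtain ⟨s, hs0, hs⟩ := Pool.Agent.R882.LT.exists_ratios_d (d := n) hL
    (Pool.Agent.N145.PC.trdeg_adj hx') T hT0
    fun D h1 D' h2 j => der_alg2 (Rt T) D' (fun c hc => by
      rw [h2, der_ratio T D h1 c hc, map_zero]) (halg j)
  have hθE : ∀ t, trForm z t G = t := by
    intro t
    have h1 : (Matrix.of fun i j => G i (z j) :
        Matrix (Fin (n + 1)) (Fin (n + 1)) L) = 1 := by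
      ext i j
      rw [Matrix.of_apply, hG, Matrix.one_apply]
    rw [trForm, h1, Matrix.det_one, one_mul]
  have hsec : ∀ l, IsSection y (n + 1) 1 Δ (trForm z (T (s l))) := by
    intro l
    refine ⟨trForm_pluri z _, fun P hP => ?_⟩
    have hPd := hP.divisorial hy hL
    have h3 := hreg (s l) P hPd
    by_cases hB : BL1 P
    · refine (ordGe_of_log hL hPd (trForm_pluri z _) h3.1).mono ?_
      have := h1 P hP hB
      linarith
    · refine (ordGe_of_reg (h3.2 hB)).mono ?_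
      have := hΔ.1 P hP
      linarith
  have h0 : trForm z (T (s 0)) G ≠ 0 := by
    rw [hθE]
    exact hs0
  have hind : AlgebraicIndependent ℂ fun l : Fin n =>
      trForm z (T (s l.succ)) G / trForm z (T (s 0)) G := by
    simp only [hθE]
    exact hs
  refine ⟨⟨fun l => trForm z (T (s l)), G, hsec, h0, hind⟩, ?_⟩
  exact abun_of_kod hy hL hΔ le_rfl (ω := fun l => trForm z (T (s l))) (fun l => by
    rw [one_smul]
    exact hsec l) h0 hind

end

section

variable {K : Type} [Field K] [Algebra ℂ K] {k : ℕ} {F : Fin k → IntermediateField ℂ K}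
  {L : Type} [Field L] [Algebra ℂ L] [Algebra L K] [IsScalarTower ℂ L K] [FiniteDimensional L K]

/-- **Log canonical pairs dominated by families of open curves.** -/
theorem fam_lc_pair {n : ℕ} [Algebra.EssFiniteType ℂ K] (hK : Algebra.trdeg ℂ K = (n + 1 : ℕ))
    {E : IntermediateField ℂ K} (hE : E = ⨆ i, F i) (hp : Algebra.trdeg ℂ E = n)
    (hcl : ∀ z : K, IsAlgebraic E z → z ∈ E)
    {H : ∀ i, Set (F i)} {g : Fin k → ℕ}
    (hsep : ∀ (Ω : Type) [Field Ω] [Algebra ℂ Ω] [IsAlgClosed Ω] (i : Fin k),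
      Sep (ev Ω F i) (H i) (g i))
    (hd : ∀ i : Fin k, 2 * finrank (MF F L (Js k i)) (IntermediateField.adjoin
      (MF F L (Js k i)) (F i : Set K)) < g i)
    {BK : Place ℂ K → Prop}
    {J : Type} {ω : J → (Fin (n + 1) → Derivation ℂ K K) → K} (hpl : ∀ j, IsPluri 1 (ω j))
    (hω : ∀ j (s : ∀ i, F i), (∀ i, s i ∈ H i) → ∀ Q, Divisorial (n + 1) Q →
      SecAt BK Q (fun D => (∏ i, algebraMap (F i) K (s i)) * ω j D))
    {Λ Z : Type} [Field Λ] [Field Z] [Algebra E Λ] [Algebra Λ Z] [Algebra K Z]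
    [IsScalarTower E Λ Z] [Algebra ℂ Λ] [Algebra ℂ Z] [IsScalarTower ℂ Λ Z] [IsScalarTower ℂ K Z]
    [IsScalarTower ℂ E Λ] [Algebra.IsAlgebraic E Λ] [IsAlgClosed Λ]
    (hZ : IntermediateField.adjoin Λ (Set.range (algebraMap K Z)) = ⊤)
    {BZ : Set (Place Λ Z)} (hBZ : ∀ (w : Place Λ Z) (v : Place ℂ K) (e : ℕ), 0 < e →
      (∀ f : K, w.ord (algebraMap K Z f) = e * v.ord f) → BK v → w ∈ BZ)
    {D : Fin (n + 1) → Derivation ℂ K K} (hD0 : LinearIndependent K D)
    (hDB : ∀ i, ∀ z ∈ E, D i z ∈ E) (hDl : ∀ z ∈ E, D (Fin.last n) z = 0)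
    {DZ : Derivation Λ Z Z}
    (hDZ : ∀ z : K, DZ (algebraMap K Z z) = algebraMap K Z (D (Fin.last n) z))
    (hspan : ∀ g ∈ HL DZ BZ,
      g ∈ Submodule.span Λ (Set.range fun j => algebraMap K Z (ω j D)))
    {N : ℕ} {y : Fin (N + 1) → L} (hy : NormalModel y) {Δ : Place ℂ L → ℚ}
    (hΔ : Effective y Δ) (hLC : LogCanonical y (n + 1) Δ)
    (h1 : ∀ P, IsPrimeDivisor y P → (∃ (Q : Place ℂ K) (e : ℕ), Over Q P e ∧ BK Q) → 1 ≤ Δ P)
    (h2 : ∀ (P : Place ℂ L) (Q : Place ℂ K) (e : ℕ), Divisorial (n + 1) P → Over Q P e →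
      (∀ z ∈ E, Q.ord z = 0) → ¬ BK Q → LogDisc y (n + 1) Δ P 1) :
    (kodairaDim y (n + 1) Δ = ⊥ ∧ ∀ A, Effective y A → numericalDim y (n + 1) Δ A = ⊥) ∨
    (∃ (ω : Fin (n + 1) → (Fin (n + 1) → Derivation ℂ L L) → L)
      (D : Fin (n + 1) → Derivation ℂ L L),
      (∀ l, IsSection y (n + 1) 1 Δ (ω l)) ∧ ω 0 D ≠ 0 ∧
      AlgebraicIndependent ℂ fun l : Fin n => ω l.succ D / ω 0 D) ∧
    ∃ d : ℕ, (d = n ∨ d = n + 1) ∧
      kodairaDim y (n + 1) Δ = (d : WithBot ℕ) ∧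
      ∀ A, Effective y A → Integral y A → numericalDim y (n + 1) Δ A = (d : EReal) := by
  classical
  have hL : Algebra.trdeg ℂ L = (n + 1 : ℕ) := Pool.Agent.Y184.NT.trdeg_below (K := K) hK
  have hessL : Algebra.EssFiniteType ℂ L := Pool.Agent.TH466.QG.ess_below (K := K)
  obtain ⟨BL1, hBL1⟩ : ∃ BL1 : Place ℂ L → Prop, ∀ P, BL1 P ↔
    ∃ (Q : Place ℂ K) (e : ℕ), Over Q P e ∧ BK Q := ⟨_, fun _ => Iff.rfl⟩
  obtain ⟨BL2, hBL2⟩ : ∃ BL2 : Place ℂ L → Prop, ∀ P, BL2 P ↔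
    Divisorial (n + 1) P ∧ ¬ LogDisc y (n + 1) Δ P 1 := ⟨_, fun _ => Iff.rfl⟩
  have hBLZ : ∀ (Q : Place Λ Z) (v : Place ℂ L) (e : ℕ), 0 < e →
      (∀ f, Q.ord (algebraMap K Z (algebraMap L K f)) = e * v.ord f) → BL2 v → Q ∈ BZ := by
    intro Q v e he hQv hBv
    have hΛ0 : CharZero Λ := charZero_of_injective_algebraMap (algebraMap ℂ Λ).injective
    have hLK : Algebra.trdeg E K = (1 : ℕ) := Pool.Agent.Y174.trdeg_LK (r := 1) hp hK
    have htrF : Algebra.trdeg Λ Z = (1 : ℕ) := Pool.Agent.Y174.trdeg_F (L := E) (K := K) hLK hZ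
    have hessF : Algebra.EssFiniteType Λ Z :=
      Pool.Agent.Y174.ess_F (k := ℂ) (K := K) inferInstance hZ
    have hFF : IsFF Λ Z := ⟨hessF, by rw [htrF]; simp⟩
    obtain ⟨Q', hQ'⟩ := exists_rc (k := ℂ) Q
    obtain ⟨tv, -, htv⟩ := v.surj
    obtain ⟨e1, P', hP'⟩ := exists_over (K := K) Q' ⟨algebraMap L K tv, by
      intro h1
      rw [hQ'] at h1
      have h3 := hQv tv
      rw [h1, htv] at h3
      have h4 : (e : ℤ) ≠ 0 := by exact_mod_cast he.ne'
      omega⟩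
    obtain ⟨v', e2, hv'⟩ := Pool.Agent.Y172.exists_below (K := L) P'
    have hvv : v = v' := by
      have h1 : ∀ f, (e : ℤ) * v.ord f = (e1 * e2 : ℕ) * v'.ord f := by
        intro f
        rw [← hQv, ← hQ', hP'.2, hv'.2]
        push_cast
        ring
      obtain ⟨f', -, hf'⟩ := v'.surj
      have h3 := h1 tv
      have h4 := h1 f'
      rw [htv, mul_one] at h3
      rw [hf', mul_one] at h4
      have h5 : ((e1 * e2 : ℕ) : ℤ) ∣ e := ⟨_, h3⟩
      have h6 : (e : ℤ) ∣ (e1 * e2 : ℕ) := ⟨_, h4.symm⟩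
      have h7 : e = e1 * e2 := Nat.dvd_antisymm (by exact_mod_cast h6) (by exact_mod_cast h5)
      refine Pool.Agent.Y172.place_ext fun f => ?_
      have h8 := h1 f
      rw [← h7] at h8
      have he' : (e : ℤ) ≠ 0 := by exact_mod_cast he.ne'
      exact mul_left_cancel₀ he' h8
    rw [← hvv] at hv'
    have hQP : ∀ f : K, Q.ord (algebraMap K Z f) = e1 * P'.ord f := fun f => by
      rw [← hQ', hP'.2]
    refine hBZ Q P' e1 hP'.1 hQP ?_
    by_contra hcon
    obtain ⟨h3, h4⟩ := (hBL2 v).1 hBv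
    refine h4 (h2 v P' e2 h3 hv' (fun z hz => ?_) hcon)
    by_cases hz0 : z = 0
    · rw [hz0, P'.ord_zero]
    have h5 := hQP z
    have h6 : algebraMap K Z z = algebraMap Λ Z (algebraMap E Λ ⟨z, hz⟩) := by
      rw [← IsScalarTower.algebraMap_apply E Λ Z]
      rfl
    have h7 : algebraMap E Λ ⟨z, hz⟩ ≠ 0 := by
      rw [_root_.map_ne_zero]
      intro h8
      exact hz0 (congrArg Subtype.val h8)
    rw [h6, Q.ord_const h7] at h5
    rcases mul_eq_zero.1 h5.symm with h8 | h8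
    · have h9 := hP'.1
      have h10 : e1 = 0 := by exact_mod_cast h8
      omega
    · exact h8
  rcases fam_core (L := L) (BL1 := BL1) (BL2 := BL2) hK hE hp hcl hsep hd
    (fun P Q e h3 h4 => (hBL1 P).2 ⟨Q, e, h3, h4⟩) hpl hω hZ hD0 hDB hDl hDZ hspan
    hBLZ with h | ⟨z, G, ι, T, hG, hT0, hreg, x', hx', halg⟩
  · left
    refine neg_of_not_psef hL hy hLC (Bd := BL2) (fun Q hQ hQB => ?_) (not_psef_of_a1 hL h)
    by_contra hcon
    exact hQB ((hBL2 Q).2 ⟨hQ, hcon⟩)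
  · right
    exact abun_of_traces (K := K) hL hy hΔ (fun P hP h => h1 P hP ((hBL1 P).1 h)) hG hT0 hreg hx'
      halg

end

end Pool.Agent.L5helper25
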