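import Pool.Agent.R887.Frm
import Pool.Agent.R887.Noe
import Pool.Agent.Y172.Dim3

/-!
A divisor `K_X + Δ` whose numerical dimension is the dimension of the variety is big.
-/

set_option autoImplicit false
set_option linter.overlappingInstances false
set_option linter.unusedSectionVars false

open FF Pool.Agent.W602.GT Pool.Agent.Y172 Pool.Agent.R887

namespace Pool.Agent.L5helper25

section

variable {K : Type} [Field K] [Algebra ℂ K] {N n : ℕ} {y : Fin (N + 1) → K}

/-- a function of the chart with poles at finitely many places which have no centre in the chart -/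
theorem exists_pole {j : Fin (N + 1)} (Z : Finset (Place ℂ K))
    (hZ : ∀ P ∈ Z, ∃ i, P.ord (y i / y j) < 0) :
    ∃ t ∈ chart y j, t ≠ 0 ∧ ∀ P ∈ Z, P.ord t < 0 := by
  classical
  induction Z using Finset.induction_on with
  | empty => exact ⟨1, (chart y j).one_mem, one_ne_zero, by simp⟩
  | insert P Z hP ih =>
    obtain ⟨t, ht, ht1, htZ⟩ := ih fun Q hQ => hZ Q (Finset.mem_insert_of_mem hQ)
    by_cases h : P.ord t < 0
    · refine ⟨t, ht, ht1, fun Q hQ => ?_⟩
      rcases Finset.mem_insert.1 hQ with rfl | hQ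
      · exact h
      · exact htZ Q hQ
    · obtain ⟨i, hi⟩ := hZ P (Finset.mem_insert_self _ _)
      obtain ⟨u, hu⟩ : ∃ u, u = y i / y j := ⟨_, rfl⟩
      rw [← hu] at hi
      have hu0 : u ≠ 0 := by
        rintro rfl
        rw [P.ord_zero] at hi
        exact lt_irrefl _ hi
      obtain ⟨M, hM⟩ : ∃ M : ℕ, M = 1 + ∑ Q ∈ Z, (Q.ord u).natAbs := ⟨_, rfl⟩
      have hMQ : ∀ Q ∈ Z, (Q.ord u).natAbs < M := by
        intro Q hQ
        have := Finset.single_le_sum (f := fun Q : Place ℂ K => (Q.ord u).natAbs)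
          (fun _ _ => Nat.zero_le _) hQ
        beta_reduce at this
        omega
      have key : ∀ Q ∈ insert P Z, Q.ord (t ^ M + u) < 0 := by
        intro Q hQ
        rcases Finset.mem_insert.1 hQ with rfl | hQ
        · have ht0 : t ^ M ≠ 0 := pow_ne_zero _ ht1
          have h1 : (0 : ℤ) ≤ Q.ord (t ^ M) := by
            rw [Q.ord_pow]
            exact mul_nonneg (Int.natCast_nonneg _) (not_lt.1 h)
          rw [add_comm, (Q.ord_add_eq hu0 ht0 (by omega)).2]
          exact hi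
        · have h1 := htZ Q hQ
          have h2 := hMQ Q hQ
          have h3 : Q.ord (t ^ M) < Q.ord u := by
            rw [Q.ord_pow]
            have h4 : (M : ℤ) * Q.ord t ≤ M * (-1) :=
              mul_le_mul_of_nonneg_left (by omega) (Int.natCast_nonneg _)
            omega
          rw [(Q.ord_add_eq (pow_ne_zero _ ht1) hu0 h3).2, Q.ord_pow]
          have hM1 : (1 : ℤ) ≤ M := by
            have : 1 ≤ M := by omega
            exact_mod_cast this
          nlinarith
      refine ⟨t ^ M + u, (chart y j).add_mem ((chart y j).pow_mem ht _) (by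
        rw [hu]
        exact gen_mem y j i), ?_, key⟩
      intro h0
      have := key P (Finset.mem_insert_self _ _)
      rw [h0, P.ord_zero] at this
      exact lt_irrefl _ this

/-- multiplication of a form by a function -/
theorem ordGe_smul {m : ℕ} {P : Place ℂ K} {ω : (Fin m → Derivation ℂ K K) → K} {r : ℚ}
    (h : OrdGe P ω r) {u : K} (hu : u ≠ 0) : OrdGe P (fun D => u * ω D) (r + P.ord u) := by
  intro D hD
  rcases h D hD with h1 | h1
  · left
    change u * ω D = 0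
    rw [h1, mul_zero]
  · by_cases h0 : ω D = 0
    · left
      change u * ω D = 0
      rw [h0, mul_zero]
    · right
      change r + P.ord u ≤ P.ord (u * ω D)
      rw [P.ord_mul hu h0]
      push_cast
      linarith

theorem isPluri_smul {m r : ℕ} {ω : (Fin m → Derivation ℂ K K) → K} (h : IsPluri r ω) (u : K) :
    IsPluri r (fun D => u * ω D) := by
  intro A D
  change u * ω _ = _ * (u * ω D)
  rw [h A D]
  ring

/-- the places without centre in a chart -/
theorem exists_neg {j : Fin (N + 1)} (hj : y j ≠ 0) {P : Place ℂ K} (h : ¬ Centred y j P) :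
    ∃ i, P.ord (y i / y j) < 0 := by
  by_contra hcon
  push Not at hcon
  exact h ⟨hj, fun i => Or.inr (hcon i)⟩

/-- there are finitely many prime divisors outside of a chart -/
theorem finite_not_centred (hy : NormalModel y) {j : Fin (N + 1)} (hj : y j ≠ 0) :
    {P | IsPrimeDivisor y P ∧ ¬ Centred y j P}.Finite := by
  classical
  refine (Set.finite_iUnion fun i : Fin (N + 1) => (show
    {P : Place ℂ K | IsPrimeDivisor y P ∧ y i ≠ 0 ∧ P.ord (y i / y j) ≠ 0}.Finite from ?_)).subset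
    (s := ⋃ i : Fin (N + 1), {P : Place ℂ K | IsPrimeDivisor y P ∧ y i ≠ 0 ∧
      P.ord (y i / y j) ≠ 0}) ?_
  · by_cases hi : y i = 0
    · refine Set.finite_empty.subset ?_
      rintro P ⟨-, h, -⟩
      exact absurd hi h
    · refine (finite_ord hy (div_ne_zero hi hj)).subset ?_
      rintro P ⟨h1, -, h2⟩
      exact ⟨h1, h2⟩
  · rintro P ⟨h1, h2⟩
    obtain ⟨i, hi⟩ := exists_neg hj h2
    refine Set.mem_iUnion.2 ⟨i, h1, ?_, hi.ne⟩
    rintro h0
    rw [h0, zero_div, P.ord_zero] at hi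
    exact lt_irrefl _ hi

/-- **Big divisors.** Either some multiple of `K_X + Δ` has `n + 1` sections with algebraically
independent ratios, or the number of the sections of `m (K_X + Δ) + A` is at most `C m ^ (n - 1)`. -/
theorem big_or (hy : NormalModel y) (hn : Algebra.trdeg ℂ K = n) (hn0 : 0 < n)
    {Δ : Place ℂ K → ℚ} (hΔ : Effective y Δ) {x : Fin n → K} {E : Fin n → Derivation ℂ K K}
    (hx : IsTranscendenceBasis ℂ x) (hE : ∀ i j, E i (x j) = if i = j then 1 else 0) :
    (∃ m : ℕ, 1 ≤ m ∧ ∃ ω : Fin (n + 1) → (Fin n → Derivation ℂ K K) → K,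
      (∀ l, IsSection y n m (m • Δ) (ω l)) ∧ ω 0 E ≠ 0 ∧
        AlgebraicIndependent ℂ fun l : Fin n => ω l.succ E / ω 0 E) ∨
    ∀ A, Effective y A → ∃ C : ℕ, ∀ m : ℕ, 1 ≤ m → ∀ (r : ℕ) (f : Fin r → K),
      LinearIndependent ℂ f → (∀ i, ∃ ω, IsSection y n m (m • Δ + A) ω ∧ ω E = f i) →
      r ≤ C * m ^ (n - 1) := by
  classical
  refine or_iff_not_imp_left.2 fun hbig A hA => ?_
  have hfr : IsFrame E := fun F => ⟨fun j => F (x j),
    (Pool.Agent.W73.PG.PULL.expand x hx E hE F).symm⟩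
  obtain ⟨j, hj⟩ := hy.ne
  obtain ⟨Z, hZ⟩ : ∃ Z : Finset (Place ℂ K), ∀ P, P ∈ Z ↔ (IsPrimeDivisor y P ∧ ¬ Centred y j P) :=
    ⟨(finite_not_centred hy hj).toFinset, fun P => by
      rw [Set.Finite.mem_toFinset]
      rfl⟩
  obtain ⟨t, ht, ht0, htZ⟩ := exists_pole (y := y) (j := j) Z fun P hP =>
    exists_neg hj ((hZ P).1 hP).2
  -- the function which kills `A` in the chart
  obtain ⟨s, hs, hs0, hsP⟩ := exists_high (y := y) (j := j)
    (S := {P | IsPrimeDivisor y P ∧ Centred y j P ∧ A P ≠ 0})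
    (hA.2.subset (by
      rintro P ⟨h1, -, h2⟩
      exact ⟨h1, h2⟩))
    (fun P hP => hP.2.1) (fun P hP => hP.1) (fun P => ⌈A P⌉.toNat)
  have hsA : ∀ P, IsPrimeDivisor y P → Centred y j P → A P ≤ P.ord s := by
    intro P hP hc
    by_cases hA0 : A P = 0
    · rw [hA0]
      exact_mod_cast (P.reg_iff hs0).1 (hc.reg s hs)
    · have h2 := hsP P ⟨hP, hc, hA0⟩
      have h3 : (A P : ℚ) ≤ ((⌈A P⌉.toNat : ℤ) : ℚ) :=
        (Int.le_ceil _).trans (by exact_mod_cast Int.self_le_toNat _)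
      exact h3.trans (by exact_mod_cast h2)
  obtain ⟨U, hU, hUc, -⟩ := exists_noether hy hn hj
  obtain ⟨g, hg⟩ : ∃ g : Fin (n + 1) → K, g = Fin.cons s fun i => s * U i := ⟨_, rfl⟩
  have hg0 : g 0 = s := by rw [hg]; rfl
  have hgs : ∀ i : Fin n, g i.succ = s * U i := fun i => by rw [hg]; rfl
  have hgne : ∀ l, g l ≠ 0 := by
    intro l
    refine Fin.cases ?_ (fun i => ?_) l
    · rw [hg0]
      exact hs0
    · rw [hgs]
      exact mul_ne_zero hs0 (hU.1.ne_zero i)
  have hgc : ∀ l P, IsPrimeDivisor y P → Centred y j P → A P ≤ P.ord (g l) := by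
    intro l P hP hc
    refine Fin.cases ?_ (fun i => ?_) l
    · rw [hg0]
      exact hsA P hP hc
    · rw [hgs, P.ord_mul hs0 (hU.1.ne_zero i)]
      have h1 := hsA P hP hc
      have h2 := (P.reg_iff (hU.1.ne_zero i)).1 (hc.reg _ (hUc i))
      have h3 : (0 : ℚ) ≤ P.ord (U i) := by exact_mod_cast h2
      push_cast
      linarith
  -- the exponent
  obtain ⟨a, ha⟩ : ∃ a : ℕ, ∀ P ∈ Z, ∀ l, A P ≤ P.ord (g l) + a := by
    refine ⟨∑ P ∈ Z, ∑ l, ⌈A P - P.ord (g l)⌉.toNat, fun P hP l => ?_⟩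
    have h1 : ⌈A P - P.ord (g l)⌉.toNat ≤ ∑ l, ⌈A P - P.ord (g l)⌉.toNat :=
      Finset.single_le_sum (f := fun l => ⌈A P - P.ord (g l)⌉.toNat)
        (fun _ _ => Nat.zero_le _) (Finset.mem_univ l)
    have h2 : ∑ l, ⌈A P - P.ord (g l)⌉.toNat ≤ ∑ P ∈ Z, ∑ l, ⌈A P - P.ord (g l)⌉.toNat :=
      Finset.single_le_sum (f := fun P : Place ℂ K => ∑ l, ⌈A P - P.ord (g l)⌉.toNat)
        (fun _ _ => Nat.zero_le _) hP
    have h3 : (A P - P.ord (g l) : ℚ) ≤ ((⌈A P - P.ord (g l)⌉.toNat : ℤ) : ℚ) :=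
      (Int.le_ceil _).trans (by exact_mod_cast Int.self_le_toNat _)
    have h4 : ((⌈A P - P.ord (g l)⌉.toNat : ℤ) : ℚ) ≤
        ((∑ P ∈ Z, ∑ l, ⌈A P - P.ord (g l)⌉.toNat : ℕ) : ℚ) := by
      exact_mod_cast h1.trans h2
    linarith
  -- the divisor with the poles of `t`
  obtain ⟨T, hT⟩ : ∃ T : Place ℂ K → ℚ, ∀ P, T P = ((-P.ord t).toNat : ℚ) :=
    ⟨fun P => ((-P.ord t).toNat : ℚ), fun _ => rfl⟩
  have hTeff : Effective y (Δ + a • T) := by
    refine ⟨fun P hP => ?_, (hΔ.2.union (finite_ord hy ht0)).subset ?_⟩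
    · rw [Pi.add_apply, Pi.smul_apply, hT, nsmul_eq_mul]
      have := hΔ.1 P hP
      positivity
    · rintro P ⟨hP, hne⟩
      by_contra hcon
      rw [Set.mem_union, not_or] at hcon
      apply hne
      have h1 : Δ P = 0 := by
        by_contra h
        exact hcon.1 ⟨hP, h⟩
      have h2 : P.ord t = 0 := by
        by_contra h
        exact hcon.2 ⟨hP, h⟩
      rw [Pi.add_apply, Pi.smul_apply, hT, h1, h2]
      simp
  obtain ⟨C, hC⟩ := sec_growth hy hn hTeff hA E
  refine ⟨C, fun m hm r f hf hmem => ?_⟩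
  choose ω hω hωf using hmem
  -- the shifted sections
  by_cases hind : LinearIndependent ℂ fun p : Fin (m + 1) × Fin r => t ^ (a * (p.1 : ℕ)) * f p.2
  · have e := Fintype.equivFin (Fin (m + 1) × Fin r)
    have h1 := hC m hm _ _ (hind.comp e.symm e.symm.injective) (fun i => by
      obtain ⟨⟨c, l⟩, hcl⟩ : ∃ p, p = e.symm i := ⟨_, rfl⟩
      refine ⟨fun D => t ^ (a * (c : ℕ)) * ω l D, ⟨isPluri_smul (hω l).1 _, fun P hP => ?_⟩, ?_⟩
      · refine (ordGe_smul ((hω l).2 P hP) (pow_ne_zero _ ht0)).mono ?_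
        rw [P.ord_pow, Pi.add_apply, Pi.add_apply, Pi.smul_apply, Pi.smul_apply, Pi.add_apply,
          Pi.smul_apply, hT, nsmul_eq_mul, nsmul_eq_mul, nsmul_eq_mul]
        have h2 : (c : ℕ) ≤ m := Nat.lt_succ_iff.1 c.2
        have h3 : (-P.ord t : ℚ) ≤ ((-P.ord t).toNat : ℚ) := by
          exact_mod_cast Int.self_le_toNat (-P.ord t)
        have h4 : (0 : ℚ) ≤ ((-P.ord t).toNat : ℚ) := Nat.cast_nonneg _
        have h5 : ((c : ℕ) : ℚ) ≤ m := by exact_mod_cast h2
        have h6 : (0 : ℚ) ≤ a := Nat.cast_nonneg _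
        have h7 : (0 : ℚ) ≤ ((c : ℕ) : ℚ) := Nat.cast_nonneg _
        push_cast
        have h8 : (a : ℚ) * (c : ℕ) * (-P.ord t : ℚ) ≤ a * (c : ℕ) * ((-P.ord t).toNat : ℚ) :=
          mul_le_mul_of_nonneg_left h3 (mul_nonneg h6 h7)
        have h9 : (a : ℚ) * (c : ℕ) * ((-P.ord t).toNat : ℚ) ≤ a * m * ((-P.ord t).toNat : ℚ) :=
          mul_le_mul_of_nonneg_right (mul_le_mul_of_nonneg_left h5 h6) h4
        linarith
      · rw [Function.comp_apply, ← hcl]
        change t ^ (a * (c : ℕ)) * ω l E = t ^ (a * (c : ℕ)) * f l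
        rw [hωf])
    rw [Fintype.card_prod, Fintype.card_fin, Fintype.card_fin] at h1
    have h2 : m ^ n = m ^ (n - 1) * m := by
      rw [← pow_succ, Nat.sub_add_cancel hn0]
    rw [h2] at h1
    have h3 : m * r ≤ m * (C * m ^ (n - 1)) := by
      calc m * r ≤ (m + 1) * r := Nat.mul_le_mul_right _ (Nat.le_succ m)
        _ ≤ C * (m ^ (n - 1) * m) := h1
        _ = m * (C * m ^ (n - 1)) := by ring
    exact Nat.le_of_mul_le_mul_left h3 hm
  exfalso
  apply hbig
  rw [Fintype.linearIndependent_iff] at hind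
  push Not at hind
  obtain ⟨α, hα, ⟨c1, l1⟩, hα1⟩ := hind
  -- the coefficients of the powers of `t`
  obtain ⟨W, hW⟩ : ∃ W : Fin (m + 1) → (Fin n → Derivation ℂ K K) → K, ∀ c,
    W c = ∑ l, α (c, l) • ω l := ⟨fun c => ∑ l, α (c, l) • ω l, fun _ => rfl⟩
  have hWs : ∀ c, IsSection y n m (m • Δ + A) (W c) := by
    intro c
    rw [hW, ← mem_secSub]
    exact Submodule.sum_mem _ fun l _ => Submodule.smul_mem _ _ (hω l)
  have hWE : ∀ c, W c E = ∑ l, α (c, l) • f l := by
    intro c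
    rw [hW, Finset.sum_apply]
    refine Finset.sum_congr rfl fun l _ => ?_
    rw [Pi.smul_apply, hωf]
  have hW1 : W c1 E ≠ 0 := by
    rw [hWE]
    intro h0
    exact hα1 (Fintype.linearIndependent_iff.1 hf (fun l => α (c1, l)) h0 l1)
  have hsum : ∑ c : Fin (m + 1), t ^ (a * (c : ℕ)) * W c E = 0 := by
    rw [← hα, Fintype.sum_prod_type]
    refine Finset.sum_congr rfl fun c _ => ?_
    rw [hWE, Finset.mul_sum]
    refine Finset.sum_congr rfl fun l _ => ?_
    rw [mul_smul_comm]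
  obtain ⟨c0, hc0, hmin⟩ := Finset.exists_min_image (Finset.univ.filter fun c => W c E ≠ 0)
    (fun c : Fin (m + 1) => (c : ℕ)) ⟨c1, by simpa using hW1⟩
  have hc0' : W c0 E ≠ 0 := (Finset.mem_filter.1 hc0).2
  have hlow : ∀ c : Fin (m + 1), (c : ℕ) < c0 → W c E = 0 := by
    intro c hc
    by_contra h
    have := hmin c (Finset.mem_filter.2 ⟨Finset.mem_univ _, h⟩)
    omega
  -- the section which vanishes `a` times
  obtain ⟨H, hH⟩ : ∃ H : (Fin n → Derivation ℂ K K) → K, ∀ D, H D = (t ^ a)⁻¹ * W c0 D :=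
    ⟨_, fun _ => rfl⟩
  obtain ⟨G, hG⟩ : ∃ G : (Fin n → Derivation ℂ K K) → K, G =
    ∑ c ∈ Finset.univ.filter (fun c : Fin (m + 1) => (c0 : ℕ) < c),
      fun D => -(t ^ (a * ((c : ℕ) - c0 - 1))) * W c D := ⟨_, rfl⟩
  have hta : t ^ a ≠ 0 := pow_ne_zero _ ht0
  have hHpl : IsPluri m H := by
    have : H = fun D => (t ^ a)⁻¹ * W c0 D := funext hH
    rw [this]
    exact isPluri_smul (hWs c0).1 _
  have hGpl : IsPluri m G := by
    rw [hG]
    intro B D
    rw [Finset.sum_apply, Finset.sum_apply, Finset.mul_sum]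
    refine Finset.sum_congr rfl fun c _ => ?_
    exact isPluri_smul (hWs c).1 _ B D
  have hGE : G E = H E := by
    have h1 : t ^ (a * (c0 : ℕ)) * W c0 E +
        ∑ c ∈ Finset.univ.filter (fun c : Fin (m + 1) => (c0 : ℕ) < c),
          t ^ (a * (c : ℕ)) * W c E = 0 := by
      rw [← hsum, ← Finset.add_sum_erase Finset.univ _ (Finset.mem_univ c0)]
      congr 1
      refine Finset.sum_subset ?_ ?_
      · intro c hc
        rw [Finset.mem_filter] at hc
        refine Finset.mem_erase.2 ⟨?_, Finset.mem_univ _⟩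
        rintro rfl
        exact lt_irrefl _ hc.2
      · intro c hc hc'
        rw [Finset.mem_filter, not_and] at hc'
        have h2 := hc' (Finset.mem_univ _)
        have h3 : (c : ℕ) ≠ c0 := fun h => (Finset.mem_erase.1 hc).1 (Fin.ext h)
        rw [hlow c (by omega), mul_zero]
    rw [hG, hH, Finset.sum_apply]
    have h2 : t ^ (a * (c0 : ℕ)) * t ^ a ≠ 0 := mul_ne_zero (pow_ne_zero _ ht0) hta
    apply mul_left_cancel₀ h2
    have h3 : t ^ (a * (c0 : ℕ)) * t ^ a * ((t ^ a)⁻¹ * W c0 E) = t ^ (a * (c0 : ℕ)) * W c0 E := by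
      field_simp
    rw [h3, Finset.mul_sum]
    have h4 : ∑ c ∈ Finset.univ.filter (fun c : Fin (m + 1) => (c0 : ℕ) < c),
        t ^ (a * (c0 : ℕ)) * t ^ a * (-(t ^ (a * ((c : ℕ) - c0 - 1))) * W c E) =
        -∑ c ∈ Finset.univ.filter (fun c : Fin (m + 1) => (c0 : ℕ) < c),
          t ^ (a * (c : ℕ)) * W c E := by
      rw [← Finset.sum_neg_distrib]
      refine Finset.sum_congr rfl fun c hc => ?_
      have h5 : (c0 : ℕ) < c := (Finset.mem_filter.1 hc).2
      have h6 : a * (c : ℕ) = a * (c0 : ℕ) + a + a * ((c : ℕ) - c0 - 1) := by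
        obtain ⟨d, hd⟩ : ∃ d, (c : ℕ) = c0 + 1 + d := ⟨(c : ℕ) - c0 - 1, by omega⟩
        rw [hd]
        have : c0.val + 1 + d - c0.val - 1 = d := by omega
        rw [this]
        ring
      rw [h6, pow_add, pow_add]
      ring
    rw [h4]
    exact (eq_neg_of_add_eq_zero_left h1).symm
  have hGH : G = H := by
    have h1 : IsPluri m (fun D => G D - H D) := by
      intro B D
      change G _ - H _ = _ * (G D - H D)
      rw [hGpl B D, hHpl B D]
      ring
    have h2 := pluri_zero hfr h1 (by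
      change G E - H E = 0
      rw [hGE, sub_self])
    funext D
    have h3 := congrFun h2 D
    exact sub_eq_zero.1 h3
  have hHord : ∀ P, IsPrimeDivisor y P → OrdGe P H (-((m • Δ + A) P) + a * ((-P.ord t).toNat : ℚ)) := by
    intro P hP
    by_cases htp : 0 < P.ord t
    · have h1 : (-P.ord t).toNat = 0 := by
        rw [Int.toNat_eq_zero]
        omega
      rw [h1, Nat.cast_zero, mul_zero, add_zero, ← hGH, hG]
      refine Finset.sum_induction _ (fun ω => OrdGe P ω (-((m • Δ + A) P))) (fun ω ω' h h' =>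
        h.add h') (fun _ _ => Or.inl rfl) fun c _ => ?_
      refine (ordGe_smul ((hWs c).2 P hP) (neg_ne_zero.2 (pow_ne_zero _ ht0))).mono ?_
      rw [P.ord_neg, P.ord_pow]
      have h2 : (0 : ℚ) ≤ P.ord t := by exact_mod_cast htp.le
      have h3 : (0 : ℚ) ≤ ((a * ((c : ℕ) - c0 - 1) : ℕ) : ℚ) := Nat.cast_nonneg _
      have h4 := mul_nonneg h3 h2
      push_cast at h4 ⊢
      linarith
    · have h1 : H = fun D => (t ^ a)⁻¹ * W c0 D := funext hH
      rw [h1]
      refine (ordGe_smul ((hWs c0).2 P hP) (inv_ne_zero hta)).mono ?_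
      rw [P.ord_inv, P.ord_pow]
      have h2 : (((-P.ord t).toNat : ℕ) : ℚ) = -(P.ord t : ℚ) := by
        have : (((-P.ord t).toNat : ℕ) : ℤ) = -P.ord t := Int.toNat_of_nonneg (by omega)
        exact_mod_cast this
      rw [h2]
      push_cast
      linarith
  have hHE : H E ≠ 0 := by
    rw [hH]
    exact mul_ne_zero (inv_ne_zero hta) hc0'
  refine ⟨m, hm, fun l D => g l * H D, fun l => ⟨isPluri_smul hHpl _, fun P hP => ?_⟩, ?_, ?_⟩
  · refine (ordGe_smul (hHord P hP) (hgne l)).mono ?_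
    have h4 : ((m • Δ + A) P : ℚ) = (m • Δ) P + A P := by
      rw [Pi.add_apply]
    rw [h4]
    by_cases hc : Centred y j P
    · have h1 := hgc l P hP hc
      have h2 : (0 : ℚ) ≤ a * ((-P.ord t).toNat : ℚ) := by positivity
      linarith
    · have h1 := ha P ((hZ P).2 ⟨hP, hc⟩) l
      have h2 := htZ P ((hZ P).2 ⟨hP, hc⟩)
      have h3 : (1 : ℚ) ≤ ((-P.ord t).toNat : ℚ) := by
        have : 1 ≤ (-P.ord t).toNat := by omega
        exact_mod_cast this
      have h5 : (0 : ℚ) ≤ a := Nat.cast_nonneg _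
      have h6 := mul_le_mul_of_nonneg_left h3 h5
      linarith
  · change g 0 * H E ≠ 0
    exact mul_ne_zero (hgne 0) hHE
  · have h1 : (fun l : Fin n => g l.succ * H E / (g 0 * H E)) = U := by
      funext l
      rw [hgs, hg0, mul_div_mul_right _ _ hHE, mul_div_cancel_left₀ _ hs0]
    change AlgebraicIndependent ℂ (fun l : Fin n => g l.succ * H E / (g 0 * H E))
    rw [h1]
    exact hU.1

end

end Pool.Agent.L5helper25
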