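import Mathlib

/-!
Curves of genus zero over a field which is not algebraically closed: generators of the field of
rational functions.
-/

set_option autoImplicit false
set_option linter.overlappingInstances false
set_option linter.unusedSectionVars false
set_option linter.unusedVariables false
set_option maxHeartbeats 4000000
set_option synthInstance.maxHeartbeats 400000

open Polynomial IntermediateField Module

namespace Pool.Agent.L5helper25.Con

section

variable {Λ Z : Type} [Field Λ] [Field Z] [Algebra Λ Z]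

theorem map_top_inj {A B : Type} [Field A] [Field B] [Algebra Λ A] [Algebra Λ B] (e : A ≃ₐ[Λ] B)
    (f : A) (h : IntermediateField.adjoin Λ {e f} = ⊤) : IntermediateField.adjoin Λ {f} = ⊤ := by
  have h1 : (IntermediateField.adjoin Λ {f}).map (e : A →ₐ[Λ] B) = ⊤ := by
    rw [IntermediateField.adjoin_map, Set.image_singleton]
    exact h
  rw [eq_top_iff]
  intro z _
  have h2 : e z ∈ (IntermediateField.adjoin Λ {f}).map (e : A →ₐ[Λ] B) := by
    rw [h1]
    trivial
  obtain ⟨w, hw, hwz⟩ := h2
  have h3 : w = z := e.injective hwz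
  rw [← h3]
  exact hw

/-- **Generators differ by fractional linear transformations.** -/
theorem moebius {s u : Z} (hs : Transcendental Λ s) (hgs : IntermediateField.adjoin Λ {s} = ⊤)
    (hgu : IntermediateField.adjoin Λ {u} = ⊤) : ∃ a b c d : Λ, a * d - b * c ≠ 0 ∧
      algebraMap Λ Z c * s + algebraMap Λ Z d ≠ 0 ∧
      u * (algebraMap Λ Z c * s + algebraMap Λ Z d) = algebraMap Λ Z a * s + algebraMap Λ Z b := by
  obtain ⟨e, he⟩ : ∃ e : RatFunc Λ ≃ₐ[Λ] Z, ∀ p : Λ[X],
      e (algebraMap Λ[X] (RatFunc Λ) p) = aeval s p := by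
    refine ⟨(RatFunc.algEquivOfTranscendental s hs).trans
      ((IntermediateField.equivOfEq hgs).trans IntermediateField.topEquiv), fun p => ?_⟩
    rw [AlgEquiv.trans_apply, AlgEquiv.trans_apply, RatFunc.algEquivOfTranscendental_algebraMap]
    have h1 : ((aeval (AdjoinSimple.gen Λ s) p : IntermediateField.adjoin Λ {s}) : Z) =
        aeval s p := by
      have h2 := Polynomial.aeval_algHom_apply (IntermediateField.adjoin Λ {s}).val
        (AdjoinSimple.gen Λ s) p
      exact h2.symm
    exact h1
  obtain ⟨f, hf⟩ := e.surjective u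
  have hft : IntermediateField.adjoin Λ {f} = ⊤ := map_top_inj e f (by rw [hf]; exact hgu)
  have h1 : f.num.natDegree ≤ 1 ∧ f.denom.natDegree ≤ 1 := by
    have h2 := RatFunc.finrank_eq_max_natDegree f
    rw [hft, IntermediateField.finrank_top] at h2
    have h3 := le_max_left f.num.natDegree f.denom.natDegree
    have h4 := le_max_right f.num.natDegree f.denom.natDegree
    omega
  have hexp : ∀ p : Λ[X], p.natDegree ≤ 1 → aeval s p =
      algebraMap Λ Z (p.coeff 1) * s + algebraMap Λ Z (p.coeff 0) := by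
    intro p hp
    conv_lhs => rw [Polynomial.eq_X_add_C_of_natDegree_le_one hp]
    rw [map_add, map_mul, aeval_C, aeval_C, aeval_X]
  have h2 : e f * aeval s f.denom = aeval s f.num := by
    rw [← he, ← he, ← map_mul]
    congr 1
    have h3 : algebraMap Λ[X] (RatFunc Λ) f.denom ≠ 0 := by
      intro h
      exact f.denom_ne_zero ((IsFractionRing.injective Λ[X] (RatFunc Λ)) (by rw [h, map_zero]))
    have h4 := RatFunc.num_div_denom f
    rw [div_eq_iff h3] at h4
    exact h4.symm
  have h3 : aeval s f.denom ≠ 0 := by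
    rw [← he]
    intro h
    have h4 := e.injective (h.trans (map_zero e).symm)
    exact f.denom_ne_zero ((IsFractionRing.injective Λ[X] (RatFunc Λ)) (by rw [h4, map_zero]))
  rw [hf, hexp _ h1.1, hexp _ h1.2] at h2
  rw [hexp _ h1.2] at h3
  refine ⟨f.num.coeff 1, f.num.coeff 0, f.denom.coeff 1, f.denom.coeff 0, fun h0 => ?_, h3, h2⟩
  -- otherwise `u` is constant
  have hu : ∃ l : Λ, u = algebraMap Λ Z l := by
    by_cases hd : f.denom.coeff 0 = 0
    · have hc : f.denom.coeff 1 ≠ 0 := by
        intro hc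
        apply h3
        rw [hd, hc, map_zero, zero_mul, add_zero]
      have hb : f.num.coeff 0 = 0 := by
        rw [hd, mul_zero, zero_sub, neg_eq_zero] at h0
        exact (mul_eq_zero.1 h0).resolve_right hc
      refine ⟨f.num.coeff 1 / f.denom.coeff 1, ?_⟩
      refine mul_right_cancel₀ h3 ?_
      rw [h2, hb, hd, map_zero, add_zero, add_zero, map_div₀]
      have hc' : algebraMap Λ Z (f.denom.coeff 1) ≠ 0 := (_root_.map_ne_zero _).2 hc
      field_simp
    · refine ⟨f.num.coeff 0 / f.denom.coeff 0, ?_⟩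
      refine mul_right_cancel₀ h3 ?_
      have hd' : algebraMap Λ Z (f.denom.coeff 0) ≠ 0 := (_root_.map_ne_zero _).2 hd
      rw [h2, map_div₀]
      have h5 : algebraMap Λ Z (f.num.coeff 1) * algebraMap Λ Z (f.denom.coeff 0) =
          algebraMap Λ Z (f.num.coeff 0) * algebraMap Λ Z (f.denom.coeff 1) := by
        rw [← map_mul, ← map_mul, sub_eq_zero.1 h0]
      field_simp
      linear_combination s * h5
  obtain ⟨l, rfl⟩ := hu
  apply hs
  have h5 : s ∈ IntermediateField.adjoin Λ {algebraMap Λ Z l} := by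
    rw [hgu]
    trivial
  rw [IntermediateField.adjoin_simple_eq_bot_iff.2 (IntermediateField.algebraMap_mem ⊥ l),
    IntermediateField.mem_bot] at h5
  obtain ⟨z, rfl⟩ := h5
  exact isAlgebraic_algebraMap z

/-- the span of `1, s, s ^ 2` -/
def IsQ (s g : Z) : Prop := ∃ a b c : Λ, g = algebraMap Λ Z a + algebraMap Λ Z b * s +
  algebraMap Λ Z c * s ^ 2

theorem IsQ.add {s g h : Z} (hg : IsQ (Λ := Λ) s g) (hh : IsQ (Λ := Λ) s h) :
    IsQ (Λ := Λ) s (g + h) := by
  obtain ⟨a, b, c, rfl⟩ := hg
  obtain ⟨a', b', c', rfl⟩ := hh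
  exact ⟨a + a', b + b', c + c', by rw [map_add, map_add, map_add]; ring⟩

theorem IsQ.smul {s g : Z} (l : Λ) (hg : IsQ (Λ := Λ) s g) :
    IsQ (Λ := Λ) s (algebraMap Λ Z l * g) := by
  obtain ⟨a, b, c, rfl⟩ := hg
  exact ⟨l * a, l * b, l * c, by rw [map_mul, map_mul, map_mul]; ring⟩

theorem IsQ.zero {s : Z} : IsQ (Λ := Λ) s 0 := ⟨0, 0, 0, by simp⟩

theorem IsQ.sum {s : Z} {ι : Type} (t : Finset ι) (g : ι → Z)
    (h : ∀ i ∈ t, IsQ (Λ := Λ) s (g i)) : IsQ (Λ := Λ) s (∑ i ∈ t, g i) := by
  classical
  induction t using Finset.induction_on with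
  | empty => rw [Finset.sum_empty]; exact .zero
  | insert i t hi ih =>
    rw [Finset.sum_insert hi]
    exact (h i (Finset.mem_insert_self i t)).add (ih fun j hj => h j (Finset.mem_insert_of_mem hj))

/-- the coefficients of a quadratic polynomial in a transcendental element -/
theorem coeffs_zero {s : Z} (hs : Transcendental Λ s) {a b c : Λ}
    (h : algebraMap Λ Z a + algebraMap Λ Z b * s + algebraMap Λ Z c * s ^ 2 = 0) :
    a = 0 ∧ b = 0 ∧ c = 0 := by
  have h1 : aeval s (C a + C b * X + C c * X ^ 2 : Λ[X]) = 0 := by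
    simp only [map_add, map_mul, map_pow, aeval_C, aeval_X]
    exact h
  have h2 : (C a + C b * X + C c * X ^ 2 : Λ[X]) = 0 := by
    by_contra h3
    exact hs ⟨_, h3, h1⟩
  have e0 := congrArg (fun p => p.coeff 0) h2
  have e1 := congrArg (fun p => p.coeff 1) h2
  have e2 := congrArg (fun p => p.coeff 2) h2
  simp [coeff_X, coeff_C, coeff_X_pow] at e0 e1 e2
  exact ⟨e0, e1, e2⟩

variable [CharZero Λ]

/-- **The field generated by the quotient of two vector fields and their bracket.** -/
theorem mem_gen {s : Z} (hs : Transcendental Λ s) {a b c d e f : Λ} {g1 g2 w : Z}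
    (h1 : g1 = algebraMap Λ Z d + algebraMap Λ Z e * s + algebraMap Λ Z f * s ^ 2)
    (h2 : g2 = algebraMap Λ Z a + algebraMap Λ Z b * s + algebraMap Λ Z c * s ^ 2)
    (hw : w = algebraMap Λ Z (a * e - b * d) + algebraMap Λ Z (2 * (a * f - c * d)) * s +
      algebraMap Λ Z (b * f - c * e) * s ^ 2) (hg2 : g2 ≠ 0)
    (hx : ∀ l : Λ, g1 / g2 ≠ algebraMap Λ Z l) (N : IntermediateField Λ Z)
    (hxN : g1 / g2 ∈ N) (hyN : w / g2 ∈ N) : s ∈ N := by
  have two0 : (2 : Λ) ≠ 0 := two_ne_zero
  have hm : ∀ l : Λ, algebraMap Λ Z l ∈ N := fun l => N.algebraMap_mem l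
  -- a fractional linear expression
  have key : ∀ p q r t : Λ, p * t - q * r ≠ 0 →
      algebraMap Λ Z p + algebraMap Λ Z q * s ≠ 0 →
      (algebraMap Λ Z r + algebraMap Λ Z t * s) / (algebraMap Λ Z p + algebraMap Λ Z q * s) ∈ N →
      s ∈ N := by
    intro p q r t hne hne' hmem
    obtain ⟨x, hx⟩ : ∃ x, x = (algebraMap Λ Z r + algebraMap Λ Z t * s) /
      (algebraMap Λ Z p + algebraMap Λ Z q * s) := ⟨_, rfl⟩
    rw [← hx] at hmem
    have h3 : x * (algebraMap Λ Z p + algebraMap Λ Z q * s) =
        algebraMap Λ Z r + algebraMap Λ Z t * s := by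
      rw [hx, div_mul_cancel₀ _ hne']
    have h4 : x * algebraMap Λ Z q - algebraMap Λ Z t ≠ 0 := by
      intro h0
      have h5 : x * algebraMap Λ Z p = algebraMap Λ Z r := by linear_combination h3 - s * h0
      by_cases hq : q = 0
      · rw [hq, map_zero, mul_zero, zero_sub, neg_eq_zero, map_eq_zero] at h0
        apply hne
        rw [h0, hq]
        ring
      · have hq' : algebraMap Λ Z q ≠ 0 := (_root_.map_ne_zero _).2 hq
        have h6 : x = algebraMap Λ Z (t / q) := by
          rw [map_div₀, eq_div_iff hq']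
          exact sub_eq_zero.1 h0
        rw [h6, ← map_mul] at h5
        have h7 := (algebraMap Λ Z).injective h5
        apply hne
        rw [← h7]
        field_simp
        ring
    have h5 : s = (algebraMap Λ Z r - x * algebraMap Λ Z p) /
        (x * algebraMap Λ Z q - algebraMap Λ Z t) := by
      rw [eq_div_iff h4]
      linear_combination h3
    rw [h5]
    exact div_mem (sub_mem (hm r) (mul_mem hmem (hm p))) (sub_mem (mul_mem hmem (hm q)) (hm t))
  by_cases hdet : (2 * (a * f - c * d)) ^ 2 - 4 * (a * e - b * d) * (b * f - c * e) = 0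
  swap
  · -- `g1, g2, w` span the quadratic polynomials
    obtain ⟨x, hxd⟩ : ∃ x, x = g1 / g2 := ⟨_, rfl⟩
    obtain ⟨y, hyd⟩ : ∃ y, y = w / g2 := ⟨_, rfl⟩
    rw [← hxd] at hxN
    rw [← hyd] at hyN
    have ex : x * g2 = g1 := by rw [hxd, div_mul_cancel₀ _ hg2]
    have ey : y * g2 = w := by rw [hyd, div_mul_cancel₀ _ hg2]
    obtain ⟨δ, hδ⟩ : ∃ δ : Λ, δ = 2 * (a * e - b * d) * (b * f - c * e) -
      2 * (a * f - c * d) ^ 2 := ⟨_, rfl⟩
    have hδ0 : δ ≠ 0 := by
      intro h0
      apply hdet
      rw [hδ] at h0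
      linear_combination (-2) * h0
    have hδ' : algebraMap Λ Z δ ≠ 0 := (_root_.map_ne_zero _).2 hδ0
    obtain ⟨A, hA⟩ : ∃ A, A = algebraMap Λ Z a := ⟨_, rfl⟩
    obtain ⟨B, hB⟩ : ∃ B, B = algebraMap Λ Z b := ⟨_, rfl⟩
    obtain ⟨C', hC⟩ : ∃ C', C' = algebraMap Λ Z c := ⟨_, rfl⟩
    obtain ⟨D, hD⟩ : ∃ D, D = algebraMap Λ Z d := ⟨_, rfl⟩
    obtain ⟨E, hE⟩ : ∃ E, E = algebraMap Λ Z e := ⟨_, rfl⟩
    obtain ⟨F, hF⟩ : ∃ F, F = algebraMap Λ Z f := ⟨_, rfl⟩
    have hAm : A ∈ N := by rw [hA]; exact hm a
    have hBm : B ∈ N := by rw [hB]; exact hm b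
    have hCm : C' ∈ N := by rw [hC]; exact hm c
    have hDm : D ∈ N := by rw [hD]; exact hm d
    have hEm : E ∈ N := by rw [hE]; exact hm e
    have hFm : F ∈ N := by rw [hF]; exact hm f
    have hδe : algebraMap Λ Z δ = 2 * (A * E - B * D) * (B * F - C' * E) -
        2 * (A * F - C' * D) ^ 2 := by
      rw [hδ, hA, hB, hC, hD, hE, hF]
      simp only [map_sub, map_mul, map_pow, map_ofNat]
    have e1 : g1 = D + E * s + F * s ^ 2 := by rw [h1, hD, hE, hF]
    have e2 : g2 = A + B * s + C' * s ^ 2 := by rw [h2, hA, hB, hC]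
    have e3 : w = (A * E - B * D) + 2 * (A * F - C' * D) * s + (B * F - C' * E) * s ^ 2 := by
      rw [hw, hA, hB, hC, hD, hE, hF]
      simp only [map_sub, map_mul, map_ofNat]
    -- cofactors
    have c1 : algebraMap Λ Z δ = g2 * ((E * (B * F - C' * E) - F * (2 * (A * F - C' * D))) +
        x * (C' * (2 * (A * F - C' * D)) - B * (B * F - C' * E)) + y * (B * F - C' * E)) := by
      have : g2 * ((E * (B * F - C' * E) - F * (2 * (A * F - C' * D))) +
        x * (C' * (2 * (A * F - C' * D)) - B * (B * F - C' * E)) + y * (B * F - C' * E)) =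
        g2 * (E * (B * F - C' * E) - F * (2 * (A * F - C' * D))) +
        (x * g2) * (C' * (2 * (A * F - C' * D)) - B * (B * F - C' * E)) +
        (y * g2) * (B * F - C' * E) := by ring
      rw [this, ex, ey, hδe, e1, e2, e3]
      ring
    have c2 : s * algebraMap Λ Z δ = g2 * ((F * (A * E - B * D) - D * (B * F - C' * E)) +
        x * (A * (B * F - C' * E) - C' * (A * E - B * D)) + y * (C' * D - A * F)) := by
      have : g2 * ((F * (A * E - B * D) - D * (B * F - C' * E)) +
        x * (A * (B * F - C' * E) - C' * (A * E - B * D)) + y * (C' * D - A * F)) =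
        g2 * (F * (A * E - B * D) - D * (B * F - C' * E)) +
        (x * g2) * (A * (B * F - C' * E) - C' * (A * E - B * D)) +
        (y * g2) * (C' * D - A * F) := by ring
      rw [this, ex, ey, hδe, e1, e2, e3]
      ring
    have n2 : (2 : Z) ∈ N := by
      have := hm 2
      rwa [map_ofNat] at this
    have m1 : (E * (B * F - C' * E) - F * (2 * (A * F - C' * D))) +
        x * (C' * (2 * (A * F - C' * D)) - B * (B * F - C' * E)) + y * (B * F - C' * E) ∈ N := by
      have q1 : B * F - C' * E ∈ N := sub_mem (mul_mem hBm hFm) (mul_mem hCm hEm)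
      have q2 : 2 * (A * F - C' * D) ∈ N :=
        mul_mem n2 (sub_mem (mul_mem hAm hFm) (mul_mem hCm hDm))
      exact add_mem (add_mem (sub_mem (mul_mem hEm q1) (mul_mem hFm q2))
        (mul_mem hxN (sub_mem (mul_mem hCm q2) (mul_mem hBm q1)))) (mul_mem hyN q1)
    have m2 : (F * (A * E - B * D) - D * (B * F - C' * E)) +
        x * (A * (B * F - C' * E) - C' * (A * E - B * D)) + y * (C' * D - A * F) ∈ N := by
      have q1 : B * F - C' * E ∈ N := sub_mem (mul_mem hBm hFm) (mul_mem hCm hEm)
      have q2 : A * E - B * D ∈ N := sub_mem (mul_mem hAm hEm) (mul_mem hBm hDm)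
      have q3 : C' * D - A * F ∈ N := sub_mem (mul_mem hCm hDm) (mul_mem hAm hFm)
      exact add_mem (add_mem (sub_mem (mul_mem hFm q2) (mul_mem hDm q1))
        (mul_mem hxN (sub_mem (mul_mem hAm q1) (mul_mem hCm q2)))) (mul_mem hyN q3)
    have hu : s = ((F * (A * E - B * D) - D * (B * F - C' * E)) +
        x * (A * (B * F - C' * E) - C' * (A * E - B * D)) + y * (C' * D - A * F)) /
        ((E * (B * F - C' * E) - F * (2 * (A * F - C' * D))) +
        x * (C' * (2 * (A * F - C' * D)) - B * (B * F - C' * E)) + y * (B * F - C' * E)) := by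
      rw [eq_div_iff]
      · refine mul_left_cancel₀ hg2 ?_
        rw [← c2, mul_left_comm, ← c1]
      · intro h0
        rw [h0, mul_zero] at c1
        exact hδ' c1
    rw [hu]
    exact div_mem m2 m1
  · -- a common root
    obtain ⟨p, hp⟩ : ∃ p, p = a * e - b * d := ⟨_, rfl⟩
    obtain ⟨q, hq⟩ : ∃ q, q = a * f - c * d := ⟨_, rfl⟩
    obtain ⟨v, hv⟩ : ∃ v, v = b * f - c * e := ⟨_, rfl⟩
    rw [← hp, ← hq, ← hv] at hdet
    have hqq : q ^ 2 = p * v := by
      have h4 : (4 : Λ) ≠ 0 := by norm_num
      refine mul_left_cancel₀ h4 ?_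
      linear_combination hdet
    have i1 : a * v - b * q + c * p = 0 := by rw [hp, hq, hv]; ring
    have i2 : d * v - e * q + f * p = 0 := by rw [hp, hq, hv]; ring
    by_cases hv0 : v = 0
    · have hq0 : q = 0 := by
        rw [hv0, mul_zero] at hqq
        exact pow_eq_zero_iff two_ne_zero |>.1 hqq
      have hp0 : p ≠ 0 := by
        intro hp0
        rw [hp0] at hp
        rw [hq0] at hq
        rw [hv0] at hv
        have habc : a ≠ 0 ∨ b ≠ 0 ∨ c ≠ 0 := by
          by_contra hcon
          push Not at hcon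
          apply hg2
          rw [h2, hcon.1, hcon.2.1, hcon.2.2]
          simp
        rcases habc with ha | hb | hc
        · refine hx (d / a) ?_
          rw [div_eq_iff hg2, h1, h2, map_div₀]
          have ha' : algebraMap Λ Z a ≠ 0 := (_root_.map_ne_zero _).2 ha
          have e1 : algebraMap Λ Z a * algebraMap Λ Z e = algebraMap Λ Z b * algebraMap Λ Z d := by
            rw [← map_mul, ← map_mul, sub_eq_zero.1 hp.symm]
          have e2 : algebraMap Λ Z a * algebraMap Λ Z f = algebraMap Λ Z c * algebraMap Λ Z d := by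
            rw [← map_mul, ← map_mul, sub_eq_zero.1 hq.symm]
          field_simp
          linear_combination s * e1 + s ^ 2 * e2
        · refine hx (e / b) ?_
          rw [div_eq_iff hg2, h1, h2, map_div₀]
          have hb' : algebraMap Λ Z b ≠ 0 := (_root_.map_ne_zero _).2 hb
          have e1 : algebraMap Λ Z a * algebraMap Λ Z e = algebraMap Λ Z b * algebraMap Λ Z d := by
            rw [← map_mul, ← map_mul, sub_eq_zero.1 hp.symm]
          have e2 : algebraMap Λ Z b * algebraMap Λ Z f = algebraMap Λ Z c * algebraMap Λ Z e := by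
            rw [← map_mul, ← map_mul, sub_eq_zero.1 hv.symm]
          field_simp
          linear_combination s ^ 2 * e2 - e1
        · refine hx (f / c) ?_
          rw [div_eq_iff hg2, h1, h2, map_div₀]
          have hc' : algebraMap Λ Z c ≠ 0 := (_root_.map_ne_zero _).2 hc
          have e1 : algebraMap Λ Z a * algebraMap Λ Z f = algebraMap Λ Z c * algebraMap Λ Z d := by
            rw [← map_mul, ← map_mul, sub_eq_zero.1 hq.symm]
          have e2 : algebraMap Λ Z b * algebraMap Λ Z f = algebraMap Λ Z c * algebraMap Λ Z e := by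
            rw [← map_mul, ← map_mul, sub_eq_zero.1 hv.symm]
          field_simp
          linear_combination -e1 - s * e2
      have hf0 : f = 0 := by
        have h3 : f * p = 0 := by
          rw [hp]
          linear_combination e * (hq0 ▸ hq.symm : a * f - c * d = 0) -
            d * (hv0 ▸ hv.symm : b * f - c * e = 0)
        exact (mul_eq_zero.1 h3).resolve_right hp0
      have hc0 : c = 0 := by
        have h3 : c * p = 0 := by
          rw [hp]
          linear_combination b * (hq0 ▸ hq.symm : a * f - c * d = 0) -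
            a * (hv0 ▸ hv.symm : b * f - c * e = 0)
        exact (mul_eq_zero.1 h3).resolve_right hp0
      rw [hf0, map_zero, zero_mul, add_zero] at h1
      rw [hc0, map_zero, zero_mul, add_zero] at h2
      rw [h1, h2] at hxN
      rw [h2] at hg2
      exact key a b d e (by rw [← hp]; exact hp0) hg2 hxN
    · obtain ⟨s0, hs0⟩ : ∃ s0, s0 = - q / v := ⟨_, rfl⟩
      have r1 : a + b * s0 + c * s0 ^ 2 = 0 := by
        rw [hs0]
        field_simp
        linear_combination v * i1 + c * hqq
      have r2 : d + e * s0 + f * s0 ^ 2 = 0 := by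
        rw [hs0]
        field_simp
        linear_combination v * i2 + f * hqq
      obtain ⟨S, hS⟩ : ∃ S, S = algebraMap Λ Z s0 := ⟨_, rfl⟩
      have r1' : algebraMap Λ Z a + algebraMap Λ Z b * S + algebraMap Λ Z c * S ^ 2 = 0 := by
        rw [hS, ← map_mul, ← map_pow, ← map_mul, ← map_add, ← map_add, r1, map_zero]
      have r2' : algebraMap Λ Z d + algebraMap Λ Z e * S + algebraMap Λ Z f * S ^ 2 = 0 := by
        rw [hS, ← map_mul, ← map_pow, ← map_mul, ← map_add, ← map_add, r2, map_zero]
      have f2 : g2 = (s - S) * (algebraMap Λ Z (b + c * s0) + algebraMap Λ Z c * s) := by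
        rw [h2, map_add, map_mul, ← hS]
        linear_combination r1'
      have f1 : g1 = (s - S) * (algebraMap Λ Z (e + f * s0) + algebraMap Λ Z f * s) := by
        rw [h1, map_add, map_mul, ← hS]
        linear_combination r2'
      have hsS : s - S ≠ 0 := fun h => hg2 (by rw [f2, h, zero_mul])
      have hl : algebraMap Λ Z (b + c * s0) + algebraMap Λ Z c * s ≠ 0 := fun h =>
        hg2 (by rw [f2, h, mul_zero])
      rw [f1, f2, mul_div_mul_left _ _ hsS] at hxN
      exact key (b + c * s0) c (e + f * s0) f (by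
        have h3 : (b + c * s0) * f - c * (e + f * s0) = v := by rw [hv]; ring
        rw [h3]
        exact hv0) hl hxN

end

end Pool.Agent.L5helper25.Con
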