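import Pool.Agent.L5helper25.Con1
import Pool.Agent.R882.GLa
import Pool.Agent.Helper386.D5V.Helper386_FF_Div

/-!
Curves of genus zero over a field which is not algebraically closed: descent of vector fields.
-/

set_option autoImplicit false
set_option linter.overlappingInstances false
set_option linter.unusedSectionVars false
set_option linter.unusedVariables false
set_option maxHeartbeats 4000000
set_option synthInstance.maxHeartbeats 400000

open Polynomial IntermediateField Module FF

namespace Pool.Agent.L5helper25.Con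

section

variable {Λ Z : Type} [Field Λ] [Field Z] [Algebra Λ Z]

theorem fin_closure (A : Set Z) {z : Z}
    (hz : z ∈ Subfield.closure (A ∪ Set.range (algebraMap Λ Z))) :
    ∃ S : Finset Λ, z ∈ Subfield.closure (A ∪ (algebraMap Λ Z) '' (S : Set Λ)) := by
  classical
  have mono : ∀ S T : Finset Λ, S ⊆ T → Subfield.closure (A ∪ (algebraMap Λ Z) '' (S : Set Λ)) ≤
      Subfield.closure (A ∪ (algebraMap Λ Z) '' (T : Set Λ)) := fun S T h =>
    Subfield.closure_mono (Set.union_subset_union_right A
      (Set.image_mono (Finset.coe_subset.2 h)))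
  induction hz using Subfield.closure_induction with
  | mem x hx =>
    rcases hx with hx | ⟨c, rfl⟩
    · exact ⟨∅, Subfield.subset_closure (Or.inl hx)⟩
    · exact ⟨{c}, Subfield.subset_closure (Or.inr ⟨c, by simp, rfl⟩)⟩
  | one => exact ⟨∅, one_mem _⟩
  | add x y _ _ hx hy =>
    obtain ⟨S, hS⟩ := hx
    obtain ⟨T, hT⟩ := hy
    exact ⟨S ∪ T, add_mem (mono S _ Finset.subset_union_left hS)
      (mono T _ Finset.subset_union_right hT)⟩
  | neg x _ hx =>
    obtain ⟨S, hS⟩ := hx
    exact ⟨S, neg_mem hS⟩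
  | inv x _ hx =>
    obtain ⟨S, hS⟩ := hx
    exact ⟨S, inv_mem hS⟩
  | mul x y _ _ hx hy =>
    obtain ⟨S, hS⟩ := hx
    obtain ⟨T, hT⟩ := hy
    exact ⟨S ∪ T, mul_mem (mono S _ Finset.subset_union_left hS)
      (mono T _ Finset.subset_union_right hT)⟩

/-- elements which are algebraic over an algebraically closed field -/
theorem mem_of_alg {Ω : Type} [Field Ω] [Algebra Λ Ω] [IsAlgClosed Λ] (x : Ω)
    (hx : IsAlgebraic Λ x) : ∃ l : Λ, x = algebraMap Λ Ω l := by
  have h1 := IsAlgClosed.degree_eq_one_of_irreducible Λ (minpoly.irreducible hx.isIntegral)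
  have h2 := minpoly.mem_range_of_degree_eq_one Λ x h1
  obtain ⟨l, hl⟩ := h2
  exact ⟨l, hl.symm⟩

end

section

variable {E M Λ Z : Type} [Field E] [Field M] [Field Λ] [Field Z] [Algebra E M] [Algebra E Λ]
  [Algebra Λ Z] [Algebra M Z] [Algebra E Z] [IsScalarTower E Λ Z] [IsScalarTower E M Z]

/-- **Finitely many algebraic elements suffice.** -/
theorem setup [Algebra.EssFiniteType E M]
    (hZ : IntermediateField.adjoin Λ (Set.range (algebraMap M Z)) = ⊤) {s : Z}
    (hgen : IntermediateField.adjoin Λ {s} = ⊤) : ∃ S : Finset Λ,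
      s ∈ IntermediateField.adjoin M ((algebraMap Λ Z) '' (S : Set Λ)) ∧
      ∀ m : M, algebraMap M Z m ∈ Subfield.closure ((Set.range (algebraMap E Z) ∪ {s}) ∪
        (algebraMap Λ Z) '' (S : Set Λ)) := by
  classical
  have h1 : s ∈ Subfield.closure (Set.range (algebraMap M Z) ∪ Set.range (algebraMap Λ Z)) := by
    have h2 : s ∈ IntermediateField.adjoin Λ (Set.range (algebraMap M Z)) := by
      rw [hZ]
      trivial
    rw [Set.union_comm]
    exact h2
  obtain ⟨S0, hS0⟩ := fin_closure _ h1
  have h3 : ∀ z : Z, ∃ S : Finset Λ, z ∈ Subfield.closure ((Set.range (algebraMap E Z) ∪ {s}) ∪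
      (algebraMap Λ Z) '' (S : Set Λ)) := by
    intro z
    refine fin_closure _ ?_
    have h4 : z ∈ IntermediateField.adjoin Λ {s} := by
      rw [hgen]
      trivial
    have h5 : Subfield.closure (Set.range (algebraMap Λ Z) ∪ {s}) ≤
        Subfield.closure ((Set.range (algebraMap E Z) ∪ {s}) ∪ Set.range (algebraMap Λ Z)) := by
      refine Subfield.closure_mono ?_
      rintro x (hx | hx)
      · exact Or.inr hx
      · exact Or.inl (Or.inr hx)
    exact h5 h4
  choose Sf hSf using h3
  obtain ⟨G, hG⟩ := IntermediateField.fg_top E M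
  let S : Finset Λ := S0 ∪ G.biUnion fun g => Sf (algebraMap M Z g)
  have hS0' : S0 ⊆ S := Finset.subset_union_left
  have hSg : ∀ g ∈ G, Sf (algebraMap M Z g) ⊆ S := fun g hg =>
    (Finset.subset_biUnion_of_mem (fun g => Sf (algebraMap M Z g)) hg).trans
      Finset.subset_union_right
  refine ⟨S, ?_, fun m => ?_⟩
  · have h4 : Subfield.closure (Set.range (algebraMap M Z) ∪ (algebraMap Λ Z) '' (S0 : Set Λ)) ≤
        Subfield.closure (Set.range (algebraMap M Z) ∪ (algebraMap Λ Z) '' (S : Set Λ)) :=
      Subfield.closure_mono (Set.union_subset_union_right _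
        (Set.image_mono (Finset.coe_subset.2 hS0')))
    exact h4 hS0
  · obtain ⟨N, hN⟩ : ∃ N : IntermediateField E Z, N.toSubfield =
        Subfield.closure ((Set.range (algebraMap E Z) ∪ {s}) ∪
        (algebraMap Λ Z) '' (S : Set Λ)) := by
      refine ⟨IntermediateField.adjoin E ({s} ∪ (algebraMap Λ Z) '' (S : Set Λ)), ?_⟩
      rw [Set.union_assoc]
      rfl
    have h4 : IntermediateField.adjoin E (G : Set M) ≤
        N.comap (IsScalarTower.toAlgHom E M Z) := by
      rw [IntermediateField.adjoin_le_iff]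
      intro g hg
      change algebraMap M Z g ∈ N.toSubfield
      rw [hN]
      exact Subfield.closure_mono (Set.union_subset_union_right _
        (Set.image_mono (Finset.coe_subset.2 (hSg g hg)))) (hSf (algebraMap M Z g))
    have h5 : m ∈ IntermediateField.adjoin E (G : Set M) := by
      rw [hG]
      trivial
    have h6 : algebraMap M Z m ∈ N.toSubfield := h4 h5
    rwa [hN] at h6

variable [CharZero E] [IsAlgClosed Λ]

/-- the embeddings of `M1` over `M` have their values in `Z` -/
theorem exists_rho (hE : Algebra.IsAlgebraic E Λ) {T : Set Z} (hT : ∀ t ∈ T, ∃ c : Λ, t = algebraMap Λ Z c)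
    (τ : IntermediateField.adjoin M T →ₐ[M] AlgebraicClosure Z) :
    ∃ ρ : IntermediateField.adjoin M T →ₐ[M] Z, ∀ z, algebraMap Z (AlgebraicClosure Z) (ρ z) =
      τ z := by
  let j : Z →ₐ[M] AlgebraicClosure Z := IsScalarTower.toAlgHom M Z (AlgebraicClosure Z)
  have hmem : ∀ z, τ z ∈ j.fieldRange := by
    intro z
    have h1 : IntermediateField.adjoin M T ≤
        (j.fieldRange.comap τ).map (IntermediateField.adjoin M T).val := by
      rw [IntermediateField.adjoin_le_iff]
      intro t ht
      obtain ⟨c, hc⟩ := hT t ht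
      refine ⟨⟨t, IntermediateField.subset_adjoin M T ht⟩, ?_, rfl⟩
      change τ _ ∈ j.fieldRange
      have hc1 : IsAlgebraic E c := Algebra.IsAlgebraic.isAlgebraic c
      have hc2 : IsAlgebraic E t := by
        rw [hc]
        exact hc1.algebraMap
      have hc3 : IsAlgebraic E (⟨t, IntermediateField.subset_adjoin M T ht⟩ :
          IntermediateField.adjoin M T) := by
        obtain ⟨p, hp0, hp⟩ := hc2
        refine ⟨p, hp0, ?_⟩
        apply Subtype.ext
        have h2 := Polynomial.aeval_algHom_apply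
          ((IntermediateField.adjoin M T).val.restrictScalars E)
          (⟨t, IntermediateField.subset_adjoin M T ht⟩ : IntermediateField.adjoin M T) p
        change ((IntermediateField.adjoin M T).val.restrictScalars E) (aeval _ p) = _
        rw [← h2]
        exact hp
      have hc4 : IsAlgebraic E (τ ⟨t, IntermediateField.subset_adjoin M T ht⟩) :=
        hc3.algHom (τ.restrictScalars E)
      have hc5 : IsAlgebraic Λ (τ ⟨t, IntermediateField.subset_adjoin M T ht⟩) :=
        hc4.tower_top Λ
      obtain ⟨l, hl⟩ := mem_of_alg _ hc5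
      rw [hl, IsScalarTower.algebraMap_apply Λ Z (AlgebraicClosure Z)]
      exact ⟨_, rfl⟩
    obtain ⟨w, hw, hwz⟩ := h1 z.2
    have h2 : w = z := Subtype.ext hwz
    rw [← h2]
    exact hw
  let e := AlgEquiv.ofInjectiveField j
  refine ⟨(e.symm : j.range →ₐ[M] Z).comp (τ.codRestrict j.range hmem), fun z => ?_⟩
  have h1 : j (e.symm ⟨τ z, hmem z⟩) = ((e (e.symm ⟨τ z, hmem z⟩) : j.range) :
    AlgebraicClosure Z) := rfl
  change j (e.symm ⟨τ z, hmem z⟩) = τ z
  rw [h1, AlgEquiv.apply_symm_apply]

/-- constants go to constants -/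
theorem rho_const (hE : Algebra.IsAlgebraic E Λ) {T : Set Z} (ρ : IntermediateField.adjoin M T →ₐ[M] Z) (c : Λ)
    (hc : algebraMap Λ Z c ∈ IntermediateField.adjoin M T) :
    ∃ c' : Λ, ρ ⟨algebraMap Λ Z c, hc⟩ = algebraMap Λ Z c' := by
  have hc1 : IsAlgebraic E c := Algebra.IsAlgebraic.isAlgebraic c
  have hc2 : IsAlgebraic E (algebraMap Λ Z c) := hc1.algebraMap
  have hc3 : IsAlgebraic E (⟨algebraMap Λ Z c, hc⟩ : IntermediateField.adjoin M T) := by
    obtain ⟨p, hp0, hp⟩ := hc2
    refine ⟨p, hp0, ?_⟩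
    apply Subtype.ext
    have h2 := Polynomial.aeval_algHom_apply
      ((IntermediateField.adjoin M T).val.restrictScalars E)
      (⟨algebraMap Λ Z c, hc⟩ : IntermediateField.adjoin M T) p
    change ((IntermediateField.adjoin M T).val.restrictScalars E) (aeval _ p) = _
    rw [← h2]
    exact hp
  have hc4 : IsAlgebraic E (ρ ⟨algebraMap Λ Z c, hc⟩) := hc3.algHom (ρ.restrictScalars E)
  have hc5 : IsAlgebraic Λ (ρ ⟨algebraMap Λ Z c, hc⟩) := hc4.tower_top Λ
  exact mem_of_alg _ hc5

end

end Pool.Agent.L5helper25.Con
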