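import Pool.Agent.L5helper25.Con2

/-!
Curves of genus zero over a field which is not algebraically closed: vector fields over the field.
-/

set_option autoImplicit false
set_option linter.overlappingInstances false
set_option linter.unusedSectionVars false
set_option linter.unusedVariables false
set_option maxHeartbeats 4000000
set_option synthInstance.maxHeartbeats 400000

open Polynomial IntermediateField Module FF

namespace Pool.Agent.L5helper25.Con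

section

variable {E M Λ Z : Type} [Field E] [Field M] [Field Λ] [Field Z] [Algebra E M] [Algebra E Λ]
  [Algebra Λ Z] [Algebra M Z] [Algebra E Z] [IsScalarTower E Λ Z] [IsScalarTower E M Z]
  [CharZero E] [IsAlgClosed Λ]

/-- the image of the generator is a generator -/
theorem rho_gen (hE : Algebra.IsAlgebraic E Λ)
    (hZ : IntermediateField.adjoin Λ (Set.range (algebraMap M Z)) = ⊤) {s : Z}
    {T : Set Z} (hT : ∀ t ∈ T, ∃ c : Λ, t = algebraMap Λ Z c)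
    (hs1 : s ∈ IntermediateField.adjoin M T)
    (hM : ∀ m : M, algebraMap M Z m ∈ Subfield.closure ((Set.range (algebraMap E Z) ∪ {s}) ∪ T))
    (ρ : IntermediateField.adjoin M T →ₐ[M] Z) :
    IntermediateField.adjoin Λ {ρ ⟨s, hs1⟩} = ⊤ := by
  obtain ⟨A, hA⟩ : ∃ A, A = IntermediateField.adjoin Λ {ρ ⟨s, hs1⟩} := ⟨_, rfl⟩
  have key : ∀ z ∈ Subfield.closure ((Set.range (algebraMap E Z) ∪ {s}) ∪ T),
      ∃ hz : z ∈ IntermediateField.adjoin M T, ρ ⟨z, hz⟩ ∈ A := by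
    intro z hz
    induction hz using Subfield.closure_induction with
    | mem x hx =>
      rcases hx with (⟨e, rfl⟩ | hx) | hx
      · have h1 : algebraMap E Z e ∈ IntermediateField.adjoin M T := by
          rw [IsScalarTower.algebraMap_apply E M Z]
          exact IntermediateField.algebraMap_mem _ _
        refine ⟨h1, ?_⟩
        have h2 : ρ ⟨algebraMap E Z e, h1⟩ = algebraMap E Z e := by
          have h3 := ρ.commutes (algebraMap E M e)
          rw [← IsScalarTower.algebraMap_apply E M Z] at h3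
          refine Eq.trans (congrArg ρ ?_) h3
          apply Subtype.ext
          exact IsScalarTower.algebraMap_apply E M Z e
        rw [h2, IsScalarTower.algebraMap_apply E Λ Z]
        exact A.algebraMap_mem _
      · rw [Set.mem_singleton_iff] at hx
        subst hx
        refine ⟨hs1, ?_⟩
        rw [hA]
        exact IntermediateField.subset_adjoin Λ _ rfl
      · obtain ⟨c, hc⟩ := hT x hx
        subst hc
        refine ⟨IntermediateField.subset_adjoin M T hx, ?_⟩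
        obtain ⟨c', hc'⟩ := rho_const hE ρ c (IntermediateField.subset_adjoin M T hx)
        rw [hc']
        exact A.algebraMap_mem _
    | one => exact ⟨one_mem _, by
        have : ρ ⟨1, one_mem _⟩ = 1 := map_one ρ
        rw [this]
        exact one_mem _⟩
    | add x y _ _ hx hy =>
      obtain ⟨a, ha⟩ := hx
      obtain ⟨b, hb⟩ := hy
      refine ⟨add_mem a b, ?_⟩
      have : ρ ⟨x + y, add_mem a b⟩ = ρ ⟨x, a⟩ + ρ ⟨y, b⟩ := map_add ρ ⟨x, a⟩ ⟨y, b⟩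
      rw [this]
      exact add_mem ha hb
    | neg x _ hx =>
      obtain ⟨a, ha⟩ := hx
      refine ⟨neg_mem a, ?_⟩
      have : ρ ⟨-x, neg_mem a⟩ = -ρ ⟨x, a⟩ := map_neg ρ ⟨x, a⟩
      rw [this]
      exact neg_mem ha
    | inv x _ hx =>
      obtain ⟨a, ha⟩ := hx
      refine ⟨inv_mem a, ?_⟩
      have : ρ ⟨x⁻¹, inv_mem a⟩ = (ρ ⟨x, a⟩)⁻¹ := map_inv₀ ρ ⟨x, a⟩
      rw [this]
      exact inv_mem ha
    | mul x y _ _ hx hy =>
      obtain ⟨a, ha⟩ := hx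
      obtain ⟨b, hb⟩ := hy
      refine ⟨mul_mem a b, ?_⟩
      have : ρ ⟨x * y, mul_mem a b⟩ = ρ ⟨x, a⟩ * ρ ⟨y, b⟩ := map_mul ρ ⟨x, a⟩ ⟨y, b⟩
      rw [this]
      exact mul_mem ha hb
  rw [← hA, eq_top_iff, ← hZ, IntermediateField.adjoin_le_iff]
  rintro _ ⟨m, rfl⟩
  obtain ⟨h1, h2⟩ := key _ (hM m)
  have h3 : ρ ⟨algebraMap M Z m, h1⟩ = algebraMap M Z m := ρ.commutes m
  rw [h3] at h2
  exact h2

/-- the derivation and the embeddings -/
theorem rho_der (hE : Algebra.IsAlgebraic E Λ) {s : Z}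
    {T : Set Z} (hT : ∀ t ∈ T, ∃ c : Λ, t = algebraMap Λ Z c)
    (hs1 : s ∈ IntermediateField.adjoin M T) (D : Derivation Λ Z Z) (hD : D s = 1)
    (ρ : IntermediateField.adjoin M T →ₐ[M] Z) {z : Z}
    (hz : z ∈ Subfield.closure ((Set.range (algebraMap E Z) ∪ {s}) ∪ T)) :
    ∃ (hz1 : z ∈ IntermediateField.adjoin M T) (hz2 : D z ∈ IntermediateField.adjoin M T),
      D (ρ ⟨z, hz1⟩) = D (ρ ⟨s, hs1⟩) * ρ ⟨D z, hz2⟩ := by
  have hz0 : ρ ⟨0, zero_mem _⟩ = 0 := map_zero ρ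
  have hone : ρ ⟨1, one_mem _⟩ = 1 := map_one ρ
  have hcong : ∀ (a b : Z) (ha : a ∈ IntermediateField.adjoin M T) (hab : a = b),
      ρ ⟨a, ha⟩ = ρ ⟨b, hab ▸ ha⟩ := by
    intro a b ha hab
    subst hab
    rfl
  have hconst : ∀ c : Λ, ∀ hc : algebraMap Λ Z c ∈ IntermediateField.adjoin M T,
      ∃ (hz1 : algebraMap Λ Z c ∈ IntermediateField.adjoin M T)
        (hz2 : D (algebraMap Λ Z c) ∈ IntermediateField.adjoin M T),
        D (ρ ⟨algebraMap Λ Z c, hz1⟩) = D (ρ ⟨s, hs1⟩) * ρ ⟨D (algebraMap Λ Z c), hz2⟩ := by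
    intro c hc
    have h1 : D (algebraMap Λ Z c) = 0 := D.map_algebraMap c
    refine ⟨hc, by rw [h1]; exact zero_mem _, ?_⟩
    obtain ⟨c', hc'⟩ := rho_const hE ρ c hc
    rw [hc', D.map_algebraMap, hcong _ 0 _ h1, hz0, mul_zero]
  induction hz using Subfield.closure_induction with
  | mem x hx =>
    rcases hx with (⟨e, rfl⟩ | hx) | hx
    · have h1 : algebraMap E Z e ∈ IntermediateField.adjoin M T := by
        rw [IsScalarTower.algebraMap_apply E M Z]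
        exact IntermediateField.algebraMap_mem _ _
      have h2 := hconst (algebraMap E Λ e) (by
        rw [← IsScalarTower.algebraMap_apply E Λ Z]
        exact h1)
      rw [← IsScalarTower.algebraMap_apply E Λ Z] at h2
      exact h2
    · rw [Set.mem_singleton_iff] at hx
      subst hx
      refine ⟨hs1, by rw [hD]; exact one_mem _, ?_⟩
      rw [hcong _ 1 _ hD, hone, mul_one]
    · obtain ⟨c, hc⟩ := hT x hx
      subst hc
      exact hconst c (IntermediateField.subset_adjoin M T hx)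
  | one =>
    have h1 : D 1 = 0 := D.map_one_eq_zero
    refine ⟨one_mem _, by rw [h1]; exact zero_mem _, ?_⟩
    rw [hcong _ 0 _ h1, hz0, mul_zero, hone, h1]
  | add x y _ _ hx hy =>
    obtain ⟨a1, a2, ha⟩ := hx
    obtain ⟨b1, b2, hb⟩ := hy
    have h1 : D (x + y) = D x + D y := map_add D _ _
    refine ⟨add_mem a1 b1, by rw [h1]; exact add_mem a2 b2, ?_⟩
    have e1 : ρ ⟨x + y, add_mem a1 b1⟩ = ρ ⟨x, a1⟩ + ρ ⟨y, b1⟩ := map_add ρ ⟨x, a1⟩ ⟨y, b1⟩
    have e2 : ρ ⟨D x + D y, add_mem a2 b2⟩ = ρ ⟨D x, a2⟩ + ρ ⟨D y, b2⟩ :=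
      map_add ρ ⟨D x, a2⟩ ⟨D y, b2⟩
    rw [hcong _ _ _ h1, e2, e1, map_add, ha, hb]
    ring
  | neg x _ hx =>
    obtain ⟨a1, a2, ha⟩ := hx
    have h1 : D (-x) = -D x := map_neg D _
    refine ⟨neg_mem a1, by rw [h1]; exact neg_mem a2, ?_⟩
    have e1 : ρ ⟨-x, neg_mem a1⟩ = -ρ ⟨x, a1⟩ := map_neg ρ ⟨x, a1⟩
    have e2 : ρ ⟨-D x, neg_mem a2⟩ = -ρ ⟨D x, a2⟩ := map_neg ρ ⟨D x, a2⟩
    rw [hcong _ _ _ h1, e2, e1, map_neg, ha]
    ring
  | inv x _ hx =>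
    obtain ⟨a1, a2, ha⟩ := hx
    have h1 : D x⁻¹ = -x⁻¹ ^ 2 * D x := D.leibniz_inv x
    have h2 : -x⁻¹ ^ 2 * D x ∈ IntermediateField.adjoin M T :=
      mul_mem (neg_mem (pow_mem (inv_mem a1) 2)) a2
    refine ⟨inv_mem a1, by rw [h1]; exact h2, ?_⟩
    have e1 : ρ ⟨x⁻¹, inv_mem a1⟩ = (ρ ⟨x, a1⟩)⁻¹ := map_inv₀ ρ ⟨x, a1⟩
    have e2 : ρ ⟨-x⁻¹ ^ 2 * D x, h2⟩ = -(ρ ⟨x, a1⟩)⁻¹ ^ 2 * ρ ⟨D x, a2⟩ := by
      rw [← e1, ← map_pow, ← map_neg, ← map_mul]
      rfl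
    rw [hcong _ _ _ h1, e2, e1, D.leibniz_inv, smul_eq_mul, ha]
    ring
  | mul x y _ _ hx hy =>
    obtain ⟨a1, a2, ha⟩ := hx
    obtain ⟨b1, b2, hb⟩ := hy
    have h1 : D (x * y) = x * D y + y * D x := D.leibniz x y
    have h2 : x * D y + y * D x ∈ IntermediateField.adjoin M T :=
      add_mem (mul_mem a1 b2) (mul_mem b1 a2)
    refine ⟨mul_mem a1 b1, by rw [h1]; exact h2, ?_⟩
    have e1 : ρ ⟨x * y, mul_mem a1 b1⟩ = ρ ⟨x, a1⟩ * ρ ⟨y, b1⟩ := map_mul ρ ⟨x, a1⟩ ⟨y, b1⟩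
    have e2 : ρ ⟨x * D y + y * D x, h2⟩ = ρ ⟨x, a1⟩ * ρ ⟨D y, b2⟩ + ρ ⟨y, b1⟩ * ρ ⟨D x, a2⟩ := by
      rw [← map_mul, ← map_mul, ← map_add]
      rfl
    rw [hcong _ _ _ h1, e2, e1, D.leibniz, smul_eq_mul, smul_eq_mul, ha, hb]
    ring

/-- the derivative of a generator, and the quadratic polynomials -/
theorem moebius_der {s u : Z} (hs : Transcendental Λ s)
    (hgs : IntermediateField.adjoin Λ {s} = ⊤) (hgu : IntermediateField.adjoin Λ {u} = ⊤)
    (D : Derivation Λ Z Z) (hD : D s = 1) :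
    D u ≠ 0 ∧ IsQ (Λ := Λ) s (D u)⁻¹ ∧ IsQ (Λ := Λ) s (u * (D u)⁻¹) := by
  obtain ⟨a, b, c, d, hne, hne', h⟩ := moebius hs hgs hgu
  obtain ⟨A, hA⟩ : ∃ A, A = algebraMap Λ Z a := ⟨_, rfl⟩
  obtain ⟨B, hB⟩ : ∃ B, B = algebraMap Λ Z b := ⟨_, rfl⟩
  obtain ⟨C', hC⟩ : ∃ C', C' = algebraMap Λ Z c := ⟨_, rfl⟩
  obtain ⟨D', hD'⟩ : ∃ D', D' = algebraMap Λ Z d := ⟨_, rfl⟩
  obtain ⟨δ, hδ⟩ : ∃ δ, δ = algebraMap Λ Z (a * d - b * c) := ⟨_, rfl⟩
  have hδ0 : δ ≠ 0 := by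
    rw [hδ]
    exact (_root_.map_ne_zero _).2 hne
  have hδe : δ = A * D' - B * C' := by rw [hδ, hA, hB, hC, hD', map_sub, map_mul, map_mul]
  rw [← hC, ← hD'] at hne'
  rw [← hA, ← hB, ← hC, ← hD'] at h
  have dA : D A = 0 := by rw [hA]; exact D.map_algebraMap a
  have dB : D B = 0 := by rw [hB]; exact D.map_algebraMap b
  have dC : D C' = 0 := by rw [hC]; exact D.map_algebraMap c
  have dD : D D' = 0 := by rw [hD']; exact D.map_algebraMap d
  have h1 := congrArg D h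
  simp only [map_add, D.leibniz, smul_eq_mul, dA, dB, dC, dD, hD, mul_zero, add_zero, mul_one]
    at h1
  have h2 : D u * (C' * s + D') ^ 2 = δ := by
    rw [hδe]
    linear_combination (C' * s + D') * h1 - C' * h
  have hDu : D u ≠ 0 := by
    intro h0
    rw [h0, zero_mul] at h2
    exact hδ0 h2.symm
  have h3 : (D u)⁻¹ = (C' * s + D') ^ 2 * δ⁻¹ := by
    rw [← h2]
    field_simp
  have hδi : δ⁻¹ = algebraMap Λ Z (a * d - b * c)⁻¹ := by rw [map_inv₀, hδ]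
  refine ⟨hDu, ?_, ?_⟩
  · refine ⟨d ^ 2 * (a * d - b * c)⁻¹, 2 * c * d * (a * d - b * c)⁻¹,
      c ^ 2 * (a * d - b * c)⁻¹, ?_⟩
    rw [h3, hδi]
    simp only [map_mul, map_pow, map_ofNat, ← hC, ← hD']
    ring
  · refine ⟨b * d * (a * d - b * c)⁻¹, (a * d + b * c) * (a * d - b * c)⁻¹,
      a * c * (a * d - b * c)⁻¹, ?_⟩
    have h4 : u * (D u)⁻¹ = (A * s + B) * (C' * s + D') * δ⁻¹ := by
      rw [h3]
      linear_combination (C' * s + D') * δ⁻¹ * h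
    rw [h4, hδi]
    simp only [map_mul, map_add, ← hA, ← hB, ← hC, ← hD']
    ring

end

end Pool.Agent.L5helper25.Con
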