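import Pool.Agent.L5helper25.Con3

/-!
Curves of genus zero over a field which is not algebraically closed: the conic.
-/

set_option autoImplicit false
set_option linter.overlappingInstances false
set_option linter.unusedSectionVars false
set_option linter.unusedVariables false
set_option maxHeartbeats 4000000
set_option synthInstance.maxHeartbeats 400000

open Polynomial IntermediateField Module FF

namespace Pool.Agent.L5helper25.Con

section

variable {E M Λ Z : Type} [Field E] [Field M] [Field Λ] [Field Z] [Algebra E M] [Algebra E Λ]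
  [Algebra Λ Z] [Algebra M Z] [Algebra E Z] [IsScalarTower E Λ Z] [IsScalarTower E M Z]
  [CharZero E] [IsAlgClosed Λ]

/-- **Vector fields over `E`.** -/
theorem vf [Algebra.EssFiniteType E M] (hE : Algebra.IsAlgebraic E Λ)
    (hZ : IntermediateField.adjoin Λ (Set.range (algebraMap M Z)) = ⊤) {s : Z}
    (hs : Transcendental Λ s) (hgen : IntermediateField.adjoin Λ {s} = ⊤)
    (D : Derivation Λ Z Z) (hD : D s = 1) :
    ∃ g1 g2 : Z, IsQ (Λ := Λ) s g1 ∧ IsQ (Λ := Λ) s g2 ∧ g2 ≠ 0 ∧
      (∀ l : Λ, g1 / g2 ≠ algebraMap Λ Z l) ∧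
      (∀ m : M, ∃ m' : M, g1 * D (algebraMap M Z m) = algebraMap M Z m') ∧
      ∀ m : M, ∃ m' : M, g2 * D (algebraMap M Z m) = algebraMap M Z m' := by
  classical
  obtain ⟨S, hsS, hM⟩ := setup (E := E) hZ hgen
  have hMc : CharZero M := charZero_of_injective_algebraMap (algebraMap E M).injective
  obtain ⟨T, hTd⟩ : ∃ T : Set Z, T = (algebraMap Λ Z) '' (S : Set Λ) := ⟨_, rfl⟩
  rw [← hTd] at hsS hM
  have hTfin : Finite T := by
    rw [hTd]
    exact (S.finite_toSet.image _).to_subtype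
  have hT : ∀ t ∈ T, ∃ c : Λ, t = algebraMap Λ Z c := by
    rw [hTd]
    rintro _ ⟨c, _, rfl⟩
    exact ⟨c, rfl⟩
  have hfin : FiniteDimensional M (IntermediateField.adjoin M T) :=
    IntermediateField.finiteDimensional_adjoin fun t ht => by
      obtain ⟨c, rfl⟩ := hT t ht
      have hc1 : IsAlgebraic E c := Algebra.IsAlgebraic.isAlgebraic c
      have hc2 : IsAlgebraic E (algebraMap Λ Z c) := hc1.algebraMap
      exact (hc2.tower_top M).isIntegral
  obtain ⟨M1, hM1⟩ : ∃ M1, M1 = IntermediateField.adjoin M T := ⟨_, rfl⟩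
  choose ρ hρ using fun τ : IntermediateField.adjoin M T →ₐ[M] AlgebraicClosure Z =>
    exists_rho hE hT τ
  have htr : ∀ z : IntermediateField.adjoin M T,
      algebraMap M Z (Algebra.trace M (IntermediateField.adjoin M T) z) = ∑ τ, ρ τ z := by
    intro z
    apply (algebraMap Z (AlgebraicClosure Z)).injective
    rw [map_sum]
    simp only [hρ]
    rw [← IsScalarTower.algebraMap_apply M Z (AlgebraicClosure Z)]
    exact trace_eq_sum_embeddings (AlgebraicClosure Z)
  obtain ⟨u, hu⟩ : ∃ u : (IntermediateField.adjoin M T →ₐ[M] AlgebraicClosure Z) → Z,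
    ∀ τ, u τ = ρ τ ⟨s, hsS⟩ := ⟨_, fun _ => rfl⟩
  have hmd : ∀ τ, D (u τ) ≠ 0 ∧ IsQ (Λ := Λ) s (D (u τ))⁻¹ ∧
      IsQ (Λ := Λ) s (u τ * (D (u τ))⁻¹) := by
    intro τ
    refine moebius_der hs hgen ?_ D hD
    rw [hu]
    exact rho_gen hE hZ hT hsS hM (ρ τ)
  have hmem : ∀ m : M, D (algebraMap M Z m) ∈ IntermediateField.adjoin M T := by
    intro m
    let j : IntermediateField.adjoin M T →ₐ[M] Z := (IntermediateField.adjoin M T).val
    obtain ⟨-, h2, -⟩ := rho_der hE hT hsS D hD j (hM m)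
    exact h2
  have hDm : ∀ (m : M) (τ), D (algebraMap M Z m) = D (u τ) * ρ τ ⟨D (algebraMap M Z m), hmem m⟩ := by
    intro m τ
    obtain ⟨h1, h2, h3⟩ := rho_der hE hT hsS D hD (ρ τ) (hM m)
    have h4 : ρ τ ⟨algebraMap M Z m, h1⟩ = algebraMap M Z m := (ρ τ).commutes m
    rw [h4, ← hu] at h3
    exact h3
  obtain ⟨G, hG⟩ : ∃ G : IntermediateField.adjoin M T → IntermediateField.adjoin M T → Z,
    ∀ q c, G q c = ∑ τ, ρ τ c * (ρ τ q * (D (u τ))⁻¹) := ⟨_, fun _ _ => rfl⟩
  have hGM : ∀ q c (m : M), ∃ m' : M, G q c * D (algebraMap M Z m) = algebraMap M Z m' := by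
    intro q c m
    refine ⟨Algebra.trace M (IntermediateField.adjoin M T) (c * (q * ⟨_, hmem m⟩)), ?_⟩
    rw [htr, hG, Finset.sum_mul]
    refine Finset.sum_congr rfl fun τ _ => ?_
    rw [map_mul, map_mul]
    have h1 := (hmd τ).1
    conv_lhs => rw [hDm m τ]
    field_simp
  -- the constants
  let CM : Submonoid (IntermediateField.adjoin M T) :=
    { carrier := {w | ∃ c : Λ, (w : Z) = algebraMap Λ Z c}
      one_mem' := ⟨1, by rw [map_one]; rfl⟩
      mul_mem' := by
        rintro a b ⟨c, hc⟩ ⟨d, hd⟩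
        exact ⟨c * d, by rw [map_mul, ← hc, ← hd]; rfl⟩ }
  have hCM : ∀ (w : CM) (τ), ∃ c : Λ, ρ τ w = algebraMap Λ Z c := by
    rintro ⟨⟨w, hw⟩, c, hc⟩ τ
    change w = algebraMap Λ Z c at hc
    subst hc
    exact rho_const hE (ρ τ) c hw
  have hDed : ∀ k : (IntermediateField.adjoin M T →ₐ[M] AlgebraicClosure Z) → Z,
      (∀ c : CM, ∑ τ, ρ τ c * k τ = 0) → ∀ τ, k τ = 0 := by
    intro k hk
    let f : (IntermediateField.adjoin M T →ₐ[M] AlgebraicClosure Z) → (CM →* Z) := fun τ =>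
      ((ρ τ : IntermediateField.adjoin M T →+* Z) :
        IntermediateField.adjoin M T →* Z).comp CM.subtype
    have hf : Function.Injective f := by
      intro τ τ' h
      have h1 : ρ τ = ρ τ' := by
        apply IntermediateField.adjoin_algHom_ext
        intro x hx
        obtain ⟨c, hc⟩ := hT x hx
        exact DFunLike.congr_fun h ⟨⟨x, IntermediateField.subset_adjoin M T hx⟩, c, hc⟩
      refine AlgHom.ext fun z => ?_
      rw [← hρ, ← hρ, h1]
    have h1 := (linearIndependent_monoidHom CM Z).comp f hf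
    refine (Fintype.linearIndependent_iff.1 h1) k ?_
    funext c
    have h2 := hk c
    rw [Finset.sum_apply]
    simp only [Pi.smul_apply, smul_eq_mul, Pi.zero_apply]
    rw [← h2]
    refine Finset.sum_congr rfl fun τ _ => ?_
    exact mul_comm _ _
  obtain ⟨τ0, hτ0⟩ : ∃ τ0 : IntermediateField.adjoin M T →ₐ[M] AlgebraicClosure Z,
      ∀ z, ρ τ0 z = z := by
    refine ⟨(IsScalarTower.toAlgHom M Z (AlgebraicClosure Z)).comp
      (IntermediateField.adjoin M T).val, fun z => ?_⟩
    apply (algebraMap Z (AlgebraicClosure Z)).injective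
    rw [hρ]
    rfl
  have hQ1 : ∀ c : CM, IsQ (Λ := Λ) s (G 1 c) := by
    intro c
    rw [hG]
    refine IsQ.sum _ _ fun τ _ => ?_
    obtain ⟨c', hc'⟩ := hCM c τ
    rw [hc', map_one, one_mul]
    exact ((hmd τ).2.1).smul c'
  have hQs : ∀ c : CM, IsQ (Λ := Λ) s (G ⟨s, hsS⟩ c) := by
    intro c
    rw [hG]
    refine IsQ.sum _ _ fun τ _ => ?_
    obtain ⟨c', hc'⟩ := hCM c τ
    rw [hc', ← hu]
    exact ((hmd τ).2.2).smul c'
  obtain ⟨c2, hc2⟩ : ∃ c2 : CM, G 1 c2 ≠ 0 := by
    by_contra hcon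
    push Not at hcon
    have h1 := hDed (fun τ => (D (u τ))⁻¹) (fun c => by
      have h2 := hcon c
      rw [hG] at h2
      simpa using h2) τ0
    exact inv_ne_zero (hmd τ0).1 h1
  obtain ⟨g2, hg2⟩ : ∃ g2, g2 = G 1 c2 := ⟨_, rfl⟩
  rw [← hg2] at hc2
  have hDc : ∀ (q : IntermediateField.adjoin M T), (∀ c : CM, ∃ l : Λ, G q c / g2 =
      algebraMap Λ Z l) → D ((q : Z) * (D (u τ0))⁻¹ / g2) = 0 := by
    intro q hq
    have h1 := hDed (fun τ => D (ρ τ q * (D (u τ))⁻¹ / g2)) (fun c => by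
      obtain ⟨l, hl⟩ := hq c
      have h2 := congrArg D hl
      rw [D.map_algebraMap, hG, Finset.sum_div, map_sum] at h2
      rw [← h2]
      refine Finset.sum_congr rfl fun τ _ => ?_
      obtain ⟨c', hc'⟩ := hCM c τ
      have h5 : algebraMap Λ Z c' * (ρ τ q * (D (u τ))⁻¹) / g2 =
          algebraMap Λ Z c' * (ρ τ q * (D (u τ))⁻¹ / g2) := mul_div_assoc _ _ _
      rw [hc', h5, D.leibniz (algebraMap Λ Z c'), D.map_algebraMap, smul_zero, add_zero,
        smul_eq_mul]) τ0
    rwa [hτ0] at h1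
  have hDu0 : D (u τ0) = 1 := by
    rw [hu, hτ0]
    exact hD
  by_contra hcon
  have hall : ∀ q : IntermediateField.adjoin M T, (∀ c : CM, IsQ (Λ := Λ) s (G q c)) →
      ∀ c : CM, ∃ l : Λ, G q c / g2 = algebraMap Λ Z l := by
    intro q hq c
    by_contra h1
    push Not at h1
    refine hcon ⟨G q c, g2, hq c, ?_, hc2, h1, hGM q c, ?_⟩
    · rw [hg2]
      exact hQ1 c2
    · rw [hg2]
      exact hGM 1 c2
  have h1 := hDc 1 (hall 1 hQ1)
  have h2 := hDc ⟨s, hsS⟩ (hall _ hQs)
  rw [hDu0, inv_one, mul_one] at h1 h2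
  have h3 : ((1 : IntermediateField.adjoin M T) : Z) = 1 := rfl
  rw [h3] at h1
  have h4 : ((⟨s, hsS⟩ : IntermediateField.adjoin M T) : Z) / g2 = s * (1 / g2) := by
    rw [mul_one_div]
  rw [h4, D.leibniz, h1, smul_zero, zero_add, hD, smul_eq_mul, mul_one, one_div] at h2
  exact inv_ne_zero hc2 h2

/-- **Curves of genus zero are conics.** -/
theorem conic [hFF : IsFF E M] (hE : Algebra.IsAlgebraic E Λ)
    (hcl : ∀ z : M, IsIntegral E z → ∃ y : E, algebraMap E M y = z)
    (hZ : IntermediateField.adjoin Λ (Set.range (algebraMap M Z)) = ⊤) {s : Z}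
    (hs : Transcendental Λ s) (hgen : IntermediateField.adjoin Λ {s} = ⊤)
    (D : Derivation Λ Z Z) (hD : D s = 1) :
    ∃ (x y : M) (A B C : E), y ^ 2 = algebraMap E M A * x ^ 2 + algebraMap E M B * x +
      algebraMap E M C ∧ Transcendental E x ∧ IntermediateField.adjoin E {x, y} = ⊤ := by
  classical
  have hΛ0 : CharZero Λ := charZero_of_injective_algebraMap (algebraMap E Λ).injective
  have hess : Algebra.EssFiniteType E M := hFF.ess
  obtain ⟨g1, g2, ⟨d, e, f, h1⟩, ⟨a, b, c, h2⟩, hg2, hx, hM1, hM2⟩ := vf hE hZ hs hgen D hD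
  obtain ⟨m0, hm0⟩ : ∃ m0 : M, D (algebraMap M Z m0) ≠ 0 := by
    by_contra hcon
    push Not at hcon
    have h3 : ∀ z ∈ Subfield.closure (Set.range (algebraMap Λ Z) ∪ Set.range (algebraMap M Z)),
        D z = 0 := by
      intro z hz
      induction hz using Subfield.closure_induction with
      | mem x hx =>
        rcases hx with ⟨l, rfl⟩ | ⟨m, rfl⟩
        · exact D.map_algebraMap l
        · exact hcon m
      | one => exact D.map_one_eq_zero
      | add x y _ _ hx hy => rw [map_add, hx, hy, add_zero]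
      | neg x _ hx => rw [map_neg, hx, neg_zero]
      | inv x _ hx => rw [D.leibniz_inv, hx, smul_zero]
      | mul x y _ _ hx hy => rw [D.leibniz, hx, hy, smul_zero, smul_zero, add_zero]
    have h4 : s ∈ IntermediateField.adjoin Λ (Set.range (algebraMap M Z)) := by
      rw [hZ]
      trivial
    rw [h3 s h4] at hD
    exact zero_ne_one hD
  obtain ⟨t1, ht1⟩ := hM1 m0
  obtain ⟨t2, ht2⟩ := hM2 m0
  have hx1 : algebraMap M Z (t1 / t2) = g1 / g2 := by
    rw [map_div₀, ← ht1, ← ht2, mul_div_mul_right _ _ hm0]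
  obtain ⟨y, hy⟩ := hM2 (t1 / t2)
  obtain ⟨x, hxd⟩ : ∃ x, x = t1 / t2 := ⟨_, rfl⟩
  rw [← hxd] at hx1 hy
  obtain ⟨w, hw⟩ : ∃ w, w = algebraMap Λ Z (a * e - b * d) +
    algebraMap Λ Z (2 * (a * f - c * d)) * s + algebraMap Λ Z (b * f - c * e) * s ^ 2 := ⟨_, rfl⟩
  have hDs2 : D (s ^ 2) = 2 * s := by
    rw [pow_two, D.leibniz, hD, smul_eq_mul, mul_one]
    ring
  have hDg1 : D g1 = algebraMap Λ Z e + 2 * algebraMap Λ Z f * s := by
    rw [h1]
    simp only [map_add, D.leibniz, D.map_algebraMap, smul_eq_mul, mul_zero, add_zero, zero_add,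
      hD, hDs2, mul_one]
    ring
  have hDg2 : D g2 = algebraMap Λ Z b + 2 * algebraMap Λ Z c * s := by
    rw [h2]
    simp only [map_add, D.leibniz, D.map_algebraMap, smul_eq_mul, mul_zero, add_zero, zero_add,
      hD, hDs2, mul_one]
    ring
  have hwD : w = D g1 * g2 - g1 * D g2 := by
    rw [hw, hDg1, hDg2, h1, h2]
    simp only [map_sub, map_mul, map_ofNat]
    ring
  have hy1 : algebraMap M Z y = w / g2 := by
    rw [← hy, hx1, D.leibniz_div, hwD]
    simp only [smul_eq_mul]
    field_simp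
  -- the relation
  have hrel : (algebraMap M Z y) ^ 2 = algebraMap Λ Z (b ^ 2 - 4 * a * c) * (algebraMap M Z x) ^ 2 -
      2 * algebraMap Λ Z (b * e - 2 * a * f - 2 * c * d) * algebraMap M Z x +
      algebraMap Λ Z (e ^ 2 - 4 * d * f) := by
    have h3 : w ^ 2 = algebraMap Λ Z (b ^ 2 - 4 * a * c) * g1 ^ 2 -
      2 * algebraMap Λ Z (b * e - 2 * a * f - 2 * c * d) * g1 * g2 +
      algebraMap Λ Z (e ^ 2 - 4 * d * f) * g2 ^ 2 := by
      rw [hw, h1, h2]
      simp only [map_sub, map_mul, map_ofNat, map_pow]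
      ring
    rw [hy1, hx1]
    generalize algebraMap Λ Z (b ^ 2 - 4 * a * c) = P at h3 ⊢
    generalize algebraMap Λ Z (b * e - 2 * a * f - 2 * c * d) = Q at h3 ⊢
    generalize algebraMap Λ Z (e ^ 2 - 4 * d * f) = R at h3 ⊢
    field_simp
    linear_combination h3
  have hxt : Transcendental E x := by
    intro h
    have h3 : IsAlgebraic E (algebraMap M Z x) := h.algebraMap
    obtain ⟨l, hl⟩ := mem_of_alg _ (h3.tower_top Λ)
    rw [hx1] at hl
    exact hx l hl
  obtain ⟨A, B, C, hABC⟩ : ∃ A B C : E, y ^ 2 = algebraMap E M A * x ^ 2 + algebraMap E M B * x +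
      algebraMap E M C := by
    have hli : ¬ LinearIndependent E ![y ^ 2, x ^ 2, x, 1] := by
      intro hli
      have h3 := Pool.Agent.Y174.lin_disj (Λ := Λ) (F := Z) hcl hli
      rw [Fintype.linearIndependent_iff] at h3
      have h4 := h3 ![1, -(b ^ 2 - 4 * a * c), 2 * (b * e - 2 * a * f - 2 * c * d),
        -(e ^ 2 - 4 * d * f)] (by
          simp only [Fin.sum_univ_four, Algebra.smul_def, map_one, one_mul, map_neg, map_mul,
            map_ofNat, Matrix.cons_val_zero, Matrix.cons_val_one, Matrix.cons_val, map_pow,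
            mul_one]
          rw [hrel]
          ring) 0
      exact one_ne_zero h4
    rw [Fintype.linearIndependent_iff] at hli
    push Not at hli
    obtain ⟨k, hk, i, hi⟩ := hli
    simp only [Fin.sum_univ_four, Algebra.smul_def, Matrix.cons_val_zero, Matrix.cons_val_one,
      Matrix.cons_val, mul_one] at hk
    have hk0 : k 0 ≠ 0 := by
      intro hk0
      rw [hk0, map_zero, zero_mul, zero_add] at hk
      have h3 := coeffs_zero (Λ := E) hxt (a := k 3) (b := k 2) (c := k 1) (by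
        linear_combination hk)
      fin_cases i
      · exact hi hk0
      · exact hi h3.2.2
      · exact hi h3.2.1
      · exact hi h3.1
    have hk0' : algebraMap E M (k 0) ≠ 0 := (_root_.map_ne_zero _).2 hk0
    refine ⟨-(k 1 / k 0), -(k 2 / k 0), -(k 3 / k 0), ?_⟩
    simp only [map_neg, map_div₀]
    field_simp
    linear_combination hk
  refine ⟨x, y, A, B, C, hABC, hxt, ?_⟩
  obtain ⟨N, hN⟩ : ∃ N : IntermediateField E M, N = IntermediateField.adjoin E {x, y} := ⟨_, rfl⟩
  have hfinN : FiniteDimensional N M := by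
    have h3 : FiniteDimensional (IntermediateField.adjoin E {x}) M := IsFF.finite hxt
    have h4 : IntermediateField.adjoin E {x} ≤ N := by
      rw [hN]
      exact IntermediateField.adjoin.mono _ _ _ (by simp)
    let _ : Algebra (IntermediateField.adjoin E {x}) N := (IntermediateField.inclusion h4).toAlgebra
    have _ : IsScalarTower (IntermediateField.adjoin E {x}) N M :=
      IsScalarTower.of_algebraMap_eq fun z => rfl
    exact FiniteDimensional.right (IntermediateField.adjoin E {x}) N M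
  obtain ⟨FE, hFE⟩ : ∃ FE : IntermediateField Λ Z,
    FE = IntermediateField.adjoin Λ (algebraMap M Z '' N) := ⟨_, rfl⟩
  obtain ⟨hfin, htrace⟩ := Pool.Agent.R882.GL.trace_fib (F := Z) hcl hZ N FE hFE
  have hmemFE : ∀ z : M, z ∈ N → algebraMap M Z z ∈ FE := by
    intro z hz
    rw [hFE]
    exact IntermediateField.subset_adjoin _ _ ⟨z, hz, rfl⟩
  have hxN : x ∈ N := by
    rw [hN]
    exact IntermediateField.subset_adjoin E _ (Or.inl rfl)
  have hyN : y ∈ N := by
    rw [hN]
    exact IntermediateField.subset_adjoin E _ (Or.inr rfl)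
  have hsFE : s ∈ FE := mem_gen hs h1 h2 hw hg2 hx FE (by
    rw [← hx1]
    exact hmemFE x hxN) (by
    rw [← hy1]
    exact hmemFE y hyN)
  have hFEtop : FE = ⊤ := by
    rw [eq_top_iff, ← hgen, IntermediateField.adjoin_le_iff]
    rintro _ rfl
    exact hsFE
  rw [← hN, eq_top_iff]
  intro m _
  have h3 := htrace m
  have h4 : ∀ z : Z, ((Algebra.trace FE Z z : FE) : Z) = z := by
    subst hFEtop
    intro z
    have h5 : z = algebraMap (⊤ : IntermediateField Λ Z) Z ⟨z, trivial⟩ := rfl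
    conv_lhs => rw [h5]
    rw [Algebra.trace_algebraMap, IntermediateField.finrank_top, one_smul]
  rw [h4] at h3
  have h5 := (algebraMap M Z).injective h3
  rw [h5]
  exact (Algebra.trace N M m).2

end

end Pool.Agent.L5helper25.Con
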