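import Pool.Agent.TH156.RC

/-!
Homomorphisms of function fields of conics, and rational connectedness.
-/

set_option autoImplicit false
set_option linter.overlappingInstances false
set_option linter.unusedSectionVars false
set_option linter.unusedVariables false
set_option maxHeartbeats 4000000
set_option synthInstance.maxHeartbeats 400000

open Polynomial IntermediateField Module

namespace Pool.Agent.L5helper25.Con

section lift

variable {E M R : Type} [Field E] [Field M] [Field R] [Algebra E M] [Algebra E R]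

theorem lift_simple {x : M} (hx : Transcendental E x) {r : R} (hr : Transcendental E r) :
    ∃ φ : IntermediateField.adjoin E {x} →ₐ[E] R, φ (AdjoinSimple.gen E x) = r := by
  let e1 := RatFunc.algEquivOfTranscendental x hx
  let e2 := RatFunc.algEquivOfTranscendental r hr
  refine ⟨(IntermediateField.adjoin E {r}).val.comp
    ((e2 : RatFunc E →ₐ[E] IntermediateField.adjoin E {r}).comp
      (e1.symm : IntermediateField.adjoin E {x} →ₐ[E] RatFunc E)), ?_⟩
  have h1 : e1.symm (AdjoinSimple.gen E x) = RatFunc.X := by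
    apply e1.injective
    rw [AlgEquiv.apply_symm_apply]
    apply Subtype.ext
    exact (RatFunc.algEquivOfTranscendental_X x hx).symm
  change ((e2 (e1.symm (AdjoinSimple.gen E x)) : IntermediateField.adjoin E {r}) : R) = r
  rw [h1]
  exact RatFunc.algEquivOfTranscendental_X r hr

theorem lift_rat {x : M} (hx : Transcendental E x)
    (hgen : IntermediateField.adjoin E {x} = ⊤) {r : R} (hr : Transcendental E r) :
    ∃ φ : M →ₐ[E] R, φ x = r := by
  obtain ⟨φ, hφ⟩ := lift_simple hx hr
  let e : M ≃ₐ[E] IntermediateField.adjoin E {x} :=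
    IntermediateField.topEquiv.symm.trans (IntermediateField.equivOfEq hgen.symm)
  refine ⟨φ.comp (e : M →ₐ[E] IntermediateField.adjoin E {x}), ?_⟩
  have h1 : e x = AdjoinSimple.gen E x := rfl
  change φ (e x) = r
  rw [h1, hφ]

/-- a nondegenerate quadratic polynomial is not a square -/
theorem no_sqrt (h2 : (2 : E) ≠ 0) {α β : E} (hα : α ≠ 0) (hβ : β ≠ 0) (f : RatFunc E) :
    f ^ 2 ≠ algebraMap E[X] (RatFunc E) (C α * X ^ 2 + C β) := by
  intro h
  obtain ⟨g, hg⟩ := IsIntegrallyClosed.exists_algebraMap_eq_of_isIntegral_pow (R := E[X])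
    (K := RatFunc E) (x := f) (n := 2) two_pos (by
      rw [h]
      exact isIntegral_algebraMap)
  rw [← hg, ← map_pow] at h
  have h3 : g ^ 2 = C α * X ^ 2 + C β := IsFractionRing.injective E[X] (RatFunc E) h
  have hdeg : (C α * X ^ 2 + C β : E[X]).natDegree = 2 := by
    compute_degree!
  have h4 : g.natDegree = 1 := by
    have h5 := congrArg natDegree h3
    rw [natDegree_pow, hdeg] at h5
    omega
  have h5 : g = C (g.coeff 1) * X + C (g.coeff 0) :=
    Polynomial.eq_X_add_C_of_natDegree_le_one h4.le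
  obtain ⟨a, ha⟩ : ∃ a, a = g.coeff 1 := ⟨_, rfl⟩
  obtain ⟨b, hb⟩ : ∃ b, b = g.coeff 0 := ⟨_, rfl⟩
  rw [← ha, ← hb] at h5
  rw [h5] at h3
  have h6 : (C a * X + C b : E[X]) ^ 2 = C (a ^ 2) * X ^ 2 + C (2 * a * b) * X + C (b ^ 2) := by
    simp only [map_mul, map_pow, map_ofNat]
    ring
  rw [h6] at h3
  have c0 : ∀ p q r : E, (C p * X ^ 2 + C q * X + C r : E[X]).coeff 0 = r := by
    intro p q r
    simp
  have c1 : ∀ p q r : E, (C p * X ^ 2 + C q * X + C r : E[X]).coeff 1 = q := by
    intro p q r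
    simp [coeff_X, coeff_C, coeff_X_pow]
  have c2 : ∀ p q r : E, (C p * X ^ 2 + C q * X + C r : E[X]).coeff 2 = p := by
    intro p q r
    simp [coeff_X, coeff_C, coeff_X_pow]
  have h7 : (C α * X ^ 2 + C β : E[X]) = C α * X ^ 2 + C 0 * X + C β := by
    rw [map_zero, zero_mul, add_zero]
  rw [h7] at h3
  have e0 := congrArg (fun p => p.coeff 0) h3
  have e1 := congrArg (fun p => p.coeff 1) h3
  have e2 := congrArg (fun p => p.coeff 2) h3
  beta_reduce at e0 e1 e2
  rw [c0, c0] at e0
  rw [c1, c1] at e1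
  rw [c2, c2] at e2
  rw [mul_eq_zero, mul_eq_zero] at e1
  rcases e1 with (e1 | e1) | e1
  · exact h2 e1
  · rw [e1] at e2
    apply hα
    rw [← e2]
    ring
  · rw [e1] at e0
    apply hβ
    rw [← e0]
    ring

theorem lift_quad (h2 : (2 : E) ≠ 0) {x y : M} (hx : Transcendental E x)
    (hgen : IntermediateField.adjoin E {x, y} = ⊤) {α β : E} (hα : α ≠ 0) (hβ : β ≠ 0)
    (hy : y ^ 2 = algebraMap E M α * x ^ 2 + algebraMap E M β) {r s : R}
    (hr : Transcendental E r) (hrs : s ^ 2 = algebraMap E R α * r ^ 2 + algebraMap E R β) :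
    ∃ φ : M →ₐ[E] R, φ x = r ∧ φ y = s := by
  obtain ⟨φ0, hφ0⟩ := lift_simple hx hr
  let _ : Algebra (IntermediateField.adjoin E {x}) R := φ0.toRingHom.toAlgebra
  have hR : ∀ z, algebraMap (IntermediateField.adjoin E {x}) R z = φ0 z := fun _ => rfl
  have t1 : IsScalarTower E (IntermediateField.adjoin E {x}) R :=
    IsScalarTower.of_algebraMap_eq fun c => (φ0.commutes c).symm
  obtain ⟨c0, hc0⟩ : ∃ c0 : IntermediateField.adjoin E {x},
    c0 = algebraMap E _ α * (AdjoinSimple.gen E x) ^ 2 + algebraMap E _ β := ⟨_, rfl⟩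
  have hc0M : algebraMap (IntermediateField.adjoin E {x}) M c0 = y ^ 2 := by
    rw [hy, hc0, map_add, map_mul, map_pow, ← IsScalarTower.algebraMap_apply,
      ← IsScalarTower.algebraMap_apply]
    rfl
  have hc0R : algebraMap (IntermediateField.adjoin E {x}) R c0 = s ^ 2 := by
    rw [hrs, hc0, map_add, map_mul, map_pow, ← IsScalarTower.algebraMap_apply,
      ← IsScalarTower.algebraMap_apply, hR, hφ0]
  obtain ⟨p0, hp0⟩ : ∃ p0 : (IntermediateField.adjoin E {x})[X], p0 = X ^ 2 - C c0 := ⟨_, rfl⟩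
  have hmon : p0.Monic := by
    rw [hp0]
    exact monic_X_pow_sub_C c0 two_ne_zero
  have hdeg : p0.natDegree = 2 := by
    rw [hp0]
    exact natDegree_X_pow_sub_C
  have hpy : aeval y p0 = 0 := by
    rw [hp0, map_sub, aeval_C, map_pow, aeval_X, hc0M, sub_self]
  have hint : IsIntegral (IntermediateField.adjoin E {x}) y := ⟨p0, hmon, hpy⟩
  have hyF : y ∉ IntermediateField.adjoin E {x} := by
    intro hmem
    let e1 := RatFunc.algEquivOfTranscendental x hx
    obtain ⟨f, hf⟩ := e1.surjective ⟨y, hmem⟩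
    apply no_sqrt h2 hα hβ f
    apply e1.injective
    rw [map_pow, hf, RatFunc.algEquivOfTranscendental_algebraMap]
    apply Subtype.ext
    simp only [map_add, map_mul, aeval_C, map_pow, aeval_X]
    change y ^ 2 = algebraMap E M α * x ^ 2 + algebraMap E M β
    exact hy
  have hmin : minpoly (IntermediateField.adjoin E {x}) y = p0 := by
    symm
    refine Polynomial.eq_of_monic_of_dvd_of_natDegree_le (minpoly.monic hint) hmon
      (minpoly.dvd _ _ hpy) ?_
    rw [hdeg]
    by_contra hlt
    have h3 : (minpoly (IntermediateField.adjoin E {x}) y).natDegree = 1 := by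
      have := minpoly.natDegree_pos hint
      omega
    rw [minpoly.natDegree_eq_one_iff] at h3
    obtain ⟨z, hz⟩ := h3
    apply hyF
    rw [← hz]
    exact z.2
  have hroot : s ∈ (minpoly (IntermediateField.adjoin E {x}) y).aroots R := by
    rw [mem_aroots]
    refine ⟨minpoly.ne_zero hint, ?_⟩
    rw [hmin, hp0, map_sub, aeval_C, map_pow, aeval_X, hc0R, sub_self]
  obtain ⟨ψ, hψ⟩ : ∃ ψ : IntermediateField.adjoin (IntermediateField.adjoin E {x}) {y}
      →ₐ[IntermediateField.adjoin E {x}] R, ψ (AdjoinSimple.gen _ y) = s :=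
    ⟨(IntermediateField.algHomAdjoinIntegralEquiv _ hint).symm ⟨s, hroot⟩,
      IntermediateField.algHomAdjoinIntegralEquiv_symm_apply_gen _ hint ⟨s, hroot⟩⟩
  have htop : IntermediateField.adjoin (IntermediateField.adjoin E {x}) {y} = ⊤ := by
    have h3 : (⊤ : IntermediateField E M) ≤
        (IntermediateField.adjoin (IntermediateField.adjoin E {x}) {y}).restrictScalars E := by
      rw [← hgen, IntermediateField.adjoin_le_iff]
      rintro z (rfl | rfl)
      · exact IntermediateField.algebraMap_mem _ (AdjoinSimple.gen E z)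
      · exact IntermediateField.subset_adjoin _ _ rfl
    rw [eq_top_iff]
    intro z _
    exact h3 trivial
  let e : M ≃ₐ[IntermediateField.adjoin E {x}]
      IntermediateField.adjoin (IntermediateField.adjoin E {x}) {y} :=
    IntermediateField.topEquiv.symm.trans (IntermediateField.equivOfEq htop.symm)
  refine ⟨(ψ.comp (e : M →ₐ[IntermediateField.adjoin E {x}]
    IntermediateField.adjoin (IntermediateField.adjoin E {x}) {y})).restrictScalars E, ?_, ?_⟩
  · have h3 : e x = algebraMap (IntermediateField.adjoin E {x}) _ (AdjoinSimple.gen E x) := by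
      apply Subtype.ext
      rfl
    change ψ (e x) = r
    rw [h3, ψ.commutes, hR, hφ0]
  · have h3 : e y = AdjoinSimple.gen _ y := rfl
    change ψ (e y) = s
    rw [h3, hψ]

end lift

section tr

/-- **Transcendental functions.** -/
theorem exists_tr {E Ω : Type} [Field E] [Field Ω] [Algebra ℂ E] [Algebra ℂ Ω] {m : ℕ}
    (hm : Algebra.trdeg ℂ E = m) (σ : E →ₐ[ℂ] Ω) [Algebra E (RatFunc Ω)]
    [IsScalarTower ℂ E (RatFunc Ω)] : ∃ c : Ω,
      ¬ IsAlgebraic E (algebraMap Ω (RatFunc Ω) c * (RatFunc.X * (1 - RatFunc.X))) := by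
  by_contra hcon
  push Not at hcon
  obtain ⟨A, hA⟩ : ∃ A, A = algebraicClosure E (RatFunc Ω) := ⟨_, rfl⟩
  have hmemA : ∀ z, z ∈ A ↔ IsAlgebraic E z := by
    intro z
    rw [hA, mem_algebraicClosure_iff]
  have hX0 : (RatFunc.X : RatFunc Ω) * (1 - RatFunc.X) ≠ 0 := by
    refine mul_ne_zero RatFunc.X_ne_zero ?_
    intro h
    have h1 : algebraMap (Polynomial Ω) (RatFunc Ω) (1 - X) = 0 := by
      rw [map_sub, map_one, RatFunc.algebraMap_X]
      exact h
    have h2 : (1 - X : (Polynomial Ω)) = 0 := IsFractionRing.injective (Polynomial Ω) (RatFunc Ω) (by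
      rw [h1, map_zero])
    have h3 := congrArg (fun p => p.eval 0) h2
    simp at h3
  have h1 : (RatFunc.X : RatFunc Ω) * (1 - RatFunc.X) ∈ A := by
    rw [hmemA]
    have := hcon 1
    rwa [map_one, one_mul] at this
  have hc : ∀ c : Ω, algebraMap Ω (RatFunc Ω) c ∈ A := by
    intro c
    have h2 : algebraMap Ω (RatFunc Ω) c = algebraMap Ω (RatFunc Ω) c *
      (RatFunc.X * (1 - RatFunc.X)) / (RatFunc.X * (1 - RatFunc.X)) := by
      rw [mul_div_cancel_right₀ _ hX0]
    rw [h2]
    exact div_mem ((hmemA _).2 (hcon c)) h1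
  have hX : (RatFunc.X : RatFunc Ω) ∈ A := by
    rw [hmemA]
    have h2 : IsAlgebraic A (RatFunc.X : RatFunc Ω) := by
      refine ⟨X ^ 2 - X + C ⟨_, h1⟩, ?_, ?_⟩
      · intro h
        have h3 := congrArg (fun p => p.coeff 2) h
        simp [coeff_X, coeff_C] at h3
      · simp only [map_add, map_sub, map_pow, aeval_X, aeval_C]
        change RatFunc.X ^ 2 - RatFunc.X + RatFunc.X * (1 - RatFunc.X) = (0 : RatFunc Ω)
        ring
    have h3 : Algebra.IsAlgebraic E A := by
      rw [hA]
      infer_instance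
    exact h2.restrictScalars E
  have hp : ∀ p : (Polynomial Ω), algebraMap (Polynomial Ω) (RatFunc Ω) p ∈ A := by
    intro p
    induction p using Polynomial.induction_on' with
    | add p q hp hq => rw [map_add]; exact add_mem hp hq
    | monomial n b =>
      rw [← C_mul_X_pow_eq_monomial, map_mul, map_pow, RatFunc.algebraMap_X]
      exact mul_mem (hc b) (pow_mem hX n)
  have halg : Algebra.IsAlgebraic E (RatFunc Ω) := by
    refine ⟨fun f => ?_⟩
    rw [← hmemA, ← RatFunc.num_div_denom f]
    exact div_mem (hp _) (hp _)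
  have h2 := trdeg_add_eq ℂ E (A := RatFunc Ω)
  have h3 : Algebra.trdeg E (RatFunc Ω) = 0 := trdeg_eq_zero
  rw [h3, add_zero, hm] at h2
  have h4 := trdeg_add_eq ℂ Ω (A := RatFunc Ω)
  rw [← h2] at h4
  have h5 : 1 ≤ Algebra.trdeg Ω (RatFunc Ω) := by
    rw [Cardinal.one_le_iff_ne_zero]
    intro h
    have h6 := trdeg_eq_zero_iff.1 h
    have h7 : IsAlgebraic Ω (RatFunc.X : RatFunc Ω) := h6.isAlgebraic _
    exact RatFunc.transcendental_X h7
  have h6 : (m : Cardinal) ≤ Algebra.trdeg ℂ Ω := by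
    rw [← hm]
    exact trdeg_le_of_injective σ σ.injective
  have h7 : (m : Cardinal) + 1 ≤ m := by
    calc (m : Cardinal) + 1 ≤ Algebra.trdeg ℂ Ω + Algebra.trdeg Ω (RatFunc Ω) :=
          add_le_add h6 h5
      _ = m := h4
  have h8 : ((m + 1 : ℕ) : Cardinal.{0}) ≤ ((m : ℕ) : Cardinal.{0}) := by exact_mod_cast h7
  have h9 := Nat.cast_le.1 h8
  omega

end tr

end Pool.Agent.L5helper25.Con
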