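import Pool.Agent.L5helper25.Con1
import Pool.Agent.L5helper25.Con5

/-!
Rational connectedness of conic bundles.
-/

set_option autoImplicit false
set_option linter.overlappingInstances false
set_option linter.unusedSectionVars false
set_option linter.unusedVariables false
set_option maxHeartbeats 4000000
set_option synthInstance.maxHeartbeats 400000

open Polynomial IntermediateField Module
open Pool.Agent.TH156 (HasValue hv_const hv_add hv_mul hv_pow hv_div conic_pts)

namespace Pool.Agent.L5helper25.Con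

/-- rational connectedness, for function fields -/
def RCf (L : Type) [Field L] [Algebra ℂ L] : Prop :=
  ∀ (Ω : Type) [Field Ω] [Algebra ℂ Ω] [IsAlgClosed Ω] (σ τ : L →ₐ[ℂ] Ω),
    ∃ γ : L →ₐ[ℂ] RatFunc Ω, ∀ f : L, HasValue (γ f) 0 (σ f) ∧ HasValue (γ f) 1 (τ f)

section hv

variable {k : Type} [Field k]

theorem hv_inv {f : RatFunc k} {a c : k} (hf : HasValue f a c) (hc : c ≠ 0) :
    HasValue f⁻¹ a c⁻¹ := by
  obtain ⟨p, q, hq, h, h'⟩ := hf
  have hp : p.eval a ≠ 0 := by
    rw [h']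
    exact mul_ne_zero hc hq
  have hq0 : algebraMap (Polynomial k) (RatFunc k) q ≠ 0 := by
    intro h0
    have h1 : q = 0 := IsFractionRing.injective (Polynomial k) (RatFunc k) (by rw [h0, map_zero])
    rw [h1] at hq
    exact hq (by simp)
  have hp0 : algebraMap (Polynomial k) (RatFunc k) p ≠ 0 := by
    intro h0
    have h1 : p = 0 := IsFractionRing.injective (Polynomial k) (RatFunc k) (by rw [h0, map_zero])
    rw [h1] at hp
    exact hp (by simp)
  have hf0 : f ≠ 0 := by
    rintro rfl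
    rw [zero_mul] at h
    exact hp0 h.symm
  refine ⟨q, p, hp, ?_, ?_⟩
  · rw [← h]
    field_simp
  · rw [h']
    field_simp

theorem hv_neg {f : RatFunc k} {a c : k} (hf : HasValue f a c) : HasValue (-f) a (-c) := by
  have h1 := hv_mul (hv_const a (-1 : k)) hf
  rw [map_neg, map_one, neg_one_mul, neg_one_mul] at h1
  exact h1

theorem hv_sub {f g : RatFunc k} {a c d : k} (hf : HasValue f a c) (hg : HasValue g a d) :
    HasValue (f - g) a (c - d) := by
  rw [sub_eq_add_neg, sub_eq_add_neg]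
  exact hv_add hf (hv_neg hg)

theorem hv_poly (p : Polynomial k) (a : k) :
    HasValue (algebraMap (Polynomial k) (RatFunc k) p) a (p.eval a) :=
  ⟨p, 1, by simp, by rw [map_one, mul_one], by simp⟩

theorem hv_one (a : k) : HasValue (1 : RatFunc k) a 1 := by
  have := hv_const a (1 : k)
  rwa [map_one] at this

/-- the functions with the correct values are a field -/
theorem hv_adjoin {E M : Type} [Field E] [Field M] [Algebra E M] (φ : M →+* RatFunc k)
    (σ : M →+* k) (a : k) (hE : ∀ e : E, HasValue (φ (algebraMap E M e)) a (σ (algebraMap E M e)))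
    {S : Set M} (hS : ∀ z ∈ S, HasValue (φ z) a (σ z)) (htop : IntermediateField.adjoin E S = ⊤)
    (z : M) : HasValue (φ z) a (σ z) := by
  have h1 : z ∈ IntermediateField.adjoin E S := by
    rw [htop]
    trivial
  induction h1 using IntermediateField.adjoin_induction with
  | mem x hx => exact hS x hx
  | algebraMap e => exact hE e
  | add x y _ _ hx hy => rw [map_add, map_add]; exact hv_add hx hy
  | mul x y _ _ hx hy => rw [map_mul, map_mul]; exact hv_mul hx hy
  | inv x _ hx =>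
    by_cases hx0 : x = 0
    · rw [hx0, inv_zero, map_zero, map_zero]
      have := hv_const a (0 : k)
      rwa [map_zero] at this
    · rw [map_inv₀, map_inv₀]
      exact hv_inv hx ((_root_.map_ne_zero σ).2 hx0)

end hv

section rc

variable {E M : Type} [Field E] [Field M] [Algebra ℂ E] [Algebra ℂ M] [Algebra E M]
  [IsScalarTower ℂ E M]

/-- the function which vanishes at `0` and `1` -/
theorem exists_w {Ω : Type} [Field Ω] [Algebra ℂ Ω] {m : ℕ}
    (hm : Algebra.trdeg ℂ E = m) (σ : E →ₐ[ℂ] Ω) [Algebra E (RatFunc Ω)]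
    [IsScalarTower ℂ E (RatFunc Ω)] :
    ∃ w : RatFunc Ω, ¬ IsAlgebraic E w ∧ HasValue w 0 0 ∧ HasValue w 1 0 := by
  obtain ⟨c, hc⟩ := exists_tr hm σ
  refine ⟨_, hc, ?_, ?_⟩
  · have h1 := hv_poly (C c * (X * (1 - X)) : Polynomial Ω) 0
    rw [map_mul, map_mul, map_sub, map_one, RatFunc.algebraMap_X] at h1
    have h2 : (C c * (X * (1 - X)) : Polynomial Ω).eval 0 = 0 := by simp
    rw [h2] at h1
    exact h1
  · have h1 := hv_poly (C c * (X * (1 - X)) : Polynomial Ω) 1
    rw [map_mul, map_mul, map_sub, map_one, RatFunc.algebraMap_X] at h1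
    have h2 : (C c * (X * (1 - X)) : Polynomial Ω).eval 1 = 0 := by simp
    rw [h2] at h1
    exact h1

/-- **Rational curves over a rationally connected base.** -/
theorem rc_rat {m : ℕ} (hm : Algebra.trdeg ℂ E = m) (h : RCf E) {x : M}
    (hx : Transcendental E x) (hgen : IntermediateField.adjoin E {x} = ⊤) : RCf M := by
  intro Ω _ _ _ σ τ
  obtain ⟨γ, hγ⟩ := h Ω (σ.comp (IsScalarTower.toAlgHom ℂ E M))
    (τ.comp (IsScalarTower.toAlgHom ℂ E M))
  let _ : Algebra E (RatFunc Ω) := γ.toRingHom.toAlgebra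
  have _ : IsScalarTower ℂ E (RatFunc Ω) := IsScalarTower.of_algebraMap_eq fun c =>
    (γ.commutes c).symm
  obtain ⟨w, hw, hw0, hw1⟩ := exists_w hm (σ.comp (IsScalarTower.toAlgHom ℂ E M))
  have hr0 : ∃ r0 : RatFunc Ω, HasValue r0 0 (σ x) ∧ HasValue r0 1 (τ x) := by
    refine ⟨algebraMap (Polynomial Ω) (RatFunc Ω) (C (σ x) * (1 - X) + C (τ x) * X), ?_, ?_⟩
    · have h1 := hv_poly (C (σ x) * (1 - X) + C (τ x) * X : Polynomial Ω) 0
      have h2 : (C (σ x) * (1 - X) + C (τ x) * X : Polynomial Ω).eval 0 = σ x := by simp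
      rwa [h2] at h1
    · have h1 := hv_poly (C (σ x) * (1 - X) + C (τ x) * X : Polynomial Ω) 1
      have h2 : (C (σ x) * (1 - X) + C (τ x) * X : Polynomial Ω).eval 1 = τ x := by simp
      rwa [h2] at h1
  obtain ⟨r0, h00, h01⟩ := hr0
  obtain ⟨r, hr, hr0, hr1⟩ : ∃ r : RatFunc Ω, Transcendental E r ∧ HasValue r 0 (σ x) ∧
      HasValue r 1 (τ x) := by
    by_cases hrt : IsAlgebraic E r0
    · refine ⟨r0 + w, fun hcon => hw ?_, ?_, ?_⟩
      · have := hcon.sub hrt
        rwa [add_sub_cancel_left] at this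
      · have := hv_add h00 hw0
        rwa [add_zero] at this
      · have := hv_add h01 hw1
        rwa [add_zero] at this
    · exact ⟨r0, hrt, h00, h01⟩
  obtain ⟨φ, hφ⟩ := lift_rat hx hgen hr
  have hφE : ∀ e : E, φ (algebraMap E M e) = γ e := fun e => φ.commutes e
  have hφC : ∀ c : ℂ, φ (algebraMap ℂ M c) = algebraMap ℂ (RatFunc Ω) c := fun c => by
    rw [IsScalarTower.algebraMap_apply ℂ E M, hφE, γ.commutes]
  refine ⟨{ φ.toRingHom with commutes' := hφC }, fun f => ⟨?_, ?_⟩⟩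
  · exact hv_adjoin (E := E) (φ : M →+* RatFunc Ω) (σ : M →+* Ω) 0 (fun e => by
      change HasValue (φ (algebraMap E M e)) 0 _
      rw [hφE]
      exact (hγ e).1) (S := {x}) (by
        rintro _ rfl
        change HasValue (φ _) 0 _
        rw [hφ]
        exact hr0) hgen f
  · exact hv_adjoin (E := E) (φ : M →+* RatFunc Ω) (τ : M →+* Ω) 1 (fun e => by
      change HasValue (φ (algebraMap E M e)) 1 _
      rw [hφE]
      exact (hγ e).2) (S := {x}) (by
        rintro _ rfl
        change HasValue (φ _) 1 _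
        rw [hφ]
        exact hr1) hgen f

/-- **Conic bundles over a rationally connected base.** -/
theorem rc_conic {m : ℕ} (hm : Algebra.trdeg ℂ E = m) (h : RCf E) {x y : M}
    (hx : Transcendental E x) (hgen : IntermediateField.adjoin E {x, y} = ⊤) {α β : E}
    (hα : α ≠ 0) (hβ : β ≠ 0) (hy : y ^ 2 = algebraMap E M α * x ^ 2 + algebraMap E M β) :
    RCf M := by
  intro Ω _ _ _ σ τ
  have hΩ0 : CharZero Ω := charZero_of_injective_algebraMap (algebraMap ℂ Ω).injective
  have hE0 : CharZero E := charZero_of_injective_algebraMap (algebraMap ℂ E).injective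
  have hR0 : CharZero (RatFunc Ω) := charZero_of_injective_algebraMap
    (algebraMap Ω (RatFunc Ω)).injective
  obtain ⟨γ, hγ⟩ := h Ω (σ.comp (IsScalarTower.toAlgHom ℂ E M))
    (τ.comp (IsScalarTower.toAlgHom ℂ E M))
  let _ : Algebra E (RatFunc Ω) := γ.toRingHom.toAlgebra
  have _ : IsScalarTower ℂ E (RatFunc Ω) := IsScalarTower.of_algebraMap_eq fun c =>
    (γ.commutes c).symm
  obtain ⟨w, hw, hw0, hw1⟩ := exists_w hm (σ.comp (IsScalarTower.toAlgHom ℂ E M))
  obtain ⟨a, ha⟩ : ∃ a : RatFunc Ω, a = γ α := ⟨_, rfl⟩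
  obtain ⟨b, hb⟩ : ∃ b : RatFunc Ω, b = γ β := ⟨_, rfl⟩
  have ha0 : a ≠ 0 := by rw [ha]; exact (_root_.map_ne_zero γ).2 hα
  have hb0 : b ≠ 0 := by rw [hb]; exact (_root_.map_ne_zero γ).2 hβ
  have va0 : HasValue a 0 (σ (algebraMap E M α)) := by rw [ha]; exact (hγ α).1
  have va1 : HasValue a 1 (τ (algebraMap E M α)) := by rw [ha]; exact (hγ α).2
  have vb0 : HasValue b 0 (σ (algebraMap E M β)) := by rw [hb]; exact (hγ β).1
  have vb1 : HasValue b 1 (τ (algebraMap E M β)) := by rw [hb]; exact (hγ β).2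
  have na0 : σ (algebraMap E M α) ≠ 0 :=
    (_root_.map_ne_zero σ).2 ((_root_.map_ne_zero _).2 hα)
  have na1 : τ (algebraMap E M α) ≠ 0 :=
    (_root_.map_ne_zero τ).2 ((_root_.map_ne_zero _).2 hα)
  have nb0 : σ (algebraMap E M β) ≠ 0 :=
    (_root_.map_ne_zero σ).2 ((_root_.map_ne_zero _).2 hβ)
  have nb1 : τ (algebraMap E M β) ≠ 0 :=
    (_root_.map_ne_zero τ).2 ((_root_.map_ne_zero _).2 hβ)
  have eσ : σ y ^ 2 = σ (algebraMap E M α) * σ x ^ 2 + σ (algebraMap E M β) := by
    rw [← map_pow, hy, map_add, map_mul, map_pow]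
  have eτ : τ y ^ 2 = τ (algebraMap E M α) * τ x ^ 2 + τ (algebraMap E M β) := by
    rw [← map_pow, hy, map_add, map_mul, map_pow]
  obtain ⟨r0, s0, e0, vr0, vs0, vr1, vs1⟩ := conic_pts va0 va1 vb0 vb1 na0 na1 nb0 nb1 eσ eτ
  obtain ⟨r, s, hr, hrs, hr0, hs0, hr1, hs1⟩ : ∃ r s : RatFunc Ω, Transcendental E r ∧
      s ^ 2 = a * r ^ 2 + b ∧ HasValue r 0 (σ x) ∧ HasValue s 0 (σ y) ∧ HasValue r 1 (τ x) ∧
      HasValue s 1 (τ y) := by
    by_cases hrt : IsAlgebraic E r0
    swap
    · exact ⟨r0, s0, hrt, e0, vr0, vs0, vr1, vs1⟩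
    obtain ⟨q, hqE, vq0, vq1, hκ⟩ : ∃ q : RatFunc Ω, IsAlgebraic E q ∧ (∃ c, HasValue q 0 c) ∧
        (∃ c, HasValue q 1 c) ∧ a * r0 - s0 * q ≠ 0 := by
      by_cases hr00 : r0 = 0
      · refine ⟨1, isAlgebraic_one, ⟨1, hv_one 0⟩, ⟨1, hv_one 1⟩, ?_⟩
        rw [hr00, mul_zero, zero_sub, mul_one, neg_ne_zero]
        rintro rfl
        rw [hr00] at e0
        apply hb0
        linear_combination -e0
      · refine ⟨0, isAlgebraic_zero, ⟨0, ?_⟩, ⟨0, ?_⟩, ?_⟩
        · have := hv_const (0 : Ω) (0 : Ω)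
          rwa [map_zero] at this
        · have := hv_const (1 : Ω) (0 : Ω)
          rwa [map_zero] at this
        · rw [mul_zero, sub_zero]
          exact mul_ne_zero ha0 hr00
    obtain ⟨Dn, hDn⟩ : ∃ Dn, Dn = (a * r0 + q * w) ^ 2 - a * (s0 + w) ^ 2 := ⟨_, rfl⟩
    have hst : IsAlgebraic E s0 := by
      have h1 : IsAlgebraic E (s0 ^ 2) := by
        rw [e0, ha, hb]
        exact ((isAlgebraic_algebraMap (A := RatFunc Ω) α).mul (hrt.pow 2)).add
          (isAlgebraic_algebraMap (A := RatFunc Ω) β)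
      exact h1.of_pow two_pos
    -- the denominator at the two points
    have vD : ∀ t c x' y' A B : Ω, HasValue w t 0 → HasValue q t c → HasValue r0 t x' →
        HasValue s0 t y' → HasValue a t A → HasValue b t B → A ≠ 0 → B ≠ 0 →
        y' ^ 2 = A * x' ^ 2 + B →
        HasValue (2 * (a * r0 - s0 * q) * w / Dn) t 0 := by
      intro t c x' y' A B h1 h2 h3 h4 h5 h6 h7 h8 h9
      have g1 : HasValue Dn t ((A * x' + c * 0) ^ 2 - A * (y' + 0) ^ 2) := by
        rw [hDn]
        exact hv_sub (hv_pow (hv_add (hv_mul h5 h3) (hv_mul h2 h1)) 2)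
          (hv_mul h5 (hv_pow (hv_add h4 h1) 2))
      have g2 : (A * x' + c * 0) ^ 2 - A * (y' + 0) ^ 2 = -(A * B) := by
        linear_combination (-A) * h9
      rw [g2] at g1
      have g3 := hv_inv g1 (neg_ne_zero.2 (mul_ne_zero h7 h8))
      have g4 : HasValue (2 : RatFunc Ω) t 2 := by
        have := hv_const t (2 : Ω)
        rwa [map_ofNat] at this
      have g5 := hv_mul (hv_mul (hv_mul g4 (hv_sub (hv_mul h5 h3) (hv_mul h4 h2))) h1) g3
      rw [mul_zero, zero_mul] at g5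
      rw [div_eq_mul_inv]
      exact g5
    obtain ⟨c0, vq0⟩ := vq0
    obtain ⟨c1, vq1⟩ := vq1
    have vl0 := vD 0 c0 _ _ _ _ hw0 vq0 vr0 vs0 va0 vb0 na0 nb0 eσ
    have vl1 := vD 1 c1 _ _ _ _ hw1 vq1 vr1 vs1 va1 vb1 na1 nb1 eτ
    have hDn0 : Dn ≠ 0 := by
      intro h0
      have g1 : HasValue Dn 0 ((σ (algebraMap E M α) * σ x + c0 * 0) ^ 2 -
          σ (algebraMap E M α) * (σ y + 0) ^ 2) := by
        rw [hDn]
        exact hv_sub (hv_pow (hv_add (hv_mul va0 vr0) (hv_mul vq0 hw0)) 2)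
          (hv_mul va0 (hv_pow (hv_add vs0 hw0) 2))
      have g2 : (σ (algebraMap E M α) * σ x + c0 * 0) ^ 2 -
          σ (algebraMap E M α) * (σ y + 0) ^ 2 =
          -(σ (algebraMap E M α) * σ (algebraMap E M β)) := by
        linear_combination (-σ (algebraMap E M α)) * eσ
      rw [g2, h0] at g1
      obtain ⟨p, q', hq', h1, h1'⟩ := g1
      rw [zero_mul] at h1
      have h2 : p = 0 := IsFractionRing.injective (Polynomial Ω) (RatFunc Ω) (by
        rw [← h1, map_zero])
      rw [h2, eval_zero] at h1'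
      exact mul_ne_zero (neg_ne_zero.2 (mul_ne_zero na0 nb0)) hq' h1'.symm
    obtain ⟨l, hl⟩ : ∃ l, l = 2 * (a * r0 - s0 * q) * w / Dn := ⟨_, rfl⟩
    have hlD : l * Dn = 2 * (a * r0 - s0 * q) * w := by
      rw [hl, div_mul_cancel₀ _ hDn0]
    rw [← hl] at vl0 vl1
    refine ⟨r0 + l * (s0 + w), s0 + l * (a * r0 + q * w), fun hcon => ?_, ?_, ?_, ?_, ?_, ?_⟩
    · -- it is transcendental
      have h1 : IsAlgebraic E (l * (s0 + w)) := by
        have := hcon.sub hrt
        rwa [add_sub_cancel_left] at this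
      obtain ⟨A, hA⟩ : ∃ A : IntermediateField E (RatFunc Ω), A = algebraicClosure E (RatFunc Ω) :=
        ⟨_, rfl⟩
      have hmemA : ∀ z, z ∈ A ↔ IsAlgebraic E z := by
        intro z
        rw [hA, mem_algebraicClosure_iff]
      have halgA : Algebra.IsAlgebraic E A := by
        rw [hA]
        infer_instance
      have hwA : Transcendental A w := fun h => hw (h.restrictScalars E)
      obtain ⟨ρ, hρ⟩ : ∃ ρ, ρ = l * (s0 + w) := ⟨_, rfl⟩
      rw [← hρ] at h1
      have hAa : a ∈ A := by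
        rw [hmemA, ha]
        exact isAlgebraic_algebraMap (A := RatFunc Ω) α
      have hAb : b ∈ A := by
        rw [hmemA, hb]
        exact isAlgebraic_algebraMap (A := RatFunc Ω) β
      have hAr : r0 ∈ A := (hmemA _).2 hrt
      have hAs : s0 ∈ A := (hmemA _).2 hst
      have hAq : q ∈ A := (hmemA _).2 hqE
      have hAρ : ρ ∈ A := (hmemA _).2 h1
      have h2 : ρ * Dn = 2 * (a * r0 - s0 * q) * w * (s0 + w) := by
        rw [hρ]
        linear_combination (s0 + w) * hlD
      have two_mem : (2 : RatFunc Ω) ∈ A := ofNat_mem A 2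
      obtain ⟨C0, hC0⟩ : ∃ C0 : A, (C0 : RatFunc Ω) = ρ * (a * b) :=
        ⟨⟨_, mul_mem hAρ (mul_mem hAa hAb)⟩, rfl⟩
      obtain ⟨C1, hC1⟩ : ∃ C1 : A, (C1 : RatFunc Ω) = 2 * (a * r0 - s0 * q) * s0 -
          ρ * (2 * a * (r0 * q - s0)) :=
        ⟨⟨_, sub_mem (mul_mem (mul_mem two_mem (sub_mem (mul_mem hAa hAr) (mul_mem hAs hAq))) hAs)
          (mul_mem hAρ (mul_mem (mul_mem two_mem hAa) (sub_mem (mul_mem hAr hAq) hAs)))⟩, rfl⟩
      obtain ⟨C2, hC2⟩ : ∃ C2 : A, (C2 : RatFunc Ω) = 2 * (a * r0 - s0 * q) -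
          ρ * (q ^ 2 - a) :=
        ⟨⟨_, sub_mem (mul_mem two_mem (sub_mem (mul_mem hAa hAr) (mul_mem hAs hAq)))
          (mul_mem hAρ (sub_mem (pow_mem hAq 2) hAa))⟩, rfl⟩
      have h3 := coeffs_zero hwA (a := C0) (b := C1) (c := C2) (by
        change (C0 : RatFunc Ω) + (C1 : RatFunc Ω) * w + (C2 : RatFunc Ω) * w ^ 2 = 0
        rw [hC0, hC1, hC2]
        rw [hDn] at h2
        linear_combination -h2 - ρ * a * e0)
      have h4 : ρ = 0 := by
        have h5 : (C0 : RatFunc Ω) = 0 := by rw [h3.1]; rfl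
        rw [hC0] at h5
        exact (mul_eq_zero.1 h5).resolve_right (mul_ne_zero ha0 hb0)
      have h5 : (C2 : RatFunc Ω) = 0 := by rw [h3.2.2]; rfl
      rw [hC2, h4, zero_mul, sub_zero] at h5
      rcases mul_eq_zero.1 h5 with h6 | h6
      · exact two_ne_zero h6
      · exact hκ h6
    · rw [hDn] at hlD
      linear_combination e0 + l * hlD
    · have := hv_add vr0 (hv_mul vl0 (hv_add vs0 hw0))
      rwa [zero_mul, add_zero] at this
    · have := hv_add vs0 (hv_mul vl0 (hv_add (hv_mul va0 vr0) (hv_mul vq0 hw0)))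
      rwa [zero_mul, add_zero] at this
    · have := hv_add vr1 (hv_mul vl1 (hv_add vs1 hw1))
      rwa [zero_mul, add_zero] at this
    · have := hv_add vs1 (hv_mul vl1 (hv_add (hv_mul va1 vr1) (hv_mul vq1 hw1)))
      rwa [zero_mul, add_zero] at this
  obtain ⟨φ, hφx, hφy⟩ := lift_quad (two_ne_zero : (2 : E) ≠ 0) hx hgen hα hβ hy hr (s := s) (by
    rw [ha, hb] at hrs
    exact hrs)
  have hφE : ∀ e : E, φ (algebraMap E M e) = γ e := fun e => φ.commutes e
  have hφC : ∀ c : ℂ, φ (algebraMap ℂ M c) = algebraMap ℂ (RatFunc Ω) c := fun c => by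
    rw [IsScalarTower.algebraMap_apply ℂ E M, hφE, γ.commutes]
  refine ⟨{ φ.toRingHom with commutes' := hφC }, fun f => ⟨?_, ?_⟩⟩
  · exact hv_adjoin (E := E) (φ : M →+* RatFunc Ω) (σ : M →+* Ω) 0 (fun e => by
      change HasValue (φ (algebraMap E M e)) 0 _
      rw [hφE]
      exact (hγ e).1) (S := {x, y}) (by
        rintro z (rfl | rfl)
        · change HasValue (φ z) 0 _
          rw [hφx]
          exact hr0
        · change HasValue (φ z) 0 _
          rw [hφy]
          exact hs0) hgen f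
  · exact hv_adjoin (E := E) (φ : M →+* RatFunc Ω) (τ : M →+* Ω) 1 (fun e => by
      change HasValue (φ (algebraMap E M e)) 1 _
      rw [hφE]
      exact (hγ e).2) (S := {x, y}) (by
        rintro z (rfl | rfl)
        · change HasValue (φ z) 1 _
          rw [hφx]
          exact hr1
        · change HasValue (φ z) 1 _
          rw [hφy]
          exact hs1) hgen f

end rc

end Pool.Agent.L5helper25.Con
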