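import Pool.Agent.L5helper25.Con6
import Pool.Agent.L5helper25.Con4

/-!
Fibrations whose geometric generic fibre is a rational curve, over a rationally connected base.
-/

set_option autoImplicit false
set_option linter.overlappingInstances false
set_option linter.unusedSectionVars false
set_option linter.unusedVariables false
set_option maxHeartbeats 4000000
set_option synthInstance.maxHeartbeats 400000

open Polynomial IntermediateField Module FF

namespace Pool.Agent.L5helper25.Con

theorem gen_le {E M : Type} [Field E] [Field M] [Algebra E M] {S : Set M}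
    (hS : IntermediateField.adjoin E S = ⊤) {T : Set M}
    (h : ∀ z ∈ S, z ∈ IntermediateField.adjoin E T) : IntermediateField.adjoin E T = ⊤ := by
  rw [eq_top_iff, ← hS, IntermediateField.adjoin_le_iff]
  exact h

theorem rc_of_conic {E M : Type} [Field E] [Field M] [Algebra ℂ E] [Algebra ℂ M] [Algebra E M]
    [IsScalarTower ℂ E M]
    (hcl : ∀ z : M, IsIntegral E z → ∃ y : E, algebraMap E M y = z)
    {m : ℕ} (hm : Algebra.trdeg ℂ E = m) (h : RCf E) {x y : M} {A B C : E}
    (hy : y ^ 2 = algebraMap E M A * x ^ 2 + algebraMap E M B * x + algebraMap E M C)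
    (hx : Transcendental E x) (hgen : IntermediateField.adjoin E {x, y} = ⊤) : RCf M := by
  have hE0 : CharZero E := charZero_of_injective_algebraMap (algebraMap ℂ E).injective
  have hM0 : CharZero M := charZero_of_injective_algebraMap (algebraMap ℂ M).injective
  have hcE : ∀ (T : Set M) (e : E), algebraMap E M e ∈ IntermediateField.adjoin E T :=
    fun T e => (IntermediateField.adjoin E T).algebraMap_mem e
  have hxx : ∀ z : M, z ∈ IntermediateField.adjoin E {z} := fun z =>
    IntermediateField.mem_adjoin_simple_self E z
  by_cases hA : A = 0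
  · rw [hA, map_zero, zero_mul, zero_add] at hy
    by_cases hB : B = 0
    · rw [hB, map_zero, zero_mul, zero_add] at hy
      obtain ⟨e, he⟩ := hcl y (IsIntegral.of_pow two_pos (by
        rw [hy]
        exact isIntegral_algebraMap))
      refine rc_rat hm h hx (gen_le hgen ?_)
      rintro z (rfl | rfl)
      · exact hxx z
      · rw [← he]
        exact hcE _ _
    · have hB' : algebraMap E M B ≠ 0 := (_root_.map_ne_zero _).2 hB
      have h1 : x = (y ^ 2 - algebraMap E M C) / algebraMap E M B := by
        rw [hy]
        field_simp
        ring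
      refine rc_rat hm h (x := y) ?_ (gen_le hgen ?_)
      · intro hcon
        apply hx
        rw [h1, div_eq_mul_inv, ← map_inv₀]
        exact ((hcon.pow 2).sub (isAlgebraic_algebraMap (A := M) C)).mul
          (isAlgebraic_algebraMap (A := M) _)
      · rintro z (rfl | rfl)
        · rw [h1]
          exact div_mem (sub_mem (pow_mem (hxx y) 2) (hcE _ _)) (hcE _ _)
        · exact hxx z
  · have hA' : algebraMap E M A ≠ 0 := (_root_.map_ne_zero _).2 hA
    obtain ⟨x', hx'⟩ : ∃ x', x' = x + algebraMap E M (B / (2 * A)) := ⟨_, rfl⟩
    have hxe : x = x' - algebraMap E M (B / (2 * A)) := by rw [hx']; ring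
    have hx'T : Transcendental E x' := by
      intro hcon
      apply hx
      rw [hxe]
      exact hcon.sub (isAlgebraic_algebraMap (A := M) _)
    have hy' : y ^ 2 = algebraMap E M A * x' ^ 2 + algebraMap E M (C - B ^ 2 / (4 * A)) := by
      rw [hy, hx']
      simp only [map_sub, map_div₀, map_mul, map_pow, map_ofNat]
      field_simp
      ring
    by_cases hβ : C - B ^ 2 / (4 * A) = 0
    · rw [hβ, map_zero, add_zero] at hy'
      have hx0 : x' ≠ 0 := by
        rintro h0
        rw [h0] at hx'T
        exact hx'T isAlgebraic_zero
      obtain ⟨e, he⟩ := hcl (y / x') (IsIntegral.of_pow two_pos (by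
        have h2 : (y / x') ^ 2 = algebraMap E M A := by
          rw [div_pow, hy']
          field_simp
        rw [h2]
        exact isIntegral_algebraMap))
      refine rc_rat hm h hx'T (gen_le hgen ?_)
      rintro z (rfl | rfl)
      · rw [hxe]
        exact sub_mem (hxx x') (hcE _ _)
      · have h2 : z = algebraMap E M e * x' := by
          rw [he]
          field_simp
        rw [h2]
        exact mul_mem (hcE _ _) (hxx x')
    · refine rc_conic hm h (x := x') (y := y) hx'T (gen_le hgen ?_) hA hβ hy'
      have h3 : x' ∈ IntermediateField.adjoin E {x', y} :=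
        IntermediateField.subset_adjoin E _ (Or.inl rfl)
      rintro z (rfl | rfl)
      · rw [hxe]
        exact sub_mem h3 (hcE _ _)
      · exact IntermediateField.subset_adjoin E _ (Or.inr rfl)

/-- **Families of rational curves over a rationally connected base.** If the geometric generic fibre
is a rational curve and the base is rationally connected then the total space is rationally
connected. -/
theorem rc_family {E M Λ Z : Type} [Field E] [Field M] [Field Λ] [Field Z] [Algebra ℂ E]
    [Algebra ℂ M] [Algebra E M] [IsScalarTower ℂ E M] [Algebra E Λ] [Algebra Λ Z] [Algebra M Z]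
    [Algebra E Z] [IsScalarTower E Λ Z] [IsScalarTower E M Z] [IsAlgClosed Λ]
    [hFF : IsFF E M] (hE : Algebra.IsAlgebraic E Λ)
    (hcl : ∀ z : M, IsIntegral E z → ∃ y : E, algebraMap E M y = z)
    (hZ : IntermediateField.adjoin Λ (Set.range (algebraMap M Z)) = ⊤) {s : Z}
    (hs : Transcendental Λ s) (hgen : IntermediateField.adjoin Λ {s} = ⊤)
    (D : Derivation Λ Z Z) (hD : D s = 1)
    {m : ℕ} (hm : Algebra.trdeg ℂ E = m) (h : RCf E) : RCf M := by
  have hE0 : CharZero E := charZero_of_injective_algebraMap (algebraMap ℂ E).injective
  obtain ⟨x, y, A, B, C, h1, h2, h3⟩ := conic (E := E) (M := M) (Λ := Λ) (Z := Z) hE hcl hZ hs hgen D hD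
  exact rc_of_conic hcl hm h h1 h2 h3

end Pool.Agent.L5helper25.Con
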