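import Pool.Agent.L5helper25.AsmC

/-!
Log canonical pairs dominated by generically finite covers.
-/

set_option autoImplicit false
set_option linter.overlappingInstances false
set_option linter.unusedSectionVars false
set_option linter.unusedVariables false
set_option maxHeartbeats 4000000
set_option synthInstance.maxHeartbeats 400000

open Polynomial FF IntermediateField Module

namespace Pool.Agent.L5helper25

open Pool.Agent.W603.LV Pool.Agent.W619.PQ Pool.Agent.N145.PC Pool.Agent.N145.PL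
open Pool.Agent.N145.SX
open Pool.Agent.W602.GT (Divisorial RegAt IsPluri DerReg DerLog LogAt Psef)
open Pool.Agent.Y184.NT (trForm trForm_pluri)
open Pool.Agent.R882.LT (SecAt TraceNe)
open Pool.Agent.W619.PL (IsA1Uniruled)
open Pool.Agent.Y172 (NormalModel Effective Integral LogCanonical IsSection OrdGe kodairaDim
  numericalDim IsPrimeDivisor exists_crd exists_loc pluri_coord pluri_diag prod_lc)
open Pool.Agent.Y191 (LogDisc)

open scoped Classical

section

variable {K : Type} [Field K] [Algebra ℂ K] {k : ℕ} {F : Fin k → IntermediateField ℂ K}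
  {L : Type} [Field L] [Algebra ℂ L] [Algebra L K] [IsScalarTower ℂ L K] [FiniteDimensional L K]

/-- **The dichotomy for images of generically finite covers.** -/
theorem cov_core {n : ℕ} [Algebra.EssFiniteType ℂ K] (hK : Algebra.trdeg ℂ K = (n : ℕ))
    {E : IntermediateField ℂ K} (hE : E = ⨆ i, F i) [FiniteDimensional E K]
    {H : ∀ i, Set (F i)} {g : Fin k → ℕ}
    (hsep : ∀ (Ω : Type) [Field Ω] [Algebra ℂ Ω] [IsAlgClosed Ω] (i : Fin k),
      Sep (ev Ω F i) (H i) (g i))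
    (hd : ∀ i : Fin k, 2 * finrank (MF F L (Js k i)) (IntermediateField.adjoin
      (MF F L (Js k i)) (F i : Set K)) < g i)
    {BK : Place ℂ K → Prop} {BL1 : Place ℂ L → Prop}
    (hB : ∀ (P : Place ℂ L) (Q : Place ℂ K) (e : ℕ), Over Q P e → BK Q → BL1 P)
    {J : Type} {ω : J → (Fin n → Derivation ℂ K K) → K} (hpl : ∀ j, IsPluri 1 (ω j))
    (hω : ∀ j (s : ∀ i, F i), (∀ i, s i ∈ H i) → ∀ Q, Divisorial n Q →
      SecAt BK Q (fun D => (∏ i, algebraMap (F i) K (s i)) * ω j D))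
    (htr : ∀ M : IntermediateField ℂ K, E < M → ∃ j, TraceNe (ω j) M) :
    (∀ f : L, algebraMap L K f ∈ E) ∨
    ∃ (y : Fin n → L) (G : Fin n → Derivation ℂ L L) (ι : Type)
      (T : ι → L), (∀ i j, G i (y j) = if i = j then 1 else 0) ∧ (∃ f, T f ≠ 0) ∧
      (∀ f, ∀ P : Place ℂ L, Divisorial n P → SecAt BL1 P (trForm y (T f))) ∧
      ∃ x' : Fin n → K, AlgebraicIndependent ℂ x' ∧ ∀ j, IsAlgebraic (Rt T) (x' j) := by
  by_cases hfac : ∀ f : L, algebraMap L K f ∈ E
  · exact Or.inl hfac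
  right
  have hL : Algebra.trdeg ℂ L = (n : ℕ) := Pool.Agent.Y184.NT.trdeg_below (K := K) hK
  have hp : Algebra.trdeg ℂ E = (n : ℕ) := Pool.Agent.Y184.NT.trdeg_below (K := K) hK
  have hessL : Algebra.EssFiniteType ℂ L := Pool.Agent.TH466.QG.ess_below (K := K)
  obtain ⟨y, G, hy, hG⟩ := Pool.Agent.Y172.exists_crd hL
  choose G' hG' using fun i => Pool.Agent.Y172.exists_lift (L := K) hL (G i)
  have hyK : IsTranscendenceBasis ℂ (fun j => algebraMap L K (y j)) := hy.algebraMap_comp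
  have hGK := Pool.Agent.Y172.lift_dual hG hG'
  obtain ⟨w, hw⟩ : ∃ w : J → K, ∀ j, w j = ω j G' := ⟨fun j => ω j G', fun _ => rfl⟩
  let I := {f : ∀ i, F i // ∀ i, f i ∈ H i} × J
  obtain ⟨T, hT⟩ : ∃ T : I → L, ∀ f, T f =
    Algebra.trace L K (w f.2 * ∏ i, algebraMap (F i) K (f.1.1 i)) := ⟨_, fun _ => rfl⟩
  have hTreg : ∀ f, ∀ P : Place ℂ L, Divisorial n P → SecAt BL1 P (trForm y (T f)) := by
    intro f P hP
    have h1 := Pool.Agent.R882.LT.trForm_sec (BK := BK) (BL := BL1) hL hy hG hG'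
      (fun D => (∏ i, algebraMap (F i) K (f.1.1 i)) * ω f.2 D) (by
        intro A D
        change _ * ω f.2 _ = _ * (_ * ω f.2 D)
        rw [hpl f.2 A D]
        ring) hB
      (fun Q hQ => hω f.2 f.1.1 f.1.2 Q hQ) P hP
    rw [hT, mul_comm, hw]
    exact h1
  obtain ⟨τ0⟩ : Nonempty (K →ₐ[L] AlgebraicClosure L) :=
    ⟨IsAlgClosed.lift (R := L) (M := AlgebraicClosure L) (S := K)⟩
  have hT' : IsScalarTower ℂ L (AlgebraicClosure L) := inferInstance
  have hJs : Js k k = Finset.univ := by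
    ext l
    rw [mem_Js]
    exact ⟨fun _ => Finset.mem_univ _, fun _ => l.2⟩
  have hle : E ≤ (MF F L Finset.univ).restrictScalars ℂ := by
    rw [hE]
    refine iSup_le fun i z hz => ?_
    rw [IntermediateField.mem_restrictScalars]
    exact mem_MJ (E := fun i => F i) _ (Finset.mem_univ i) ⟨z, hz⟩
  -- a form with a trace on the image in `X × Y`
  obtain ⟨j0, hj0⟩ : ∃ j, Algebra.trace (MF F L Finset.univ) K (w j) ≠ 0 := by
    by_contra hcon
    push Not at hcon
    have hlt : E < (MF F L Finset.univ).restrictScalars ℂ := by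
      refine lt_of_le_of_ne hle fun h => hfac fun f => ?_
      rw [h]
      exact (MF F L Finset.univ).algebraMap_mem f
    obtain ⟨j, D, D', hD, htrj⟩ := htr _ hlt
    obtain ⟨d1, hd1⟩ : ∃ d1, d1 = (Matrix.of fun i l => D' i (algebraMap L K (y l)) :
      Matrix (Fin n) (Fin n) K).det := ⟨_, rfl⟩
    have hd1M : d1 ∈ MF F L Finset.univ := by
      rw [hd1, Matrix.det_apply]
      refine sum_mem fun σ _ => ?_
      rw [Units.smul_def, zsmul_eq_mul]
      refine mul_mem (intCast_mem _ _) (prod_mem fun j _ => ?_)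
      rw [Matrix.of_apply]
      have h3 : algebraMap L K (y j) ∈ (MF F L Finset.univ).restrictScalars ℂ :=
        (MF F L Finset.univ).algebraMap_mem _
      have h4 := hD (σ j) ⟨_, h3⟩
      change D' (σ j) (algebraMap L K (y j)) ∈ MF F L Finset.univ
      have h5 : D' (σ j) (algebraMap L K (y j)) = ((D (σ j) ⟨_, h3⟩ :
        ((MF F L Finset.univ).restrictScalars ℂ : IntermediateField ℂ K)) : K) := h4
      rw [h5]
      exact (D (σ j) ⟨_, h3⟩).2
    apply htrj
    have h6 : Algebra.trace (MF F L Finset.univ) K (ω j D') = 0 := by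
      rw [Pool.Agent.Y172.pluri_coord hyK hGK (hpl j) D', pow_one, ← hd1, ← hw]
      have h1 : d1 * w j = (⟨d1, hd1M⟩ : MF F L Finset.univ) • w j := rfl
      rw [h1, map_smul, hcon j, smul_zero]
    exact h6
  have hT0 : ∃ f, T f ≠ 0 := by
    by_contra hT0
    push Not at hT0
    have h0 := Ch.rel_zero (F := F) (H := H) (h := w j0) (fun f hf => by
      have := hT0 (⟨f, hf⟩, j0)
      rwa [hT] at this) τ0
    have h1 := Rl.chain h0 (hsep (AlgebraicClosure L)) (s := k) (fun l _ =>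
      lt_of_le_of_lt ((Ch.count_le τ0 _ _).trans (Nat.le_mul_of_pos_left _ two_pos)) (hd l))
    rw [hJs] at h1
    exact hj0 (rel_univ_tr h1)
  obtain ⟨f1, hf1⟩ := hT0
  obtain ⟨Ω', iF, iA, iC, i1, i2, lam, hlam, hlamT, hpts⟩ := exists_pts T (f1 := f1) hf1
  have hrel : Rl (P2 i1 i2 F L) (ev Ω' F) H (C2 i1 i2 (w j0) lam) (Sum.inl τ0)
      Finset.univ := by
    have h0 : Rl (P2 i1 i2 F L) (ev Ω' F) H (C2 i1 i2 (w j0) lam) (Sum.inl τ0) ∅ :=
      Ch.rel2_zero i1 i2 (fun f hf => by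
        have := hlamT (⟨f, hf⟩, j0)
        rw [hT] at this
        exact this) _
    have h1 := Rl.chain h0 (hsep Ω') (s := k) (fun l _ =>
      lt_of_le_of_lt (Ch.count2_le i1 i2 τ0 _ _) (hd l))
    rwa [hJs] at h1
  obtain ⟨τ, hτ⟩ : ∃ τ : K →ₐ[L] AlgebraicClosure L, ∀ (i : Fin k) (z : F i),
      i2 (τ z) = i1 (τ0 z) := by
    by_contra hne
    exact hj0 (rel2_univ_tr i1 i2 hlam hne hrel)
  -- the field where the two points agree
  obtain ⟨S, hS⟩ : ∃ S : IntermediateField ℂ K, ∀ z, z ∈ S ↔ i1 (τ0 z) = i2 (τ z) := by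
    refine ⟨{ carrier := {z | i1 (τ0 z) = i2 (τ z)}
              mul_mem' := fun {a b} ha hb => ?_
              add_mem' := fun {a b} ha hb => ?_
              algebraMap_mem' := fun c => ?_
              inv_mem' := fun a ha => ?_ }, fun z => Iff.rfl⟩
    · change i1 (τ0 (a * b)) = i2 (τ (a * b))
      rw [map_mul, map_mul, map_mul, map_mul, show i1 (τ0 a) = i2 (τ a) from ha,
        show i1 (τ0 b) = i2 (τ b) from hb]
    · change i1 (τ0 (a + b)) = i2 (τ (a + b))
      rw [map_add, map_add, map_add, map_add, show i1 (τ0 a) = i2 (τ a) from ha,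
        show i1 (τ0 b) = i2 (τ b) from hb]
    · change i1 (τ0 (algebraMap ℂ K c)) = i2 (τ (algebraMap ℂ K c))
      rw [IsScalarTower.algebraMap_apply ℂ L K, τ0.commutes, τ.commutes,
        ← IsScalarTower.algebraMap_apply ℂ L (AlgebraicClosure L), i1.commutes, i2.commutes]
    · change i1 (τ0 a⁻¹) = i2 (τ a⁻¹)
      rw [map_inv₀, map_inv₀, map_inv₀, map_inv₀, show i1 (τ0 a) = i2 (τ a) from ha]
  have hSF : E ≤ S := by
    rw [hE]
    exact iSup_le fun i z hz => (hS z).2 (hτ i ⟨z, hz⟩).symm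
  obtain ⟨tE, htE⟩ := Pool.Agent.W636.PG.exists_basis ℂ E n hp
  refine ⟨y, G, I, T, hG, ⟨f1, hf1⟩, hTreg, fun j => (tE j : K),
    htE.1.map' (f := E.val) E.val.injective, fun j => ?_⟩
  exact alg_back τ0 (hpts _ _ ((hS _).1 (hSF (tE j).2)))

end

section

variable {L : Type} [Field L] [Algebra ℂ L] {n N : ℕ} {y : Fin (N + 1) → L}

/-- **From traces to bigness.** -/
theorem big_of_traces {K : Type} [Field K] [Algebra ℂ K] [Algebra L K] [IsScalarTower ℂ L K]
    [FiniteDimensional L K] [Algebra.EssFiniteType ℂ L] (hL : Algebra.trdeg ℂ L = (n : ℕ))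
    (hy : NormalModel y) {Δ : Place ℂ L → ℚ} (hΔ : Effective y Δ)
    {BL1 : Place ℂ L → Prop} (h1 : ∀ P, IsPrimeDivisor y P → BL1 P → 1 ≤ Δ P)
    {z : Fin n → L} {G : Fin n → Derivation ℂ L L} {ι : Type} {T : ι → L}
    (hG : ∀ i j, G i (z j) = if i = j then 1 else 0) (hT0 : ∃ f, T f ≠ 0)
    (hreg : ∀ f, ∀ P : Place ℂ L, Divisorial n P → SecAt BL1 P (trForm z (T f)))
    {x' : Fin n → K} (hx' : AlgebraicIndependent ℂ x') (halg : ∀ j, IsAlgebraic (Rt T) (x' j)) :
    (∃ (ω : Fin (n + 1) → (Fin n → Derivation ℂ L L) → L)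
      (D : Fin n → Derivation ℂ L L),
      (∀ l, IsSection y n 1 Δ (ω l)) ∧ ω 0 D ≠ 0 ∧
      AlgebraicIndependent ℂ fun l : Fin n => ω l.succ D / ω 0 D) ∧
      kodairaDim y n Δ = (n : WithBot ℕ) ∧
      ∀ A, Effective y A → Integral y A → numericalDim y n Δ A = (n : EReal) := by
  obtain ⟨s, hs0, hs⟩ := Pool.Agent.R882.LT.exists_ratios_d (d := n) hL
    (Pool.Agent.N145.PC.trdeg_adj hx') T hT0
    fun D h1 D' h2 j => der_alg2 (Rt T) D' (fun c hc => by
      rw [h2, der_ratio T D h1 c hc, map_zero]) (halg j)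
  have hθE : ∀ t, trForm z t G = t := by
    intro t
    have h1 : (Matrix.of fun i j => G i (z j) :
        Matrix (Fin n) (Fin n) L) = 1 := by
      ext i j
      rw [Matrix.of_apply, hG, Matrix.one_apply]
    rw [trForm, h1, Matrix.det_one, one_mul]
  have hsec : ∀ l, IsSection y n 1 Δ (trForm z (T (s l))) := by
    intro l
    refine ⟨trForm_pluri z _, fun P hP => ?_⟩
    have hPd := hP.divisorial hy hL
    have h3 := hreg (s l) P hPd
    by_cases hB : BL1 P
    · refine (ordGe_of_log hL hPd (trForm_pluri z _) h3.1).mono ?_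
      have := h1 P hP hB
      linarith
    · refine (ordGe_of_reg (h3.2 hB)).mono ?_
      have := hΔ.1 P hP
      linarith
  have h0 : trForm z (T (s 0)) G ≠ 0 := by
    rw [hθE]
    exact hs0
  have hind : AlgebraicIndependent ℂ fun l : Fin n =>
      trForm z (T (s l.succ)) G / trForm z (T (s 0)) G := by
    simp only [hθE]
    exact hs
  refine ⟨⟨fun l => trForm z (T (s l)), G, hsec, h0, hind⟩, ?_⟩
  obtain ⟨x, E, hx, hE⟩ := exists_crd hL
  have hfr : Pool.Agent.Y172.IsFrame E := fun G =>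
    ⟨fun j => G (x j), (Pool.Agent.W73.PG.PULL.expand x hx E hE G).symm⟩
  exact Pool.Agent.Y172.dims hΔ hfr (fun A hA =>
      Pool.Agent.R887.sec_growth hy hL hΔ hA E) le_rfl (ω := fun l => trForm z (T (s l)))
      (fun l => by
        rw [one_smul]
        exact hsec l) h0 hind

end

section

variable {K : Type} [Field K] [Algebra ℂ K] {k : ℕ} {F : Fin k → IntermediateField ℂ K}
  {L : Type} [Field L] [Algebra ℂ L] [Algebra L K] [IsScalarTower ℂ L K] [FiniteDimensional L K]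

/-- **Log canonical pairs dominated by generically finite covers.** -/
theorem cov_lc_pair {n : ℕ} [Algebra.EssFiniteType ℂ K] (hK : Algebra.trdeg ℂ K = (n : ℕ))
    {E : IntermediateField ℂ K} (hE : E = ⨆ i, F i) [FiniteDimensional E K]
    {H : ∀ i, Set (F i)} {g : Fin k → ℕ}
    (hsep : ∀ (Ω : Type) [Field Ω] [Algebra ℂ Ω] [IsAlgClosed Ω] (i : Fin k),
      Sep (ev Ω F i) (H i) (g i))
    (hd : ∀ i : Fin k, 2 * finrank (MF F L (Js k i)) (IntermediateField.adjoin
      (MF F L (Js k i)) (F i : Set K)) < g i)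
    {BK : Place ℂ K → Prop}
    {J : Type} {ω : J → (Fin n → Derivation ℂ K K) → K} (hpl : ∀ j, IsPluri 1 (ω j))
    (hω : ∀ j (s : ∀ i, F i), (∀ i, s i ∈ H i) → ∀ Q, Divisorial n Q →
      SecAt BK Q (fun D => (∏ i, algebraMap (F i) K (s i)) * ω j D))
    (htr : ∀ M : IntermediateField ℂ K, E < M → ∃ j, TraceNe (ω j) M)
    {N : ℕ} {y : Fin (N + 1) → L} (hy : NormalModel y) {Δ : Place ℂ L → ℚ}
    (hΔ : Effective y Δ)
    (h1 : ∀ P, IsPrimeDivisor y P → (∃ (Q : Place ℂ K) (e : ℕ), Over Q P e ∧ BK Q) → 1 ≤ Δ P) :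
    (∀ f : L, algebraMap L K f ∈ E) ∨
    (∃ (ω : Fin (n + 1) → (Fin n → Derivation ℂ L L) → L)
      (D : Fin n → Derivation ℂ L L),
      (∀ l, IsSection y n 1 Δ (ω l)) ∧ ω 0 D ≠ 0 ∧
      AlgebraicIndependent ℂ fun l : Fin n => ω l.succ D / ω 0 D) ∧
      kodairaDim y n Δ = (n : WithBot ℕ) ∧
      ∀ A, Effective y A → Integral y A → numericalDim y n Δ A = (n : EReal) := by
  have hL : Algebra.trdeg ℂ L = (n : ℕ) := Pool.Agent.Y184.NT.trdeg_below (K := K) hK
  have hessL : Algebra.EssFiniteType ℂ L := Pool.Agent.TH466.QG.ess_below (K := K)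
  rcases cov_core (L := L) (BL1 := fun P => ∃ (Q : Place ℂ K) (e : ℕ), Over Q P e ∧ BK Q)
    hK hE hsep hd (fun P Q e h3 h4 => ⟨Q, e, h3, h4⟩) hpl hω htr with h |
    ⟨z, G, ι, T, hG, hT0, hreg, x', hx', halg⟩
  · exact Or.inl h
  · exact Or.inr (big_of_traces (K := K) hL hy hΔ h1 hG hT0 hreg hx' halg)

/-- **The factorization over an `A¹`-uniruled base.** -/
theorem fac_lc_pair {n : ℕ} [Algebra.EssFiniteType ℂ K] (hK : Algebra.trdeg ℂ K = (n : ℕ))
    {E : IntermediateField ℂ K} [FiniteDimensional E K] {BE : Place ℂ E → Prop}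
    (hA : IsA1Uniruled ℂ E n BE)
    {N : ℕ} {y : Fin (N + 1) → L} (hy : NormalModel y) {Δ : Place ℂ L → ℚ}
    (hLC : LogCanonical y n Δ)
    (h2 : ∀ (P : Place ℂ L) (R : Place ℂ K) (Q : Place ℂ E) (e f : ℕ), Divisorial n P →
      Over R P e → Over R Q f → ¬ BE Q → LogDisc y n Δ P 1)
    (hfac : ∀ f : L, algebraMap L K f ∈ E) :
    kodairaDim y n Δ = ⊥ ∧ ∀ A, Effective y A → numericalDim y n Δ A = ⊥ := by
  classical
  have hL : Algebra.trdeg ℂ L = (n : ℕ) := Pool.Agent.Y184.NT.trdeg_below (K := K) hK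
  have hessL : Algebra.EssFiniteType ℂ L := Pool.Agent.TH466.QG.ess_below (K := K)
  let φ : L →ₐ[ℂ] E :=
    { toFun := fun f => ⟨algebraMap L K f, hfac f⟩
      map_one' := Subtype.ext (map_one _)
      map_mul' := fun f g => Subtype.ext (map_mul _ _ _)
      map_zero' := Subtype.ext (map_zero _)
      map_add' := fun f g => Subtype.ext (map_add _ _ _)
      commutes' := fun c => Subtype.ext (IsScalarTower.algebraMap_apply ℂ L K c).symm }
  let _ : Algebra L E := φ.toRingHom.toAlgebra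
  have t1 : IsScalarTower ℂ L E := IsScalarTower.of_algebraMap_eq fun c => (φ.commutes c).symm
  have t2 : IsScalarTower L E K := IsScalarTower.of_algebraMap_eq fun c => rfl
  have hfd : FiniteDimensional L E :=
    FiniteDimensional.of_injective (IsScalarTower.toAlgHom L E K).toLinearMap
      Subtype.val_injective
  have hessE : Algebra.EssFiniteType ℂ E := Pool.Agent.TH466.QG.ess_below (K := K)
  obtain ⟨BL2, hBL2⟩ : ∃ BL2 : Place ℂ L → Prop, ∀ P, BL2 P ↔
    Divisorial n P ∧ ¬ LogDisc y n Δ P 1 := ⟨_, fun _ => Iff.rfl⟩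
  have hBB : ∀ (P : Place ℂ L) (Q : Place ℂ E) (e : ℕ), Over Q P e → BL2 P → BE Q := by
    intro P Q e h hP
    obtain ⟨h3, h4⟩ := (hBL2 P).1 hP
    by_contra hcon
    obtain ⟨R, f, hR⟩ := Pool.Agent.Y172.exists_above (L := K) Q
    exact h4 (h2 P R Q _ f h3 (Pool.Agent.R882.LT.over_trans h hR) hR hcon)
  refine neg_of_not_psef hL hy hLC (Bd := BL2) (fun Q hQ hQB => ?_)
    (not_psef_of_a1 hL (Pool.Agent.R882.LT.a1_down' hBB hA))
  by_contra hcon
  exact hQB ((hBL2 Q).2 ⟨hQ, hcon⟩)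

end

end Pool.Agent.L5helper25
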