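import Pool.Agent.L5helper25.CurT
import Pool.Agent.N145.SX.MLang
import Pool.Agent.N145.SX.All3

/-!
Families of curves: general type, or a covering by curves of genus at most one.
-/

set_option autoImplicit false
set_option linter.overlappingInstances false
set_option linter.unusedSectionVars false
set_option linter.unusedVariables false
set_option maxHeartbeats 4000000
set_option synthInstance.maxHeartbeats 400000

open Polynomial FF IsDedekindDomain IntermediateField Module

namespace Pool.Agent.L5helper25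

open Pool.Agent.W603.LV Pool.Agent.W619.PQ Pool.Agent.N145.PC Pool.Agent.N145.PL
open Pool.Agent.N145.SX
open Pool.Agent.W602.GT (Divisorial RegAt IsPluri DerReg DerLog LogAt)
open Pool.Agent.Y184.NT (trForm trForm_pluri)
open Pool.Agent.R882.LT (SecAt)
open Pool.Agent.R882.GL (trace_fib)

/-- the trace only depends on the subfield -/
theorem trace_of_mem {L B K : Type} [Field L] [Field B] [Field K] [Algebra L K] [Algebra B K]
    (M : IntermediateField L K) (M' : IntermediateField B K) (h : ∀ z, z ∈ M ↔ z ∈ M') (z : K) :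
    ((Algebra.trace M K z : M) : K) = ((Algebra.trace M' K z : M') : K) := by
  let e : M ≃+* M' :=
    { toFun := fun a => ⟨a, (h a).1 a.2⟩
      invFun := fun a => ⟨a, (h a).2 a.2⟩
      left_inv := fun a => rfl
      right_inv := fun a => rfl
      map_mul' := fun a b => rfl
      map_add' := fun a b => rfl }
  have h1 := Algebra.trace_eq_of_ringEquiv e (by
    ext a
    rfl) z
  rw [← h1]
  rfl

section

variable {K : Type} [Field K] [Algebra ℂ K] {n : ℕ}
  {L : Type} [Field L] [Algebra ℂ L] [Algebra L K] [IsScalarTower ℂ L K] [FiniteDimensional L K]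

/-- **Families of curves.** If the traces of the forms to the image `M` in `X × B` are multiples of one
function, and the forms generate the regular differentials of the geometric generic fibre, then `X` is
covered by curves of genus at most one. -/
theorem fam_glo [hess : Algebra.EssFiniteType ℂ K] (hK : Algebra.trdeg ℂ K = (n + 1 : ℕ))
    (B : IntermediateField ℂ K) (hB : Algebra.trdeg ℂ B = n)
    (hcl : ∀ z : K, IsAlgebraic B z → z ∈ B)
    (M : IntermediateField L K) (hle : B ≤ M.restrictScalars ℂ)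
    {yL : Fin (n + 1) → L} {G : Fin (n + 1) → Derivation ℂ L L}
    {G' : Fin (n + 1) → Derivation ℂ K K} (hyL : IsTranscendenceBasis ℂ yL)
    (hG : ∀ i j, G i (yL j) = if i = j then 1 else 0)
    (hG' : ∀ i (g : L), G' i (algebraMap L K g) = algebraMap L K (G i g))
    {J : Type} {ω : J → (Fin (n + 1) → Derivation ℂ K K) → K} (hω : ∀ j, IsPluri 1 (ω j))
    {S0 : K} (htr : ∀ j, ∃ c : B, ((Algebra.trace M K (ω j G') : M) : K) = (c : K) * S0)
    {Λ Z : Type} [Field Λ] [Field Z] [Algebra B Λ] [Algebra Λ Z] [Algebra K Z]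
    [IsScalarTower B Λ Z] [Algebra ℂ Λ] [Algebra ℂ Z] [IsScalarTower ℂ Λ Z] [IsScalarTower ℂ K Z]
    [IsScalarTower ℂ B Λ] [Algebra.IsAlgebraic B Λ] [IsAlgClosed Λ]
    (hZ : IntermediateField.adjoin Λ (Set.range (algebraMap K Z)) = ⊤)
    {D : Fin (n + 1) → Derivation ℂ K K} (hD0 : LinearIndependent K D)
    (hDB : ∀ i, ∀ z ∈ B, D i z ∈ B) (hDl : ∀ z ∈ B, D (Fin.last n) z = 0)
    {DZ : Derivation Λ Z Z}
    (hDZ : ∀ z : K, DZ (algebraMap K Z z) = algebraMap K Z (D (Fin.last n) z))
    (hspan : ∀ g ∈ HL DZ (∅ : Set (Place Λ Z)),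
      g ∈ Submodule.span Λ (Set.range fun j => algebraMap K Z (ω j D))) :
    Cov1 L n := by
  classical
  have hL : Algebra.trdeg ℂ L = (n + 1 : ℕ) := Pool.Agent.Y184.NT.trdeg_below (K := K) hK
  have hessL : Algebra.EssFiniteType ℂ L := Pool.Agent.TH466.QG.ess_below (K := K)
  have hΛ0 : CharZero Λ := charZero_of_injective_algebraMap (algebraMap ℂ Λ).injective
  have hBc : CharZero B := charZero_of_injective_algebraMap (algebraMap ℂ B).injective
  have hfinM : FiniteDimensional (M.restrictScalars ℂ : IntermediateField ℂ K) K := by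
    have h1 : FiniteDimensional M K := inferInstance
    exact h1
  obtain ⟨E', hE'⟩ : ∃ E' : IntermediateField B K,
      E' = IntermediateField.extendScalars hle := ⟨_, rfl⟩
  have hE'm : ∀ z : K, z ∈ M ↔ z ∈ E' := by
    intro z
    rw [hE', IntermediateField.mem_extendScalars, mem_restrictScalars]
  have hfinE : FiniteDimensional E' K := by
    have h1 : FiniteDimensional M K := inferInstance
    rw [hE']
    exact h1
  obtain ⟨t, ξ, ht, hξM, hξ, hbas, DE, Ef, hlift, hEfB, hEf⟩ :=
    exists_frame hK B hB (M.restrictScalars ℂ) hle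
  have hcl' : ∀ z : K, IsIntegral B z → ∃ y : B, algebraMap B K y = z := fun z hz =>
    ⟨⟨z, hcl z hz.isAlgebraic⟩, rfl⟩
  have htransc : ∀ z : K, ¬ IsAlgebraic B z → Transcendental Λ (algebraMap K Z z) := by
    intro z hz h
    apply hz
    have h1 : IsAlgebraic B (algebraMap K Z z) := h.restrictScalars B
    exact (isAlgebraic_algebraMap_iff (R := B) (algebraMap K Z).injective).1 h1
  have hξF := htransc ξ hξ
  have happ : ∀ l : Fin n, Fin.append t (fun _ : Fin 1 => ξ) l.castSucc = t l := fun l =>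
    Fin.append_left t _ l
  have happ' : Fin.append t (fun _ : Fin 1 => ξ) (Fin.last n) = ξ :=
    Fin.append_right t (fun _ : Fin 1 => ξ) 0
  -- the forms in the frame `Ef`
  have hyK : IsTranscendenceBasis ℂ (fun j => algebraMap L K (yL j)) := hyL.algebraMap_comp
  have hGK := Pool.Agent.Y172.lift_dual hG hG'
  obtain ⟨d1, hd1⟩ : ∃ d1, d1 = (Matrix.of fun i l => Ef i (algebraMap L K (yL l)) :
    Matrix (Fin (n + 1)) (Fin (n + 1)) K).det := ⟨_, rfl⟩
  have hd1M : d1 ∈ M := by
    rw [hd1, Matrix.det_apply]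
    refine sum_mem fun σ _ => ?_
    rw [Units.smul_def, zsmul_eq_mul]
    refine mul_mem (intCast_mem _ _) (prod_mem fun j _ => ?_)
    rw [Matrix.of_apply]
    have h3 : algebraMap L K (yL j) ∈ M.restrictScalars ℂ := M.algebraMap_mem _
    have h4 := hlift (σ j) ⟨_, h3⟩
    change Ef (σ j) (algebraMap L K (yL j)) ∈ M
    rw [h4]
    exact (DE (σ j) ⟨_, h3⟩).2
  have htrEf : ∀ j, ∃ c : B, ((Algebra.trace E' K (ω j Ef) : E') : K) = (c : K) * (d1 * S0) := by
    intro j
    obtain ⟨c, hc⟩ := htr j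
    refine ⟨c, ?_⟩
    rw [← trace_of_mem M E' hE'm, Pool.Agent.Y172.pluri_coord hyK hGK (hω j) Ef, pow_one, ← hd1]
    have h1 : d1 * ω j G' = (⟨d1, hd1M⟩ : M) • ω j G' := rfl
    rw [h1, map_smul, smul_eq_mul, MulMemClass.coe_mul, hc]
    ring
  -- the forms in the frame `D`
  obtain ⟨b0, hb0⟩ : ∃ b0, b0 = (Matrix.of fun i l => D i (Fin.append t (fun _ : Fin 1 => ξ) l) :
    Matrix (Fin (n + 1)) (Fin (n + 1)) K).det := ⟨_, rfl⟩
  have hωD : ∀ j, ω j D = b0 * ω j Ef := by
    intro j
    rw [Pool.Agent.Y172.pluri_coord hbas hEf (hω j) D, pow_one, ← hb0]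
  obtain ⟨b1, hb1⟩ : ∃ b1, b1 = (Matrix.of fun (i l : Fin n) => D i.castSucc (t l) :
    Matrix (Fin n) (Fin n) K).det := ⟨_, rfl⟩
  have hb1B : b1 ∈ B := by
    rw [hb1, Matrix.det_apply]
    refine sum_mem fun σ _ => ?_
    rw [Units.smul_def, zsmul_eq_mul]
    refine mul_mem (intCast_mem _ _) (prod_mem fun j _ => ?_)
    rw [Matrix.of_apply]
    exact hDB _ _ (ht j)
  have hb01 : b0 = b1 * D (Fin.last n) ξ := by
    rw [hb0, Matrix.det_succ_row _ (Fin.last n), Fin.sum_univ_castSucc, Finset.sum_eq_zero, zero_add]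
    · rw [Matrix.of_apply, happ', Fin.val_last, Even.neg_one_pow ⟨n, rfl⟩, one_mul, mul_comm, hb1]
      congr 2
      ext i l
      rw [Matrix.submatrix_apply, Matrix.of_apply, Matrix.of_apply, Fin.succAbove_last, happ]
    · intro l _
      rw [Matrix.of_apply, happ, hDl _ (ht l), mul_zero, zero_mul]
  have hDξ : D (Fin.last n) ξ ≠ 0 := by
    intro h0
    have h1 : D (Fin.last n) = 0 := by
      rw [← Pool.Agent.W73.PG.PULL.expand _ hbas Ef hEf (D (Fin.last n))]
      refine Finset.sum_eq_zero fun l _ => ?_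
      induction l using Fin.lastCases with
      | last => rw [happ', h0, zero_smul]
      | cast l => rw [happ, hDl _ (ht l), zero_smul]
    exact hD0.ne_zero _ h1
  -- the derivation of the fibre
  have hDZξ : DZ (algebraMap K Z ξ) ≠ 0 := by
    rw [hDZ]
    exact (_root_.map_ne_zero _).2 hDξ
  have hDZ0 : DZ ≠ 0 := by
    intro h
    rw [h] at hDZξ
    exact hDZξ rfl
  obtain ⟨D1, hD1d⟩ : ∃ D1 : Derivation Λ Z Z, D1 = (DZ (algebraMap K Z ξ))⁻¹ • DZ := ⟨_, rfl⟩
  have hD1 : D1 (algebraMap K Z ξ) = 1 := by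
    rw [hD1d, Derivation.smul_apply, smul_eq_mul, inv_mul_cancel₀ hDZξ]
  -- the fibre
  have hLK : Algebra.trdeg B K = (1 : ℕ) := Pool.Agent.Y174.trdeg_LK (r := 1) hB hK
  have htrF : Algebra.trdeg Λ Z = (1 : ℕ) := Pool.Agent.Y174.trdeg_F (L := B) (K := K) hLK hZ
  have hessF : Algebra.EssFiniteType Λ Z := Pool.Agent.Y174.ess_F (k := ℂ) (K := K) hess hZ
  have hFF : IsFF Λ Z := ⟨hessF, by rw [htrF]; simp⟩
  obtain ⟨FE, hFE⟩ : ∃ FE : IntermediateField Λ Z,
    FE = IntermediateField.adjoin Λ (algebraMap K Z '' E') := ⟨_, rfl⟩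
  obtain ⟨hfin, htrace⟩ := trace_fib (F := Z) hcl' hZ E' FE hFE
  have hessE : Algebra.EssFiniteType Λ FE := Pool.Agent.TH466.QG.ess_below (K := Z)
  have htrE : Algebra.trdeg Λ FE = 1 := by
    have h1 := trdeg_add_eq Λ FE (A := Z)
    have h2 : Algebra.trdeg FE Z = 0 := trdeg_eq_zero
    rw [h2, add_zero, hFF.trdeg] at h1
    exact h1
  have hFFE : IsFF Λ FE := ⟨hessE, htrE⟩
  have hmemFE : ∀ e : K, e ∈ E' → algebraMap K Z e ∈ FE := by
    intro e he
    rw [hFE]
    exact IntermediateField.subset_adjoin _ _ ⟨e, he, rfl⟩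
  have hline : ∀ g ∈ HL D1 (∅ : Set (Place Λ Z)), ∃ c : Λ,
      algebraMap FE Z (Algebra.trace FE Z g) = algebraMap Λ Z c * algebraMap K Z (d1 * S0) := by
    intro g hg
    by_cases hg0 : g = 0
    · exact ⟨0, by rw [hg0, map_zero, map_zero, map_zero, zero_mul]⟩
    have h1 : DZ (algebraMap K Z ξ) * g ∈ HL DZ (∅ : Set (Place Λ Z)) := by
      intro Q
      right
      have h2 := (hg Q).resolve_left hg0
      rw [hD1d, vo_smul Q hDZ0 (inv_ne_zero hDZξ), Q.ord_inv] at h2
      rw [Q.ord_mul hDZξ hg0]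
      linarith
    have h2 := hspan _ h1
    have h3 : ∀ y : Z, y ∈ Submodule.span Λ (Set.range fun j => algebraMap K Z (ω j D)) →
        ∃ c : Λ, algebraMap FE Z (Algebra.trace FE Z ((DZ (algebraMap K Z ξ))⁻¹ * y)) =
          algebraMap Λ Z c * algebraMap K Z (d1 * S0) := by
      intro y hy
      induction hy using Submodule.span_induction with
      | zero => exact ⟨0, by rw [mul_zero, map_zero, map_zero, map_zero, zero_mul]⟩
      | add u v _ _ hu hv =>
        obtain ⟨c, hc⟩ := hu
        obtain ⟨d, hd⟩ := hv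
        exact ⟨c + d, by rw [mul_add, map_add, map_add, hc, hd, map_add, add_mul]⟩
      | smul a u _ hu =>
        obtain ⟨c, hc⟩ := hu
        have h10 : (DZ (algebraMap K Z ξ))⁻¹ * a • u =
            (algebraMap Λ FE a) • ((DZ (algebraMap K Z ξ))⁻¹ * u) := by
          rw [Algebra.smul_def, Algebra.smul_def, ← IsScalarTower.algebraMap_apply Λ FE Z]
          ring
        refine ⟨a * c, ?_⟩
        rw [h10, map_smul, smul_eq_mul, map_mul (algebraMap FE Z), hc,
          ← IsScalarTower.algebraMap_apply Λ FE Z, map_mul (algebraMap Λ Z)]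
        ring
      | mem y hy =>
        obtain ⟨j, rfl⟩ := hy
        beta_reduce
        have h4 : algebraMap K Z b1 = algebraMap Λ Z (algebraMap B Λ ⟨b1, hb1B⟩) := by
          rw [← IsScalarTower.algebraMap_apply B Λ Z]
          rfl
        have h5 : (DZ (algebraMap K Z ξ))⁻¹ * algebraMap K Z (ω j D) =
            (algebraMap Λ FE (algebraMap B Λ ⟨b1, hb1B⟩)) • algebraMap K Z (ω j Ef) := by
          rw [Algebra.smul_def, ← IsScalarTower.algebraMap_apply Λ FE Z, ← h4, hωD, hb01, hDZ,
            map_mul, map_mul]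
          have h6 : algebraMap K Z (D (Fin.last n) ξ) ≠ 0 := (_root_.map_ne_zero _).2 hDξ
          field_simp
        obtain ⟨c, hc⟩ := htrEf j
        refine ⟨algebraMap B Λ ⟨b1, hb1B⟩ * algebraMap B Λ c, ?_⟩
        have h7 : algebraMap FE Z (Algebra.trace FE Z (algebraMap K Z (ω j Ef))) =
            algebraMap Λ Z (algebraMap B Λ c) * algebraMap K Z (d1 * S0) := by
          have h8 := htrace (ω j Ef)
          rw [hc, map_mul (algebraMap K Z) (c : K)] at h8
          rw [← IsScalarTower.algebraMap_apply B Λ Z, IsScalarTower.algebraMap_apply B K Z]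
          exact h8
        rw [h5, map_smul, smul_eq_mul, map_mul (algebraMap FE Z), h7,
          ← IsScalarTower.algebraMap_apply Λ FE Z, map_mul (algebraMap Λ Z)]
        ring
    have h4 := h3 _ h2
    rwa [inv_mul_cancel_left₀ hDZξ] at h4
  have hglo : GLO Λ FE := Pool.Agent.N273.SX.glo_of_line D1
    ⟨algebraMap K Z ξ, hmemFE ξ ((hE'm ξ).1 hξM)⟩ hD1 (algebraMap K Z (d1 * S0)) hline
  have hΛtr : Algebra.trdeg ℂ Λ = (n : ℕ) := by
    have h1 := trdeg_add_eq ℂ B (A := Λ)
    have h2 : Algebra.trdeg B Λ = 0 := trdeg_eq_zero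
    rw [h2, add_zero, hB] at h1
    exact h1.symm
  have hmemL : ∀ z : L, algebraMap K Z (algebraMap L K z) ∈ FE := fun z =>
    hmemFE _ ((hE'm _).1 (M.algebraMap_mem z))
  let ψ : L →ₐ[ℂ] FE :=
    { toFun := fun z => ⟨_, hmemL z⟩
      map_one' := Subtype.ext (by simp)
      map_mul' := fun a b => Subtype.ext (by simp)
      map_zero' := Subtype.ext (by simp)
      map_add' := fun a b => Subtype.ext (by simp)
      commutes' := fun c => Subtype.ext (by
        change algebraMap K Z (algebraMap L K (algebraMap ℂ L c)) = _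
        rw [← IsScalarTower.algebraMap_apply ℂ L K, ← IsScalarTower.algebraMap_apply ℂ K Z]
        rfl) }
  exact ⟨Λ, FE, inferInstance, inferInstance, inferInstance, inferInstance, inferInstance,
    inferInstance, inferInstance, hFFE, hΛtr, hglo, ⟨ψ⟩⟩

end

end Pool.Agent.L5helper25
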