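import Pool.Agent.L5helper25.FamL

/-!
Families of curves: general type, or a covering by curves of genus at most one: the dichotomy.
-/

set_option autoImplicit false
set_option linter.overlappingInstances false
set_option linter.unusedSectionVars false
set_option linter.unusedVariables false
set_option maxHeartbeats 4000000
set_option synthInstance.maxHeartbeats 400000

open Polynomial FF IntermediateField Module

namespace Pool.Agent.L5helper25

open Pool.Agent.W603.LV Pool.Agent.W619.PQ Pool.Agent.N145.PC Pool.Agent.N145.PL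
open Pool.Agent.N145.SX
open Pool.Agent.W602.GT (Divisorial RegAt IsPluri DerReg DerLog LogAt)
open Pool.Agent.Y184.NT (trForm trForm_pluri)
open Pool.Agent.R882.LT (SecAt)

open scoped Classical

section

variable {K : Type} [Field K] [Algebra ℂ K] {k : ℕ} {F : Fin k → IntermediateField ℂ K}
  {L Ω : Type} [Field L] [Field Ω] [Algebra ℂ L] [Algebra ℂ Ω]
  [Algebra L K] [IsScalarTower ℂ L K] [Algebra L Ω] [IsScalarTower ℂ L Ω]
  [FiniteDimensional L K] [IsAlgClosed Ω]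
  {Ω' : Type} [Field Ω'] [Algebra ℂ Ω'] (ι θ : Ω →ₐ[ℂ] Ω')

/-- the relation if all coordinates agree -/
theorem rel2_all {H : ∀ i, Set (F i)} {h : K} {lam : Ω'} {τ0 τ : K →ₐ[L] Ω}
    (hτ : ∀ i, ∀ z : F i, θ (τ z) = ι (τ0 z))
    (h1 : Rl (P2 ι θ F L) (ev Ω' F) H (C2 ι θ h lam) (Sum.inl τ0) Finset.univ) :
    θ (τ ((Algebra.trace (MF F L Finset.univ) K h : MF F L Finset.univ) : K)) =
    lam * ι (τ0 ((Algebra.trace (MF F L Finset.univ) K h : MF F L Finset.univ) : K)) := by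
  obtain ⟨S1, -, h3, h4⟩ := Ch.exists_parts ι θ (F := F) τ0 Finset.univ
  have hS1 : ∀ σ, σ ∈ S1 ↔ ∀ z ∈ MF F L Finset.univ, σ z = τ z := by
    intro σ
    rw [← h3, mem_SJ]
    have h5 := mem_iff (K := K) (L := L) (Ω := Ω) (E := fun i => F i) τ Finset.univ σ
    rw [mem_SJ] at h5
    rw [← h5]
    refine forall₂_congr fun i hi => ?_
    constructor
    · intro h6
      refine AlgHom.ext fun z => θ.injective ?_
      have h7 : θ (σ z) = ι (τ0 z) := DFunLike.congr_fun h6 z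
      exact h7.trans (hτ i z).symm
    · intro h6
      refine AlgHom.ext fun z => ?_
      have h7 : σ (z : K) = τ z := DFunLike.congr_fun h6 z
      change θ (σ z) = ι (τ0 z)
      rw [h7]
      exact hτ i z
  have h6 := h1 (fun _ => 0) fun i hi => absurd (Finset.mem_univ i) hi
  rw [h4, Finset.compl_univ, Finset.sum_disjSum] at h6
  have e1 : ∑ σ ∈ SJ (fun i => res (K := K) (L := L) (Ω := Ω) (F i)) τ0 Finset.univ,
      C2 ι θ h lam (Sum.inl σ) * ∏ i ∈ (∅ : Finset (Fin k)), ev Ω' F i 0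
        (P2 ι θ F L i (Sum.inl σ)) =
      -(lam * ι (∑ σ ∈ SJ (fun i => res (K := K) (L := L) (Ω := Ω) (F i)) τ0
        Finset.univ, σ h)) := by
    rw [map_sum, Finset.mul_sum, ← Finset.sum_neg_distrib]
    refine Finset.sum_congr rfl fun σ _ => ?_
    rw [Finset.prod_empty, mul_one]
    rfl
  have e2 : ∑ σ ∈ S1, C2 ι θ h lam (Sum.inr σ) * ∏ i ∈ (∅ : Finset (Fin k)), ev Ω' F i 0
        (P2 ι θ F L i (Sum.inr σ)) = θ (∑ σ ∈ S1, σ h) := by
    rw [map_sum]
    refine Finset.sum_congr rfl fun σ _ => ?_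
    rw [Finset.prod_empty, mul_one]
    rfl
  have s1 := sum_trace (MF F L Finset.univ) τ0 _ (mem_iff τ0 Finset.univ) h
  have s2 := sum_trace (MF F L Finset.univ) τ S1 hS1 h
  rw [e1, e2, s1, s2] at h6
  have h7 := eq_neg_of_add_eq_zero_right h6
  rw [neg_neg] at h7
  exact h7

end

section

variable {K : Type} [Field K] [Algebra ℂ K] {k : ℕ} {F : Fin k → IntermediateField ℂ K}
  {L : Type} [Field L] [Algebra ℂ L] [Algebra L K] [IsScalarTower ℂ L K] [FiniteDimensional L K]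

/-- **Images of families of curves.** -/
theorem fam_lang {n : ℕ} [Algebra.EssFiniteType ℂ K] (hK : Algebra.trdeg ℂ K = (n + 1 : ℕ))
    {E : IntermediateField ℂ K} (hE : E = ⨆ i, F i) (hp : Algebra.trdeg ℂ E = n)
    (hcl : ∀ z : K, IsAlgebraic E z → z ∈ E)
    {H : ∀ i, Set (F i)} {g : Fin k → ℕ}
    (hsep : ∀ (Ω : Type) [Field Ω] [Algebra ℂ Ω] [IsAlgClosed Ω] (i : Fin k),
      Sep (ev Ω F i) (H i) (g i))
    (hd : ∀ i : Fin k, 2 * finrank (MF F L (Js k i)) (IntermediateField.adjoin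
      (MF F L (Js k i)) (F i : Set K)) < g i)
    {J : Type} {ω : J → (Fin (n + 1) → Derivation ℂ K K) → K} (hpl : ∀ j, IsPluri 1 (ω j))
    (hω : ∀ j (s : ∀ i, F i), (∀ i, s i ∈ H i) → ∀ Q, Divisorial (n + 1) Q →
      RegAt Q (fun D => (∏ i, algebraMap (F i) K (s i)) * ω j D))
    {Λ Z : Type} [Field Λ] [Field Z] [Algebra E Λ] [Algebra Λ Z] [Algebra K Z]
    [IsScalarTower E Λ Z] [Algebra ℂ Λ] [Algebra ℂ Z] [IsScalarTower ℂ Λ Z] [IsScalarTower ℂ K Z]
    [IsScalarTower ℂ E Λ] [Algebra.IsAlgebraic E Λ] [IsAlgClosed Λ]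
    (hZ : IntermediateField.adjoin Λ (Set.range (algebraMap K Z)) = ⊤)
    {D : Fin (n + 1) → Derivation ℂ K K} (hD0 : LinearIndependent K D)
    (hDB : ∀ i, ∀ z ∈ E, D i z ∈ E) (hDl : ∀ z ∈ E, D (Fin.last n) z = 0)
    {DZ : Derivation Λ Z Z}
    (hDZ : ∀ z : K, DZ (algebraMap K Z z) = algebraMap K Z (D (Fin.last n) z))
    (hspan : ∀ g ∈ HL DZ (∅ : Set (Place Λ Z)),
      g ∈ Submodule.span Λ (Set.range fun j => algebraMap K Z (ω j D))) :
    CanGe L (n + 1) (n + 1) ∨ Cov1 L n := by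
  have hL : Algebra.trdeg ℂ L = (n + 1 : ℕ) := Pool.Agent.Y184.NT.trdeg_below (K := K) hK
  have hessL : Algebra.EssFiniteType ℂ L := Pool.Agent.TH466.QG.ess_below (K := K)
  obtain ⟨y, G, hy, hG⟩ := Pool.Agent.Y172.exists_crd hL
  choose G' hG' using fun i => Pool.Agent.Y172.exists_lift (L := K) hL (G i)
  obtain ⟨w, hw⟩ : ∃ w : J → K, ∀ j, w j = ω j G' := ⟨fun j => ω j G', fun _ => rfl⟩
  let I := {f : ∀ i, F i // ∀ i, f i ∈ H i} × J
  obtain ⟨T, hT⟩ : ∃ T : I → L, ∀ f, T f =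
    Algebra.trace L K (w f.2 * ∏ i, algebraMap (F i) K (f.1.1 i)) := ⟨_, fun _ => rfl⟩
  have hTreg : ∀ f, ∀ P : Place ℂ L, Divisorial (n + 1) P → RegAt P (trForm y (T f)) := by
    intro f P hP
    have h1 := Pool.Agent.R882.LT.trForm_sec (BK := fun _ => False) (BL := fun _ => False)
      hL hy hG hG'
      (fun D => (∏ i, algebraMap (F i) K (f.1.1 i)) * ω f.2 D) (by
        intro A D
        change _ * ω f.2 _ = _ * (_ * ω f.2 D)
        rw [hpl f.2 A D]
        ring) (fun _ _ _ _ h => h)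
      (fun Q hQ => ⟨fun D hD => hω f.2 f.1.1 f.1.2 Q hQ D fun i =>
        Pool.Agent.TH466.QG.derReg_of_log (hD i), fun _ => hω f.2 f.1.1 f.1.2 Q hQ⟩) P hP
    rw [hT, mul_comm, hw]
    exact h1.2 not_false
  obtain ⟨τ0⟩ : Nonempty (K →ₐ[L] AlgebraicClosure L) :=
    ⟨IsAlgClosed.lift (R := L) (M := AlgebraicClosure L) (S := K)⟩
  have hT' : IsScalarTower ℂ L (AlgebraicClosure L) := inferInstance
  have hJs : Js k k = Finset.univ := by
    ext l
    rw [mem_Js]
    exact ⟨fun _ => Finset.mem_univ _, fun _ => l.2⟩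
  have hle : E ≤ (MF F L Finset.univ).restrictScalars ℂ := by
    rw [hE]
    refine iSup_le fun i z hz => ?_
    rw [IntermediateField.mem_restrictScalars]
    exact mem_MJ (E := fun i => F i) _ (Finset.mem_univ i) ⟨z, hz⟩
  have key : ∀ S0 : K, (∀ j, ∃ c : E, ((Algebra.trace (MF F L Finset.univ) K (w j) :
      MF F L Finset.univ) : K) = (c : K) * S0) → Cov1 L n := fun S0 h0 =>
    fam_glo hK E hp hcl (MF F L Finset.univ) hle hy hG hG' hpl (S0 := S0) (fun j => by
      rw [← hw]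
      exact h0 j) hZ hD0 hDB hDl hDZ hspan
  by_cases hall0 : ∀ j, Algebra.trace (MF F L Finset.univ) K (w j) = 0
  · exact Or.inr (key 0 fun j => ⟨0, by rw [hall0 j]; simp⟩)
  push Not at hall0
  obtain ⟨j0, hj0⟩ := hall0
  have hT0 : ∃ f, T f ≠ 0 := by
    by_contra hT0
    push Not at hT0
    have h0 := Ch.rel_zero (F := F) (H := H) (h := w j0) (fun f hf => by
      have := hT0 (⟨f, hf⟩, j0)
      rwa [hT] at this) τ0
    have h1 := Rl.chain h0 (hsep (AlgebraicClosure L)) (s := k) (fun l _ =>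
      lt_of_le_of_lt ((Ch.count_le τ0 _ _).trans (Nat.le_mul_of_pos_left _ two_pos)) (hd l))
    rw [hJs] at h1
    exact hj0 (rel_univ_tr h1)
  obtain ⟨f1, hf1⟩ := hT0
  obtain ⟨Ω', iF, iA, iC, i1, i2, lam, hlam, hlamT, hpts⟩ := exists_pts T (f1 := f1) hf1
  have hrel : ∀ j : J, Rl (P2 i1 i2 F L) (ev Ω' F) H (C2 i1 i2 (w j) lam) (Sum.inl τ0)
      Finset.univ := by
    intro j
    have h0 : Rl (P2 i1 i2 F L) (ev Ω' F) H (C2 i1 i2 (w j) lam) (Sum.inl τ0) ∅ :=
      Ch.rel2_zero i1 i2 (fun f hf => by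
        have := hlamT (⟨f, hf⟩, j)
        rw [hT] at this
        exact this) _
    have h1 := Rl.chain h0 (hsep Ω') (s := k) (fun l _ =>
      lt_of_le_of_lt (Ch.count2_le i1 i2 τ0 _ _) (hd l))
    rwa [hJs] at h1
  obtain ⟨τ, hτ⟩ : ∃ τ : K →ₐ[L] AlgebraicClosure L, ∀ (i : Fin k) (z : F i),
      i2 (τ z) = i1 (τ0 z) := by
    by_contra hne
    exact hj0 (rel2_univ_tr i1 i2 hlam hne (hrel j0))
  -- the functions of the base are algebraic over the ratios
  have hEalg : ∀ z : E, IsAlgebraic (Rt T) (z : K) := by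
    have h2 : E ≤ (algebraicClosure (Rt T) K).restrictScalars ℂ := by
      rw [hE]
      refine iSup_le fun i v hv => ?_
      rw [mem_restrictScalars, mem_algebraicClosure_iff]
      exact alg_back τ0 (hpts _ _ (hτ i ⟨v, hv⟩).symm)
    intro z
    have h3 := h2 z.2
    rwa [mem_restrictScalars, mem_algebraicClosure_iff] at h3
  obtain ⟨tE, htE⟩ := Pool.Agent.W636.PG.exists_basis ℂ E n hp
  have hgen : ∀ u : K, ¬ IsAlgebraic E u → IsAlgebraic (Rt T) u → CanGe L (n + 1) (n + 1) := by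
    intro u hu hu'
    refine canGe_of_alg hL hG T ⟨f1, hf1⟩ hTreg (trdeg_adj (indep_snoc htE hu))
      fun j => ?_
    induction j using Fin.lastCases with
    | last =>
      rw [Fin.snoc_last]
      exact hu'
    | cast i =>
      rw [Fin.snoc_castSucc]
      exact hEalg _
  by_cases hex : ∃ u : K, ¬ IsAlgebraic E u ∧ IsAlgebraic (Rt T) u
  · obtain ⟨u, hu, hu'⟩ := hex
    exact Or.inl (hgen u hu hu')
  push Not at hex
  have hall : ∀ u : K, IsAlgebraic (Rt T) u → u ∈ E := fun u hu => by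
    by_contra hcon
    exact hex u (fun h => hcon (hcl u h)) hu
  right
  refine key ((Algebra.trace (MF F L Finset.univ) K (w j0) : MF F L Finset.univ) : K) fun j => ?_
  have h1 := rel2_all i1 i2 hτ (hrel j)
  have h2 := rel2_all i1 i2 hτ (hrel j0)
  obtain ⟨a, ha⟩ : ∃ a : K, a = ((Algebra.trace (MF F L Finset.univ) K (w j) :
    MF F L Finset.univ) : K) := ⟨_, rfl⟩
  obtain ⟨b, hb⟩ : ∃ b : K, b = ((Algebra.trace (MF F L Finset.univ) K (w j0) :
    MF F L Finset.univ) : K) := ⟨_, rfl⟩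
  have hb0 : b ≠ 0 := by
    rw [hb]
    intro h0
    exact hj0 (Subtype.ext h0)
  rw [← ha] at h1 ⊢
  rw [← hb] at h2 ⊢
  have h3 : i1 (τ0 (a / b)) = i2 (τ (a / b)) := by
    rw [map_div₀, map_div₀, map_div₀, map_div₀, h1, h2, mul_div_mul_left _ _ hlam]
  have h4 := hall _ (alg_back τ0 (hpts _ _ h3))
  exact ⟨⟨a / b, h4⟩, (div_mul_cancel₀ a hb0).symm⟩

end

end Pool.Agent.L5helper25
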