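import Pool.Agent.L5helper25.Con7
import Pool.Agent.L5helper25.CurT

/-!
Families of curves over a rationally connected base.
-/

set_option autoImplicit false
set_option linter.overlappingInstances false
set_option linter.unusedSectionVars false
set_option linter.unusedVariables false
set_option maxHeartbeats 4000000
set_option synthInstance.maxHeartbeats 400000

open Polynomial FF IsDedekindDomain IntermediateField Module

namespace Pool.Agent.L5helper25

open Pool.Agent.W603.LV Pool.Agent.W619.PQ Pool.Agent.N145.PC Pool.Agent.N145.PL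
open Pool.Agent.W602.GT (IsPluri)
open Pool.Agent.R882.GL (trace_fib)

theorem Con.rc_descends {K : Type} [Field K] [Algebra ℂ K] {L : Type} [Field L] [Algebra ℂ L]
    [Algebra L K] [IsScalarTower ℂ L K] [Algebra.IsAlgebraic L K] (h : Con.RCf K) :
    Con.RCf L := by
  intro Ω _ _ _ σ τ
  have ext : ∀ ρ : L →ₐ[ℂ] Ω, ∃ ρ' : K →ₐ[ℂ] Ω, ∀ f, ρ' (algebraMap L K f) = ρ f := by
    intro ρ
    let _ : Algebra L Ω := ρ.toRingHom.toAlgebra
    have _ : IsScalarTower ℂ L Ω := IsScalarTower.of_algebraMap_eq fun c => (ρ.commutes c).symm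
    let ρ' : K →ₐ[L] Ω := IsAlgClosed.lift
    exact ⟨ρ'.restrictScalars ℂ, fun f => ρ'.commutes f⟩
  obtain ⟨σ', hσ⟩ := ext σ
  obtain ⟨τ', hτ⟩ := ext τ
  obtain ⟨γ, hγ⟩ := h Ω σ' τ'
  refine ⟨γ.comp (IsScalarTower.toAlgHom ℂ L K), fun f => ?_⟩
  have h1 := hγ (algebraMap L K f)
  rw [hσ, hτ] at h1
  exact h1

section

variable {K : Type} [Field K] [Algebra ℂ K] {n : ℕ}
  {L : Type} [Field L] [Algebra ℂ L] [Algebra L K] [IsScalarTower ℂ L K] [FiniteDimensional L K]

/-- **Families of curves over a rationally connected base.** If the traces of the forms to the image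
`M` in `X × B` are zero, the forms generate the regular differentials of the geometric generic fibre,
and `B` is rationally connected, then `X` is rationally connected. -/
theorem fam_rc [hess : Algebra.EssFiniteType ℂ K] (hK : Algebra.trdeg ℂ K = (n + 1 : ℕ))
    (B : IntermediateField ℂ K) (hB : Algebra.trdeg ℂ B = n)
    (hcl : ∀ z : K, IsAlgebraic B z → z ∈ B)
    (M : IntermediateField L K) (hle : B ≤ M.restrictScalars ℂ)
    {yL : Fin (n + 1) → L} {G : Fin (n + 1) → Derivation ℂ L L}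
    {G' : Fin (n + 1) → Derivation ℂ K K} (hyL : IsTranscendenceBasis ℂ yL)
    (hG : ∀ i j, G i (yL j) = if i = j then 1 else 0)
    (hG' : ∀ i (g : L), G' i (algebraMap L K g) = algebraMap L K (G i g))
    {J : Type} {ω : J → (Fin (n + 1) → Derivation ℂ K K) → K} (hω : ∀ j, IsPluri 1 (ω j))
    (htr : ∀ j, Algebra.trace M K (ω j G') = 0)
    {Λ Z : Type} [Field Λ] [Field Z] [Algebra B Λ] [Algebra Λ Z] [Algebra K Z]
    [IsScalarTower B Λ Z] [Algebra ℂ Λ] [Algebra ℂ Z] [IsScalarTower ℂ Λ Z] [IsScalarTower ℂ K Z]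
    [IsScalarTower ℂ B Λ] [Algebra.IsAlgebraic B Λ] [IsAlgClosed Λ]
    (hZ : IntermediateField.adjoin Λ (Set.range (algebraMap K Z)) = ⊤)
    {D : Fin (n + 1) → Derivation ℂ K K} (hD0 : LinearIndependent K D)
    (hDB : ∀ i, ∀ z ∈ B, D i z ∈ B) (hDl : ∀ z ∈ B, D (Fin.last n) z = 0)
    {DZ : Derivation Λ Z Z}
    (hDZ : ∀ z : K, DZ (algebraMap K Z z) = algebraMap K Z (D (Fin.last n) z))
    (hspan : ∀ g ∈ HL DZ (∅ : Set (Place Λ Z)),
      g ∈ Submodule.span Λ (Set.range fun j => algebraMap K Z (ω j D)))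
    (hrc : Con.RCf B) : Con.RCf L := by
  classical
  have hL : Algebra.trdeg ℂ L = (n + 1 : ℕ) := Pool.Agent.Y184.NT.trdeg_below (K := K) hK
  have hessL : Algebra.EssFiniteType ℂ L := Pool.Agent.TH466.QG.ess_below (K := K)
  have hΛ0 : CharZero Λ := charZero_of_injective_algebraMap (algebraMap ℂ Λ).injective
  have hBc : CharZero B := charZero_of_injective_algebraMap (algebraMap ℂ B).injective
  have hfinM : FiniteDimensional (M.restrictScalars ℂ : IntermediateField ℂ K) K := by
    have h1 : FiniteDimensional M K := inferInstance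
    exact h1
  obtain ⟨E', hE'⟩ : ∃ E' : IntermediateField B K,
      E' = IntermediateField.extendScalars hle := ⟨_, rfl⟩
  have hE'm : ∀ z : K, z ∈ M ↔ z ∈ E' := by
    intro z
    rw [hE', IntermediateField.mem_extendScalars, mem_restrictScalars]
  have hfinE : FiniteDimensional E' K := by
    have h1 : FiniteDimensional M K := inferInstance
    rw [hE']
    exact h1
  obtain ⟨t, ξ, ht, hξM, hξ, hbas, DE, Ef, hlift, hEfB, hEf⟩ :=
    exists_frame hK B hB (M.restrictScalars ℂ) hle
  have hcl' : ∀ z : K, IsIntegral B z → ∃ y : B, algebraMap B K y = z := fun z hz =>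
    ⟨⟨z, hcl z hz.isAlgebraic⟩, rfl⟩
  have htransc : ∀ z : K, ¬ IsAlgebraic B z → Transcendental Λ (algebraMap K Z z) := by
    intro z hz h
    apply hz
    have h1 : IsAlgebraic B (algebraMap K Z z) := h.restrictScalars B
    exact (isAlgebraic_algebraMap_iff (R := B) (algebraMap K Z).injective).1 h1
  have hξF := htransc ξ hξ
  have happ : ∀ l : Fin n, Fin.append t (fun _ : Fin 1 => ξ) l.castSucc = t l := fun l =>
    Fin.append_left t _ l
  have happ' : Fin.append t (fun _ : Fin 1 => ξ) (Fin.last n) = ξ :=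
    Fin.append_right t (fun _ : Fin 1 => ξ) 0
  -- the forms in the frame `Ef`
  have hyK : IsTranscendenceBasis ℂ (fun j => algebraMap L K (yL j)) := hyL.algebraMap_comp
  have hGK := Pool.Agent.Y172.lift_dual hG hG'
  obtain ⟨d1, hd1⟩ : ∃ d1, d1 = (Matrix.of fun i l => Ef i (algebraMap L K (yL l)) :
    Matrix (Fin (n + 1)) (Fin (n + 1)) K).det := ⟨_, rfl⟩
  have hd1M : d1 ∈ M := by
    rw [hd1, Matrix.det_apply]
    refine sum_mem fun σ _ => ?_
    rw [Units.smul_def, zsmul_eq_mul]
    refine mul_mem (intCast_mem _ _) (prod_mem fun j _ => ?_)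
    rw [Matrix.of_apply]
    have h3 : algebraMap L K (yL j) ∈ M.restrictScalars ℂ := M.algebraMap_mem _
    have h4 := hlift (σ j) ⟨_, h3⟩
    change Ef (σ j) (algebraMap L K (yL j)) ∈ M
    rw [h4]
    exact (DE (σ j) ⟨_, h3⟩).2
  have htrEf : ∀ j, Algebra.trace E' K (ω j Ef) = 0 := by
    intro j
    refine trace_zero_of_mem M E' hE'm ?_
    rw [Pool.Agent.Y172.pluri_coord hyK hGK (hω j) Ef, pow_one, ← hd1]
    have h1 : d1 * ω j G' = (⟨d1, hd1M⟩ : M) • ω j G' := rfl
    rw [h1, map_smul, htr j, smul_zero]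
  -- the forms in the frame `D`
  obtain ⟨b0, hb0⟩ : ∃ b0, b0 = (Matrix.of fun i l => D i (Fin.append t (fun _ : Fin 1 => ξ) l) :
    Matrix (Fin (n + 1)) (Fin (n + 1)) K).det := ⟨_, rfl⟩
  have hωD : ∀ j, ω j D = b0 * ω j Ef := by
    intro j
    rw [Pool.Agent.Y172.pluri_coord hbas hEf (hω j) D, pow_one, ← hb0]
  obtain ⟨b1, hb1⟩ : ∃ b1, b1 = (Matrix.of fun (i l : Fin n) => D i.castSucc (t l) :
    Matrix (Fin n) (Fin n) K).det := ⟨_, rfl⟩
  have hb1B : b1 ∈ B := by
    rw [hb1, Matrix.det_apply]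
    refine sum_mem fun σ _ => ?_
    rw [Units.smul_def, zsmul_eq_mul]
    refine mul_mem (intCast_mem _ _) (prod_mem fun j _ => ?_)
    rw [Matrix.of_apply]
    exact hDB _ _ (ht j)
  have hb01 : b0 = b1 * D (Fin.last n) ξ := by
    rw [hb0, Matrix.det_succ_row _ (Fin.last n), Fin.sum_univ_castSucc, Finset.sum_eq_zero, zero_add]
    · rw [Matrix.of_apply, happ', Fin.val_last, Even.neg_one_pow ⟨n, rfl⟩, one_mul, mul_comm, hb1]
      congr 2
      ext i l
      rw [Matrix.submatrix_apply, Matrix.of_apply, Matrix.of_apply, Fin.succAbove_last, happ]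
    · intro l _
      rw [Matrix.of_apply, happ, hDl _ (ht l), mul_zero, zero_mul]
  have hDξ : D (Fin.last n) ξ ≠ 0 := by
    intro h0
    have h1 : D (Fin.last n) = 0 := by
      rw [← Pool.Agent.W73.PG.PULL.expand _ hbas Ef hEf (D (Fin.last n))]
      refine Finset.sum_eq_zero fun l _ => ?_
      induction l using Fin.lastCases with
      | last => rw [happ', h0, zero_smul]
      | cast l => rw [happ, hDl _ (ht l), zero_smul]
    exact hD0.ne_zero _ h1
  -- the derivation of the fibre
  have hDZξ : DZ (algebraMap K Z ξ) ≠ 0 := by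
    rw [hDZ]
    exact (_root_.map_ne_zero _).2 hDξ
  have hDZ0 : DZ ≠ 0 := by
    intro h
    rw [h] at hDZξ
    exact hDZξ rfl
  obtain ⟨D1, hD1d⟩ : ∃ D1 : Derivation Λ Z Z, D1 = (DZ (algebraMap K Z ξ))⁻¹ • DZ := ⟨_, rfl⟩
  have hD1 : D1 (algebraMap K Z ξ) = 1 := by
    rw [hD1d, Derivation.smul_apply, smul_eq_mul, inv_mul_cancel₀ hDZξ]
  -- the fibre
  have hLK : Algebra.trdeg B K = (1 : ℕ) := Pool.Agent.Y174.trdeg_LK (r := 1) hB hK
  have htrF : Algebra.trdeg Λ Z = (1 : ℕ) := Pool.Agent.Y174.trdeg_F (L := B) (K := K) hLK hZ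
  have hessF : Algebra.EssFiniteType Λ Z := Pool.Agent.Y174.ess_F (k := ℂ) (K := K) hess hZ
  have hFF : IsFF Λ Z := ⟨hessF, by rw [htrF]; simp⟩
  obtain ⟨FE, hFE⟩ : ∃ FE : IntermediateField Λ Z,
    FE = IntermediateField.adjoin Λ (algebraMap K Z '' E') := ⟨_, rfl⟩
  obtain ⟨hfin, htrace⟩ := trace_fib (F := Z) hcl' hZ E' FE hFE
  have hessE : Algebra.EssFiniteType Λ FE := Pool.Agent.TH466.QG.ess_below (K := Z)
  have htrE : Algebra.trdeg Λ FE = 1 := by
    have h1 := trdeg_add_eq Λ FE (A := Z)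
    have h2 : Algebra.trdeg FE Z = 0 := trdeg_eq_zero
    rw [h2, add_zero, hFF.trdeg] at h1
    exact h1
  have hFFE : IsFF Λ FE := ⟨hessE, htrE⟩
  have hmemFE : ∀ e : K, e ∈ E' → algebraMap K Z e ∈ FE := by
    intro e he
    rw [hFE]
    exact IntermediateField.subset_adjoin _ _ ⟨e, he, rfl⟩
  have hzero : ∀ g ∈ HL D1 (∅ : Set (Place Λ Z)), Algebra.trace FE Z g = 0 := by
    intro g hg
    by_cases hg0 : g = 0
    · rw [hg0, map_zero]
    have h1 : DZ (algebraMap K Z ξ) * g ∈ HL DZ (∅ : Set (Place Λ Z)) := by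
      intro Q
      right
      have h2 := (hg Q).resolve_left hg0
      rw [hD1d, vo_smul Q hDZ0 (inv_ne_zero hDZξ), Q.ord_inv] at h2
      rw [Q.ord_mul hDZξ hg0]
      linarith
    have h2 := hspan _ h1
    have h3 : ∀ y : Z, y ∈ Submodule.span Λ (Set.range fun j => algebraMap K Z (ω j D)) →
        Algebra.trace FE Z ((DZ (algebraMap K Z ξ))⁻¹ * y) = 0 := by
      intro y hy
      induction hy using Submodule.span_induction with
      | zero => rw [mul_zero, map_zero]
      | add u v _ _ hu hv => rw [mul_add, map_add, hu, hv, add_zero]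
      | smul a u _ hu =>
        have h10 : (DZ (algebraMap K Z ξ))⁻¹ * a • u =
            (algebraMap Λ FE a) • ((DZ (algebraMap K Z ξ))⁻¹ * u) := by
          rw [Algebra.smul_def, Algebra.smul_def, ← IsScalarTower.algebraMap_apply Λ FE Z]
          ring
        rw [h10, map_smul, hu, smul_zero]
      | mem y hy =>
        obtain ⟨j, rfl⟩ := hy
        beta_reduce
        have h4 : algebraMap K Z b1 = algebraMap Λ Z (algebraMap B Λ ⟨b1, hb1B⟩) := by
          rw [← IsScalarTower.algebraMap_apply B Λ Z]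
          rfl
        have h5 : (DZ (algebraMap K Z ξ))⁻¹ * algebraMap K Z (ω j D) =
            (algebraMap Λ FE (algebraMap B Λ ⟨b1, hb1B⟩)) • algebraMap K Z (ω j Ef) := by
          rw [Algebra.smul_def, ← IsScalarTower.algebraMap_apply Λ FE Z, ← h4, hωD, hb01, hDZ,
            map_mul, map_mul]
          have h6 : algebraMap K Z (D (Fin.last n) ξ) ≠ 0 := (_root_.map_ne_zero _).2 hDξ
          field_simp
        rw [h5, map_smul]
        have h6 : Algebra.trace FE Z (algebraMap K Z (ω j Ef)) = 0 := by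
          apply Subtype.ext
          rw [htrace, htrEf j]
          simp
        rw [h6, smul_zero]
    have h4 := h3 _ h2
    rwa [inv_mul_cancel_left₀ hDZξ] at h4
  obtain ⟨s, hs, -⟩ := curve Λ FE Z D1 ⟨algebraMap K Z ξ, hmemFE ξ ((hE'm ξ).1 hξM)⟩ hD1
    (∅ : Set (Place Λ Z)) hzero
  have hsT : Transcendental Λ s := by
    intro h1
    have h2 : Algebra.IsAlgebraic Λ (IntermediateField.adjoin Λ {s}) :=
      IntermediateField.isAlgebraic_adjoin_simple h1.isIntegral
    have h3 : IsAlgebraic Λ (⟨algebraMap K Z ξ, hmemFE ξ ((hE'm ξ).1 hξM)⟩ : FE) := by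
      have h4 : (⟨algebraMap K Z ξ, hmemFE ξ ((hE'm ξ).1 hξM)⟩ : FE) ∈
          IntermediateField.adjoin Λ {s} := by
        rw [hs]
        trivial
      have h5 := h2.isAlgebraic ⟨_, h4⟩
      exact (isAlgebraic_algebraMap_iff (R := Λ)
        (algebraMap (IntermediateField.adjoin Λ {s}) FE).injective).2 h5
    exact hξF ((isAlgebraic_algebraMap_iff (R := Λ) (algebraMap FE Z).injective).2 h3)
  -- a derivation of the curve `FE`
  obtain ⟨D2, hD2⟩ : ∃ D2 : Derivation Λ FE FE, D2 s = 1 := by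
    obtain ⟨x, G0, hx, hG0⟩ := Pool.Agent.Y172.exists_crd (k := Λ) (K := FE) (n := 1) (by
      rw [htrE]
      simp)
    have h1 : G0 0 s ≠ 0 := by
      intro h2
      have h3 : ∀ z ∈ IntermediateField.adjoin Λ {s}, G0 0 z = 0 := by
        intro z hz
        induction hz using IntermediateField.adjoin_induction with
        | mem x hx => rw [Set.mem_singleton_iff.1 hx, h2]
        | algebraMap x => exact (G0 0).map_algebraMap x
        | add x y _ _ hx hy => rw [map_add, hx, hy, add_zero]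
        | inv x _ hx => rw [(G0 0).leibniz_inv, hx, smul_zero]
        | mul x y _ _ hx hy => rw [(G0 0).leibniz, hx, hy, smul_zero, smul_zero, add_zero]
      have h4 := h3 (x 0) (by rw [hs]; trivial)
      rw [hG0] at h4
      simp at h4
    exact ⟨(G0 0 s)⁻¹ • G0 0, by rw [Derivation.smul_apply, smul_eq_mul, inv_mul_cancel₀ h1]⟩
  -- the conic bundle
  let _ : Algebra E' FE := (RingHom.codRestrict (algebraMap K Z |>.comp (algebraMap E' K)) FE
    (fun e => hmemFE _ e.2)).toAlgebra
  have hcoe : ∀ e : E', ((algebraMap E' FE e : FE) : Z) = algebraMap K Z (e : K) := fun e => rfl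
  have hcoe2 : ∀ e : B, ((algebraMap B FE e : FE) : Z) = algebraMap B Z e := fun e => rfl
  have t1 : IsScalarTower B E' FE := IsScalarTower.of_algebraMap_eq fun e => by
    apply Subtype.ext
    rw [hcoe, hcoe2]
    rfl
  have t2 : IsScalarTower ℂ B E' := IsScalarTower.of_algebraMap_eq fun c => by
    apply Subtype.ext
    rfl
  have hLE : ∀ z : L, algebraMap L K z ∈ E' := fun z => (hE'm _).1 (M.algebraMap_mem z)
  have hessB : Algebra.EssFiniteType B K := Algebra.EssFiniteType.of_comp ℂ B K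
  have hFF' : IsFF B E' := by
    refine ⟨Pool.Agent.TH466.QG.ess_below (K := K), ?_⟩
    have h1 := trdeg_add_eq B E' (A := K)
    have h2 : Algebra.trdeg E' K = 0 := trdeg_eq_zero
    rw [h2, add_zero, hLK] at h1
    rw [h1]
    simp
  have hrcE : Con.RCf E' := by
    refine Con.rc_family (E := B) (M := E') (Λ := Λ) (Z := FE) inferInstance (fun z hz => ?_) ?_
      hsT hs D2 hD2 hB hrc
    · obtain ⟨y, hy⟩ := hcl' (z : K) (hz.map (IsScalarTower.toAlgHom B E' K))
      exact ⟨y, Subtype.ext hy⟩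
    · rw [eq_top_iff]
      intro z _
      have h1 : (z : Z) ∈ (IntermediateField.adjoin Λ (Set.range (algebraMap E' FE))).map FE.val := by
        rw [IntermediateField.adjoin_map]
        have h2 : (FE.val : FE → Z) '' Set.range (algebraMap E' FE) = algebraMap K Z '' E' := by
          ext u
          constructor
          · rintro ⟨_, ⟨e, rfl⟩, rfl⟩
            exact ⟨e, e.2, rfl⟩
          · rintro ⟨e, he, rfl⟩
            exact ⟨_, ⟨⟨e, he⟩, rfl⟩, rfl⟩
        rw [h2, ← hFE]
        exact z.2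
      obtain ⟨u, hu, hu'⟩ := h1
      have h3 : u = z := Subtype.ext hu'
      rw [← h3]
      exact hu
  -- `L` is below `E'`
  let _ : Algebra L E' := (RingHom.codRestrict (algebraMap L K) E' hLE).toAlgebra
  have t3 : IsScalarTower ℂ L E' := IsScalarTower.of_algebraMap_eq fun c => by
    apply Subtype.ext
    exact IsScalarTower.algebraMap_apply ℂ L K c
  have t4 : IsScalarTower L E' K := IsScalarTower.of_algebraMap_eq fun c => rfl
  have t5 : Algebra.IsAlgebraic L E' := Algebra.IsAlgebraic.tower_bot_of_injective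
    (A := K) Subtype.val_injective
  exact Con.rc_descends hrcE

end

end Pool.Agent.L5helper25
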