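import Pool.Agent.L5helper25.FamR
import Pool.Agent.L5helper25.FamM

/-!
Images of families of curves of geometric genus zero.
-/

set_option autoImplicit false
set_option linter.overlappingInstances false
set_option linter.unusedSectionVars false
set_option linter.unusedVariables false
set_option maxHeartbeats 4000000
set_option synthInstance.maxHeartbeats 400000

open Polynomial FF IntermediateField Module

namespace Pool.Agent.L5helper25

open Pool.Agent.W603.LV Pool.Agent.W619.PQ Pool.Agent.N145.PC Pool.Agent.N145.PL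
open Pool.Agent.N145.SX
open Pool.Agent.W602.GT (Divisorial RegAt IsPluri DerReg DerLog LogAt)
open Pool.Agent.Y184.NT (trForm trForm_pluri)
open Pool.Agent.R882.LT (SecAt)
open Pool.Agent.W619.PL (IsA1Uniruled)

open scoped Classical

section

variable {K : Type} [Field K] [Algebra ℂ K] {k : ℕ} {F : Fin k → IntermediateField ℂ K}
  {L : Type} [Field L] [Algebra ℂ L] [Algebra L K] [IsScalarTower ℂ L K] [FiniteDimensional L K]

/-- **Images of families of curves of geometric genus zero.** -/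
theorem fam_gz {n : ℕ} [Algebra.EssFiniteType ℂ K] (hK : Algebra.trdeg ℂ K = (n + 1 : ℕ))
    {E : IntermediateField ℂ K} (hE : E = ⨆ i, F i) (hp : Algebra.trdeg ℂ E = n)
    (hcl : ∀ z : K, IsAlgebraic E z → z ∈ E)
    {H : ∀ i, Set (F i)} {g : Fin k → ℕ}
    (hsep : ∀ (Ω : Type) [Field Ω] [Algebra ℂ Ω] [IsAlgClosed Ω] (i : Fin k),
      Sep (ev Ω F i) (H i) (g i))
    (hd : ∀ i : Fin k, finrank (MF F L (Js k i)) (IntermediateField.adjoin
      (MF F L (Js k i)) (F i : Set K)) < g i)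
    {J : Type} {ω : J → (Fin (n + 1) → Derivation ℂ K K) → K} (hpl : ∀ j, IsPluri 1 (ω j))
    (hω : ∀ j (s : ∀ i, F i), (∀ i, s i ∈ H i) → ∀ Q, Divisorial (n + 1) Q →
      RegAt Q (fun D => (∏ i, algebraMap (F i) K (s i)) * ω j D))
    {Λ Z : Type} [Field Λ] [Field Z] [Algebra E Λ] [Algebra Λ Z] [Algebra K Z]
    [IsScalarTower E Λ Z] [Algebra ℂ Λ] [Algebra ℂ Z] [IsScalarTower ℂ Λ Z] [IsScalarTower ℂ K Z]
    [IsScalarTower ℂ E Λ] [Algebra.IsAlgebraic E Λ] [IsAlgClosed Λ]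
    (hZ : IntermediateField.adjoin Λ (Set.range (algebraMap K Z)) = ⊤)
    {D : Fin (n + 1) → Derivation ℂ K K} (hD0 : LinearIndependent K D)
    (hDB : ∀ i, ∀ z ∈ E, D i z ∈ E) (hDl : ∀ z ∈ E, D (Fin.last n) z = 0)
    {DZ : Derivation Λ Z Z}
    (hDZ : ∀ z : K, DZ (algebraMap K Z z) = algebraMap K Z (D (Fin.last n) z))
    (hspan : ∀ g ∈ HL DZ (∅ : Set (Place Λ Z)),
      g ∈ Submodule.span Λ (Set.range fun j => algebraMap K Z (ω j D)))
    (hgz : ∀ η : (Fin (n + 1) → Derivation ℂ L L) → L, IsPluri 1 η →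
      (∀ P : Place ℂ L, Divisorial (n + 1) P → RegAt P η) → ∀ D, η D = 0) :
    IsUniruled ℂ L (n + 1) ∧ (Con.RCf E → Con.RCf L) := by
  have hL : Algebra.trdeg ℂ L = (n + 1 : ℕ) := Pool.Agent.Y184.NT.trdeg_below (K := K) hK
  have hessL : Algebra.EssFiniteType ℂ L := Pool.Agent.TH466.QG.ess_below (K := K)
  obtain ⟨y, G, hy, hG⟩ := Pool.Agent.Y172.exists_crd hL
  choose G' hG' using fun i => Pool.Agent.Y172.exists_lift (L := K) hL (G i)
  obtain ⟨w, hw⟩ : ∃ w : J → K, ∀ j, w j = ω j G' := ⟨fun j => ω j G', fun _ => rfl⟩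
  let I := {f : ∀ i, F i // ∀ i, f i ∈ H i} × J
  obtain ⟨T, hT⟩ : ∃ T : I → L, ∀ f, T f =
    Algebra.trace L K (w f.2 * ∏ i, algebraMap (F i) K (f.1.1 i)) := ⟨_, fun _ => rfl⟩
  have hTreg : ∀ f, ∀ P : Place ℂ L, Divisorial (n + 1) P → RegAt P (trForm y (T f)) := by
    intro f P hP
    have h1 := Pool.Agent.R882.LT.trForm_sec (BK := fun _ => False) (BL := fun _ => False)
      hL hy hG hG'
      (fun D => (∏ i, algebraMap (F i) K (f.1.1 i)) * ω f.2 D) (by
        intro A D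
        change _ * ω f.2 _ = _ * (_ * ω f.2 D)
        rw [hpl f.2 A D]
        ring) (fun _ _ _ _ h => h)
      (fun Q hQ => ⟨fun D hD => hω f.2 f.1.1 f.1.2 Q hQ D fun i =>
        Pool.Agent.TH466.QG.derReg_of_log (hD i), fun _ => hω f.2 f.1.1 f.1.2 Q hQ⟩) P hP
    rw [hT, mul_comm, hw]
    exact h1.2 not_false
  have hT0 : ∀ f, T f = 0 := by
    intro f
    have h1 := hgz _ (trForm_pluri y (T f)) (hTreg f) G
    have h2 : (Matrix.of fun i j => G i (y j) : Matrix (Fin (n + 1)) (Fin (n + 1)) L) = 1 := by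
      ext i j
      rw [Matrix.of_apply, hG, Matrix.one_apply]
    rwa [trForm, h2, Matrix.det_one, one_mul] at h1
  obtain ⟨τ0⟩ : Nonempty (K →ₐ[L] AlgebraicClosure L) :=
    ⟨IsAlgClosed.lift (R := L) (M := AlgebraicClosure L) (S := K)⟩
  have hT' : IsScalarTower ℂ L (AlgebraicClosure L) := inferInstance
  have hJs : Js k k = Finset.univ := by
    ext l
    rw [mem_Js]
    exact ⟨fun _ => Finset.mem_univ _, fun _ => l.2⟩
  have hle : E ≤ (MF F L Finset.univ).restrictScalars ℂ := by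
    rw [hE]
    refine iSup_le fun i z hz => ?_
    rw [IntermediateField.mem_restrictScalars]
    exact mem_MJ (E := fun i => F i) _ (Finset.mem_univ i) ⟨z, hz⟩
  have htr : ∀ j, Algebra.trace (MF F L Finset.univ) K (ω j G') = 0 := by
    intro j
    have h0 := Ch.rel_zero (F := F) (H := H) (h := w j) (fun f hf => by
      have := hT0 (⟨f, hf⟩, j)
      rwa [hT] at this) τ0
    have h1 := Rl.chain h0 (hsep (AlgebraicClosure L)) (s := k) (fun l _ =>
      lt_of_le_of_lt (Ch.count_le τ0 _ _) (hd l))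
    rw [hJs] at h1
    rw [← hw]
    exact rel_univ_tr h1
  refine ⟨?_, fun hrc => fam_rc hK E hp hcl (MF F L Finset.univ) hle hy hG hG' hpl htr hZ hD0 hDB
    hDl hDZ hspan hrc⟩
  obtain ⟨M, i1, i2, φ, h1, h2, -⟩ := fam_a1 hK E hp hcl (MF F L Finset.univ) hle hy hG hG' hpl htr
    hZ hD0 hDB hDl hDZ (BZ := ∅) hspan (BL := fun _ => False) (fun _ _ _ _ _ h => h.elim)
  exact ⟨M, i1, i2, h1, h2, ⟨φ⟩⟩

end

end Pool.Agent.L5helper25
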