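import Pool.Agent.N401.GP.TNF
import Pool.Agent.N162.GP.Facts

/-!
Forms of lower degree: traces, uniqueness of extensions of derivations, linear disjointness.
-/

set_option autoImplicit false
set_option linter.overlappingInstances false
set_option linter.unusedSectionVars false
set_option linter.unusedVariables false
set_option maxHeartbeats 4000000
set_option synthInstance.maxHeartbeats 400000

open FF Pool.Agent.W603.LV Pool.Agent.Y184.NT Pool.Agent.N162.BC IntermediateField
open Pool.Agent.W602.GT Pool.Agent.W619.PQ Pool.Agent.Y172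

namespace Pool.Agent.L5helper25.Mf

section

variable {K K' L : Type} [Field K] [Algebra ℂ K] [Algebra.EssFiniteType ℂ K] [Field K']
  [Algebra ℂ K'] [Algebra K K'] [IsScalarTower ℂ K K'] [Field L] [Algebra ℂ L] [Algebra L K']
  [IsScalarTower ℂ L K'] [FiniteDimensional L K'] [Algebra.EssFiniteType ℂ L]

/-- **The trace of the pull-back of a regular form of lower degree.** -/
theorem trace_form {n w : ℕ} (hn : Algebra.trdeg ℂ K = n) (hw : Algebra.trdeg ℂ L = w)
    {y : Fin n → K} (hy : IsTranscendenceBasis ℂ y) {ε : Fin n → Derivation ℂ K K}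
    (hε : ∀ i j, ε i (y j) = if i = j then 1 else 0)
    {ω : (Fin n → Derivation ℂ K K) → K} (hω : GlobalForm n ω) :
    ∃ η : AlternatingMap L (Derivation ℂ L L) L (Fin n),
      (∀ P : Place ℂ L, Divisorial w P → ∀ D : Fin n → Derivation ℂ L L,
        (∀ i, DerReg P (D i)) → P.Reg (η D)) ∧
      ∀ (D : Fin n → Derivation ℂ L L) (D' : Fin n → Derivation ℂ K' K'),
        (∀ i f, D' i (algebraMap L K' f) = algebraMap L K' (D i f)) →
        η D = Algebra.trace L K' ((Matrix.of fun i j => D' i (algebraMap K K' (y j)) :
          Matrix (Fin n) (Fin n) K').det * algebraMap K K' (ω ε)) := by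
  classical
  have hp := Pool.Agent.N162.GP.fPull
  have hess : Algebra.EssFiniteType ℂ K' := Algebra.EssFiniteType.comp ℂ L K'
  have hK' : Algebra.trdeg ℂ K' = w := trdeg_up (K := L) hw
  obtain ⟨l, E0, hl, hE0⟩ := exists_crd (k := ℂ) (K := L) hw
  choose E' hE' using fun i : Fin w => exists_lift (k := ℂ) (K := L) (L := K') hw (E0 i)
  have hl2 : IsTranscendenceBasis ℂ (fun j => algebraMap L K' (l j)) := hl.algebraMap_comp
  have hE2 := fun i j => lift_dual (L := K') hE0 hE' i j
  -- the functionals
  obtain ⟨Φ, hΦ⟩ : ∃ Φ : Derivation ℂ L L →ₗ[L] (Fin n → K'), ∀ D j, Φ D j =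
      ∑ k, algebraMap L K' (D (l k)) * E' k (algebraMap K K' (y j)) := by
    refine ⟨{ toFun := fun D j => ∑ k, algebraMap L K' (D (l k)) * E' k (algebraMap K K' (y j))
              map_add' := fun D1 D2 => ?_
              map_smul' := fun a D => ?_ }, fun D j => rfl⟩
    · funext j
      change ∑ k, algebraMap L K' (D1 (l k) + D2 (l k)) * _ = ∑ k, _ + ∑ k, _
      rw [← Finset.sum_add_distrib]
      refine Finset.sum_congr rfl fun k _ => ?_
      rw [map_add, add_mul]
    · funext j
      change ∑ k, algebraMap L K' (a * D (l k)) * _ = a • ∑ k, _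
      rw [Algebra.smul_def, Finset.mul_sum]
      refine Finset.sum_congr rfl fun k _ => ?_
      rw [map_mul, mul_assoc]
  have hΦl : ∀ (D : Derivation ℂ L L) (D' : Derivation ℂ K' K'),
      (∀ f, D' (algebraMap L K' f) = algebraMap L K' (D f)) → ∀ j,
      Φ D j = D' (algebraMap K K' (y j)) := by
    intro D D' hD j
    have h1 := Pool.Agent.W73.PG.PULL.expand _ hl2 E' hE2 D'
    rw [hΦ]
    conv_rhs => rw [← h1]
    rw [Pool.Agent.W73.PG.PULL.sum_app]
    refine Finset.sum_congr rfl fun k _ => ?_
    rw [← hD]
    rfl
  obtain ⟨g0, hg0⟩ : ∃ g0 : K', g0 = algebraMap K K' (ω ε) := ⟨_, rfl⟩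
  obtain ⟨η, hη⟩ : ∃ η : AlternatingMap L (Derivation ℂ L L) L (Fin n), ∀ D,
      η D = Algebra.trace L K' ((Matrix.of fun i => Φ (D i)).det * g0) := by
    refine ⟨{ toFun := fun D => Algebra.trace L K' ((Matrix.of fun i => Φ (D i)).det * g0)
              map_update_add' := ?_
              map_update_smul' := ?_
              map_eq_zero_of_eq' := ?_ }, fun D => rfl⟩
    · intro hdec D i a c
      have hd : hdec = instDecidableEqFin n := Subsingleton.elim _ _
      subst hd
      rw [← map_add, ← add_mul]
      have h1 : ∀ x, (Matrix.of fun k => Φ (Function.update D i x k) :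
          Matrix (Fin n) (Fin n) K') =
          Matrix.updateRow (Matrix.of fun k => Φ (D k)) i (Φ x) := by
        intro x
        funext k
        change Φ (Function.update D i x k) = Function.update (fun k => Φ (D k)) i (Φ x) k
        exact Function.apply_update (fun _ => Φ) D i x k
      rw [h1, h1, h1, map_add, Matrix.det_updateRow_add]
    · intro hdec D i a x
      have hd : hdec = instDecidableEqFin n := Subsingleton.elim _ _
      subst hd
      have h1 : ∀ x, (Matrix.of fun k => Φ (Function.update D i x k) :
          Matrix (Fin n) (Fin n) K') =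
          Matrix.updateRow (Matrix.of fun k => Φ (D k)) i (Φ x) := by
        intro x
        funext k
        change Φ (Function.update D i x k) = Function.update (fun k => Φ (D k)) i (Φ x) k
        exact Function.apply_update (fun _ => Φ) D i x k
      have h2 : a • Φ x = algebraMap L K' a • Φ x := by
        funext j
        rw [Pi.smul_apply, Pi.smul_apply, Algebra.smul_def, smul_eq_mul]
      rw [h1, h1, map_smul, h2, Matrix.det_updateRow_smul, ← map_smul, mul_assoc,
        Algebra.smul_def]
    · intro D i j hij hne'
      have h1 : (Matrix.of fun k => Φ (D k) : Matrix (Fin n) (Fin n) K').det = 0 :=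
        Matrix.det_zero_of_row_eq hne' (by
          change Φ (D i) = Φ (D j)
          rw [hij])
      change Algebra.trace L K' ((Matrix.of fun k => Φ (D k)).det * g0) = 0
      rw [h1, zero_mul, map_zero]
  refine ⟨η, ?_, ?_⟩
  · intro P hP D hD
    obtain ⟨z, E, i0, hloc⟩ := exists_loc hw hP
    choose EP hEP using fun i : Fin w =>
      exists_lift (k := ℂ) (K := L) (L := K') hw (E i)
    have h1 : D = fun i => ∑ k, D i (z k) • E k := by
      funext i
      exact (Pool.Agent.W73.PG.PULL.expand z hloc.bas E hloc.dual (D i)).symm
    have h2 : η D = ∑ κ : Fin n → Fin w, (∏ i, D i (z (κ i))) * η fun i => E (κ i) := by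
      conv_lhs => rw [h1]
      change η.toMultilinearMap _ = _
      rw [MultilinearMap.map_sum]
      refine Finset.sum_congr rfl fun κ _ => ?_
      rw [MultilinearMap.map_smul_univ]
      rfl
    change Ge P 0 (η D)
    rw [h2]
    refine Ge.sum _ _ fun κ _ => ?_
    have h3 : Ge P 0 (∏ i, D i (z (κ i))) := by
      have h4 := Ge.prod (P := P) Finset.univ (fun i => D i (z (κ i))) (fun _ => 0)
        fun i _ => hD i _ (hloc.reg (κ i))
      simpa using h4
    have h4 : Ge P 0 (η fun i => E (κ i)) := by
      by_cases hκ : Function.Injective κ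
      · rw [hη]
        refine Pool.Agent.Y692.NT.trace_reg P _ fun Q e hQe => ?_
        have h5 : (Matrix.of fun i => Φ (E (κ i)) : Matrix (Fin n) (Fin n) K') =
            Matrix.of fun i j => EP (κ i) (algebraMap K K' (y j)) := by
          ext i j
          exact hΦl (E (κ i)) (EP (κ i)) (hEP (κ i)) j
        rw [h5, hg0]
        exact Pool.Agent.N401.GP.mild_det hp hn hw hy hε hω hQe hP hloc hEP κ hκ
      · left
        unfold Function.Injective at hκ
        push Not at hκ
        obtain ⟨i, j, hij, hne'⟩ := hκ
        exact η.map_eq_zero_of_eq _ (by rw [hij]) hne'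
    simpa using h3.mul h4
  · intro D D' hD
    rw [hη]
    have h5 : (Matrix.of fun i => Φ (D i) : Matrix (Fin n) (Fin n) K') =
        Matrix.of fun i j => D' i (algebraMap K K' (y j)) := by
      ext i j
      exact hΦl (D i) (D' i) (hD i) j
    rw [h5, hg0]

end

section

variable {B K : Type} [Field B] [Field K] [Algebra ℂ B] [Algebra ℂ K] [Algebra B K]
  [IsScalarTower ℂ B K]

/-- derivations of `K` and of `B ⊆ K` which agree on a transcendence basis of `B` -/
theorem der_agree {n : ℕ} {t : Fin n → B} (ht : IsTranscendenceBasis ℂ t)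
    (ε : Derivation ℂ B B) (G : Derivation ℂ K K)
    (h : ∀ i, G (algebraMap B K (t i)) = algebraMap B K (ε (t i))) (b : B) :
    G (algebraMap B K b) = algebraMap B K (ε b) := by
  have hB0 : CharZero B := charZero_of_injective_algebraMap (algebraMap ℂ B).injective
  obtain ⟨A, hA⟩ : ∃ A, A = IntermediateField.adjoin ℂ (Set.range t) := ⟨_, rfl⟩
  have halg : Algebra.IsAlgebraic A B := by
    rw [hA]
    exact ht.isAlgebraic_field
  have hzero : ∀ a : B, a ∈ A → G (algebraMap B K a) = algebraMap B K (ε a) := by
    intro a ha
    rw [hA] at ha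
    induction ha using IntermediateField.adjoin_induction with
    | mem x hx =>
      obtain ⟨i, rfl⟩ := hx
      exact h i
    | algebraMap x =>
      rw [← IsScalarTower.algebraMap_apply ℂ B K, G.map_algebraMap, ε.map_algebraMap, map_zero]
    | add x y _ _ hx hy => simp only [map_add, hx, hy]
    | inv x _ hx =>
      rw [map_inv₀, G.leibniz_inv, ε.leibniz_inv, hx]
      simp only [smul_eq_mul, map_mul, map_neg, map_pow, map_inv₀]
    | mul x y _ _ hx hy =>
      simp only [map_mul, G.leibniz, ε.leibniz, hx, hy, smul_eq_mul, map_add]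
  let δ : Derivation A B K := Derivation.mk'
    { toFun := fun b => G (algebraMap B K b) - algebraMap B K (ε b)
      map_add' := fun x y => by simp only [map_add]; ring
      map_smul' := fun a x => by
        have h1 := hzero a a.2
        change G (algebraMap B K (a • x)) - algebraMap B K (ε (a • x)) =
          a • (G (algebraMap B K x) - algebraMap B K (ε x))
        have h2 : a • x = (a : B) * x := rfl
        have h3 : ∀ z : K, a • z = algebraMap B K (a : B) * z := fun z => by
          rw [Algebra.smul_def]
          rfl
        rw [h2, h3, map_mul, G.leibniz, ε.leibniz, h1]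
        simp only [smul_eq_mul, map_add, map_mul]
        ring } (fun x y => by
      change G (algebraMap B K (x * y)) - algebraMap B K (ε (x * y)) =
        x • (G (algebraMap B K y) - algebraMap B K (ε y)) +
          y • (G (algebraMap B K x) - algebraMap B K (ε x))
      have h3 : ∀ (u : B) (z : K), u • z = algebraMap B K u * z := fun u z =>
        Algebra.smul_def u z
      rw [h3, h3, map_mul, G.leibniz, ε.leibniz]
      simp only [smul_eq_mul, map_add, map_mul]
      ring)
  have hint : IsIntegral A b := (halg.isAlgebraic b).isIntegral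
  have h1 := δ.map_aeval (minpoly A b) b
  rw [minpoly.aeval, map_zero] at h1
  have h2 : Polynomial.aeval b (Polynomial.derivative (minpoly A b)) ≠ 0 := by
    have hA0 : CharZero A := charZero_of_injective_algebraMap (algebraMap ℂ A).injective
    exact (minpoly.irreducible hint).separable.aeval_derivative_ne_zero (minpoly.aeval A b)
  have h3 : δ b = 0 := by
    have h4 := h1.symm
    rw [Algebra.smul_def] at h4
    exact (mul_eq_zero.1 h4).resolve_left ((_root_.map_ne_zero _).2 h2)
  have h4 : G (algebraMap B K b) - algebraMap B K (ε b) = 0 := h3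
  exact sub_eq_zero.1 h4

end

section

variable {A B M K : Type} [Field A] [Field B] [Field M] [Field K] [Algebra A B] [Algebra A M]
  [Algebra B K] [Algebra M K] [Algebra A K] [IsScalarTower A B K] [IsScalarTower A M K]

/-- minimal polynomials over a regular extension -/
theorem minpoly_up (hcl : ∀ z : M, IsIntegral A z → ∃ a : A, algebraMap A M a = z) {g : B}
    (hg : IsIntegral A g) :
    minpoly M (algebraMap B K g) = (minpoly A g).map (algebraMap A M) := by
  have hg' : IsIntegral A (algebraMap B K g) := hg.map (IsScalarTower.toAlgHom A B K)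
  have hgM : IsIntegral M (algebraMap B K g) := hg'.tower_top
  have hdvd : minpoly M (algebraMap B K g) ∣ (minpoly A g).map (algebraMap A M) := by
    apply minpoly.dvd
    rw [Polynomial.aeval_map_algebraMap]
    have h1 : Polynomial.aeval (algebraMap B K g) (minpoly A g) =
        algebraMap B K (Polynomial.aeval g (minpoly A g)) :=
      Polynomial.aeval_algebraMap_apply K g (minpoly A g)
    rw [h1, minpoly.aeval, map_zero]
  have hco := Polynomial.isIntegral_coeff_of_dvd (minpoly A g) _ (minpoly.monic hg)
    (minpoly.monic hgM) hdvd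
  have hlift : minpoly M (algebraMap B K g) ∈ Polynomial.lifts (algebraMap A M) := by
    rw [Polynomial.lifts_iff_coeff_lifts]
    intro i
    obtain ⟨a, ha⟩ := hcl _ (hco i)
    exact ⟨a, ha⟩
  obtain ⟨q, hq, hqd, hqm⟩ := Polynomial.lifts_and_natDegree_eq_and_monic hlift
    (minpoly.monic hgM)
  have hroot : Polynomial.aeval g q = 0 := by
    apply (algebraMap B K).injective
    rw [map_zero, ← Polynomial.aeval_algebraMap_apply K g q,
      ← Polynomial.aeval_map_algebraMap M, hq, minpoly.aeval]
  have h2 := minpoly.dvd A g hroot
  have h3 : (minpoly A g).map (algebraMap A M) ∣ minpoly M (algebraMap B K g) := by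
    rw [← hq]
    exact Polynomial.map_dvd _ h2
  exact Polynomial.eq_of_monic_of_associated (minpoly.monic hgM)
    ((minpoly.monic hg).map _) (associated_of_dvd_dvd hdvd h3)

/-- traces over a regular extension -/
theorem trace_up [CharZero A] [FiniteDimensional A B] [FiniteDimensional M K]
    (hcl : ∀ z : M, IsIntegral A z → ∃ a : A, algebraMap A M a = z) {g : B}
    (h : Algebra.trace M K (algebraMap B K g) = 0) : Algebra.trace A B g = 0 := by
  have hM0 : CharZero M := charZero_of_injective_algebraMap (algebraMap A M).injective
  have hg : IsIntegral A g := Algebra.IsIntegral.isIntegral g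
  rw [trace_eq_finrank_mul_minpoly_nextCoeff, minpoly_up hcl hg,
    Polynomial.nextCoeff_map (algebraMap A M).injective] at h
  rw [trace_eq_finrank_mul_minpoly_nextCoeff]
  rcases mul_eq_zero.1 h with h1 | h1
  · exfalso
    rw [Nat.cast_eq_zero] at h1
    have h2 : 0 < Module.finrank (IntermediateField.adjoin M {algebraMap B K g}) K :=
      Module.finrank_pos
    omega
  · rw [neg_eq_zero, _root_.map_eq_zero] at h1
    rw [h1, neg_zero, mul_zero]

/-- degrees over a regular extension -/
theorem finrank_up [CharZero A] [FiniteDimensional A B] [FiniteDimensional M K]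
    (hcl : ∀ z : M, IsIntegral A z → ∃ a : A, algebraMap A M a = z) :
    Module.finrank A B ≤ Module.finrank M K := by
  obtain ⟨θ, hθ⟩ := Field.exists_primitive_element A B
  have hg : IsIntegral A θ := Algebra.IsIntegral.isIntegral θ
  have h1 : Module.finrank A B = (minpoly A θ).natDegree := by
    rw [← IntermediateField.finrank_top' (F := A) (E := B), ← hθ,
      IntermediateField.adjoin.finrank hg]
  have h2 : (minpoly M (algebraMap B K θ)).natDegree = (minpoly A θ).natDegree := by
    rw [minpoly_up hcl hg, Polynomial.natDegree_map]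
  rw [h1, ← h2]
  exact minpoly.natDegree_le _

end

end Pool.Agent.L5helper25.Mf
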