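import Pool.Agent.L5helper25.Tow

/-!
Images of towers of generically finite covers: projective varieties.
-/

set_option autoImplicit false
set_option linter.overlappingInstances false
set_option linter.unusedSectionVars false
set_option linter.unusedVariables false
set_option maxHeartbeats 4000000
set_option synthInstance.maxHeartbeats 400000

open Polynomial FF IntermediateField Module

namespace Pool.Agent.L5helper25

open Pool.Agent.W602.GT (Divisorial RegAt IsPluri DerReg DerLog LogAt LogGeneralType GeneralType)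
open Pool.Agent.R882.LT (SecAt TraceNe)

theorem logAt_of_regAt {L : Type} [Field L] [Algebra ℂ L] {n : ℕ} {P : Place ℂ L}
    {η : (Fin n → Derivation ℂ L L) → L} (h : RegAt P η) : LogAt P η :=
  fun D hD => h D fun i => Pool.Agent.TH466.QG.derReg_of_log (hD i)

/-- the forms of one step of a tower -/
def StepFormsN (n : ℕ) {K : Type} [Field K] [Algebra ℂ K]
    (E : IntermediateField ℂ K) (r : ℕ) : Prop :=
  ∃ (k : ℕ) (F : Fin k → IntermediateField ℂ K) (H : ∀ i, Set (F i)) (J : Type)
    (ω : J → (Fin n → Derivation ℂ K K) → K),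
    E = ⨆ i, F i ∧ (∀ i, SepPts (H i) r) ∧ (∀ j, IsPluri 1 (ω j)) ∧
    (∀ j (s : ∀ i, F i), (∀ i, s i ∈ H i) → ∀ Q, Divisorial n Q →
      RegAt Q (fun D => (∏ i, (s i : K)) * ω j D)) ∧
    ∀ M : IntermediateField ℂ K, E < M → ∃ j, TraceNe (ω j) M

/-- towers of generically finite covers -/
inductive NTower (n : ℕ)
    (Base : ∀ (K : Type) [Field K] [Algebra ℂ K], Prop) :
    ∀ (K : Type) [Field K] [Algebra ℂ K], ℕ → Prop
  | base {K : Type} [Field K] [Algebra ℂ K] {s : ℕ} (h : Base K) : NTower n Base K s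
  | cover {K : Type} [Field K] [Algebra ℂ K] {s : ℕ}
      (E : IntermediateField ℂ K) (fin : FiniteDimensional E K)
      (forms : StepFormsN n E s) (below : NTower n Base E (s / finrank E K)) :
      NTower n Base K s

theorem NTower.ctower {n : ℕ} {Base : ∀ (K : Type) [Field K] [Algebra ℂ K], Prop}
    {K : Type} [i1 : Field K] [i2 : Algebra ℂ K] {s : ℕ} (h : NTower n Base K s) :
    CTower n (fun K _ _ B => (∀ P, ¬ B P) ∧ Base K) K (fun _ => False) s := by
  induction h with
  | base h => exact .base ⟨fun _ => id, h⟩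
  | cover E fin forms below ih =>
    refine .cover E (fun _ => False) fin (fun _ _ _ => Iff.rfl) ?_ ih
    obtain ⟨k, F, H, J, ω, hE, hsep, hpl, hω, htr⟩ := forms
    exact ⟨k, F, H, J, ω, hE, hsep, hpl, fun j s hs Q hQ =>
      ⟨logAt_of_regAt (hω j s hs Q hQ), fun _ => hω j s hs Q hQ⟩, htr⟩

theorem logGT_iff {L : Type} [Field L] [Algebra ℂ L] {n : ℕ} :
    LogGeneralType ℂ L n (fun _ => False) ↔ GeneralType ℂ L n := by
  constructor
  · rintro ⟨h1, N, hN, ω, h2, -, h3, h4⟩
    exact ⟨h1, N, hN, ω, h2, fun P hP j => h3 P hP id j, h4⟩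
  · rintro ⟨h1, N, hN, ω, h2, h3, h4⟩
    exact ⟨h1, N, hN, ω, h2, fun P hP j => logAt_of_regAt (h3 P hP j),
      fun P hP _ j => h3 P hP j, h4⟩

/-- **Images of towers.** -/
theorem ntower {n : ℕ} {Base : ∀ (K : Type) [Field K] [Algebra ℂ K], Prop}
    (hB : ∀ (K : Type) [Field K] [Algebra ℂ K] (L : Type) [Field L]
      [Algebra ℂ L] [Algebra L K] [IsScalarTower ℂ L K] [FiniteDimensional L K],
      Base K → Base L)
    {K : Type} [Field K] [Algebra ℂ K] {s : ℕ}
    (h : NTower n Base K s) [Algebra.EssFiniteType ℂ K] (hK : Algebra.trdeg ℂ K = (n : ℕ))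
    (L : Type) [Field L] [Algebra ℂ L] [Algebra L K] [IsScalarTower ℂ L K]
    [FiniteDimensional L K] :
    (s = finrank L K → (∀ η : (Fin n → Derivation ℂ L L) → L, IsPluri 1 η →
      (∀ P : Place ℂ L, Divisorial n P → RegAt P η) → ∀ D, η D = 0) → Base L) ∧
    (s = 2 * finrank L K → ¬ GeneralType ℂ L n → Base L) := by
  obtain ⟨h1, h2⟩ := ctower_aux (Base := fun K _ _ B => (∀ P, ¬ B P) ∧ Base K)
    (fun K _ _ B L _ _ _ _ _ C hC hb => ⟨fun P hP => by
      obtain ⟨Q, e, hQ⟩ := Pool.Agent.Y172.exists_above (L := K) P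
      exact hb.1 Q ((hC Q P ⟨e, hQ.1, hQ.2⟩).2 hP), hB K L hb.2⟩)
    h.ctower inferInstance hK L (fun _ => False) (fun _ _ _ => Iff.rfl)
  refine ⟨fun hs hno => (h1 hs fun η hη hreg D => hno η hη (fun P hP => (hreg P hP).2 id) D).2,
    fun hs hno => (h2 hs fun h => hno (logGT_iff.1 h)).2⟩

/-- a variety without tensor differentials of degree `n` has geometric genus zero -/
theorem gz_of_noTensors {n : ℕ} {L : Type} [Field L] [Algebra ℂ L]
    (hL : Algebra.trdeg ℂ L = (n : ℕ))
    (h : ∀ T : MultilinearMap L (fun _ : Fin n => Derivation ℂ L L) L,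
      (∀ P : Place ℂ L, Divisorial n P → ∀ D : Fin n → Derivation ℂ L L,
        (∀ j, DerReg P (D j)) → P.Reg (T D)) → T = 0) :
    ∀ ω : (Fin n → Derivation ℂ L L) → L, IsPluri 1 ω →
      (∀ P : Place ℂ L, Divisorial n P → RegAt P ω) → ∀ D, ω D = 0 := by
  classical
  intro ω hω hreg D0
  obtain ⟨y, E, hy, hE⟩ := Pool.Agent.Y172.exists_crd (k := ℂ) (K := L) hL
  let g : Derivation ℂ L L →ₗ[L] (Fin n → L) :=
    { toFun := fun D j => D (y j)
      map_add' := fun _ _ => rfl
      map_smul' := fun _ _ => rfl }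
  let T : MultilinearMap L (fun _ : Fin n => Derivation ℂ L L) L :=
    (ω E) • ((Matrix.detRowAlternating (R := L) (n := Fin n)).toMultilinearMap.compLinearMap
      fun _ => g)
  have hT : ∀ D : Fin n → Derivation ℂ L L, T D = ω D := by
    intro D
    rw [Pool.Agent.Y172.pluri_coord hy hE hω D, pow_one, mul_comm]
    rfl
  have h1 := h T fun P hP D hD => by
    rw [hT]
    exact hreg P hP D hD
  rw [← hT D0, h1]
  rfl

end Pool.Agent.L5helper25
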