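import Pool.Agent.L5helper25.Mf1
import Pool.Agent.L5helper25.TowN

/-!
One step of a tower: fibrations over a covering without forms of lower degree on the image.
-/

set_option autoImplicit false
set_option linter.overlappingInstances false
set_option linter.unusedSectionVars false
set_option linter.unusedVariables false
set_option maxHeartbeats 4000000
set_option synthInstance.maxHeartbeats 400000

open Polynomial FF IntermediateField Module

namespace Pool.Agent.L5helper25.Mf

open Pool.Agent.W603.LV Pool.Agent.N145.PC Pool.Agent.N145.SX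
open Pool.Agent.W602.GT (Divisorial RegAt IsPluri DerReg)
open Pool.Agent.R882.LT (TraceNe)
open Pool.Agent.L5helper25 (SepPts StepFormsN deg_le)

open scoped Classical

/-- there are no holomorphic forms of degree `m` -/
def NoF (L : Type) [Field L] [Algebra ℂ L] (w m : ℕ) : Prop :=
  ∀ η : AlternatingMap L (Derivation ℂ L L) L (Fin m),
    (∀ P : Place ℂ L, Divisorial w P → ∀ D : Fin m → Derivation ℂ L L,
      (∀ i, DerReg P (D i)) → P.Reg (η D)) → η = 0

theorem sepPts_map {E₁ E₂ : Type} [Field E₁] [Algebra ℂ E₁] [Field E₂] [Algebra ℂ E₂]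
    (e : E₁ ≃ₐ[ℂ] E₂) {H : Set E₁} {r : ℕ} (h : SepPts H r) : SepPts (e '' H) r := by
  intro Ω _ _ _ A hA c hc σ hσ
  let f : (E₂ →ₐ[ℂ] Ω) ↪ (E₁ →ₐ[ℂ] Ω) := ⟨fun σ => σ.comp (e : E₁ →ₐ[ℂ] E₂), fun σ τ hst => by
    refine AlgHom.ext fun z => ?_
    have h1 := DFunLike.congr_fun hst (e.symm z)
    change σ (e (e.symm z)) = τ (e (e.symm z)) at h1
    rwa [AlgEquiv.apply_symm_apply] at h1⟩
  have hinv : ∀ τ : E₂ →ₐ[ℂ] Ω, (f τ).comp (e.symm : E₂ →ₐ[ℂ] E₁) = τ := by
    intro τ
    refine AlgHom.ext fun z => ?_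
    change τ (e (e.symm z)) = τ z
    rw [AlgEquiv.apply_symm_apply]
  have h1 := h Ω (A.map f) (by rwa [Finset.card_map])
    (fun ρ => c (ρ.comp (e.symm : E₂ →ₐ[ℂ] E₁))) (fun s hs => by
      rw [Finset.sum_map]
      have h2 := hc (e s) ⟨s, hs, rfl⟩
      rw [← h2]
      refine Finset.sum_congr rfl fun τ _ => ?_
      beta_reduce
      rw [hinv]
      rfl) (f σ) (Finset.mem_map_of_mem f hσ)
  beta_reduce at h1
  rwa [hinv] at h1

section

variable {m w r : ℕ} {B K L : Type} [Field B] [Algebra ℂ B] [Field K] [Algebra ℂ K] [Algebra B K]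
  [IsScalarTower ℂ B K] [Field L] [Algebra ℂ L] [Algebra L K] [IsScalarTower ℂ L K]
  [FiniteDimensional L K] [Algebra.EssFiniteType ℂ K] [Algebra.EssFiniteType ℂ B]

/-- **One step of a tower.** -/
theorem mstep (hw : Algebra.trdeg ℂ K = w) (hm : Algebra.trdeg ℂ B = m)
    (hcl : ∀ z : K, IsAlgebraic B z → ∃ b : B, algebraMap B K b = z)
    (E : IntermediateField ℂ B) [FiniteDimensional E B] (forms : StepFormsN m E r)
    (hr : finrank L K ≤ r) (hno : NoF L w m)
    (M : IntermediateField L K)
    (hM : M = IntermediateField.adjoin L (algebraMap B K '' (E : Set B))) :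
    ∀ z : K, z ∈ M → IsAlgebraic B z → ∃ e : E, algebraMap B K (e : B) = z := by
  have hL : Algebra.trdeg ℂ L = w := Pool.Agent.Y184.NT.trdeg_below (K := K) hw
  have hessL : Algebra.EssFiniteType ℂ L := Pool.Agent.TH466.QG.ess_below (K := K)
  have hB0 : CharZero B := charZero_of_injective_algebraMap (algebraMap ℂ B).injective
  obtain ⟨k, F, H, J, ω, hE, hsep, hpl, hω, htr⟩ := forms
  obtain ⟨φ, hφ⟩ : ∃ φ : B →ₐ[ℂ] K, ∀ b, φ b = algebraMap B K b :=
    ⟨IsScalarTower.toAlgHom ℂ B K, fun _ => rfl⟩
  obtain ⟨F', hF'⟩ : ∃ F' : Fin k → IntermediateField ℂ K, F' = fun i => (F i).map φ := ⟨_, rfl⟩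
  subst hF'
  let H' : ∀ i, Set ((F i).map φ) := fun i => (IntermediateField.equivMap (F i) φ) '' H i
  have hsep' : ∀ i, SepPts (H' i) r := fun i => sepPts_map _ (hsep i)
  have hMM : M = MF (fun i => (F i).map φ) L Finset.univ := by
    rw [hM]
    apply le_antisymm
    · rw [IntermediateField.adjoin_le_iff]
      rintro _ ⟨b, hb, rfl⟩
      have h1 : E ≤ ((MF (fun i => (F i).map φ) L Finset.univ).restrictScalars ℂ).comap φ := by
        rw [hE]
        refine iSup_le fun i z hz => ?_
        change φ z ∈ MF (fun i => (F i).map φ) L Finset.univ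
        exact mem_MJ (E := fun i => (F i).map φ) _ (Finset.mem_univ i) ⟨φ z, ⟨z, hz, rfl⟩⟩
      have h2 : φ b ∈ MF (fun i => (F i).map φ) L Finset.univ := h1 hb
      rw [hφ] at h2
      exact h2
    · unfold MF MJ
      rw [IntermediateField.adjoin_le_iff]
      intro z hz
      simp only [Set.mem_iUnion, Set.mem_range, Finset.mem_univ, exists_prop, true_and] at hz
      obtain ⟨i, ⟨_, b, hb, rfl⟩, rfl⟩ := hz
      refine IntermediateField.subset_adjoin L _ ⟨b, ?_, ?_⟩
      · rw [hE]
        exact le_iSup F i hb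
      · exact (hφ b).symm
  obtain ⟨y, ε, hy, hε⟩ := Pool.Agent.Y172.exists_crd (k := ℂ) (K := B) hm
  -- the traces to `L`
  have hT : ∀ (D : Fin m → Derivation ℂ L L) (D' : Fin m → Derivation ℂ K K),
      (∀ i f, D' i (algebraMap L K f) = algebraMap L K (D i f)) → ∀ j,
      ∀ f : ∀ i, (F i).map φ, (∀ i, f i ∈ H' i) →
      Algebra.trace L K (((Matrix.of fun i l => D' i (algebraMap B K (y l)) :
        Matrix (Fin m) (Fin m) K).det * algebraMap B K (ω j ε)) *
          ∏ i, algebraMap ((F i).map φ) K (f i)) = 0 := by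
    intro D D' hD j f hf
    choose s hs hs' using hf
    obtain ⟨η, h1, h2⟩ := trace_form (K := B) (K' := K) (L := L) hm hL hy hε
      (ω := fun D => (∏ i, algebraMap (F i) B (s i)) * ω j D) ⟨by
        intro A D
        change _ * ω j _ = _ * (_ * ω j D)
        rw [hpl j A D]
        ring, fun P hP => hω j s hs P hP⟩
    have h3 := hno η h1
    have h4 := h2 D D' hD
    rw [h3] at h4
    change (0 : L) = _ at h4
    rw [h4]
    congr 1
    have h5 : ∏ i, algebraMap ((F i).map φ) K (f i) =
        algebraMap B K (∏ i, algebraMap (F i) B (s i)) := by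
      rw [map_prod]
      refine Finset.prod_congr rfl fun i _ => ?_
      rw [← hs' i, ← hφ]
      rfl
    rw [h5, map_mul (algebraMap B K)]
    ring
  -- the traces to `M`
  have hTM : ∀ (D : Fin m → Derivation ℂ L L) (D' : Fin m → Derivation ℂ K K),
      (∀ i f, D' i (algebraMap L K f) = algebraMap L K (D i f)) → ∀ j,
      Algebra.trace M K ((Matrix.of fun i l => D' i (algebraMap B K (y l)) :
        Matrix (Fin m) (Fin m) K).det * algebraMap B K (ω j ε)) = 0 := by
    intro D D' hD j
    rw [hMM]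
    obtain ⟨τ0⟩ : Nonempty (K →ₐ[L] AlgebraicClosure L) :=
      ⟨IsAlgClosed.lift (R := L) (M := AlgebraicClosure L) (S := K)⟩
    have hT' : IsScalarTower ℂ L (AlgebraicClosure L) := inferInstance
    have hJs : Js k k = Finset.univ := by
      ext l
      rw [mem_Js]
      exact ⟨fun _ => Finset.mem_univ _, fun _ => l.2⟩
    have h0 := Ch.rel_zero (F := fun i => (F i).map φ) (H := H')
      (h := (Matrix.of fun i l => D' i (algebraMap B K (y l)) :
        Matrix (Fin m) (Fin m) K).det * algebraMap B K (ω j ε))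
      (fun f hf => hT D D' hD j f hf) τ0
    have h1 := Rl.chain h0 (g := fun _ => r + 1)
      (fun i => SepPts.sep hsep' (AlgebraicClosure L) i) (s := k) (fun l _ =>
      lt_of_le_of_lt (Ch.count_le τ0 _ _) (by
        have := deg_le (F := fun i => (F i).map φ) (L := L) l
        change _ < r + 1
        omega))
    rw [hJs] at h1
    exact L5helper25.rel_univ_tr h1
  clear hT
  obtain ⟨l, E0, hl, hE0⟩ := Pool.Agent.Y172.exists_crd (k := ℂ) (K := L) hL
  choose E' hE' using fun i : Fin w =>
    Pool.Agent.Y172.exists_lift (k := ℂ) (K := L) (L := K) hL (E0 i)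
  have hl2 : IsTranscendenceBasis ℂ (fun j => algebraMap L K (l j)) := hl.algebraMap_comp
  have hE2 := fun i j => Pool.Agent.Y172.lift_dual (L := K) hE0 hE' i j
  have hTM' : ∀ (G : Fin m → Derivation ℂ M M) (G' : Fin m → Derivation ℂ K K),
      (∀ i f, G' i (algebraMap M K f) = algebraMap M K (G i f)) → ∀ j,
      Algebra.trace M K ((Matrix.of fun i l => G' i (algebraMap B K (y l)) :
        Matrix (Fin m) (Fin m) K).det * algebraMap B K (ω j ε)) = 0 := by
    intro G G' hG j
    have h2 : (Matrix.of fun i j => G' i (algebraMap B K (y j)) :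
        Matrix (Fin m) (Fin m) K) = fun i => ∑ k, G' i (algebraMap L K (l k)) •
          (fun j => E' k (algebraMap B K (y j))) := by
      funext i j
      rw [Matrix.of_apply, Finset.sum_apply]
      have h3 := Pool.Agent.W73.PG.PULL.expand _ hl2 E' hE2 (G' i)
      conv_lhs => rw [← h3]
      rw [Pool.Agent.W73.PG.PULL.sum_app]
      rfl
    have h4 : (Matrix.of fun i j => G' i (algebraMap B K (y j)) :
        Matrix (Fin m) (Fin m) K).det = ∑ κ : Fin m → Fin w,
          (∏ i, G' i (algebraMap L K (l (κ i)))) *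
          (Matrix.of fun i j => E' (κ i) (algebraMap B K (y j)) :
            Matrix (Fin m) (Fin m) K).det := by
      rw [h2]
      change (Matrix.detRowAlternating (R := K) (n := Fin m)).toMultilinearMap
        (fun i => ∑ k, G' i (algebraMap L K (l k)) •
          (fun j => E' k (algebraMap B K (y j)))) = _
      rw [MultilinearMap.map_sum]
      refine Finset.sum_congr rfl fun κ _ => ?_
      rw [MultilinearMap.map_smul_univ]
      rfl
    rw [h4, Finset.sum_mul, map_sum]
    refine Finset.sum_eq_zero fun κ _ => ?_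
    have h5 : ∏ i, G' i (algebraMap L K (l (κ i))) =
        algebraMap M K (∏ i, G i (algebraMap L M (l (κ i)))) := by
      rw [map_prod]
      refine Finset.prod_congr rfl fun i _ => ?_
      rw [← hG]
      rfl
    rw [h5, mul_assoc, ← Algebra.smul_def, map_smul,
      hTM (fun i => E0 (κ i)) (fun i => E' (κ i)) (fun i f => hE' (κ i) f) j, smul_zero]
  -- the algebraic elements
  intro z hzM hzB
  obtain ⟨b, hb⟩ := hcl z hzB
  obtain ⟨E2, hE2d⟩ : ∃ E2 : IntermediateField ℂ B, E2 = (M.restrictScalars ℂ).comap φ := ⟨_, rfl⟩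
  have hmem : ∀ b : B, b ∈ E2 ↔ algebraMap B K b ∈ M := by
    intro b
    rw [hE2d, ← hφ]
    rfl
  have hEE : E ≤ E2 := by
    intro e he
    rw [hmem, hM]
    exact IntermediateField.subset_adjoin L _ ⟨e, he, rfl⟩
  have hbE : b ∈ E2 := by
    rw [hmem, hb]
    exact hzM
  by_cases hlt : E = E2
  · rw [← hlt] at hbE
    exact ⟨⟨b, hbE⟩, hb⟩
  exfalso
  obtain ⟨j, D2, D2', hD2, hne⟩ := htr E2 (lt_of_le_of_ne hEE hlt)
  apply hne
  have hfin2 : FiniteDimensional E2 B := by
    let _ : Algebra E E2 := (IntermediateField.inclusion hEE).toAlgebra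
    have _ : IsScalarTower E E2 B := IsScalarTower.of_algebraMap_eq fun z => rfl
    exact FiniteDimensional.right E E2 B
  have hm2 : Algebra.trdeg ℂ E2 = m := Pool.Agent.Y184.NT.trdeg_below (K := B) hm
  obtain ⟨t, e2, ht, he2⟩ := Pool.Agent.Y172.exists_crd (k := ℂ) (K := E2) hm2
  choose e2' he2' using fun i : Fin m =>
    Pool.Agent.Y172.exists_lift (k := ℂ) (K := E2) (L := B) hm2 (e2 i)
  have ht2 : IsTranscendenceBasis ℂ (fun j => algebraMap E2 B (t j)) := ht.algebraMap_comp
  have he22 := fun i j => Pool.Agent.Y172.lift_dual (L := B) he2 he2' i j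
  -- derivations of `M`
  have hCM : IsScalarTower ℂ M K := IsScalarTower.of_algebraMap_eq fun c => by
    rw [IsScalarTower.algebraMap_apply ℂ L K, IsScalarTower.algebraMap_apply ℂ L M]
    rfl
  have tM : ∀ l, algebraMap B K (t l : B) ∈ M := fun l => (hmem _).1 (t l).2
  have hind : AlgebraicIndependent ℂ (fun l => (⟨algebraMap B K (t l : B), tM l⟩ : M)) := by
    have h1 : AlgebraicIndependent ℂ (fun l => algebraMap B K (t l : B)) :=
      ht2.1.map' (f := IsScalarTower.toAlgHom ℂ B K) (algebraMap B K).injective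
    exact AlgebraicIndependent.of_comp
      (x := fun l => (⟨algebraMap B K (t l : B), tM l⟩ : M)) (IsScalarTower.toAlgHom ℂ M K) h1
  choose θ hθ using fun i => Pool.Agent.N383.GP.exists_dual hind i
  have hMw : Algebra.trdeg ℂ M = w := Pool.Agent.Y172.trdeg_up (K := L) hL
  choose θ' hθ' using fun i : Fin m =>
    Pool.Agent.Y172.exists_lift (k := ℂ) (K := M) (L := K) hMw (θ i)
  have hag : ∀ i (b : B), θ' i (algebraMap B K b) = algebraMap B K (e2' i b) := by
    intro i b
    refine der_agree ht2 (e2' i) (θ' i) (fun l => ?_) b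
    have h1 : algebraMap B K (algebraMap E2 B (t l)) =
        algebraMap M K ⟨algebraMap B K (t l : B), tM l⟩ := rfl
    rw [h1, hθ', hθ, he22]
    by_cases hil : i = l
    · rw [if_pos hil, if_pos hil.symm, map_one, map_one]
    · rw [if_neg hil, if_neg fun h => hil h.symm, map_zero, map_zero]
  have h1 := hTM' θ θ' hθ' j
  have h2 : (Matrix.of fun i l => θ' i (algebraMap B K (y l)) :
      Matrix (Fin m) (Fin m) K).det * algebraMap B K (ω j ε) = algebraMap B K (ω j e2') := by
    rw [Pool.Agent.Y172.pluri_coord hy hε (hpl j) e2', pow_one, map_mul (algebraMap B K),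
      RingHom.map_det]
    congr 2
    ext i l
    rw [Matrix.of_apply, hag]
    rfl
  rw [h2] at h1
  let _ : Algebra E2 M := (RingHom.codRestrict ((algebraMap B K).comp (algebraMap E2 B)) M
    (fun e => (hmem _).1 e.2)).toAlgebra
  have _ : IsScalarTower E2 M K := IsScalarTower.of_algebraMap_eq fun e => rfl
  have hE20 : CharZero E2 := charZero_of_injective_algebraMap (algebraMap ℂ E2).injective
  have h3 := trace_up (A := E2) (B := B) (M := M) (K := K) (fun z hz => by
    have h4 : IsIntegral E2 (z : K) := hz.map (IsScalarTower.toAlgHom E2 M K)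
    have h5 : IsAlgebraic B (z : K) := (h4.tower_top (A := B)).isAlgebraic
    obtain ⟨b', hb'⟩ := hcl _ h5
    refine ⟨⟨b', ?_⟩, ?_⟩
    · rw [hmem, hb']
      exact z.2
    · apply Subtype.ext
      exact hb') h1
  rw [Pool.Agent.Y172.pluri_coord ht2 he22 (hpl j) D2', pow_one]
  have h4 : (Matrix.of fun i l => D2' i (algebraMap E2 B (t l)) :
      Matrix (Fin m) (Fin m) B).det =
      algebraMap E2 B (Matrix.of fun i l => D2 i (t l) : Matrix (Fin m) (Fin m) E2).det := by
    rw [RingHom.map_det]
    congr 1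
    ext i l
    rw [Matrix.of_apply, hD2]
    rfl
  rw [h4, ← Algebra.smul_def, map_smul, h3, smul_zero]

end

end Pool.Agent.L5helper25.Mf
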