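import Pool.Agent.L5helper25.Mf2
import Pool.Agent.L5helper25.FamR

/-!
Fibrations in rational curves over towers of coverings of rationally connected varieties.
-/

set_option autoImplicit false
set_option linter.overlappingInstances false
set_option linter.unusedSectionVars false
set_option linter.unusedVariables false
set_option maxHeartbeats 4000000
set_option synthInstance.maxHeartbeats 400000

open Polynomial FF IntermediateField Module

namespace Pool.Agent.L5helper25.Mf

open Pool.Agent.L5helper25 (SepPts StepFormsN NTower)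

open scoped Classical

/-- Lüroth's theorem -/
theorem luroth {Λ Z : Type} [Field Λ] [Field Z] [Algebra Λ Z] {s : Z} (hs : Transcendental Λ s)
    (hgen : IntermediateField.adjoin Λ {s} = ⊤) (Z₁ : IntermediateField Λ Z)
    (hZ₁ : ∃ u ∈ Z₁, Transcendental Λ u) :
    ∃ s₁ : Z₁, Transcendental Λ s₁ ∧ IntermediateField.adjoin Λ {s₁} = ⊤ := by
  let e : RatFunc Λ ≃ₐ[Λ] Z := (RatFunc.algEquivOfTranscendental s hs).trans
      ((IntermediateField.equivOfEq hgen).trans IntermediateField.topEquiv)
  obtain ⟨E, hE⟩ : ∃ E : IntermediateField Λ (RatFunc Λ), E = Z₁.map (e.symm : Z →ₐ[Λ] RatFunc Λ) :=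
    ⟨_, rfl⟩
  have h1 := RatFunc.Luroth.eq_adjoin_generator (E := E)
  obtain ⟨g, hg⟩ : ∃ g, g = RatFunc.Luroth.generator E := ⟨_, rfl⟩
  rw [← hg] at h1
  have hZE : Z₁ = E.map (e : RatFunc Λ →ₐ[Λ] Z) := by
    rw [hE]
    ext z
    constructor
    · intro hz
      exact ⟨e.symm z, ⟨z, hz, rfl⟩, e.apply_symm_apply z⟩
    · rintro ⟨_, ⟨z', hz', rfl⟩, rfl⟩
      have h2 : e (e.symm z') = z' := e.apply_symm_apply z'
      change e (e.symm z') ∈ Z₁
      rw [h2]
      exact hz'
  have hZg : Z₁ = IntermediateField.adjoin Λ {e g} := by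
    rw [hZE, h1, IntermediateField.adjoin_map, Set.image_singleton]
    rfl
  have hgZ : e g ∈ Z₁ := by
    rw [hZg]
    exact IntermediateField.mem_adjoin_simple_self Λ _
  have htop : IntermediateField.adjoin Λ {(⟨e g, hgZ⟩ : Z₁)} = ⊤ := by
    rw [eq_top_iff]
    intro z _
    have h2 : (z : Z) ∈ (IntermediateField.adjoin Λ {(⟨e g, hgZ⟩ : Z₁)}).map Z₁.val := by
      rw [IntermediateField.adjoin_map, Set.image_singleton]
      change (z : Z) ∈ IntermediateField.adjoin Λ {e g}
      rw [← hZg]
      exact z.2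
    obtain ⟨u, hu, hu'⟩ := h2
    have h3 : u = z := Subtype.ext hu'
    rw [← h3]
    exact hu
  refine ⟨⟨e g, hgZ⟩, ?_, htop⟩
  intro halg
  obtain ⟨u, hu, hu'⟩ := hZ₁
  apply hu'
  have h2 : Algebra.IsAlgebraic Λ (IntermediateField.adjoin Λ {(⟨e g, hgZ⟩ : Z₁)}) :=
    IntermediateField.isAlgebraic_adjoin_simple halg.isIntegral
  have h4 : (⟨u, hu⟩ : Z₁) ∈ IntermediateField.adjoin Λ {(⟨e g, hgZ⟩ : Z₁)} := by
    rw [htop]
    trivial
  have h5 := h2.isAlgebraic ⟨_, h4⟩
  have h6 := (isAlgebraic_algebraMap_iff (R := Λ)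
    (algebraMap (IntermediateField.adjoin Λ {(⟨e g, hgZ⟩ : Z₁)}) Z₁).injective).2 h5
  exact (isAlgebraic_algebraMap_iff (R := Λ) (algebraMap Z₁ Z).injective).2 h6

/-- The geometric generic fibre of the fibration with the function fields `B ⊆ K` is a rational
curve. -/
def RatFib (B K : Type) [Field B] [Field K] [Algebra B K] : Prop :=
  ∃ (Λ Z : Type) (_ : Field Λ) (_ : Field Z) (_ : Algebra B Λ) (_ : Algebra Λ Z)
    (_ : Algebra K Z) (_ : IsAlgClosed Λ) (_ : Algebra.IsAlgebraic B Λ),
    (∀ b : B, algebraMap Λ Z (algebraMap B Λ b) = algebraMap K Z (algebraMap B K b)) ∧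
    IntermediateField.adjoin Λ (Set.range (algebraMap K Z)) = ⊤ ∧
    ∃ s : Z, Transcendental Λ s ∧ IntermediateField.adjoin Λ {s} = ⊤

/-- restriction of the fibration -/
theorem RatFib.down {B K E M : Type} [Field B] [Field K] [Algebra B K] [Field E] [Field M]
    [Algebra E B] [Algebra E M] [Algebra M K] (h : RatFib B K)
    (hEK : ∀ e : E, algebraMap M K (algebraMap E M e) = algebraMap B K (algebraMap E B e))
    (hEB : Algebra.IsAlgebraic E B)
    (htr : ∃ u : M, ¬ IsAlgebraic B (algebraMap M K u)) : RatFib E M := by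
  obtain ⟨Λ, Z, i1, i2, i3, i4, i5, i6, i7, h1, h2, s, hs, hgen⟩ := h
  obtain ⟨Z₁, hZ₁⟩ : ∃ Z₁ : IntermediateField Λ Z, Z₁ = IntermediateField.adjoin Λ
    (Set.range ((algebraMap K Z).comp (algebraMap M K))) := ⟨_, rfl⟩
  have hmem : ∀ u : M, algebraMap K Z (algebraMap M K u) ∈ Z₁ := fun u => by
    rw [hZ₁]
    exact IntermediateField.subset_adjoin _ _ ⟨u, rfl⟩
  let _ : Algebra B Z := ((algebraMap K Z).comp (algebraMap B K)).toAlgebra
  have _ : IsScalarTower B K Z := IsScalarTower.of_algebraMap_eq fun b => rfl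
  have _ : IsScalarTower B Λ Z := IsScalarTower.of_algebraMap_eq fun b => (h1 b).symm
  obtain ⟨u, hu⟩ := htr
  have hu' : Transcendental Λ (algebraMap K Z (algebraMap M K u)) := by
    intro hcon
    apply hu
    have h3 : IsAlgebraic B (algebraMap K Z (algebraMap M K u)) := hcon.restrictScalars B
    exact (isAlgebraic_algebraMap_iff (R := B) (algebraMap K Z).injective).1 h3
  obtain ⟨s₁, hs₁, hgen₁⟩ := luroth hs hgen Z₁ ⟨_, hmem u, hu'⟩
  let _ : Algebra E Λ := ((algebraMap B Λ).comp (algebraMap E B)).toAlgebra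
  have _ : IsScalarTower E B Λ := IsScalarTower.of_algebraMap_eq fun b => rfl
  let _ : Algebra M Z₁ := (RingHom.codRestrict ((algebraMap K Z).comp (algebraMap M K)) Z₁
    hmem).toAlgebra
  have hEΛ : Algebra.IsAlgebraic E Λ := Algebra.IsAlgebraic.trans E B Λ
  refine ⟨Λ, Z₁, i1, inferInstance, inferInstance, inferInstance, inferInstance, i6, hEΛ,
    fun e => ?_, ?_, s₁, hs₁, hgen₁⟩
  · apply Subtype.ext
    change algebraMap Λ Z (algebraMap B Λ (algebraMap E B e)) =
      algebraMap K Z (algebraMap M K (algebraMap E M e))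
    rw [h1, hEK]
  · rw [eq_top_iff]
    intro z _
    have h3 : (z : Z) ∈ (IntermediateField.adjoin Λ (Set.range (algebraMap M Z₁))).map
        Z₁.val := by
      rw [IntermediateField.adjoin_map]
      have h4 : (Z₁.val : Z₁ → Z) '' Set.range (algebraMap M Z₁) =
          Set.range ((algebraMap K Z).comp (algebraMap M K)) := by
        ext v
        constructor
        · rintro ⟨_, ⟨e, rfl⟩, rfl⟩
          exact ⟨e, rfl⟩
        · rintro ⟨e, rfl⟩
          exact ⟨_, ⟨e, rfl⟩, rfl⟩
      rw [h4, ← hZ₁]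
      exact z.2
    obtain ⟨v, hv, hv'⟩ := h3
    have h5 : v = z := Subtype.ext hv'
    rw [← h5]
    exact hv

/-- the base case -/
theorem rc_of_ratFib {m : ℕ} {B K : Type} [Field B] [Algebra ℂ B] [Field K] [Algebra ℂ K]
    [Algebra B K] [IsScalarTower ℂ B K] [hess : Algebra.EssFiniteType ℂ K]
    (hK : Algebra.trdeg ℂ K = (m + 1 : ℕ)) (hB : Algebra.trdeg ℂ B = m)
    (hcl : ∀ z : K, IsAlgebraic B z → ∃ b : B, algebraMap B K b = z) (h : RatFib B K)
    (hrc : Con.RCf B) : Con.RCf K := by
  obtain ⟨Λ, Z, i1, i2, i3, i4, i5, i6, i7, h1, h2, s, hs, hgen⟩ := h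
  have hB0 : CharZero B := charZero_of_injective_algebraMap (algebraMap ℂ B).injective
  let _ : Algebra B Z := ((algebraMap K Z).comp (algebraMap B K)).toAlgebra
  have _ : IsScalarTower B K Z := IsScalarTower.of_algebraMap_eq fun b => rfl
  have _ : IsScalarTower B Λ Z := IsScalarTower.of_algebraMap_eq fun b => (h1 b).symm
  have hΛ0 : CharZero Λ := charZero_of_injective_algebraMap (algebraMap B Λ).injective
  have hessB : Algebra.EssFiniteType B K := Algebra.EssFiniteType.of_comp ℂ B K
  have hBK : Algebra.trdeg B K = (1 : ℕ) := by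
    have h3 := trdeg_add_eq ℂ B (A := K)
    rw [hB, hK] at h3
    have h4 : (m : Cardinal) + Algebra.trdeg B K = (m : Cardinal) + ((1 : ℕ) : Cardinal) := by
      rw [h3]
      push_cast
      rfl
    exact Cardinal.eq_of_add_eq_add_left h4 Cardinal.natCast_lt_aleph0
  have hFF : IsFF B K := ⟨hessB, by rw [hBK]; simp⟩
  have htrZ : Algebra.trdeg Λ Z = (1 : ℕ) := by
    have h3 : IsTranscendenceBasis Λ (fun _ : Fin 1 => s) := by
      rw [isTranscendenceBasis_iff_algebraicIndependent_isAlgebraic]
      refine ⟨?_, ?_⟩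
      · rw [algebraicIndependent_unique_type_iff]
        exact hs
      · have h4 : Algebra.IsAlgebraic (IntermediateField.adjoin Λ {s}) Z := by
          rw [hgen]
          exact ⟨fun z => isAlgebraic_algebraMap
            (⟨z, trivial⟩ : (⊤ : IntermediateField Λ Z))⟩
        have h5 : Set.range (fun _ : Fin 1 => s) = {s} := by
          ext z
          simp [eq_comm]
        rw [h5]
        exact (isAlgebraic_adjoin_iff_top (s := {s})).1 h4
    rw [← h3.cardinalMk_eq_trdeg]
    simp
  obtain ⟨D, hD⟩ : ∃ D : Derivation Λ Z Z, D s = 1 := by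
    obtain ⟨x, G0, hx, hG0⟩ := Pool.Agent.Y172.exists_crd (k := Λ) (K := Z) (n := 1) htrZ
    have h1 : G0 0 s ≠ 0 := by
      intro h2
      have h3 : ∀ z ∈ IntermediateField.adjoin Λ {s}, G0 0 z = 0 := by
        intro z hz
        induction hz using IntermediateField.adjoin_induction with
        | mem x hx => rw [Set.mem_singleton_iff.1 hx, h2]
        | algebraMap x => exact (G0 0).map_algebraMap x
        | add x y _ _ hx hy => rw [map_add, hx, hy, add_zero]
        | inv x _ hx => rw [(G0 0).leibniz_inv, hx, smul_zero]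
        | mul x y _ _ hx hy => rw [(G0 0).leibniz, hx, hy, smul_zero, smul_zero, add_zero]
      have h4 := h3 (x 0) (by rw [hgen]; trivial)
      rw [hG0] at h4
      simp at h4
    exact ⟨(G0 0 s)⁻¹ • G0 0, by rw [Derivation.smul_apply, smul_eq_mul, inv_mul_cancel₀ h1]⟩
  exact Con.rc_family (E := B) (M := K) (Λ := Λ) (Z := Z) i7
    (fun z hz => hcl z hz.isAlgebraic) h2 hs hgen D hD hB hrc

/-- **Fibrations in rational curves over towers.** -/
theorem mtower {m s : ℕ} {B : Type} [i1 : Field B] [i2 : Algebra ℂ B]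
    (h : NTower m (fun K _ _ => Con.RCf K) B s) :
    Algebra.EssFiniteType ℂ B → Algebra.trdeg ℂ B = m →
    ∀ (K : Type) [Field K] [Algebra ℂ K] [Algebra B K] [IsScalarTower ℂ B K]
      [Algebra.EssFiniteType ℂ K], Algebra.trdeg ℂ K = (m + 1 : ℕ) →
      (∀ z : K, IsAlgebraic B z → ∃ b : B, algebraMap B K b = z) → RatFib B K →
      ∀ (L : Type) [Field L] [Algebra ℂ L] [Algebra L K] [IsScalarTower ℂ L K]
        [FiniteDimensional L K], finrank L K ≤ s → NoF L (m + 1) m → Con.RCf L := by
  induction h with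
  | @base B _ _ s h =>
    intro hessB hB K _ _ _ _ _ hK hcl hrf L _ _ _ _ _ _ _
    exact Con.rc_descends (rc_of_ratFib hK hB hcl hrf h)
  | @cover B _ _ s E fin forms below ih =>
    intro hessB hB K _ _ _ _ hess hK hcl hrf L _ _ _ _ _ hs hno
    have hB0 : CharZero B := charZero_of_injective_algebraMap (algebraMap ℂ B).injective
    have hE0 : CharZero E := charZero_of_injective_algebraMap (algebraMap ℂ E).injective
    have hL : Algebra.trdeg ℂ L = (m + 1 : ℕ) := Pool.Agent.Y184.NT.trdeg_below (K := K) hK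
    have hessE : Algebra.EssFiniteType ℂ E := Pool.Agent.TH466.QG.ess_below (K := B)
    have hEm : Algebra.trdeg ℂ E = m := Pool.Agent.Y184.NT.trdeg_below (K := B) hB
    obtain ⟨M, hM⟩ : ∃ M : IntermediateField L K, M = IntermediateField.adjoin L
      (algebraMap B K '' (E : Set B)) := ⟨_, rfl⟩
    have hstep := mstep hK hB hcl E forms hs hno M hM
    have hEM : ∀ e : E, algebraMap B K (e : B) ∈ M := fun e => by
      rw [hM]
      exact IntermediateField.subset_adjoin L _ ⟨e, e.2, rfl⟩
    have hCM : IsScalarTower ℂ M K := IsScalarTower.of_algebraMap_eq fun c => by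
      rw [IsScalarTower.algebraMap_apply ℂ L K, IsScalarTower.algebraMap_apply ℂ L M]
      rfl
    let _ : Algebra E M := (RingHom.codRestrict ((algebraMap B K).comp (algebraMap E B)) M
      hEM).toAlgebra
    have t1 : IsScalarTower E M K := IsScalarTower.of_algebraMap_eq fun e => rfl
    have t2 : IsScalarTower ℂ E M := IsScalarTower.of_algebraMap_eq fun c => by
      apply Subtype.ext
      change algebraMap ℂ K c = algebraMap B K (algebraMap ℂ B c)
      rw [← IsScalarTower.algebraMap_apply ℂ B K]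
    have hfinM : FiniteDimensional M K := inferInstance
    have hessM : Algebra.EssFiniteType ℂ M := Pool.Agent.TH466.QG.ess_below (K := K)
    have hMm : Algebra.trdeg ℂ M = (m + 1 : ℕ) := Pool.Agent.Y172.trdeg_up (K := L) hL
    have hclM : ∀ z : M, IsAlgebraic E z → ∃ e : E, algebraMap E M e = z := by
      intro z hz
      have h1 : IsAlgebraic E (algebraMap M K z) := hz.algebraMap
      obtain ⟨e, he⟩ := hstep z z.2 (h1.tower_top B)
      exact ⟨e, Subtype.ext he⟩
    have hrfM : RatFib E M := by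
      refine hrf.down (fun e => rfl) inferInstance ?_
      by_contra hcon
      push Not at hcon
      have h1 : Algebra.IsAlgebraic B K := by
        refine ⟨fun z => ?_⟩
        have h2 : IsAlgebraic M z := Algebra.IsAlgebraic.isAlgebraic z
        obtain ⟨A, hA⟩ : ∃ A, A = algebraicClosure B K := ⟨_, rfl⟩
        have hmemA : ∀ z, z ∈ A ↔ IsAlgebraic B z := by
          intro z
          rw [hA, mem_algebraicClosure_iff]
        have hAa : Algebra.IsAlgebraic B A := by
          rw [hA]
          infer_instance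
        let f : M →+* A := (algebraMap M K).codRestrict A.toSubring fun u => (hmemA _).2 (hcon u)
        have h3 : IsAlgebraic A z := by
          obtain ⟨p, hp0, hp⟩ := h2
          refine ⟨p.map f, (Polynomial.map_ne_zero_iff f.injective).2 hp0, ?_⟩
          rw [Polynomial.aeval_def, Polynomial.eval₂_map]
          exact hp
        exact h3.restrictScalars B
      have h2 := trdeg_add_eq ℂ B (A := K)
      have h3 : Algebra.trdeg B K = 0 := trdeg_eq_zero
      rw [h3, add_zero, hB, hK] at h2
      have h4 := Nat.cast_injective (R := Cardinal) h2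
      omega
    refine ih hessE hEm M hMm hclM hrfM L ?_ hno
    have h1 : finrank E B ≤ finrank M K := finrank_up fun z hz => hclM z hz.isAlgebraic
    have h2 := Module.finrank_mul_finrank L M K
    have h3 : 0 < finrank E B := Module.finrank_pos
    rw [Nat.le_div_iff_mul_le h3]
    calc finrank L M * finrank E B ≤ finrank L M * finrank M K := Nat.mul_le_mul_left _ h1
      _ = finrank L K := h2
      _ ≤ s := hs

end Pool.Agent.L5helper25.Mf
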