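import Pool.Agent.L5helper25.Cov

/-!
Images of towers of generically finite covers.
-/

set_option autoImplicit false
set_option linter.overlappingInstances false
set_option linter.unusedSectionVars false
set_option linter.unusedVariables false
set_option maxHeartbeats 4000000
set_option synthInstance.maxHeartbeats 400000

open Polynomial FF IntermediateField Module

namespace Pool.Agent.L5helper25

open Pool.Agent.W603.LV Pool.Agent.W619.PQ Pool.Agent.N145.PC Pool.Agent.N145.PL
open Pool.Agent.N145.SX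
open Pool.Agent.W602.GT (Divisorial RegAt IsPluri DerReg DerLog LogAt LogGeneralType GeneralType)
open Pool.Agent.Y184.NT (trForm trForm_pluri)
open Pool.Agent.R882.LT (SecAt TraceNe)

open scoped Classical

section

variable {K : Type} [Field K] [Algebra ℂ K] {k : ℕ} {F : Fin k → IntermediateField ℂ K}
  {L : Type} [Field L] [Algebra ℂ L] [Algebra L K] [IsScalarTower ℂ L K] [FiniteDimensional L K]

theorem deg_le (i : Fin k) : finrank (MF F L (Js k i)) (IntermediateField.adjoin
    (MF F L (Js k i)) (F i : Set K)) ≤ finrank L K := by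
  have h1 := Module.finrank_mul_finrank (MF F L (Js k i)) (IntermediateField.adjoin
    (MF F L (Js k i)) (F i : Set K)) K
  have h2 := Module.finrank_mul_finrank L (MF F L (Js k i)) K
  have h3 : 0 < finrank (IntermediateField.adjoin (MF F L (Js k i)) (F i : Set K)) K :=
    Module.finrank_pos
  have h4 : 0 < finrank L (MF F L (Js k i)) := Module.finrank_pos
  calc finrank (MF F L (Js k i)) (IntermediateField.adjoin (MF F L (Js k i)) (F i : Set K))
      ≤ finrank (MF F L (Js k i)) K := by
        rw [← h1]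
        exact Nat.le_mul_of_pos_right _ h3
    _ ≤ finrank L K := by
        rw [← h2]
        exact Nat.le_mul_of_pos_left _ h4

/-- There are no forms on the open variety with function field `L` and boundary `B`. -/
def NoForms (L : Type) [Field L] [Algebra ℂ L] (n : ℕ) (B : Place ℂ L → Prop) : Prop :=
  ∀ η : (Fin n → Derivation ℂ L L) → L, IsPluri 1 η →
    (∀ P : Place ℂ L, Divisorial n P → SecAt B P η) → ∀ D, η D = 0

/-- **Images without forms factor through the covering.** -/
theorem cov_gz {n : ℕ} [Algebra.EssFiniteType ℂ K] (hK : Algebra.trdeg ℂ K = (n : ℕ))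
    {E : IntermediateField ℂ K} (hE : E = ⨆ i, F i)
    {H : ∀ i, Set (F i)} {g : Fin k → ℕ}
    (hsep : ∀ (Ω : Type) [Field Ω] [Algebra ℂ Ω] [IsAlgClosed Ω] (i : Fin k),
      Sep (ev Ω F i) (H i) (g i))
    (hd : ∀ i : Fin k, finrank (MF F L (Js k i)) (IntermediateField.adjoin
      (MF F L (Js k i)) (F i : Set K)) < g i)
    {BK : Place ℂ K → Prop} {BL1 : Place ℂ L → Prop}
    (hB : ∀ (P : Place ℂ L) (Q : Place ℂ K) (e : ℕ), Over Q P e → BK Q → BL1 P)
    {J : Type} {ω : J → (Fin n → Derivation ℂ K K) → K} (hpl : ∀ j, IsPluri 1 (ω j))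
    (hω : ∀ j (s : ∀ i, F i), (∀ i, s i ∈ H i) → ∀ Q, Divisorial n Q →
      SecAt BK Q (fun D => (∏ i, algebraMap (F i) K (s i)) * ω j D))
    (htr : ∀ M : IntermediateField ℂ K, E < M → ∃ j, TraceNe (ω j) M)
    (hno : NoForms L n BL1) : ∀ f : L, algebraMap L K f ∈ E := by
  by_contra hfac
  have hL : Algebra.trdeg ℂ L = (n : ℕ) := Pool.Agent.Y184.NT.trdeg_below (K := K) hK
  have hessL : Algebra.EssFiniteType ℂ L := Pool.Agent.TH466.QG.ess_below (K := K)
  obtain ⟨y, G, hy, hG⟩ := Pool.Agent.Y172.exists_crd hL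
  choose G' hG' using fun i => Pool.Agent.Y172.exists_lift (L := K) hL (G i)
  have hyK : IsTranscendenceBasis ℂ (fun j => algebraMap L K (y j)) := hy.algebraMap_comp
  have hGK := Pool.Agent.Y172.lift_dual hG hG'
  obtain ⟨w, hw⟩ : ∃ w : J → K, ∀ j, w j = ω j G' := ⟨fun j => ω j G', fun _ => rfl⟩
  have hθE : ∀ t, trForm y t G = t := by
    intro t
    have h1 : (Matrix.of fun i j => G i (y j) :
        Matrix (Fin n) (Fin n) L) = 1 := by
      ext i j
      rw [Matrix.of_apply, hG, Matrix.one_apply]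
    rw [trForm, h1, Matrix.det_one, one_mul]
  have hT0 : ∀ j (f : ∀ i, F i), (∀ i, f i ∈ H i) →
      Algebra.trace L K (w j * ∏ i, algebraMap (F i) K (f i)) = 0 := by
    intro j f hf
    have h1 : ∀ P : Place ℂ L, Divisorial n P → SecAt BL1 P
        (trForm y (Algebra.trace L K (w j * ∏ i, algebraMap (F i) K (f i)))) := by
      intro P hP
      have h1 := Pool.Agent.R882.LT.trForm_sec (BK := BK) (BL := BL1) hL hy hG hG'
        (fun D => (∏ i, algebraMap (F i) K (f i)) * ω j D) (by
          intro A D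
          change _ * ω j _ = _ * (_ * ω j D)
          rw [hpl j A D]
          ring) hB
        (fun Q hQ => hω j f hf Q hQ) P hP
      rw [mul_comm, hw]
      exact h1
    have h2 := hno _ (trForm_pluri y _) h1 G
    rwa [hθE] at h2
  obtain ⟨τ0⟩ : Nonempty (K →ₐ[L] AlgebraicClosure L) :=
    ⟨IsAlgClosed.lift (R := L) (M := AlgebraicClosure L) (S := K)⟩
  have hT' : IsScalarTower ℂ L (AlgebraicClosure L) := inferInstance
  have hJs : Js k k = Finset.univ := by
    ext l
    rw [mem_Js]
    exact ⟨fun _ => Finset.mem_univ _, fun _ => l.2⟩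
  have hle : E ≤ (MF F L Finset.univ).restrictScalars ℂ := by
    rw [hE]
    refine iSup_le fun i z hz => ?_
    rw [IntermediateField.mem_restrictScalars]
    exact mem_MJ (E := fun i => F i) _ (Finset.mem_univ i) ⟨z, hz⟩
  obtain ⟨j0, hj0⟩ : ∃ j, Algebra.trace (MF F L Finset.univ) K (w j) ≠ 0 := by
    by_contra hcon
    push Not at hcon
    have hlt : E < (MF F L Finset.univ).restrictScalars ℂ := by
      refine lt_of_le_of_ne hle fun h => hfac fun f => ?_
      rw [h]
      exact (MF F L Finset.univ).algebraMap_mem f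
    obtain ⟨j, D, D', hD, htrj⟩ := htr _ hlt
    obtain ⟨d1, hd1⟩ : ∃ d1, d1 = (Matrix.of fun i l => D' i (algebraMap L K (y l)) :
      Matrix (Fin n) (Fin n) K).det := ⟨_, rfl⟩
    have hd1M : d1 ∈ MF F L Finset.univ := by
      rw [hd1, Matrix.det_apply]
      refine sum_mem fun σ _ => ?_
      rw [Units.smul_def, zsmul_eq_mul]
      refine mul_mem (intCast_mem _ _) (prod_mem fun j _ => ?_)
      rw [Matrix.of_apply]
      have h3 : algebraMap L K (y j) ∈ (MF F L Finset.univ).restrictScalars ℂ :=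
        (MF F L Finset.univ).algebraMap_mem _
      have h4 := hD (σ j) ⟨_, h3⟩
      change D' (σ j) (algebraMap L K (y j)) ∈ MF F L Finset.univ
      have h5 : D' (σ j) (algebraMap L K (y j)) = ((D (σ j) ⟨_, h3⟩ :
        ((MF F L Finset.univ).restrictScalars ℂ : IntermediateField ℂ K)) : K) := h4
      rw [h5]
      exact (D (σ j) ⟨_, h3⟩).2
    apply htrj
    have h6 : Algebra.trace (MF F L Finset.univ) K (ω j D') = 0 := by
      rw [Pool.Agent.Y172.pluri_coord hyK hGK (hpl j) D', pow_one, ← hd1, ← hw]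
      have h1 : d1 * w j = (⟨d1, hd1M⟩ : MF F L Finset.univ) • w j := rfl
      rw [h1, map_smul, hcon j, smul_zero]
    exact h6
  have h0 := Ch.rel_zero (F := F) (H := H) (h := w j0) (fun f hf => hT0 j0 f hf) τ0
  have h1 := Rl.chain h0 (hsep (AlgebraicClosure L)) (s := k) (fun l _ =>
    lt_of_le_of_lt (Ch.count_le τ0 _ _) (hd l))
  rw [hJs] at h1
  exact hj0 (rel_univ_tr h1)

/-- **Images which are not of log general type factor through the covering.** -/
theorem cov_gt {n : ℕ} [Algebra.EssFiniteType ℂ K] (hK : Algebra.trdeg ℂ K = (n : ℕ))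
    {E : IntermediateField ℂ K} (hE : E = ⨆ i, F i) [FiniteDimensional E K]
    {H : ∀ i, Set (F i)} {g : Fin k → ℕ}
    (hsep : ∀ (Ω : Type) [Field Ω] [Algebra ℂ Ω] [IsAlgClosed Ω] (i : Fin k),
      Sep (ev Ω F i) (H i) (g i))
    (hd : ∀ i : Fin k, 2 * finrank (MF F L (Js k i)) (IntermediateField.adjoin
      (MF F L (Js k i)) (F i : Set K)) < g i)
    {BK : Place ℂ K → Prop} {BL1 : Place ℂ L → Prop}
    (hB : ∀ (P : Place ℂ L) (Q : Place ℂ K) (e : ℕ), Over Q P e → BK Q → BL1 P)
    {J : Type} {ω : J → (Fin n → Derivation ℂ K K) → K} (hpl : ∀ j, IsPluri 1 (ω j))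
    (hω : ∀ j (s : ∀ i, F i), (∀ i, s i ∈ H i) → ∀ Q, Divisorial n Q →
      SecAt BK Q (fun D => (∏ i, algebraMap (F i) K (s i)) * ω j D))
    (htr : ∀ M : IntermediateField ℂ K, E < M → ∃ j, TraceNe (ω j) M)
    (hno : ¬ LogGeneralType ℂ L n BL1) : ∀ f : L, algebraMap L K f ∈ E := by
  have hL : Algebra.trdeg ℂ L = (n : ℕ) := Pool.Agent.Y184.NT.trdeg_below (K := K) hK
  have hessL : Algebra.EssFiniteType ℂ L := Pool.Agent.TH466.QG.ess_below (K := K)
  rcases cov_core (L := L) (BL1 := BL1) hK hE hsep hd hB hpl hω htr with h |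
    ⟨z, G, ι, T, hG, hT0, hreg, x', hx', halg⟩
  · exact h
  exfalso
  obtain ⟨s, hs0, hs⟩ := Pool.Agent.R882.LT.exists_ratios_d (d := n) hL
    (Pool.Agent.N145.PC.trdeg_adj hx') T hT0
    fun D h1 D' h2 j => der_alg2 (Rt T) D' (fun c hc => by
      rw [h2, der_ratio T D h1 c hc, map_zero]) (halg j)
  have hθE : ∀ t, trForm z t G = t := by
    intro t
    have h1 : (Matrix.of fun i j => G i (z j) :
        Matrix (Fin n) (Fin n) L) = 1 := by
      ext i j
      rw [Matrix.of_apply, hG, Matrix.one_apply]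
    rw [trForm, h1, Matrix.det_one, one_mul]
  refine hno ⟨hL, 1, one_pos, fun l => trForm z (T (s l)), fun l => trForm_pluri z _,
    fun P hP l => (hreg (s l) P hP).1, fun P hP hB l => (hreg (s l) P hP).2 hB, G, ?_, ?_⟩
  · change trForm z (T (s 0)) G ≠ 0
    rw [hθE]
    exact hs0
  · simp only [hθE]
    exact hs

end

/-- The place `w` of `K` lies over the place `v` of `E`. -/
def AboveP {K E : Type} [Field K] [Field E] [Algebra ℂ K] [Algebra ℂ E] [Algebra E K]
    (w : Place ℂ K) (v : Place ℂ E) : Prop :=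
  ∃ e : ℕ, 0 < e ∧ ∀ f : E, w.ord (algebraMap E K f) = e * v.ord f

/-- separation of points, for sets of functions -/
def SepPts {E : Type} [Field E] [Algebra ℂ E] (H : Set E) (r : ℕ) : Prop :=
  ∀ (Ω : Type) [Field Ω] [Algebra ℂ Ω] [IsAlgClosed Ω] (A : Finset (E →ₐ[ℂ] Ω)), A.card ≤ r →
    ∀ c : (E →ₐ[ℂ] Ω) → Ω, (∀ s ∈ H, ∑ σ ∈ A, c σ * σ s = 0) → ∀ σ ∈ A, c σ = 0

/-- the forms of one step of a tower -/
def StepForms (n : ℕ) {K : Type} [Field K] [Algebra ℂ K] (B : Place ℂ K → Prop)
    (E : IntermediateField ℂ K) (r : ℕ) : Prop :=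
  ∃ (k : ℕ) (F : Fin k → IntermediateField ℂ K) (H : ∀ i, Set (F i)) (J : Type)
    (ω : J → (Fin n → Derivation ℂ K K) → K),
    E = ⨆ i, F i ∧ (∀ i, SepPts (H i) r) ∧ (∀ j, IsPluri 1 (ω j)) ∧
    (∀ j (s : ∀ i, F i), (∀ i, s i ∈ H i) → ∀ Q, Divisorial n Q →
      SecAt B Q (fun D => (∏ i, algebraMap (F i) K (s i)) * ω j D)) ∧
    ∀ M : IntermediateField ℂ K, E < M → ∃ j, TraceNe (ω j) M

/-- towers of generically finite covers of open varieties -/
inductive CTower (n : ℕ)
    (Base : ∀ (K : Type) [Field K] [Algebra ℂ K], (Place ℂ K → Prop) → Prop) :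
    ∀ (K : Type) [Field K] [Algebra ℂ K], (Place ℂ K → Prop) → ℕ → Prop
  | base {K : Type} [Field K] [Algebra ℂ K] {B : Place ℂ K → Prop} {s : ℕ} (h : Base K B) :
      CTower n Base K B s
  | cover {K : Type} [Field K] [Algebra ℂ K] {B : Place ℂ K → Prop} {s : ℕ}
      (E : IntermediateField ℂ K) (C : Place ℂ E → Prop) (fin : FiniteDimensional E K)
      (proper : ∀ (w : Place ℂ K) (v : Place ℂ E), AboveP w v → (B w ↔ C v))
      (forms : StepForms n B E s) (below : CTower n Base E C (s / finrank E K)) :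
      CTower n Base K B s

theorem SepPts.sep {K : Type} [Field K] [Algebra ℂ K] {k : ℕ} {F : Fin k → IntermediateField ℂ K}
    {H : ∀ i, Set (F i)} {r : ℕ} (h : ∀ i, SepPts (H i) r) (Ω : Type) [Field Ω] [Algebra ℂ Ω]
    [IsAlgClosed Ω] (i : Fin k) : Sep (ev Ω F i) (H i) (r + 1) :=
  fun A hA c hc => h i Ω A (by omega) c hc

/-- **Images of towers.** -/
theorem ctower_aux {n : ℕ}
    {Base : ∀ (K : Type) [Field K] [Algebra ℂ K], (Place ℂ K → Prop) → Prop}
    (hB : ∀ (K : Type) [Field K] [Algebra ℂ K] (B : Place ℂ K → Prop) (L : Type) [Field L]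
      [Algebra ℂ L] [Algebra L K] [IsScalarTower ℂ L K] [FiniteDimensional L K]
      (C : Place ℂ L → Prop), (∀ (w : Place ℂ K) (v : Place ℂ L), AboveP w v → (B w ↔ C v)) →
      Base K B → Base L C)
    {K : Type} [i1 : Field K] [i2 : Algebra ℂ K] {B : Place ℂ K → Prop} {s : ℕ}
    (h : CTower n Base K B s) : Algebra.EssFiniteType ℂ K → Algebra.trdeg ℂ K = (n : ℕ) →
    ∀ (L : Type) [Field L] [Algebra ℂ L] [Algebra L K] [IsScalarTower ℂ L K]
      [FiniteDimensional L K] (C : Place ℂ L → Prop),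
      (∀ (w : Place ℂ K) (v : Place ℂ L), AboveP w v → (B w ↔ C v)) →
      (s = finrank L K → NoForms L n C → Base L C) ∧
      (s = 2 * finrank L K → ¬ LogGeneralType ℂ L n C → Base L C) := by
  induction h with
  | @base K _ _ B s h =>
    intro _ _ L _ _ _ _ _ C hC
    exact ⟨fun _ _ => hB K B L C hC h, fun _ _ => hB K B L C hC h⟩
  | @cover K _ _ B s E CE fin proper forms below ih =>
    intro hess hK L _ _ _ _ _ C hC
    obtain ⟨k, F, H, J, ω, hE, hsep, hpl, hω, htr⟩ := forms
    have hessE : Algebra.EssFiniteType ℂ E := Pool.Agent.TH466.QG.ess_below (K := K)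
    have hp : Algebra.trdeg ℂ E = (n : ℕ) := Pool.Agent.Y184.NT.trdeg_below (K := K) hK
    have hBB : ∀ (P : Place ℂ L) (Q : Place ℂ K) (e : ℕ), Over Q P e → B Q → C P :=
      fun P Q e h1 h2 => (hC Q P ⟨e, h1.1, h1.2⟩).1 h2
    have hb : 0 < finrank E K := Module.finrank_pos
    have down : ∀ t : ℕ, (∀ f : L, algebraMap L K f ∈ E) →
        ∃ (i3 : Algebra L E) (i4 : IsScalarTower ℂ L E) (i5 : FiniteDimensional L E),
          (∀ (w : Place ℂ E) (v : Place ℂ L), AboveP w v → (CE w ↔ C v)) ∧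
          (s = t * finrank L K → s / finrank E K = t * finrank L E) := by
      intro t hfac
      let φ : L →ₐ[ℂ] E :=
        { toFun := fun f => ⟨algebraMap L K f, hfac f⟩
          map_one' := Subtype.ext (map_one _)
          map_mul' := fun f g => Subtype.ext (map_mul _ _ _)
          map_zero' := Subtype.ext (map_zero _)
          map_add' := fun f g => Subtype.ext (map_add _ _ _)
          commutes' := fun c => Subtype.ext (IsScalarTower.algebraMap_apply ℂ L K c).symm }
      let _ : Algebra L E := φ.toRingHom.toAlgebra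
      have t1 : IsScalarTower ℂ L E := IsScalarTower.of_algebraMap_eq fun c => (φ.commutes c).symm
      have t2 : IsScalarTower L E K := IsScalarTower.of_algebraMap_eq fun c => rfl
      have hfd : FiniteDimensional L E :=
        FiniteDimensional.of_injective (IsScalarTower.toAlgHom L E K).toLinearMap
          Subtype.val_injective
      refine ⟨inferInstance, t1, hfd, fun Q P hQP => ?_, fun hs => ?_⟩
      · obtain ⟨R, f, hR⟩ := Pool.Agent.Y172.exists_above (L := K) Q
        rw [← proper R Q ⟨f, hR.1, hR.2⟩]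
        obtain ⟨e, he0, he⟩ := hQP
        have h3 := Pool.Agent.R882.LT.over_trans (⟨he0, he⟩ : Over Q P e) hR
        exact hC R P ⟨_, h3.1, h3.2⟩
      · rw [hs, ← Module.finrank_mul_finrank L E K, ← mul_assoc, Nat.mul_div_cancel _ hb]
    constructor
    · intro hs hno
      have hfac : ∀ f : L, algebraMap L K f ∈ E :=
        cov_gz (F := F) (g := fun _ => s + 1) hK hE (fun Ω _ _ _ i => SepPts.sep hsep Ω i)
          (fun i => by
            have := deg_le (F := F) (L := L) i
            change _ < s + 1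
            omega) hBB hpl hω htr hno
      obtain ⟨i3, i4, i5, h3, h4⟩ := down 1 hfac
      exact (ih hessE hp L C h3).1 (by
        rw [h4 (by rw [one_mul]; exact hs), one_mul]) hno
    · intro hs hno
      have hfac : ∀ f : L, algebraMap L K f ∈ E :=
        cov_gt (F := F) (g := fun _ => s + 1) hK hE (fun Ω _ _ _ i => SepPts.sep hsep Ω i)
          (fun i => by
            have := deg_le (F := F) (L := L) i
            change _ < s + 1
            omega) hBB hpl hω htr hno
      obtain ⟨i3, i4, i5, h3, h4⟩ := down 2 hfac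
      exact (ih hessE hp L C h3).2 (h4 hs) hno

end Pool.Agent.L5helper25
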